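import Pool.Agent.Lib.MP_651af7_nt.Av.EAd
import Pool.Agent.Lib.MP_651af7_nt.Av.Ht
import Pool.Agent.Lib.MP_8865d3_nt.Sv.Sz

/-! The cone over an abelian variety: vocabulary. -/

namespace Pool.Agent.Lib.MP_651af7_nt.Cn

open MvPolynomial Finset Height Filter
open Pool.Agent.Lib.MP_651af7_nt.Av Pool.Agent.Lib.MP_651af7_nt.Vj
open Pool.Agent.Lib.MP_8865d3_nt.Sv (osum isum)

/-- The point `(1, v)` of the projective cone. -/
def pt {R ι : Type} [One R] (v : ι → R) : Option ι → R := fun a => a.elim 1 v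

@[simp] theorem pt_none {R ι : Type} [One R] (v : ι → R) : pt v none = 1 := rfl

@[simp] theorem pt_some {R ι : Type} [One R] (v : ι → R) (a : ι) : pt v (some a) = v a := rfl

/-- The ideal spanned by the forms over `K` that vanish at `x`. -/
noncomputable def hid (K : Type) {E κ : Type} [Field K] [Field E] [Algebra K E] (x : κ → E) :
    Ideal (MvPolynomial κ K) :=
  Ideal.span {f | (∃ n, f.IsHomogeneous n) ∧ aeval x f = 0}

section loc

variable {k ι : Type} [Field k]

/-- The logarithm of the norm. -/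
noncomputable def ell (w : AbsoluteValue k ℝ) (v : ι → k) : ℝ := Real.log (nm w v)

/-- The local height of the subscheme cut out by polynomials with degrees in `[a, b]`. -/
noncomputable def mv {L : Type} (a b : ℕ) (G : L → MvPolynomial ι k) (v : ι → k)
    (w : AbsoluteValue k ℝ) : ℝ :=
  a * ell w v + ((b : ℝ) - a) * max 0 (ell w v) - Real.log (nm w fun l => eval v (G l))

/-- All monomials have degree in `[a, b]`. -/
def Rng (a b : ℕ) (G : MvPolynomial ι k) : Prop := ∀ μ ∈ G.support, a ≤ μ.degree ∧ μ.degree ≤ b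

/-- The marked forms are small at `x`, the gain being distributed according to `μ`. -/
def BadM {κ : Type} {r : ℕ} (μ : AbsoluteValue k ℝ → ℝ) (mk : Finset (Fin (r + 1))) (e : ℕ)
    (s : ℝ) (u : Fin (r + 1) → MvPolynomial κ k) (x : κ → k) : Prop :=
  ∀ w : AbsoluteValue k ℝ, ∀ l ∈ mk,
    w (eval x (u l)) ≤ max 1 (pl w (u l)) * Real.exp (-(s * μ w)) * nm w x ^ e

variable [NumberField k]

/-- A distribution of total mass one outside `T`. -/
structure Prob (T : Finset (AbsoluteValue k ℝ)) (μ : AbsoluteValue k ℝ → ℝ) : Prop where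
  nn : ∀ w, 0 ≤ μ w
  fin : FinS μ
  sum : gsum μ = 1
  zero : ∀ w ∈ T, μ w = 0

/-- The distance from being primitive outside `T`. -/
noncomputable def cnt (T : Finset (AbsoluteValue k ℝ)) (v : ι → k) : ℝ :=
  osum T fun w => |ell w v|

variable [Fintype ι]

/-- The height on the projective cone. -/
noncomputable def hc (v : ι → k) : ℝ := logHeight (pt v)

/-- `(Q, v')` is close to `(2 ^ j • P, dbn v j)`. -/
structure Near (A : AV k ι) (θ : ℝ) (j : ℕ) (P Q : A.Pt k) (v v' : ι → k) : Prop where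
  par : 2 * (AV.ht Q + 4 ^ j * AV.ht P) ≤ AV.ht (Q + 2 ^ j • P) + θ * hc v'
  loc : gsum (fun w => |ell w v' - 4 ^ j * ell w v|) ≤ θ * hc v'
  le : hc v' ≤ 2 * (4 ^ j * hc v)
  ge : 4 ^ j * hc v ≤ 2 * hc v'

end loc

/-- The data attached to one point of the cone. -/
structure Blk {k ι : Type} [Field k] (A : AV k ι) (g ρ : ℕ) where
  /-- the point of the abelian variety -/
  P : A.Pt k
  /-- the point of the cone -/
  v : ι → k
  /-- the translation -/
  s : A.Pt k
  /-- its coordinates -/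
  sv : ι → k
  /-- the chart -/
  C : Chart k (Option ι) (g + 1)
  /-- equations of the cone over the coset -/
  J : Ideal (MvPolynomial (Option ι) k)
  /-- the parameters -/
  u : Fin (g + 1 + 1) → MvPolynomial (Option ι) k
  /-- the coefficients of the monic equations -/
  c : Option ι → Fin ρ → MvPolynomial (Fin (g + 1 + 1)) k

namespace Blk

variable {k ι : Type} [Field k] {A : AV k ι} {g ρ : ℕ} (b : Blk A g ρ)

/-- The point lies on the cone over a coset of `B`, and the chart is a chart of this cone. -/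
structure Geom (B : AV k ι) : Prop where
  rep : AV.Rep b.P b.v
  reps : AV.Rep b.s b.sv
  a₀ : b.C.a₀ = none
  atx : b.C.At (pt b.v)
  on : b.C.On b.J (pt b.v)
  le : ∀ f ∈ A.I, rename some f ∈ b.J
  cos : ∀ f ∈ B.I, ∀ a, aeval (fun c => A.ph a c (fun d => (X (some d) : MvPolynomial (Option ι) k))
    fun d => MvPolynomial.C (b.sv d)) f ∈ b.J

variable [NumberField k] [Fintype ι]

/-- The data are small. -/
structure Good (B : AV k ι) (B₀ e : ℕ) (ε : ℝ) : Prop extends b.Geom B where
  nn : NN b.J e ρ b.u b.c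
  smφ : ∀ a, SmallP B₀ (ε * hc b.v) (b.C.φ a)
  smu : ∀ i, SmallP B₀ (ε * hc b.v) (b.u i)
  smc : ∀ a l, SmallP B₀ (ε * hc b.v) (b.c a l)

/-- The point lies on a small hypersurface in the coordinates of the chart. -/
def Exit (B' : ℕ) (s : ℝ) : Prop :=
  ∃ q : MvPolynomial (Fin (g + 1)) ℚ, q ≠ 0 ∧ Pool.Agent.Lib.Common.Subspace.IsInt q ∧
    (∀ μ ∈ q.support, ∀ j, μ j ≤ B') ∧ Pool.Agent.Lib.Common.Subspace.len q ≤ Real.exp s ∧
    aeval (fun j => pt b.v (b.C.I j)) q = 0

end Blk

section basic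

variable {k ι : Type} [Field k] [Fintype ι]

theorem pt_ne (v : ι → k) : pt v ≠ 0 := fun h => one_ne_zero (congrFun h none)

theorem nm_pt (w : AbsoluteValue k ℝ) (v : ι → k) : nm w (pt v) = max 1 (nm w v) := by
  refine le_antisymm ?_ (max_le (by simpa using le_nm w (pt v) none) ?_)
  · obtain ⟨a, ha⟩ := exists_nm w (pt v)
    rw [← ha]
    cases a with
    | none => simp
    | some a => exact (le_nm w v a).trans (le_max_right _ _)
  · rcases isEmpty_or_nonempty ι with h | h
    · exact (show nm w v = 0 by simp [nm]).trans_le (nm_nn w (pt v))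
    · obtain ⟨a, ha⟩ := exists_nm w v
      exact ha ▸ le_nm w (pt v) (some a)

theorem log_nm_pt (w : AbsoluteValue k ℝ) {v : ι → k} (hv : v ≠ 0) :
    Real.log (nm w (pt v)) = max 0 (ell w v) := by
  rw [nm_pt, ell]
  rcases le_total 1 (nm w v) with h | h
  · rw [max_eq_right h, max_eq_right (Real.log_nonneg h)]
  · rw [max_eq_left h, max_eq_left (Real.log_nonpos (nm_pos w hv).le h), Real.log_one]

theorem exp_ell (w : AbsoluteValue k ℝ) {v : ι → k} (hv : v ≠ 0) : Real.exp (ell w v) = nm w v :=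
  Real.exp_log (nm_pos w hv)

theorem rep_ne {A : AV k ι} {P : A.Pt k} {v : ι → k} (h : AV.Rep P v) : v ≠ 0 := fun h0 => by
  obtain ⟨a, ha⟩ := h.unit
  exact ha.ne_zero (congrFun h0 a)

variable [NumberField k]

theorem finS_ell (v : ι → k) : FinS fun w => ell w v := finS_nm v

theorem finS_pos {v : ι → k} (hv : v ≠ 0) : FinS fun w => max 0 (ell w v) := by
  simpa only [log_nm_pt _ hv] using finS_nm (pt v)

theorem gsum_ell {v : ι → k} (hv : v ≠ 0) : gsum (fun w => ell w v) = logHeight v := gsum_nm hv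

theorem gsum_pos {v : ι → k} (hv : v ≠ 0) : gsum (fun w => max 0 (ell w v)) = hc v := by
  simpa only [log_nm_pt _ hv, hc] using gsum_nm (pt_ne v)

theorem hc_nonneg (v : ι → k) : 0 ≤ hc v := logHeight_nonneg _

theorem ht_le_hc {v : ι → k} (hv : v ≠ 0) : logHeight v ≤ hc v := by
  rw [← gsum_ell hv, ← gsum_pos hv]
  exact gsum_mono (finS_ell v) (finS_pos hv) fun _ _ => le_max_right _ _

theorem cnt_nonneg (T : Finset (AbsoluteValue k ℝ)) (v : ι → k) : 0 ≤ cnt T v :=
  Pool.Agent.Lib.MP_8865d3_nt.Sv.osum_nonneg T fun _ _ _ => abs_nonneg _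

end basic

end Pool.Agent.Lib.MP_651af7_nt.Cn
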