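import Pool.Agent.Lib.MP_651af7_nt.Cn.ECfg

/-! Engine: the arms, definitions. -/

namespace Pool.Agent.Lib.MP_651af7_nt.Cn

open MvPolynomial Finset
open Pool.Agent.Lib.MP_651af7_nt.Av

/-- Exponents of a basic section. -/
abbrev Tm (g q n : ℕ) : Type := Bx g (q ^ 2 * n) × Fin (n + 1) × Fin (q + 1)

/-- The degree in the difference. -/
def DY (g q n : ℕ) : ℕ := g * (q ^ 2 * n) + q * (q + 1) * n

/-- The degree in the arm. -/
def dA (g q n : ℕ) : ℕ := 2 * DY g q n + 2 * q * n + q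

/-- The degree in the centre. -/
def dC (g q n j : ℕ) : ℕ := 4 ^ j * (2 * DY g q n + q * n)

section

variable {k ι R R' : Type} [Field k] [CommRing R] [Algebra k R] [CommRing R'] [Algebra k R']
  (A : AV k ι) {g : ℕ}

/-- Coordinates of `p + 2 ^ σ • Y` in the presentation `(b, c)`. -/
noncomputable def far (b c : ι) (v Y : ι → R) : ℕ → ι → R
  | 0 => fun d => A.ph d b v Y
  | σ + 1 => fun d => A.ph d c (far b c v Y σ) (A.dbn Y σ)

/-- A basic section, as a function of `t₀`, of coordinates `y` of `2 ^ j • p₀` and of `(t, v)`. -/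
noncomputable def arm' (σ n : ℕ) (fr : Fin (g + 1) → ι) (k₀ k₂ : ι) (a : ι × ι × ι)
    (τ : Tm g (2 ^ σ) n) (t₀ : R) (y : ι → R) (t : R) (v : ι → R) : R :=
  bx (fun l => A.ph a.1 (fr l) v y) τ.1 *
    (far A a.2.1 a.2.2 v (fun b => A.ph a.1 b v y) σ k₀ * t₀ ^ 2 ^ σ) ^ (τ.2.1 : ℕ) *
    (A.ph a.1 (fr 0) v y ^ (2 ^ σ * (2 ^ σ + 1)) * y a.2.1 ^ 2 ^ σ * v a.2.2 ^ (2 ^ σ - 1) *
      t ^ (2 ^ σ + 1)) ^ (n - (τ.2.1 : ℕ)) *
    (v k₂ ^ (τ.2.2 : ℕ) * t ^ (2 ^ σ - (τ.2.2 : ℕ)))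

/-- A basic section as a function of the centre `x₀` and the arm `x`. -/
noncomputable def arm (σ j n : ℕ) (fr : Fin (g + 1) → ι) (k₀ k₂ : ι) (a : ι × ι × ι)
    (τ : Tm g (2 ^ σ) n) (x₀ x : Option ι → R) : R :=
  arm' A σ n fr k₀ k₂ a τ (x₀ none ^ 4 ^ j) (A.dbn (fun c => x₀ (some c)) j) (x none)
    fun c => x (some c)

theorem map_far (f : R →ₐ[k] R') (b c : ι) (v Y : ι → R) (σ : ℕ) (d : ι) :
    f (far A b c v Y σ d) = far A b c (fun a => f (v a)) (fun a => f (Y a)) σ d := by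
  induction σ generalizing d with
  | zero => exact A.map_ph f _ _ _ _
  | succ σ ih => simp only [far, AV.map_ph, AV.map_dbn, ih]

theorem map_arm (f : R →ₐ[k] R') (σ j n : ℕ) (fr : Fin (g + 1) → ι) (k₀ k₂ : ι) (a : ι × ι × ι)
    (τ : Tm g (2 ^ σ) n) (x₀ x : Option ι → R) :
    f (arm A σ j n fr k₀ k₂ a τ x₀ x) =
      arm A σ j n fr k₀ k₂ a τ (fun c => f (x₀ c)) fun c => f (x c) := by
  simp only [arm, arm', bx, map_mul, map_prod, map_pow, map_far, AV.map_ph, AV.map_dbn]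

end

section

variable {k ι β : Type} [Field k] {A : AV k ι} {g ρ m : ℕ}

/-- The configuration attached to the blocks `b`. -/
noncomputable def cfg (σ n₀ : ℕ) (n j : Fin m × β → ℕ) (fr : Fin m × β → Fin (g + 1) → ι)
    (k₀ k₂ : Fin m × β → ι) (b : Option (Fin m × β) → Blk A g ρ)
    (rd : Option (Fin m × β) → (Option ι →₀ ℕ) → MvPolynomial (Fin (g + 1 + 1) ⊕ Option ι) k) :
    Cfg k (Option ι) (ι × ι × ι) β (g + 1) m fun i => Tm g (2 ^ σ) (n i) where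
  n₀ := n₀
  wt i := 4 ^ j i
  q₀ := Fin.cons none (b none).C.I
  E i a τ := arm A σ (j i) (n i) (fr i) (k₀ i) (k₂ i) a τ (fun c => X (.inl c)) fun c => X (.inr c)
  dc i := dC g (2 ^ σ) (n i) (j i)
  da i := dA g (2 ^ σ) (n i)
  J o := (b o).J
  u o := (b o).u
  rd := rd

theorem cfg_ev {σ n₀ : ℕ} {n j : Fin m × β → ℕ} {fr : Fin m × β → Fin (g + 1) → ι}
    {k₀ k₂ : Fin m × β → ι} {b : Option (Fin m × β) → Blk A g ρ}
    {rd : Option (Fin m × β) → (Option ι →₀ ℕ) → MvPolynomial (Fin (g + 1 + 1) ⊕ Option ι) k}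
    {R : Type} [CommRing R] [Algebra k R] (i : Fin m × β) (a : ι × ι × ι)
    (τ : Tm g (2 ^ σ) (n i)) (x₀ x : Option ι → R) :
    (cfg σ n₀ n j fr k₀ k₂ b rd).ev i a τ x₀ x =
      arm A σ (j i) (n i) (fr i) (k₀ i) (k₂ i) a τ x₀ x := by
  have h := map_arm A (aeval (Sum.elim x₀ x) : MvPolynomial (Option ι ⊕ Option ι) k →ₐ[k] R) σ
    (j i) (n i) (fr i) (k₀ i) (k₂ i) a τ (fun c => X (.inl c)) fun c => X (.inr c)
  simp only [aeval_X, Sum.elim_inl, Sum.elim_inr] at h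
  exact h

end

end Pool.Agent.Lib.MP_651af7_nt.Cn
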