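import Pool.Agent.Lib.MP_651af7_nt.Cn.EArm
import Pool.Agent.Lib.MP_651af7_nt.Av.EJc

/-! Engine: degrees and sizes of the arms. -/

namespace Pool.Agent.Lib.MP_651af7_nt.Cn

open MvPolynomial Finset
open Pool.Agent.Lib.MP_651af7_nt.Av

variable {k ι R : Type} [Field k] [Fintype ι] [CommRing R] [Algebra k R] {A : AV k ι} {g : ℕ}

section hom

variable {σ' M : Type} [AddCommMonoid M] {w : σ' → M}

omit [Fintype ι] in
lemma ebd_ph_hom {x y : ι → MvPolynomial σ' k} {d e : M}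
    (hx : ∀ c, (x c).IsWeightedHomogeneous w d) (hy : ∀ c, (y c).IsWeightedHomogeneous w e)
    (a b : ι) : (A.ph a b x y).IsWeightedHomogeneous w (2 • d + 2 • e) := by
  rw [AV.ph, aeval_def, eval₂_eq]
  refine IsWeightedHomogeneous.sum _ _ _ fun μ hμ => ?_
  have h := A.bih a b (mem_support_iff.mp hμ)
  rw [Finsupp.weight_apply, Finsupp.sum] at h
  have h1 : (∏ i ∈ μ.support, Sum.elim x y i ^ μ i).IsWeightedHomogeneous w
      (∑ i ∈ μ.support, ((μ i • bw ι ι i).1 • d + (μ i • bw ι ι i).2 • e)) :=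
    IsWeightedHomogeneous.prod _ _ _ fun i _ => by
      rcases i with c | c
      · simpa [bw] using (hx c).pow (μ (.inl c))
      · simpa [bw] using (hy c).pow (μ (.inr c))
  rw [sum_add_distrib, ← sum_smul, ← sum_smul, ← Prod.fst_sum, ← Prod.snd_sum, h] at h1
  have h2 := (isWeightedHomogeneous_C w (coeff μ (A.Φ a b))).mul h1
  rwa [zero_add] at h2

omit [Fintype ι] in
lemma ebd_dbn_hom {y : ι → MvPolynomial σ' k} {e : M}
    (hy : ∀ c, (y c).IsWeightedHomogeneous w e) (j : ℕ) (a : ι) :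
    (A.dbn y j a).IsWeightedHomogeneous w (4 ^ j • e) := by
  induction j generalizing a with
  | zero => simpa [AV.dbn] using hy a
  | succ j ih =>
    have h := ebd_ph_hom (A := A) ih ih a A.ao
    have h1 : 2 • 4 ^ j • e + 2 • 4 ^ j • e = 4 ^ (j + 1) • e := by
      rw [pow_succ]
      module
    rwa [h1] at h

omit [Fintype ι] in
lemma ebd_far_hom {x y : ι → MvPolynomial σ' k} {d e : M}
    (hx : ∀ c, (x c).IsWeightedHomogeneous w d) (hy : ∀ c, (y c).IsWeightedHomogeneous w e)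
    (b c : ι) (σ : ℕ) (a : ι) : (far A b c x y σ a).IsWeightedHomogeneous w
      ((2 * 2 ^ σ) • d + (2 ^ σ * (2 ^ σ + 1)) • e) := by
  induction σ generalizing a with
  | zero => simpa [far] using ebd_ph_hom (A := A) hx hy a b
  | succ σ ih =>
    have h := ebd_ph_hom (A := A) ih (ebd_dbn_hom (A := A) hy σ) a c
    have h4 : 4 ^ σ = 2 ^ σ * 2 ^ σ := Nat.mul_pow 2 2 σ
    have h1 : 2 • ((2 * 2 ^ σ) • d + (2 ^ σ * (2 ^ σ + 1)) • e) + 2 • 4 ^ σ • e =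
        (2 * 2 ^ (σ + 1)) • d + (2 ^ (σ + 1) * (2 ^ (σ + 1) + 1)) • e := by
      rw [h4, pow_succ]
      module
    rwa [h1] at h

lemma ebd_pp {f f' : MvPolynomial σ' k} {d : M} (hf : f.IsWeightedHomogeneous w d)
    (hf' : f'.IsWeightedHomogeneous w d) {i n : ℕ} (h : i ≤ n) :
    (f ^ i * f' ^ (n - i)).IsWeightedHomogeneous w (n • d) := by
  have h1 := (hf.pow i).mul (hf'.pow (n - i))
  rwa [← add_smul, Nat.add_sub_cancel' h] at h1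

lemma ebd_bx_hom {n : ℕ} {d : M} {Q : Fin (g + 1) → MvPolynomial σ' k}
    (h : ∀ l, (Q l).IsWeightedHomogeneous w d) (τ : Bx g n) :
    (bx Q τ).IsWeightedHomogeneous w ((g * n) • d) := by
  have h1 : (bx Q τ).IsWeightedHomogeneous w (∑ _l : Fin g, n • d) :=
    IsWeightedHomogeneous.prod _ _ _ fun l _ => ebd_pp (h l.succ) (h 0) (τ l).is_le
  rwa [sum_const, card_univ, Fintype.card_fin, ← mul_smul] at h1

omit [Fintype ι] in
lemma ebd_arm_hom {t₀ t : MvPolynomial σ' k} {y x : ι → MvPolynomial σ' k} {d e : M}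
    (h₀ : t₀.IsWeightedHomogeneous w e) (hy : ∀ c, (y c).IsWeightedHomogeneous w e)
    (ht : t.IsWeightedHomogeneous w d) (hx : ∀ c, (x c).IsWeightedHomogeneous w d)
    (σ n : ℕ) (fr : Fin (g + 1) → ι) (k₀ k₂ : ι) (a : ι × ι × ι) (τ : Tm g (2 ^ σ) n) :
    (arm' A σ n fr k₀ k₂ a τ t₀ y t x).IsWeightedHomogeneous w
      ((2 * DY g (2 ^ σ) n + 2 ^ σ * n) • e + dA g (2 ^ σ) n • d) := by
  have hp : ∀ b, (A.ph a.1 b x y).IsWeightedHomogeneous w (2 • d + 2 • e) :=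
    ebd_ph_hom hx hy a.1
  have h2 := (ebd_far_hom (A := A) hx hp a.2.1 a.2.2 σ k₀).mul (h₀.pow (2 ^ σ))
  have h3 := ((((hp (fr 0)).pow (2 ^ σ * (2 ^ σ + 1))).mul ((hy a.2.1).pow (2 ^ σ))).mul
    ((hx a.2.2).pow (2 ^ σ - 1))).mul (ht.pow (2 ^ σ + 1))
  have e3 : (2 ^ σ * (2 ^ σ + 1)) • (2 • d + 2 • e) + 2 ^ σ • e + (2 ^ σ - 1) • d +
      (2 ^ σ + 1) • d = (2 * 2 ^ σ) • d + (2 ^ σ * (2 ^ σ + 1)) • (2 • d + 2 • e) + 2 ^ σ • e := by
    obtain ⟨p, hq⟩ := Nat.exists_eq_add_of_le' (Nat.one_le_two_pow (n := σ))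
    rw [hq, Nat.add_sub_cancel]
    module
  rw [e3] at h3
  have h4 := ((ebd_bx_hom (fun l => hp (fr l)) τ.1).mul (ebd_pp h2 h3 τ.2.1.is_le)).mul
    (ebd_pp (hx k₂) ht τ.2.2.is_le)
  have e4 : (g * ((2 ^ σ) ^ 2 * n)) • (2 • d + 2 • e) + n • ((2 * 2 ^ σ) • d +
      (2 ^ σ * (2 ^ σ + 1)) • (2 • d + 2 • e) + 2 ^ σ • e) + 2 ^ σ • d =
      (2 * DY g (2 ^ σ) n + 2 ^ σ * n) • e + dA g (2 ^ σ) n • d := by
    rw [dA, DY]
    generalize 2 ^ σ = q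
    module
  rw [e4, ← mul_assoc (bx _ _)] at h4
  exact h4

end hom

/-- Sketch. `ph` of families of bidegrees `d`, `d'` has bidegree `2 d + 2 d'`; `dbn` multiplies by
`4 ^ j`; `far σ` has degree `2 q (q + 1) + 2 q` in the arm, `4 ^ j * 2 q (q + 1)` in the centre. -/
theorem arm_bih (σ j n : ℕ) (fr : Fin (g + 1) → ι) (k₀ k₂ : ι) (a : ι × ι × ι)
    (τ : Tm g (2 ^ σ) n) :
    (arm A σ j n fr k₀ k₂ a τ (fun c => X (.inl c)) fun c => X (.inr c) :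
      MvPolynomial (Option ι ⊕ Option ι) k).IsWeightedHomogeneous (bw (Option ι) (Option ι))
      (dC g (2 ^ σ) n j, dA g (2 ^ σ) n) := by
  have hl : ∀ c : Option ι, (X (.inl c) : MvPolynomial (Option ι ⊕ Option ι) k).IsWeightedHomogeneous
      (bw (Option ι) (Option ι)) (1, 0) := fun c => isWeightedHomogeneous_X k _ _
  have hr : ∀ c : Option ι, (X (.inr c) : MvPolynomial (Option ι ⊕ Option ι) k).IsWeightedHomogeneous
      (bw (Option ι) (Option ι)) (0, 1) := fun c => isWeightedHomogeneous_X k _ _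
  have h := ebd_arm_hom (A := A) ((hl none).pow (4 ^ j))
    (ebd_dbn_hom (A := A) (fun c => hl (some c)) j) (hr none) (fun c => hr (some c))
    σ n fr k₀ k₂ a τ
  have e : (2 * DY g (2 ^ σ) n + 2 ^ σ * n) • 4 ^ j • ((1, 0) : ℕ × ℕ) +
      dA g (2 ^ σ) n • ((0, 1) : ℕ × ℕ) = (dC g (2 ^ σ) n j, dA g (2 ^ σ) n) := by
    simp [dC, mul_comm]
  rw [e] at h
  exact h

theorem card_Tm_le (g q n : ℕ) (hq : 1 ≤ q) : Fintype.card (Tm g q n) ≤ 2 ^ dA g q n := by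
  rw [Fintype.card_prod, Fintype.card_prod, Fintype.card_fin, Fintype.card_fin]
  refine (Nat.mul_le_mul (card_Bx_le g _) (Nat.mul_le_mul (Nat.lt_two_pow_self (n := n))
    (Nat.lt_two_pow_self (n := q)))).trans ?_
  rw [← pow_add, ← pow_add]
  refine Nat.pow_le_pow_right two_pos ?_
  have h : 1 * n ≤ q * n := Nat.mul_le_mul_right n hq
  rw [dA, DY, mul_assoc 2 q n]
  omega

variable {v : AbsoluteValue k ℝ} {S : SN R (IsNonarchimedean v)}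

/-- Induction on `σ` with the exponent `2 * 4 ^ σ - 1` of `s`; `ph_le`, `dbn_le`. -/
theorem far_le (hS : S.Ov v) {s N Y : ℝ} (hs : Sz₀ A v s) {w y : ι → R} (hw : ∀ a, S.N (w a) ≤ N)
    (hy : ∀ a, S.N (y a) ≤ Y) (b c : ι) (σ : ℕ) (d : ι) :
    S.N (far A b c w y σ d) ≤ s ^ (2 * 4 ^ σ) * (N ^ (2 * 2 ^ σ) * Y ^ (2 ^ σ * (2 ^ σ + 1))) := by
  have h1 : 1 ≤ s := one_le_of_two hs.two
  have h0 : 0 < s := one_pos.trans_le h1
  have hY : 0 ≤ Y := (S.nonneg _).trans (hy d)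
  have hN : 0 ≤ N := (S.nonneg _).trans (hw d)
  have key : ∀ σ d, S.N (far A b c w y σ d) ≤
      s ^ (2 * 4 ^ σ) * (N ^ (2 * 2 ^ σ) * Y ^ (2 ^ σ * (2 ^ σ + 1))) / s := by
    intro σ
    induction σ with
    | zero =>
      refine fun d => (hS.ph_le hs hw hy d b).trans (le_of_eq ?_)
      rw [eq_div_iff h0.ne']
      ring
    | succ σ ih =>
      intro d
      refine (hS.ph_le hs ih (hS.dbn_le hs hy σ) d c).trans ?_
      have h4 : 4 ^ σ = 2 ^ σ * 2 ^ σ := Nat.mul_pow 2 2 σ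
      have e : s * ((s ^ (2 * 4 ^ σ) * (N ^ (2 * 2 ^ σ) * Y ^ (2 ^ σ * (2 ^ σ + 1))) / s) ^ 2 *
          ((s * Y) ^ 4 ^ σ) ^ 2) = s ^ (6 * 4 ^ σ) *
          (N ^ (2 * 2 ^ (σ + 1)) * Y ^ (2 ^ (σ + 1) * (2 ^ (σ + 1) + 1))) / s := by
        rw [h4, pow_succ 2 σ]
        generalize 2 ^ σ = q
        field_simp
        ring
      rw [e]
      refine div_le_div_of_nonneg_right (mul_le_mul_of_nonneg_right
        (pow_le_pow_right₀ h1 ?_) (by positivity)) h0.le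
      rw [pow_succ]
      omega
  exact (key σ d).trans (div_le_self (by positivity) h1)

omit [Algebra k R] in
lemma ebd_pp_le {f f' : R} {Z : ℝ} (hf : S.N f ≤ Z) (hf' : S.N f' ≤ Z) {i n : ℕ} (h : i ≤ n) :
    S.N (f ^ i * f' ^ (n - i)) ≤ Z ^ n := by
  have h1 := S.mul_le (S.pow_le hf i) (S.pow_le hf' (n - i))
  rwa [← pow_add, Nat.add_sub_cancel' h] at h1

theorem arm'_le (hS : S.Ov v) {s T₀ T N Y : ℝ} (hs : Sz₀ A v s) {t₀ t : R} {w y : ι → R}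
    (h₀ : S.N t₀ ≤ T₀) (ht : S.N t ≤ T) (hw : ∀ a, S.N (w a) ≤ N) (hy : ∀ a, S.N (y a) ≤ Y)
    (σ n : ℕ) (fr : Fin (g + 1) → ι) (k₀ k₂ : ι) (a : ι × ι × ι) (τ : Tm g (2 ^ σ) n) :
    S.N (arm' A σ n fr k₀ k₂ a τ t₀ y t w) ≤ s ^ (2 * dA g (2 ^ σ) n) *
      ((N ^ 2 * Y ^ 2) ^ DY g (2 ^ σ) n * (N ^ (2 ^ σ - 1)) ^ n *
        max (N ^ (2 ^ σ + 1) * T₀ ^ 2 ^ σ) (Y ^ 2 ^ σ * T ^ (2 ^ σ + 1)) ^ n * max N T ^ 2 ^ σ) := by
  have h1 : 1 ≤ s := one_le_of_two hs.two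
  have h0 : 0 ≤ s := zero_le_one.trans h1
  have hY : 0 ≤ Y := (S.nonneg _).trans (hy k₀)
  have hN : 0 ≤ N := (S.nonneg _).trans (hw k₀)
  have hT : 0 ≤ T := (S.nonneg _).trans ht
  have hT₀ : 0 ≤ T₀ := (S.nonneg _).trans h₀
  have hp : ∀ b, S.N (A.ph a.1 b w y) ≤ s * (N ^ 2 * Y ^ 2) := hS.ph_le hs hw hy a.1
  have h4 : 4 ^ σ = 2 ^ σ * 2 ^ σ := Nat.mul_pow 2 2 σ
  obtain ⟨W, hW⟩ : ∃ W, W = max (N ^ (2 ^ σ + 1) * T₀ ^ 2 ^ σ) (Y ^ 2 ^ σ * T ^ (2 ^ σ + 1)) :=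
    ⟨_, rfl⟩
  have hW1 : N ^ (2 ^ σ + 1) * T₀ ^ 2 ^ σ ≤ W := hW ▸ le_max_left _ _
  have hW2 : Y ^ 2 ^ σ * T ^ (2 ^ σ + 1) ≤ W := hW ▸ le_max_right _ _
  have hW0 : 0 ≤ W := le_trans (by positivity) hW1
  rw [← hW]
  have h2 : S.N (far A a.2.1 a.2.2 w (fun b => A.ph a.1 b w y) σ k₀ * t₀ ^ 2 ^ σ) ≤
      s ^ (2 * 4 ^ σ) * ((s * (N ^ 2 * Y ^ 2)) ^ (2 ^ σ * (2 ^ σ + 1)) * N ^ (2 ^ σ - 1) * W) := by
    refine (S.mul_le (far_le hS hs hw hp _ _ σ k₀) (S.pow_le h₀ _)).trans ?_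
    have e : N ^ (2 * 2 ^ σ) = N ^ (2 ^ σ - 1) * N ^ (2 ^ σ + 1) := by
      have hq : 1 ≤ 2 ^ σ := Nat.one_le_two_pow
      rw [← pow_add]
      congr 1
      omega
    rw [e, mul_assoc]
    refine mul_le_mul_of_nonneg_left (le_of_eq_of_le ?_ (mul_le_mul_of_nonneg_left hW1
      (by positivity))) (by positivity)
    ring
  have h3 : S.N (A.ph a.1 (fr 0) w y ^ (2 ^ σ * (2 ^ σ + 1)) * y a.2.1 ^ 2 ^ σ *
      w a.2.2 ^ (2 ^ σ - 1) * t ^ (2 ^ σ + 1)) ≤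
      s ^ (2 * 4 ^ σ) * ((s * (N ^ 2 * Y ^ 2)) ^ (2 ^ σ * (2 ^ σ + 1)) * N ^ (2 ^ σ - 1) * W) := by
    refine (S.mul_le (S.mul_le (S.mul_le (S.pow_le (hp _) _) (S.pow_le (hy _) _))
      (S.pow_le (hw _) _)) (S.pow_le ht _)).trans ?_
    refine le_trans (le_of_eq_of_le ?_ (mul_le_mul_of_nonneg_left hW2 (by positivity)))
      (le_mul_of_one_le_left (by positivity) (one_le_pow₀ h1))
    ring
  have h5 := S.mul_le (S.mul_le (S.bx_le (fun l => hp (fr l)) τ.1)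
    (ebd_pp_le h2 h3 τ.2.1.is_le))
    (ebd_pp_le ((hw k₂).trans (le_max_left N T)) (ht.trans (le_max_right N T)) τ.2.2.is_le)
  rw [← mul_assoc (bx _ _)] at h5
  refine h5.trans ?_
  have hM : 0 ≤ max N T := hN.trans (le_max_left _ _)
  have he : DY g (2 ^ σ) n + 2 * 4 ^ σ * n ≤ 2 * dA g (2 ^ σ) n := by
    have h6 : 2 ^ σ * 2 ^ σ * n ≤ DY g (2 ^ σ) n :=
      (Nat.mul_le_mul_right n (Nat.mul_le_mul_left _ (Nat.le_succ _))).trans (Nat.le_add_left _ _)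
    rw [h4, mul_assoc, dA]
    generalize 2 ^ σ = q at h6 ⊢
    omega
  refine le_of_eq_of_le ?_ (mul_le_mul_of_nonneg_right (pow_le_pow_right₀ h1 he) (by positivity))
  rw [DY]
  generalize N ^ 2 * Y ^ 2 = P
  generalize N ^ (2 ^ σ - 1) = Q
  generalize 2 ^ σ * (2 ^ σ + 1) = q₁
  generalize g * ((2 ^ σ) ^ 2 * n) = q₂
  generalize 2 * 4 ^ σ = q₃
  ring

variable {β : Type} [Fintype β] [DecidableEq β] {ρ m σ n₀ : ℕ} {n j : Fin m × β → ℕ}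
  {fr : Fin m × β → Fin (g + 1) → ι} {k₀ k₂ : Fin m × β → ι} {b : Option (Fin m × β) → Blk A g ρ}
  {rd : Option (Fin m × β) → (Option ι →₀ ℕ) → MvPolynomial (Fin (g + 1 + 1) ⊕ Option ι) k}

theorem cfg_hom : (cfg σ n₀ n j fr k₀ k₂ b rd).Hom :=
  ⟨fun _ _ _ => arm_bih _ _ _ _ _ _ _ _, fun _ => card_Tm_le _ _ _ Nat.one_le_two_pow⟩

/-- `arm'_le` and `dbn_le` for the seminorm of `exists_polSN` with all radii `1`. -/
theorem cfg_ok {s : Option (Fin m × β) → ℝ} (h0 : ∀ o, Sz₀ A v (s o))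
    (hu : ∀ o l, pl v ((b o).u l) ≤ s o) (hr : ∀ o μ ω, v (coeff ω (rd o μ)) ≤ s o ^ μ.degree) :
    (cfg σ n₀ n j fr k₀ k₂ b rd).Ok v s := by
  refine ⟨fun o => (h0 o).two, hu, hr, fun i a τ => ?_⟩
  obtain ⟨S, hS⟩ := exists_polSN (σ := Option ι ⊕ Option ι) (absSN v) (t := fun _ => 1)
    fun _ => zero_le_one
  have hO : S.Ov v := (absSN_ov v).pol (fun _ => zero_le_one) hS
  have hX : ∀ c, S.N (X c) ≤ 1 := fun c => by
    rw [hS]
    exact polN_X _ (fun _ => zero_le_one) c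
  have h1 : 1 ≤ s none := one_le_of_two (h0 none).two
  have ht : S.N (X (.inl none) ^ 4 ^ j i) ≤ (s none * 1) ^ 4 ^ j i :=
    S.pow_le ((hX _).trans (h1.trans_eq (mul_one _).symm)) _
  have h := arm'_le hO (h0 (some i)) ht (hX (.inr none)) (fun c => hX (.inr (some c)))
    (hO.dbn_le (h0 none) (fun c => hX (.inl (some c))) (j i)) σ (n i) (fr i) (k₀ i) (k₂ i) a τ
  rw [hS] at h
  refine le_of_le_of_eq h ?_
  simp only [cfg, dC, one_pow, one_mul, mul_one, max_self, ← pow_mul, ← pow_add]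
  rw [mul_comm]
  congr 2
  ring

end Pool.Agent.Lib.MP_651af7_nt.Cn
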