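import Pool.Agent.Lib.MP_651af7_nt.Cn.Defs
import Pool.Agent.Lib.MP_651af7_nt.Av.EBd

/-! Engine, abstract part: sections built from bihomogeneous arm polynomials. -/

namespace Pool.Agent.Lib.MP_651af7_nt.Cn

open MvPolynomial Finset
open Pool.Agent.Lib.MP_651af7_nt.Av

/-- The discrete data: `none` is the centre, the arms come in `m` groups indexed by `β`; `Pr` is
the set of presentations and `Tm i` the set of basic sections of the arm `i`. -/
structure Cfg (k κ Pr β : Type) [Field k] (r m : ℕ) (Tm : Fin m × β → Type) where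
  /-- size of the box in the centre -/
  n₀ : ℕ
  /-- weights of the arms -/
  wt : Fin m × β → ℕ
  /-- the chosen coordinates of the centre -/
  q₀ : Fin (r + 1) → κ
  /-- the basic sections; left variables: centre, right variables: arm -/
  E : ∀ i, Pr → Tm i → MvPolynomial (κ ⊕ κ) k
  /-- degree in the centre -/
  dc : Fin m × β → ℕ
  /-- degree in the arm -/
  da : Fin m × β → ℕ
  /-- the ideals -/
  J : Option (Fin m × β) → Ideal (MvPolynomial κ k)
  /-- the parameters -/
  u : Option (Fin m × β) → Fin (r + 1) → MvPolynomial κ k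
  /-- the normal forms -/
  rd : Option (Fin m × β) → (κ →₀ ℕ) → MvPolynomial (Fin (r + 1) ⊕ κ) k

/-- Exponents of one group. -/
abbrev TT {m : ℕ} {β : Type} (Tm : Fin m × β → Type) (p : Fin m) : Type := ∀ s : β, Tm (p, s)

namespace Cfg

variable {k κ Pr β R R' : Type} [Field k] [CommRing R] [Algebra k R] [CommRing R'] [Algebra k R']
  {r m : ℕ} {Tm : Fin m × β → Type} (F : Cfg k κ Pr β r m Tm)

/-- Coefficients of a section. -/
abbrev Co : Type := Bx r F.n₀ → (∀ p, TT Tm p) → ℤ

/-- The value of a basic section. -/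
noncomputable def ev (i : Fin m × β) (a : Pr) (t : Tm i) (y₀ y : κ → R) : R :=
  aeval (Sum.elim y₀ y) (F.E i a t)

/-- A basic section as a polynomial in the coordinates of the arm. -/
noncomputable def Ee (i : Fin m × β) (a : Pr) (y₀ : κ → R) (t : Tm i) : MvPolynomial κ R :=
  F.ev i a t (fun c => C (y₀ c)) X

theorem map_ev (f : R →ₐ[k] R') (i : Fin m × β) (a : Pr) (t : Tm i) (y₀ y : κ → R) :
    f (F.ev i a t y₀ y) = F.ev i a t (fun c => f (y₀ c)) fun c => f (y c) := by
  rw [ev, ev, ← AlgHom.comp_apply, comp_aeval]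
  congr 2
  ext (c | c) <;> rfl

variable [Fintype β]

/-- The degrees in the blocks. -/
def dg : Option (Fin m × β) → ℕ
  | none => r * F.n₀ + ∑ i, F.dc i
  | some i => F.da i

/-- The degree in the centre of one slice. -/
def dh (p : Fin m) : ℕ := r * F.n₀ + ∑ s, F.dc (p, s)

variable [DecidableEq β] [∀ i, Fintype (Tm i)]

/-- The auxiliary section in the presentation `a`. -/
noncomputable def FF (c : F.Co) (a : Fin m × β → Pr) (y : Option (Fin m × β) → κ → R) : R :=
  ∑ τ, (∑ z, (c z τ : R) * bx (fun l => y none (F.q₀ l)) z) *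
    ∏ p, ∏ s, F.ev (p, s) (a (p, s)) (τ p s) (y none) (y (some (p, s)))

theorem map_FF (f : R →ₐ[k] R') (c : F.Co) (a : Fin m × β → Pr)
    (y : Option (Fin m × β) → κ → R) : f (F.FF c a y) = F.FF c a fun o b => f (y o b) := by
  simp only [FF, map_sum, map_mul, map_prod, map_intCast, map_ev, bx, map_pow]

/-- Bidegrees and numbers of the basic sections. -/
structure Hom : Prop where
  bih : ∀ i a t, (F.E i a t).IsWeightedHomogeneous (bw κ κ) (F.dc i, F.da i)
  card : ∀ i, Fintype.card (Tm i) ≤ 2 ^ F.da i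

variable [Fintype κ]

/-- A coefficient of the normal form of a basic section. -/
noncomputable def Jc (i : Fin m × β) (a : Pr) (y₀ : κ → R) (t : Tm i) (ω : Ex r κ) : R :=
  redc (F.rd (some i)) (F.Ee i a y₀ t) ω

/-- All patterns of a group. -/
noncomputable def pat (e ρ : ℕ) (p : Fin m) : Finset (β → Ex r κ) :=
  Fintype.piFinset fun s => Mon κ r e ρ (F.da (p, s))

open Classical in
/-- The forbidden patterns of a group. -/
noncomputable def low (e ρ L : ℕ) (mk : Finset (Fin (r + 1))) (p : Fin m) :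
    Finset (β → Ex r κ) :=
  (F.pat e ρ p).filter fun ω => ∑ s, F.wt (p, s) * ∑ l ∈ mk, ω s (.inl l) < L

/-- The joint coefficient of a pattern in a slice. -/
noncomputable def slice (c : F.Co) (p : Fin m) (a : β → Pr) (ω : β → Ex r κ)
    (τ : ∀ p, TT Tm p) (y₀ : κ → R) : R :=
  ∑ t : TT Tm p, (∑ z, (c z (Function.update τ p t) : R) * bx (fun l => y₀ (F.q₀ l)) z) *
    ∏ s, F.Jc (p, s) (a s) y₀ (t s) (ω s)

/-- The forbidden patterns do not occur. -/
def Van (e ρ L : ℕ) (mk : Finset (Fin (r + 1))) (c : F.Co) : Prop :=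
  ∀ p a, ∀ ω ∈ F.low e ρ L mk p, ∀ τ, F.slice c p a ω τ (X : κ → MvPolynomial κ k) ∈ F.J none

omit [Fintype β] [DecidableEq β] [∀ i, Fintype (Tm i)] [Fintype κ] in
/-- `s o` bounds the data of the block `o` at `v`. -/
structure Ok (v : AbsoluteValue k ℝ) (s : Option (Fin m × β) → ℝ) : Prop where
  two : ∀ o, Av.E (IsNonarchimedean v) 2 ≤ s o
  u : ∀ o l, pl v (F.u o l) ≤ s o
  rd : ∀ o μ ω, v (coeff ω (F.rd o μ)) ≤ s o ^ μ.degree
  E : ∀ i a t, pl v (F.E i a t) ≤ s none ^ F.dc i * s (some i) ^ (2 * F.da i)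

end Cfg

end Pool.Agent.Lib.MP_651af7_nt.Cn
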