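import Pool.Agent.Lib.MP_651af7_nt.Cn.EPres

/-! Engine: the basic sections are linearly independent. -/

namespace Pool.Agent.Lib.MP_651af7_nt.Cn

open MvPolynomial Finset
open Pool.Agent.Lib.MP_651af7_nt.Av Pool.Agent.Lib.MP_651af7_nt.Av.AV

variable {k ι F : Type} [Field k] [Field F] [Algebra k F]

theorem eindb_mon {K σ : Type} [Field K] [Algebra K F] [Fintype σ] {x : σ → F}
    (h : AlgebraicIndependent K x) : LinearIndependent K fun μ : σ → ℕ => ∏ i, x i ^ μ i := by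
  have h1 := ((basisMonomials σ K).linearIndependent.map' (aeval x).toLinearMap
    (LinearMap.ker_eq_bot.2 h)).comp _ (Finsupp.equivFunOnFinite (α := σ) (M := ℕ)).symm.injective
  have e : (fun μ : σ → ℕ => ∏ i, x i ^ μ i) = ((aeval x).toLinearMap ∘ basisMonomials σ K) ∘
      (Finsupp.equivFunOnFinite (α := σ) (M := ℕ)).symm := by
    funext μ
    simp [aeval_monomial, Finsupp.prod_fintype]
  rw [e]
  exact h1

/-- Pure algebra. Group a relation by the exponents `(e i, s i)`: the monomials in `lam` with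
exponents `e i * (q + 1) + s i` are distinct, hence independent over `L`; cancel `∏ ω i ^ e i`; the
monomials in `t` and `z` are independent over `k`. -/
theorem lin_mon {I : Type} [Fintype I] [DecidableEq I] {g r q : ℕ} (n₀ : ℕ) (n : I → ℕ)
    (L : IntermediateField k F) {lam ω : I → F} {t : Fin r → F} {z : I × Fin g → F}
    (h1 : AlgebraicIndependent L lam) (h2 : AlgebraicIndependent k (Sum.elim t z))
    (ht : ∀ l, t l ∈ L) (hz : ∀ x, z x ∈ L) (hω : ∀ i, ω i ∈ L) (h0 : ∀ i, ω i ≠ 0) :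
    LinearIndependent k fun x : Bx r n₀ × ∀ i, Tm g q (n i) =>
      (∏ l, t l ^ (x.1 l : ℕ)) * ∏ i, (∏ l, z (i, l) ^ ((x.2 i).1 l : ℕ)) *
        ω i ^ ((x.2 i).2.1 : ℕ) * lam i ^ (((x.2 i).2.1 : ℕ) * (q + 1) + (x.2 i).2.2) := by
  have hm : ∀ j, Sum.elim t z j ∈ L := by
    rintro (j | j)
    exacts [ht j, hz j]
  have hb : LinearIndependent k fun ν : Fin r ⊕ I × Fin g → ℕ =>
      ∏ j, (⟨Sum.elim t z j, hm j⟩ : L) ^ ν j := by
    refine LinearIndependent.of_comp L.val.toLinearMap ?_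
    convert eindb_mon h2 using 1
    funext ν
    simp
  have hc := ((eindb_mon h1).comp
    (fun (y : ∀ i, Fin (n i + 1) × Fin (q + 1)) i => ((y i).1 : ℕ) * (q + 1) + (y i).2) (by
      intro y y' e
      funext i
      have e1 : ((y i).1 : ℕ) * (q + 1) + (y i).2 = ((y' i).1 : ℕ) * (q + 1) + (y' i).2 :=
        congrFun e i
      have e2 : ((y i).2 : ℕ) = (y' i).2 := by
        have := congrArg (· % (q + 1)) e1
        simpa only [Nat.mul_add_mod_self_right, Nat.mod_eq_of_lt (y i).2.2,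
          Nat.mod_eq_of_lt (y' i).2.2] using this
      rw [e2, Nat.add_right_cancel_iff] at e1
      exact Prod.ext (Fin.ext (Nat.eq_of_mul_eq_mul_right q.succ_pos e1)) (Fin.ext e2))).units_smul
    fun y => ∏ i, Units.mk0 (⟨ω i, hω i⟩ : L) (fun e => h0 i (congrArg Subtype.val e)) ^
      ((y i).1 : ℕ)
  have hd := (linearIndependent_smul hb hc).comp
    (fun x : Bx r n₀ × ∀ i, Tm g q (n i) => (Sum.elim (fun l => (x.1 l : ℕ))
      fun y => ((x.2 y.1).1 y.2 : ℕ), fun i => (x.2 i).2)) (by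
      intro x x' e
      obtain ⟨e1, e2⟩ := Prod.ext_iff.1 e
      refine Prod.ext (funext fun l => Fin.ext (congrFun e1 (.inl l))) (funext fun i => ?_)
      exact Prod.ext (funext fun l => Fin.ext (congrFun e1 (.inr (i, l)))) (congrFun e2 i))
  convert hd using 1
  funext x
  simp only [Function.comp_apply, Pi.smul_apply', Units.smul_def, IntermediateField.smul_def,
    smul_eq_mul, Units.coe_prod, Units.val_pow_eq_pow_val, Units.val_mk0,
    IntermediateField.coe_prod, SubmonoidClass.coe_pow, Fintype.prod_sum_type,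
    Fintype.prod_prod_type, Sum.elim_inl, Sum.elim_inr, prod_mul_distrib, MulMemClass.coe_mul]
  ring

theorem eindb_far {R : Type} [CommRing R] [Algebra k R] (A : AV k ι) (b c : ι) (s u : R)
    (v Y : ι → R) (σ : ℕ) (d : ι) : far A b c (fun e => s * v e) (fun e => u * Y e) σ d =
      s ^ (2 * 2 ^ σ) * u ^ (2 ^ σ * (2 ^ σ + 1)) * far A b c v Y σ d := by
  induction σ generalizing d with
  | zero => exact ph_mul d b s u v Y
  | succ σ ih =>
    have h4 : 4 ^ σ = 2 ^ σ * 2 ^ σ := mul_pow 2 2 σ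
    change A.ph d c (far A b c _ _ σ) (A.dbn _ σ) = _ * A.ph d c (far A b c v Y σ) (A.dbn Y σ)
    rw [funext ih, funext (A.dbn_mul u Y σ), ph_mul, h4, pow_succ 2 σ]
    generalize 2 ^ σ = q
    ring

/-- One arm. Apply `arm'_eq` to the coordinates `lam⁻¹ * v` of `p`, which lie in `L` like `y`, and
compare; or use the definition: `far` and `ph` are homogeneous in `v`. The ratio of the two
brackets is `ω * lam ^ (q + 1)`. -/
theorem arm'_mon {A : AV k ι} {g : ℕ} (L : IntermediateField k F) {p p' : A.Pt F} {v y : ι → F}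
    (hv : Rep p v) (hy : Rep p' y) (σ : ℕ) {fr : Fin (g + 1) → ι} {k₀ k₂ : ι} {a : ι × ι × ι}
    (hk : v k₂ ≠ 0) (hvL : ∀ c, v c / v k₂ ∈ L) (hyL : ∀ c, y c ∈ L)
    (h1 : (p - p').co (fr 0) ≠ 0) (h2 : (p + 2 ^ σ • (p - p')).co k₀ ≠ 0)
    (h3 : (p + p').co a.1 ≠ 0) (h4 : y a.2.1 ≠ 0) (h5 : v a.2.2 ≠ 0) :
    ∃ ω ∈ L, ω ≠ 0 ∧ (∀ l, (p - p').co (fr l) / (p - p').co (fr 0) ∈ L) ∧
      ∀ n, ∃ c : F, c ≠ 0 ∧ ∀ τ : Tm g (2 ^ σ) n, arm' A σ n fr k₀ k₂ a τ 1 y 1 v =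
        c * ((∏ l : Fin g, ((p - p').co (fr l.succ) / (p - p').co (fr 0)) ^ (τ.1 l : ℕ)) *
          ω ^ (τ.2.1 : ℕ) * v k₂ ^ ((τ.2.1 : ℕ) * (2 ^ σ + 1) + τ.2.2)) := by
  obtain ⟨Y, Ω, ⟨u, hY⟩, ⟨u', hΩ⟩, e1, e2⟩ := far_eq hv hy (rep_co (p + p')) σ
  let v' : ι → L := fun c => ⟨v c / v k₂, hvL c⟩
  let y' : ι → L := fun c => ⟨y c, hyL c⟩
  have ev : ∀ c, v c = v k₂ * (v' c : F) := fun c => (mul_div_cancel₀ _ hk).symm
  have eP : ∀ b, A.ph a.1 b v y = v k₂ ^ 2 * (A.ph a.1 b v' y' : L) := fun b => by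
    have h := ph_mul (A := A) a.1 b (v k₂) 1 (fun c => (v' c : F)) y
    simp only [← ev, one_mul, one_pow, mul_one] at h
    exact h.trans (congrArg _ (A.map_ph L.val a.1 b v' y').symm)
  have eN : far A a.2.1 a.2.2 v (fun b => A.ph a.1 b v y) σ k₀ =
      v k₂ ^ (2 * 2 ^ σ) * (v k₂ ^ 2) ^ (2 ^ σ * (2 ^ σ + 1)) *
        (far A a.2.1 a.2.2 v' (fun b => A.ph a.1 b v' y') σ k₀ : L) := by
    have h := eindb_far A a.2.1 a.2.2 (v k₂) (v k₂ ^ 2) (fun c => (v' c : F))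
      (fun b => (A.ph a.1 b v' y' : L)) σ k₀
    simp only [← ev, ← eP] at h
    exact h.trans (congrArg _ (map_far A L.val a.2.1 a.2.2 v' _ σ k₀).symm)
  have P0 : A.ph a.1 (fr 0) v y ≠ 0 := by
    rw [e1, hY]
    exact mul_ne_zero h3 (mul_ne_zero u.ne_zero h1)
  have N0 : far A a.2.1 a.2.2 v (fun b => A.ph a.1 b v y) σ k₀ ≠ 0 := by
    rw [e2, hΩ]
    exact mul_ne_zero (mul_ne_zero (mul_ne_zero (pow_ne_zero _ h3) (pow_ne_zero _ h4))
      (pow_ne_zero _ h5)) (mul_ne_zero u'.ne_zero h2)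
  have ez : ∀ b, (p - p').co b / (p - p').co (fr 0) =
      A.ph a.1 b v y / A.ph a.1 (fr 0) v y := fun b => by
    rw [e1, e1, hY, hY, mul_div_mul_left _ _ h3, mul_div_mul_left _ _ u.ne_zero]
  have P0' : ((A.ph a.1 (fr 0) v' y' : L) : F) ≠ 0 := right_ne_zero_of_mul (eP _ ▸ P0)
  have v0 : (v' a.2.2 : F) ≠ 0 := right_ne_zero_of_mul (ev _ ▸ h5)
  obtain ⟨D, hD⟩ : ∃ D : F, D = ((A.ph a.1 (fr 0) v' y' : L) : F) ^ (2 ^ σ * (2 ^ σ + 1)) *
    y a.2.1 ^ 2 ^ σ * (v' a.2.2 : F) ^ (2 ^ σ - 1) := ⟨_, rfl⟩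
  have D0 : D ≠ 0 :=
    hD ▸ mul_ne_zero (mul_ne_zero (pow_ne_zero _ P0') (pow_ne_zero _ h4)) (pow_ne_zero _ v0)
  have DL : D ∈ L := hD ▸ mul_mem (mul_mem (pow_mem (Subtype.prop _) _) (pow_mem (hyL _) _))
    (pow_mem (Subtype.prop _) _)
  refine ⟨(far A a.2.1 a.2.2 v' (fun b => A.ph a.1 b v' y') σ k₀ : L) / D,
    div_mem (Subtype.prop _) DL, div_ne_zero (right_ne_zero_of_mul (eN ▸ N0)) D0,
    fun l => ?_, fun n => ?_⟩
  · rw [ez, eP, eP, mul_div_mul_left _ _ (pow_ne_zero _ hk)]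
    exact div_mem (Subtype.prop _) (Subtype.prop _)
  obtain ⟨E, hE⟩ : ∃ E : F, E = A.ph a.1 (fr 0) v y ^ (2 ^ σ * (2 ^ σ + 1)) *
    y a.2.1 ^ 2 ^ σ * v a.2.2 ^ (2 ^ σ - 1) := ⟨_, rfl⟩
  have E0 : E ≠ 0 :=
    hE ▸ mul_ne_zero (mul_ne_zero (pow_ne_zero _ P0) (pow_ne_zero _ h4)) (pow_ne_zero _ h5)
  have eE : far A a.2.1 a.2.2 v (fun b => A.ph a.1 b v y) σ k₀ = E *
      (((far A a.2.1 a.2.2 v' (fun b => A.ph a.1 b v' y') σ k₀ : L) : F) / D *
        v k₂ ^ (2 ^ σ + 1)) := by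
    have hq : v k₂ ^ (2 * 2 ^ σ) = v k₂ ^ (2 ^ σ - 1) * v k₂ ^ (2 ^ σ + 1) := by
      have : 0 < 2 ^ σ := by positivity
      rw [← pow_add]
      congr 1
      omega
    have h6 : E = (v k₂ ^ 2) ^ (2 ^ σ * (2 ^ σ + 1)) * v k₂ ^ (2 ^ σ - 1) * D := by
      rw [hE, hD, eP, ev a.2.2, mul_pow, mul_pow]
      ring
    rw [eN, hq, h6]
    field_simp
  refine ⟨A.ph a.1 (fr 0) v y ^ (g * ((2 ^ σ) ^ 2 * n)) * E ^ n,
    mul_ne_zero (pow_ne_zero _ P0) (pow_ne_zero _ E0), fun τ => ?_⟩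
  have eb : bx (fun l => A.ph a.1 (fr l) v y) τ.1 = A.ph a.1 (fr 0) v y ^ (g * ((2 ^ σ) ^ 2 * n)) *
      ∏ l : Fin g, ((p - p').co (fr l.succ) / (p - p').co (fr 0)) ^ (τ.1 l : ℕ) := by
    have h := bx_mul (A.ph a.1 (fr 0) v y)
      (fun l => A.ph a.1 (fr l) v y / A.ph a.1 (fr 0) v y) τ.1
    simp only [mul_div_cancel₀ _ P0] at h
    rw [h, bx]
    simp only [ez, div_self P0, one_pow, mul_one]
  have en : E ^ n = E ^ (τ.2.1 : ℕ) * E ^ (n - (τ.2.1 : ℕ)) := by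
    rw [← pow_add, Nat.add_sub_cancel' τ.2.1.is_le]
  rw [arm', eb, ← hE, eE, en]
  generalize ((far A a.2.1 a.2.2 v' (fun b => A.ph a.1 b v' y') σ k₀ : L) : F) / D = w
  generalize n - (τ.2.1 : ℕ) = m
  simp only [one_pow, mul_one, mul_pow]
  ring

end Pool.Agent.Lib.MP_651af7_nt.Cn
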