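import Pool.Agent.Lib.MP_651af7_nt.Cn.EIndA
import Pool.Agent.Lib.MP_651af7_nt.Cn.EIndB
import Pool.Agent.Lib.MP_651af7_nt.Av.ENv
import Pool.Agent.Lib.MP_651af7_nt.Av.Par
import Pool.Agent.Lib.MP_651af7_nt.Av.Jac

/-! Engine: the branches as points, and the section does not vanish on them. -/

namespace Pool.Agent.Lib.MP_651af7_nt.Cn

open MvPolynomial Finset
open Pool.Agent.Lib.MP_651af7_nt.Av Pool.Agent.Lib.MP_651af7_nt.Av.AV

/-- A simple root of the equation of a chart is algebraic over the coordinates. -/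
theorem eframe_alg {k κ F : Type} [Field k] [CharZero k] [Fintype κ] [Field F] [Algebra k F]
    {r : ℕ} (C : Chart k κ r) (w : κ → F) (a : κ) (h : a ∉ Set.range C.I →
      aeval w (C.φ a) = 0 ∧ aeval w (pderiv a (C.φ a)) ≠ 0) :
    w a ∈ (AlgebraicIndependent.matroid k F).closure (Set.range fun l => w (C.I l)) := by
  by_cases ha : a ∈ Set.range C.I
  · obtain ⟨l, rfl⟩ := ha
    exact Matroid.subset_closure _ _ (Set.subset_univ _) ⟨l, rfl⟩
  rw [AlgebraicIndependent.matroid_closure_eq, SetLike.mem_coe, Subalgebra.mem_algebraicClosure,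
    ← IntermediateField.isAlgebraic_adjoin_iff]
  by_contra hc
  set L := IntermediateField.adjoin k (Set.range fun l => w (C.I l))
  have : CharZero L := algebraRat.charZero L
  obtain ⟨D, hD⟩ := exists_derivation (K := L) (t := fun _ : Unit => w a)
    (algebraicIndependent_unique_type_iff.2 hc) fun _ => 1
  refine one_ne_zero ((hD ()).symm.trans (der_eq_zero_of_rel D (fun c => ?_) (h ha).1 (h ha).2
    fun s hs => ?_))
  · rw [IsScalarTower.algebraMap_apply k L F, D.map_algebraMap]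
  · by_cases h1 : s ∈ Set.range C.I
    · obtain ⟨l, rfl⟩ := h1
      exact .inl (D.map_algebraMap ⟨_, IntermediateField.subset_adjoin _ _ ⟨l, rfl⟩⟩)
    · exact .inr (C.pderiv_eq_zero hs h1)

variable {k ι O : Type} [Field k] [Fintype ι] {A B : AV k ι} {g ρ : ℕ} {b : O → Blk A g ρ}
  {ξ : O → Option ι → MvPowerSeries (Fin (g + 1)) k}

omit [Fintype ι] in
theorem eframe_aeval (ξ : O → Option ι → MvPowerSeries (Fin (g + 1)) k) (o : O)
    (f : MvPolynomial (Option ι) k) :
    aeval (fun d => xo ξ (o, d)) f = MvPowerSeries.rename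
      (vO o : Fin (g + 1) ↪ O × Fin (g + 1)) (aeval (ξ o) f) := by
  rw [← env_xo, aeval_rename]
  rfl

/-- `Br.eqn` for `a₀ = none`. -/
theorem xo_none (hb : ∀ o, (b o).Geom B) (hξ : ∀ o, (b o).C.Br (pt (b o).v) (ξ o)) (o : O) :
    xo ξ (o, none) = 1 := by
  have h := (hξ o).eqn (b o).C.a₀ fun ⟨l, hl⟩ => (b o).C.ne l hl
  rw [(b o).C.φ₀, map_sub, aeval_X, map_one, sub_eq_zero, (hb o).a₀] at h
  rw [xo, h, map_one]

/-- `Chart.Br.mem`, `env_xo`. -/
theorem xo_zero (hb : ∀ o, (b o).Geom B) (hξ : ∀ o, (b o).C.Br (pt (b o).v) (ξ o)) (o : O) :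
    ∀ f ∈ (b o).J, aeval (fun d => xo ξ (o, d)) f = 0 := fun f hf => by
  rw [eframe_aeval, (hξ o).mem (hb o).on f hf, map_zero]

theorem xo_const (hξ : ∀ o, (b o).C.Br (pt (b o).v) (ξ o)) (o : O) (d : Option ι) :
    cc k _ (xo ξ (o, d)) = pt (b o).v d := by
  rw [cc_apply, xo, MvPowerSeries.constantCoeff_rename, (hξ o).const]

/-- `exists_rep`; `exists_unit_ph`, `rep_sub`, `Geom.cos`, `Sub.mem_range_inc`. -/
theorem exists_pts (h : Sub A B) (hb : ∀ o, (b o).Geom B)
    (hξ : ∀ o, (b o).C.Br (pt (b o).v) (ξ o)) :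
    ∃ p : O → A.Pt (MvPowerSeries (O × Fin (g + 1)) k), ∀ o,
      Rep (p o) (fun c => xo ξ (o, some c)) ∧ A.map (cc k _) (p o) = (b o).P ∧
      p o - A.map (Algebra.ofId k _) (b o).s ∈ (h.inc _).range := by
  choose p h1 h2 using fun o => exists_rep_rename (vO o : Fin (g + 1) ↪ O × Fin (g + 1))
    (ξ := fun c => ξ o (some c)) (hb o).rep (fun a => (hξ o).const (some a)) fun f hf =>
      (aeval_rename some (ξ o) f).symm.trans ((hξ o).mem (hb o).on _ ((hb o).le f hf))
  refine ⟨p, fun o => ⟨h1 o, h2 o, ?_⟩⟩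
  have h3 := (hb o).reps.map (Algebra.ofId k (MvPowerSeries (O × Fin (g + 1)) k))
  obtain ⟨a, c, h4⟩ := exists_unit_ph (h1 o) h3
  refine (h.mem_range_inc (rep_sub (h1 o) h3 h4)).2 fun f hf => ?_
  have h5 := xo_zero hb hξ o _ ((hb o).cos f hf a)
  rw [par_map_aeval] at h5
  simp only [map_ph, aeval_X, aeval_C] at h5
  exact h5

omit [Fintype ι] in
theorem eframe_indep [CharZero k] [Fintype O] (hξ : ∀ o, (b o).C.Br (pt (b o).v) (ξ o)) :
    AlgebraicIndependent k fun x : O × Fin (g + 1) => xo ξ (x.1, (b x.1).C.I x.2) := by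
  classical
  refine jac_indep' ?_
  have e : (fun (s t : O × Fin (g + 1)) => MvPowerSeries.coeff (Finsupp.single t 1)
      (xo ξ (s.1, (b s.1).C.I s.2))) = fun s => Pi.single s (1 : k) := by
    funext s t
    rw [xo, (hξ _).coord, map_add, MvPowerSeries.rename_C, MvPowerSeries.rename_X, map_add,
      MvPowerSeries.coeff_C, if_neg (by simp), zero_add, MvPowerSeries.coeff_X, Pi.single_apply]
    exact if_congr (Finsupp.single_left_inj one_ne_zero) rfl rfl
  rw [e]
  exact Pi.linearIndependent_single_one _ _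

/-- Sketch. `F = FractionRing (MvPowerSeries _ k)`, points `A.map _ (p o)`;
`t (o, l) = xo ξ (o, I l) = C _ + X (o, l)` is independent, `I l ≠ none`; the other coordinates of
the centre are algebraic over `t (none, ·)`. `exists_indep`, `arm'_mon`, `lin_mon`. -/
theorem exists_frame [CharZero k] {β : Type} [Fintype β] [DecidableEq β] {m : ℕ} (h : Sub A B)
    (hg : B.dim ≤ g) (σ : ℕ) (j : Fin m × β → ℕ) {b : Option (Fin m × β) → Blk A g ρ}
    {ξ : Option (Fin m × β) → Option ι → MvPowerSeries (Fin (g + 1)) k}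
    (hb : ∀ o, (b o).Geom B) (hξ : ∀ o, (b o).C.Br (pt (b o).v) (ξ o)) :
    ∃ (fr : Fin m × β → Fin (g + 1) → ι) (k₀ k₂ : Fin m × β → ι) (a : Fin m × β → ι × ι × ι),
      ∀ n₀ n rd (c : (cfg σ n₀ n j fr k₀ k₂ b rd).Co), c ≠ 0 →
        (cfg σ n₀ n j fr k₀ k₂ b rd).FF c a (fun o d => xo ξ (o, d)) ≠ 0 := by
  classical
  let R := MvPowerSeries (Option (Fin m × β) × Fin (g + 1)) k
  have : IsDomain R := NoZeroDivisors.to_isDomain _
  let F := FractionRing R
  let G := IsScalarTower.toAlgHom k R F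
  have hG : Function.Injective G := IsFractionRing.injective R _
  obtain ⟨p, hp⟩ := exists_pts h hb hξ
  have hv : ∀ o, Rep (A.map G (p o)) fun c => G (xo ξ (o, some c)) := fun o => (hp o).1.map G
  have hs : ∀ o, A.map G (p o) - A.map (Algebra.ofId k F) (b o).s ∈ (h.inc F).range := fun o => by
    obtain ⟨q, hq⟩ := (hp o).2.2
    refine ⟨B.map G q, (h.inc_map G q).trans ?_⟩
    rw [hq, map_sub, AV.map_map]
    exact congrArg₂ (· - ·) rfl (congrArg (A.map · (b o).s) (Subsingleton.elim _ _))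
  have hm : ∀ o l, G (xo ξ (o, (b o).C.I l)) ∈ Set.range fun c => G (xo ξ (o, some c)) :=
    fun o l => by
      obtain ⟨c, hc⟩ := Option.ne_none_iff_exists'.1 ((hb o).a₀ ▸ (b o).C.ne l)
      exact ⟨c, by rw [hc]⟩
  have ha := fun a => eframe_alg (b none).C (fun d => G (xo ξ (none, d))) (some a) fun h1 => by
    rw [← par_map_aeval, ← par_map_aeval, eframe_aeval, eframe_aeval, (hξ none).eqn _ h1, map_zero,
      map_zero, map_ne_zero_iff _ hG]
    refine ⟨rfl, fun h2 => ((hb none).atx _ h1).2.ne_zero ?_⟩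
    rw [← env_const (hξ none).const, ← MvPowerSeries.constantCoeff_rename
      (vO none : Fin (g + 1) ↪ Option (Fin m × β) × Fin (g + 1)), h2, map_zero]
  choose k₂ hk using fun i => (hv (some i)).unit
  obtain ⟨fr, L, f1, f2, f3, f4, f5⟩ := exists_indep h hg j hv hs
    ((eframe_indep hξ).map' hG) hm ha fun i => (hk i).ne_zero
  have hy := fun i => (hv none).dbn (j i)
  have hL : ∀ i c, A.dbn (fun c => G (xo ξ (none, some c))) (j i) c ∈ L := fun i c =>
    A.map_dbn L.val (fun a => ⟨_, f4 a⟩) (j i) c ▸ Subtype.property _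
  choose k₀ h0 using fun i => (rep_co (A.map G (p (some i)) +
    2 ^ σ • (A.map G (p (some i)) - 2 ^ j i • A.map G (p none)))).unit
  choose a₁ h1 using fun i => (rep_co (A.map G (p (some i)) + 2 ^ j i • A.map G (p none))).unit
  choose a₂ h2 using fun i => (hy i).unit
  choose ω w1 w2 w3 u u1 u2 using fun i => arm'_mon (g := g) L (hv (some i)) (hy i) σ (fr := fr i)
    (a := (a₁ i, a₂ i, k₂ i)) (hk i).ne_zero (f5 i) (hL i) (f1 i) (h0 i).ne_zero (h1 i).ne_zero
    (h2 i).ne_zero (hk i).ne_zero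
  refine ⟨fr, k₀, k₂, fun i => (a₁ i, a₂ i, k₂ i), fun n₀ n rd c hc h3 => hc ?_⟩
  have H := (lin_mon (q := 2 ^ σ) n₀ n L f2 f3 (fun l => by
    obtain ⟨c, hc⟩ := hm none l
    exact Set.mem_of_eq_of_mem hc.symm (f4 c)) (fun x => w3 x.1 x.2.succ) w1 w2).comp
    (fun x : Bx (g + 1) n₀ × ∀ q, TT (fun i => Tm g (2 ^ σ) (n i)) q =>
      (x.1, fun i => x.2 i.1 i.2)) fun x y e => Prod.ext (Prod.mk.inj e).1
        (funext fun q => funext fun s => congrFun (Prod.mk.inj e).2 (q, s))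
  have h4 := congrArg G h3
  rw [Cfg.map_FF, map_zero, Cfg.FF] at h4
  have h5 := Fintype.linearIndependent_iff.1 H (fun x => (c x.1 x.2 : k)) (by
    refine mul_left_cancel₀ (prod_ne_zero_iff.2 fun i (_ : i ∈ univ) => u1 i (n i)) ?_
    rw [mul_zero, ← h4, Fintype.sum_prod_type_right, mul_sum]
    refine sum_congr rfl fun τ _ => ?_
    rw [sum_mul, mul_sum]
    refine sum_congr rfl fun z _ => ?_
    simp only [cfg_ev, arm, xo_none hb hξ, map_one, one_pow, u2]
    rw [Int.cast_smul_eq_zsmul, zsmul_eq_mul, Function.comp_apply, ← Fintype.prod_prod_type'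
      (fun q s => u (q, s) (n (q, s)) * _), prod_mul_distrib (f := fun i => u i (n i))]
    simp only [bx, cfg, Fin.cons_succ, Fin.cons_zero, xo_none hb hξ, map_one, one_pow, mul_one,
      Function.comp_apply]
    ring)
  exact funext fun z => funext fun τ => Int.cast_eq_zero.1 (h5 (z, τ))

end Pool.Agent.Lib.MP_651af7_nt.Cn
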