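import Pool.Agent.Lib.MP_651af7_nt.Cn.EJc

/-! Engine: upper bounds for the section. Model: `Av/EGain.lean`, `Av/EBd.lean`. -/

namespace Pool.Agent.Lib.MP_651af7_nt.Cn.Cfg

open MvPolynomial Finset
open Pool.Agent.Lib.MP_651af7_nt.Av

variable {k κ Pr β R : Type} [Field k] [CommRing R] [Algebra k R]
  {r m : ℕ} {Tm : Fin m × β → Type} {F : Cfg k κ Pr β r m Tm} [Fintype β] [DecidableEq β]
  [∀ i, Fintype (Tm i)] [Fintype κ] {v : AbsoluteValue k ℝ} {S : SN R (IsNonarchimedean v)}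
  {s : Option (Fin m × β) → ℝ} {e ρ L : ℕ} {mk : Finset (Fin (r + 1))}

theorem egain_card (h : F.Hom) (hs : F.Ok v s) (p : Fin m) :
    Av.E (IsNonarchimedean v) (Fintype.card (TT Tm p)) ≤ ∏ b, s (some (p, b)) ^ F.da (p, b) := by
  rw [Fintype.card_pi, Nat.cast_prod, E_prod]
  exact prod_le_prod (fun b _ => E_nonneg (Nat.cast_nonneg _)) fun b _ =>
    E_le_pow (hs.two _) (by exact_mod_cast h.card (p, b))

theorem egain_centre (hs : F.Ok v s) {y : κ → R} {Y₀ : ℝ} (hY : 0 ≤ Y₀)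
    (hy : ∀ a, S.N (y a) ≤ Y₀) {c : F.Co} {H : ℝ} (hH : 1 ≤ H) (hc : ∀ z τ, |(c z τ : ℝ)| ≤ H)
    (τ : ∀ p, TT Tm p) : S.N (∑ z, (c z τ : R) * bx (fun l => y (F.q₀ l)) z) ≤
      Av.E (IsNonarchimedean v) H * (s none * Y₀) ^ (r * F.n₀) := by
  have H0 : 0 ≤ Av.E (IsNonarchimedean v) H := E_nonneg (zero_le_one.trans hH)
  refine (S.sum_le_card _ (mul_nonneg H0 (pow_nonneg hY (r * F.n₀))) fun z _ =>
    S.mul_le ((S.intCast_le _).trans (E_mono (hc z τ))) (S.bx_le (fun l => hy _) z)).trans ?_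
  rw [mul_pow, mul_left_comm]
  exact mul_le_mul_of_nonneg_left (mul_le_mul_of_nonneg_right (E_le_pow (hs.two none)
    (by exact_mod_cast card_Bx_le _ _)) (pow_nonneg hY _)) H0

/-- One group. -/
theorem egain_group (he : 1 ≤ e) (hS : S.Ov v) (hF : F.Hom)
    (hrd : ∀ o, IsRd (F.J o) e ρ (F.u o) (F.rd o)) (hs : F.Ok v s)
    {y : Option (Fin m × β) → κ → R} {Y : Option (Fin m × β) → ℝ}
    (hy0 : ∀ o, ∀ f ∈ F.J o, aeval (y o) f = 0) (hY : ∀ o, 1 ≤ Y o)
    (hy : ∀ o a, S.N (y o a) ≤ Y o) (p : Fin m) {γ : ℝ} (hγ0 : 0 ≤ γ) (hγ1 : γ ≤ 1)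
    (hu : ∀ b, ∀ l ∈ mk, S.N (aeval (y (some (p, b))) (F.u (some (p, b)) l)) ≤
      γ ^ F.wt (p, b) * Y (some (p, b)) ^ e) (a : β → Pr) (h : TT Tm p → R) {H : ℝ}
    (hH : 0 ≤ H) (hh : ∀ t, S.N (h t) ≤ H) (h0 : ∀ ω ∈ F.low e ρ L mk p,
      ∑ t, h t * ∏ b, F.Jc (p, b) (a b) (y none) (t b) (ω b) = 0) :
    S.N (∑ t, h t * ∏ b, F.ev (p, b) (a b) (t b) (y none) (y (some (p, b)))) ≤
      (γ ^ L * ∏ b, (s (some (p, b)) ^ (r + Fintype.card κ + 6) * Y (some (p, b))) ^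
        F.da (p, b) * (s none * Y none) ^ F.dc (p, b)) * H := by
  classical
  have s1 : ∀ o, 1 ≤ s o := fun o => one_le_of_two (hs.two o)
  have s0 : ∀ o, 0 ≤ s o := fun o => zero_le_one.trans (s1 o)
  have Y0 : ∀ o, 0 ≤ Y o := fun o => zero_le_one.trans (hY o)
  have e1 : ∑ t, h t * ∏ b, F.ev (p, b) (a b) (t b) (y none) (y (some (p, b))) =
      ∑ ω ∈ F.pat e ρ p, (∑ t, h t * ∏ b, F.Jc (p, b) (a b) (y none) (t b) (ω b)) *
        ∏ b, mon (F.u (some (p, b))) (y (some (p, b))) (ω b) := by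
    simp only [sum_mul]
    rw [sum_comm]
    refine sum_congr rfl fun t _ => ?_
    simp only [mul_assoc, ← prod_mul_distrib]
    rw [← mul_sum, pat, ← prod_univ_sum (fun b => Mon κ r e ρ (F.da (p, b))) fun b ω =>
      F.Jc (p, b) (a b) (y none) (t b) ω * mon (F.u (some (p, b))) (y (some (p, b))) ω]
    congr 1
    refine prod_congr rfl fun b _ => ?_
    rw [← eval_Ee, (hrd _).expand (hF.Ee _ _ _ _) (hy0 _)]
    rfl
  have c1 : Av.E (IsNonarchimedean v) (F.pat e ρ p).card ≤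
      ∏ b, s (some (p, b)) ^ ((r + 1 + Fintype.card κ) * F.da (p, b)) := by
    rw [pat, Fintype.card_piFinset, Nat.cast_prod, E_prod]
    exact prod_le_prod (fun b _ => E_nonneg (Nat.cast_nonneg _)) fun b _ =>
      E_le_pow (hs.two _) (by exact_mod_cast card_Mon_le_pow)
  have c2 : Av.E (IsNonarchimedean v) (univ : Finset (TT Tm p)).card ≤
      ∏ b, s (some (p, b)) ^ F.da (p, b) := egain_card hF hs p
  obtain ⟨A, hA⟩ : ∃ A, A = ∏ b, s (some (p, b)) ^ (3 * F.da (p, b)) *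
    (s none * Y none) ^ F.dc (p, b) := ⟨_, rfl⟩
  have A0 : 0 ≤ A := hA ▸ prod_nonneg fun b _ =>
    mul_nonneg (pow_nonneg (s0 _) _) (pow_nonneg (mul_nonneg (s0 _) (Y0 _)) _)
  have P0 : 0 ≤ ∏ b, (s (some (p, b)) * Y (some (p, b))) ^ F.da (p, b) :=
    prod_nonneg fun b _ => pow_nonneg (mul_nonneg (s0 _) (Y0 _)) _
  have Q0 : 0 ≤ (∏ b, s (some (p, b)) ^ F.da (p, b)) * (H * A) :=
    mul_nonneg (prod_nonneg fun b _ => pow_nonneg (s0 _) _) (mul_nonneg hH A0)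
  have M0 := mul_nonneg Q0 (mul_nonneg (pow_nonneg hγ0 L) P0)
  rw [e1]
  refine (S.sum_le_card _ M0 fun ω hω => ?_).trans
    ((mul_le_mul_of_nonneg_right c1 M0).trans_eq ?_)
  · by_cases hl : ω ∈ F.low e ρ L mk p
    · rw [h0 ω hl, zero_mul, S.zero]
      exact M0
    have hL : L ≤ ∑ b, F.wt (p, b) * ∑ l ∈ mk, ω b (.inl l) :=
      not_lt.1 fun h => hl (mem_filter.2 ⟨hω, h⟩)
    refine S.mul_le ((S.sum_le_card _ (mul_nonneg hH A0) fun t _ => S.mul_le (hh t) ?_).trans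
      (mul_le_mul_of_nonneg_right c2 (mul_nonneg hH A0))) ?_
    · rw [hA]
      exact S.prod_le _ fun b _ => Jc_le hS hF hs _ _ _ (Y0 none) (hy none) _
    · have hp : ∀ o, Y o ^ e ≤ (s o * Y o) ^ e := fun o =>
        pow_le_pow_left₀ (Y0 o) (le_mul_of_one_le_left (Y0 o) (s1 o)) e
      refine (S.prod_le _ fun b _ => S.mon_le he (mul_nonneg (s0 _) (Y0 _))
        (pow_nonneg hγ0 (F.wt (p, b)))
        (fun c => (hy _ c).trans (le_mul_of_one_le_left (Y0 _) (s1 _))) (fun l => ?_)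
        (fun l hl => (hu b l hl).trans (mul_le_mul_of_nonneg_left (hp _) (pow_nonneg hγ0 _)))
        (Fintype.mem_piFinset.1 hω b)).trans ?_
      · refine (hS.aeval_le ((hrd _).hu l) (Y0 _) (hy _)).trans ?_
        rw [mul_pow]
        exact mul_le_mul_of_nonneg_right ((hs.u _ l).trans (le_self_pow₀ (s1 _) (by omega)))
          (pow_nonneg (Y0 _) _)
      · simp only [← pow_mul]
        rw [prod_mul_distrib, prod_pow_eq_pow_sum]
        exact mul_le_mul_of_nonneg_right (pow_le_pow_of_le_one hγ0 hγ1 hL) P0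
  · have h3 : ∀ b, (s (some (p, b)) ^ (r + Fintype.card κ + 6) * Y (some (p, b))) ^ F.da (p, b) *
        (s none * Y none) ^ F.dc (p, b) =
        s (some (p, b)) ^ ((r + 1 + Fintype.card κ) * F.da (p, b)) *
          (s (some (p, b)) ^ F.da (p, b) * ((s (some (p, b)) ^ (3 * F.da (p, b)) *
            (s none * Y none) ^ F.dc (p, b)) *
            (s (some (p, b)) * Y (some (p, b))) ^ F.da (p, b))) := fun b => by
      generalize s none * Y none = Z
      ring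
    simp only [hA, h3, prod_mul_distrib]
    ring

/-- The bound from the normal forms: `SN.multi`, as `Av.Cfg.pair_gain` and `Av.Cfg.FF_gain`. -/
theorem FF_gain (he : 1 ≤ e) (hS : S.Ov v) (h : F.Hom)
    (hrd : ∀ o, IsRd (F.J o) e ρ (F.u o) (F.rd o)) (hs : F.Ok v s)
    {y : Option (Fin m × β) → κ → R} {Y : Option (Fin m × β) → ℝ}
    (hy0 : ∀ o, ∀ f ∈ F.J o, aeval (y o) f = 0) (hY : ∀ o, 1 ≤ Y o)
    (hy : ∀ o a, S.N (y o a) ≤ Y o) {γ : Fin m → ℝ} (hγ0 : ∀ p, 0 ≤ γ p) (hγ1 : ∀ p, γ p ≤ 1)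
    (hu : ∀ i, ∀ l ∈ mk, S.N (aeval (y (some i)) (F.u (some i) l)) ≤
      γ i.1 ^ F.wt i * Y (some i) ^ e) {c : F.Co} {H : ℝ} (hH : 1 ≤ H)
    (hc : ∀ z τ, |(c z τ : ℝ)| ≤ H) (hV : F.Van e ρ L mk c) (a : Fin m × β → Pr) :
    S.N (F.FF c a y) ≤ Av.E (IsNonarchimedean v) H *
      (∏ o, (s o ^ (r + Fintype.card κ + 8) * Y o) ^ F.dg o) * ∏ p, γ p ^ L := by
  have s1 : ∀ o, 1 ≤ s o := fun o => one_le_of_two (hs.two o)
  have s0 : ∀ o, 0 ≤ s o := fun o => zero_le_one.trans (s1 o)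
  have Y0 : ∀ o, 0 ≤ Y o := fun o => zero_le_one.trans (hY o)
  have H0 : 0 ≤ Av.E (IsNonarchimedean v) H := E_nonneg (zero_le_one.trans hH)
  have z0 : 0 ≤ s none * Y none := mul_nonneg (s0 _) (Y0 _)
  have w0 : ∀ o n, 0 ≤ s o ^ n * Y o := fun o n => mul_nonneg (pow_nonneg (s0 o) _) (Y0 o)
  refine (S.multi (T := fun p => TT Tm p) (L := fun p => {ω // ω ∈ F.low e ρ L mk p})
    (fun p t => ∏ b, F.ev (p, b) (a (p, b)) (t b) (y none) (y (some (p, b))))
    (fun p ω t => ∏ b, F.Jc (p, b) (a (p, b)) (y none) (t b) (ω.1 b)) _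
    (fun p => mul_nonneg (pow_nonneg (hγ0 p) L) (prod_nonneg fun b _ =>
      mul_nonneg (pow_nonneg (w0 _ _) _) (pow_nonneg z0 _)))
    (fun p g H hH hh h0 => egain_group he hS h hrd hs hy0 hY hy p (hγ0 p) (hγ1 p)
      (fun b => hu (p, b)) (fun b => a (p, b)) g hH hh fun ω hω => h0 ⟨ω, hω⟩)
    (fun τ => ∑ z, (c z τ : R) * bx (fun l => y none (F.q₀ l)) z)
    (Av.E (IsNonarchimedean v) H * (s none * Y none) ^ (r * F.n₀))
    (mul_nonneg H0 (pow_nonneg z0 _)) (egain_centre hs (Y0 none) (hy none) hH hc)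
    fun p ω τ => hV.eq_zero (hy0 none) p (fun b => a (p, b)) ω.2 τ).trans ?_
  have h1 : (s none * Y none) ^ F.dg none ≤
      (s none ^ (r + Fintype.card κ + 8) * Y none) ^ F.dg none :=
    pow_le_pow_left₀ z0 (mul_le_mul_of_nonneg_right (le_self_pow₀ (s1 _) (by omega)) (Y0 _)) _
  have h2 : ∏ i, (s (some i) ^ (r + Fintype.card κ + 6) * Y (some i)) ^ F.dg (some i) ≤
      ∏ i, (s (some i) ^ (r + Fintype.card κ + 8) * Y (some i)) ^ F.dg (some i) :=
    prod_le_prod (fun i _ => pow_nonneg (w0 _ _) _) fun i _ => pow_le_pow_left₀ (w0 _ _)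
      (mul_le_mul_of_nonneg_right (pow_le_pow_right₀ (s1 _) (by omega)) (Y0 _)) _
  rw [Fintype.prod_option]
  refine le_of_eq_of_le ?_ (mul_le_mul_of_nonneg_right (mul_le_mul_of_nonneg_left
    (mul_le_mul h1 h2 (prod_nonneg fun i _ => pow_nonneg (w0 _ _) _) (pow_nonneg (w0 _ _) _)) H0)
    (prod_nonneg fun p _ => pow_nonneg (hγ0 p) L))
  rw [show F.dg none = r * F.n₀ + ∑ i, F.dc i from rfl, pow_add,
    ← prod_pow_eq_pow_sum, Fintype.prod_prod_type, Fintype.prod_prod_type]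
  simp only [prod_mul_distrib, dg]
  ring

/-- The direct bound: `sum_le_card`, `card_Bx_le`, `Hom.card`, `E_le_pow`. -/
theorem FF_dir (h : F.Hom) (hs : F.Ok v s) {y : Option (Fin m × β) → κ → R} {Y₀ : ℝ}
    (hY : 0 ≤ Y₀) (hy : ∀ a, S.N (y none a) ≤ Y₀) (a : Fin m × β → Pr) {Z : Fin m × β → ℝ}
    (hZ0 : ∀ i, 0 ≤ Z i) (hZ : ∀ i t, S.N (F.ev i (a i) t (y none) (y (some i))) ≤ Z i)
    {c : F.Co} {H : ℝ} (hH : 1 ≤ H) (hc : ∀ z τ, |(c z τ : ℝ)| ≤ H) :
    S.N (F.FF c a y) ≤ Av.E (IsNonarchimedean v) H * (s none * Y₀) ^ (r * F.n₀) *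
      ∏ i, s (some i) ^ F.da i * Z i := by
  have s0 : ∀ o, 0 ≤ s o := fun o => zero_le_one.trans (one_le_of_two (hs.two o))
  have H0 : 0 ≤ Av.E (IsNonarchimedean v) H := E_nonneg (zero_le_one.trans hH)
  have hM := mul_nonneg (mul_nonneg H0 (pow_nonneg (mul_nonneg (s0 none) hY) (r * F.n₀)))
    (prod_nonneg fun p (_ : p ∈ univ) => prod_nonneg fun b (_ : b ∈ univ) => hZ0 (p, b))
  refine (S.sum_le_card univ hM fun τ _ => S.mul_le (egain_centre hs hY hy hH hc τ)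
    (S.prod_le _ fun p _ => S.prod_le _ fun b _ => hZ (p, b) (τ p b))).trans ?_
  have hcard : Av.E (IsNonarchimedean v) ((univ : Finset (∀ p, TT Tm p)).card : ℝ) ≤
      ∏ p, ∏ b, s (some (p, b)) ^ F.da (p, b) := by
    rw [card_univ, Fintype.card_pi, Nat.cast_prod, E_prod]
    exact prod_le_prod (fun _ _ => E_nonneg (Nat.cast_nonneg _)) fun p _ => egain_card h hs p
  refine (mul_le_mul_of_nonneg_right hcard hM).trans_eq ?_
  rw [Fintype.prod_prod_type]
  simp only [prod_mul_distrib]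
  ring

theorem egain_deg_ev {σ : Type} (h : F.Hom) (p : σ) (i : Fin m × β) (a : Pr) (t : Tm i)
    {x y : κ → MvPolynomial σ k} {d d' : ℕ} (hx : ∀ c, degreeOf p (x c) ≤ d)
    (hy : ∀ c, degreeOf p (y c) ≤ d') :
    degreeOf p (F.ev i a t x y) ≤ F.dc i * d + F.da i * d' := by
  rw [ev, aeval_def, eval₂_eq]
  refine (degreeOf_sum_le _ _ _).trans (Finset.sup_le fun μ hμ => ?_)
  have h0 := h.bih i a t (mem_support_iff.mp hμ)
  rw [Finsupp.weight_apply, Finsupp.sum] at h0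
  have h1 : degreeOf p (∏ c ∈ μ.support, Sum.elim x y c ^ μ c) ≤
      ∑ c ∈ μ.support, ((μ c • bw κ κ c).1 * d + (μ c • bw κ κ c).2 * d') :=
    (degreeOf_prod_le _ _ _).trans (sum_le_sum fun c _ => (degreeOf_pow_le _ _ _).trans (by
      rcases c with c | c
      · simpa [bw] using Nat.mul_le_mul_left _ (hx c)
      · simpa [bw] using Nat.mul_le_mul_left _ (hy c)))
  rw [sum_add_distrib, ← sum_mul, ← sum_mul, ← Prod.fst_sum, ← Prod.snd_sum, h0] at h1
  exact (degreeOf_C_mul_le _ _ _).trans h1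

theorem egain_deg_bx {σ : Type} (p : σ) {n d : ℕ} {Q : Fin (r + 1) → MvPolynomial σ k}
    (hQ : ∀ l, degreeOf p (Q l) ≤ d) (z : Bx r n) : degreeOf p (bx Q z) ≤ r * n * d := by
  refine (degreeOf_prod_le _ _ _).trans ((sum_le_sum (g := fun _ => n * d) fun l _ => ?_).trans ?_)
  · refine (degreeOf_mul_le _ _ _).trans ((Nat.add_le_add ((degreeOf_pow_le _ _ _).trans
      (Nat.mul_le_mul_left _ (hQ _))) ((degreeOf_pow_le _ _ _).trans
      (Nat.mul_le_mul_left _ (hQ _)))).trans_eq ?_)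
    rw [← add_mul, Nat.add_sub_cancel' (z l).is_le]
  · rw [sum_const, card_univ, Fintype.card_fin, smul_eq_mul, mul_assoc]

/-- The section as a polynomial in the coordinates of all blocks: degrees. It is homogeneous of
degree `dg o` for the weight that counts the variables of the block `o`. -/
theorem FF_deg (h : F.Hom) (c : F.Co) (a : Fin m × β → Pr) :
    ∀ μ ∈ (F.FF c a fun o b => (X (o, b) : MvPolynomial (Option (Fin m × β) × κ) k)).support,
      ∀ p, μ p ≤ F.dg p.1 := by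
  classical
  intro μ hμ p
  refine (monomial_le_degreeOf p hμ).trans ?_
  have hX : ∀ o b, degreeOf p (X (o, b) : MvPolynomial (Option (Fin m × β) × κ) k) ≤
      if p.1 = o then 1 else 0 := fun o b => by
    rw [degreeOf_X]
    split_ifs with h1 h2
    exacts [le_rfl, absurd (congrArg Prod.fst h1) h2, Nat.zero_le _, le_rfl]
  refine (degreeOf_sum_le _ _ _).trans (Finset.sup_le fun τ _ => (degreeOf_mul_le _ _ _).trans ?_)
  have h1 : degreeOf p (∑ z, (c z τ : MvPolynomial (Option (Fin m × β) × κ) k) *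
      bx (fun l => X (none, F.q₀ l)) z) ≤ r * F.n₀ * if p.1 = none then 1 else 0 :=
    (degreeOf_sum_le _ _ _).trans (Finset.sup_le fun z _ => by
      rw [← map_intCast (C : k →+* MvPolynomial (Option (Fin m × β) × κ) k)]
      exact (degreeOf_C_mul_le _ _ _).trans (egain_deg_bx p (fun l => hX _ _) z))
  have h2 := (degreeOf_prod_le p univ fun q => ∏ b, F.ev (q, b) (a (q, b)) (τ q b)
      (fun c => (X (none, c) : MvPolynomial (Option (Fin m × β) × κ) k))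
      fun c => X (some (q, b), c)).trans (sum_le_sum fun q _ => (degreeOf_prod_le _ _ _).trans
    (sum_le_sum fun b _ => egain_deg_ev h p (q, b) _ _ (hX none) (hX (some (q, b)))))
  refine (Nat.add_le_add h1 h2).trans_eq ?_
  rw [← Fintype.sum_prod_type (f := fun i => F.dc i * (if p.1 = none then 1 else 0) +
    F.da i * if p.1 = some i then 1 else 0)]
  obtain ⟨_ | i, b⟩ := p
  · simp [dg]
  · simp [dg]

/-- Coefficients: `FF_dir` and `ev_le` for the seminorm of `exists_polSN`, `coeff_le_polN`. -/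
theorem FF_coeff (h : F.Hom) (hs : F.Ok v s) {c : F.Co} {H : ℝ} (hH : 1 ≤ H)
    (hc : ∀ z τ, |(c z τ : ℝ)| ≤ H) (a : Fin m × β → Pr) (μ : Option (Fin m × β) × κ →₀ ℕ) :
    v (coeff μ (F.FF c a fun o b => (X (o, b) : MvPolynomial (Option (Fin m × β) × κ) k))) ≤
      Av.E (IsNonarchimedean v) H * ∏ o, s o ^ (3 * F.dg o) := by
  obtain ⟨S', hS'⟩ := exists_polSN (σ := Option (Fin m × β) × κ) (absSN v) (t := fun _ => 1)
    fun _ => zero_le_one
  have hO : S'.Ov v := SN.Ov.pol (fun _ => le_rfl) (fun _ => zero_le_one) hS'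
  have s1 : ∀ o, 1 ≤ s o := fun o => one_le_of_two (hs.two o)
  have s0 : ∀ o, 0 ≤ s o := fun o => zero_le_one.trans (s1 o)
  have hX : ∀ c, S'.N (X c) ≤ 1 := fun c => by
    rw [hS']
    exact polN_X _ (fun _ => zero_le_one) c
  have h1 := FF_dir (S := S') h hs (y := fun o b => X (o, b)) zero_le_one (fun b => hX _) a
    (Z := fun i => (s none * 1) ^ F.dc i * (s (some i) ^ 2 * 1) ^ F.da i)
    (fun i => mul_nonneg (pow_nonneg (mul_nonneg (s0 _) zero_le_one) _)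
      (pow_nonneg (mul_nonneg (sq_nonneg _) zero_le_one) _))
    (fun i t => ev_le hO h hs i (a i) t zero_le_one zero_le_one (fun b => hX _) fun b => hX _)
    hH hc
  rw [hS'] at h1
  refine ((coeff_le_pl v _ μ).trans h1).trans ?_
  have h2 : s none ^ F.dg none ≤ s none ^ (3 * F.dg none) := pow_le_pow_right₀ (s1 _) (by omega)
  rw [Fintype.prod_option, mul_assoc]
  refine mul_le_mul_of_nonneg_left (le_of_eq_of_le ?_ (mul_le_mul_of_nonneg_right h2
    (prod_nonneg fun i _ => pow_nonneg (s0 _) _))) (E_nonneg (zero_le_one.trans hH))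
  rw [show F.dg none = r * F.n₀ + ∑ i, F.dc i from rfl, pow_add, ← prod_pow_eq_pow_sum, mul_assoc,
    ← prod_mul_distrib, mul_one]
  congr 1
  exact prod_congr rfl fun i _ => by rw [show F.dg (some i) = F.da i from rfl]; ring

end Pool.Agent.Lib.MP_651af7_nt.Cn.Cfg
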