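import Pool.Agent.Lib.MP_651af7_nt.Cn.ELocB

/-! Engine: the global inequality. Model: `Av.Cfg.global_ineq`. -/

namespace Pool.Agent.Lib.MP_651af7_nt.Cn

open MvPolynomial Finset Height
open Pool.Agent.Lib.MP_651af7_nt.Av Pool.Agent.Lib.MP_651af7_nt.Av.AV
open Pool.Agent.Lib.MP_651af7_nt.Vj

variable {k ι β : Type} [Field k] [NumberField k] [Fintype ι] {A B : AV k ι}
  [Fintype β] [DecidableEq β] {g ρ m σ n₀ : ℕ} {n j : Fin m × β → ℕ}
  {fr : Fin m × β → Fin (g + 1) → ι} {k₀ k₂ : Fin m × β → ι} {b : Option (Fin m × β) → Blk A g ρ}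
  {rd : Option (Fin m × β) → (Option ι →₀ ℕ) → MvPolynomial (Fin (g + 1 + 1) ⊕ Option ι) k}
  {ξ : Option (Fin m × β) → Option ι → MvPowerSeries (Fin (g + 1)) k}

section aux

variable {f f' : AbsoluteValue k ℝ → ℝ} {x x' : ℝ}

theorem eglob_add (h : FinS f ∧ gsum f = x) (h' : FinS f' ∧ gsum f' = x') :
    FinS (fun w => f w + f' w) ∧ gsum (fun w => f w + f' w) = x + x' :=
  ⟨h.1.add h'.1, by rw [gsum_add h.1 h'.1, h.2, h'.2]⟩

theorem eglob_mul (c : ℝ) (h : FinS f ∧ gsum f = x) :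
    FinS (fun w => c * f w) ∧ gsum (fun w => c * f w) = c * x :=
  ⟨h.1.const_mul c, by rw [gsum_const_mul h.1, h.2]⟩

theorem eglob_sum {I : Type} [Fintype I] {F : I → AbsoluteValue k ℝ → ℝ} {y : I → ℝ}
    (h : ∀ i, FinS (F i) ∧ gsum (F i) = y i) :
    FinS (fun w => ∑ i, F i w) ∧ gsum (fun w => ∑ i, F i w) = ∑ i, y i :=
  ⟨finS_sum univ fun i _ => (h i).1, by
    rw [gsum_sum univ fun i _ => (h i).1]
    exact sum_congr rfl fun i _ => (h i).2⟩

theorem eglob_neg {v : ι → k} (hv : v ≠ 0) : FinS (fun w => max 0 (-ell w v)) ∧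
    gsum (fun w => max 0 (-ell w v)) = hc v + -1 * logHeight v := by
  have h := eglob_add ⟨finS_pos hv, gsum_pos hv⟩ (eglob_mul (-1) ⟨finS_ell v, gsum_ell hv⟩)
  rwa [show (fun w => max 0 (ell w v) + -1 * ell w v) = fun w => max 0 (-ell w v) from
    funext fun w => by rcases le_total 0 (ell w v) with h | h <;> simp [h]] at h

open Classical in
theorem eglob_cnt (T : Finset (AbsoluteValue k ℝ)) (v : ι → k) :
    FinS (fun w => if w ∈ T then 0 else |ell w v|) ∧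
      gsum (fun w => if w ∈ T then 0 else |ell w v|) = cnt T v :=
  ⟨pf_of_le (finS_ell v) fun w hw => by simp [hw], rfl⟩

theorem eglob_pf {I : Type} [Fintype I] {l : k} (hl : l ≠ 0) {y₁ y₂ y₃ : I → ι → k}
    (h₁ : ∀ i, y₁ i ≠ 0) (h₂ : ∀ i, y₂ i ≠ 0) (h₃ : ∀ i, y₃ i ≠ 0) (d₁ d₂ d₃ : I → ℕ) (hf : FinS f)
    (h : ∀ w, (∏ i, nm w (y₁ i) ^ d₁ i * nm w (y₂ i) ^ d₂ i * nm w (y₃ i) ^ d₃ i) * w l ≤
      Real.exp (f w)) :
    ∑ i, (d₁ i * logHeight (y₁ i) + d₂ i * logHeight (y₂ i) + d₃ i * logHeight (y₃ i)) ≤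
      gsum f := by
  have h1 := eglob_add (eglob_sum fun i => eglob_add (eglob_add
    (eglob_mul (d₁ i) ⟨finS_nm _, gsum_nm (h₁ i)⟩) (eglob_mul (d₂ i) ⟨finS_nm _, gsum_nm (h₂ i)⟩))
    (eglob_mul (d₃ i) ⟨finS_nm _, gsum_nm (h₃ i)⟩)) ⟨finS_log l, gsum_log hl⟩
  rw [← add_zero (∑ _, _), ← h1.2]
  refine gsum_mono h1.1 hf fun w _ => Real.exp_le_exp.1 (le_trans (le_of_eq ?_) (h w))
  rw [Real.exp_add, Real.exp_log (w.pos hl), Real.exp_sum]
  refine congrArg (· * _) (prod_congr rfl fun i _ => ?_)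
  rw [Real.exp_add, Real.exp_add, Real.exp_nat_mul, Real.exp_nat_mul, Real.exp_nat_mul,
    Real.exp_log (nm_pos w (h₁ i)), Real.exp_log (nm_pos w (h₂ i)), Real.exp_log (nm_pos w (h₃ i))]

end aux

/-- The sum of the main terms: `gsum_ell`, `gsum_pos`, `ht_eq`. -/
theorem gsum_mt {I : Type} [Fintype I] (g q n₀ : ℕ) (n j : I → ℕ) {v : Option I → ι → k}
    (hv : ∀ o, v o ≠ 0) : FinS (fun w => mt g q n₀ n j fun o => ell w (v o)) ∧
    gsum (fun w => mt g q n₀ n j fun o => ell w (v o)) = ((g + 1) * n₀ : ℕ) * hc (v none) +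
      ∑ i, (DY g q (n i) * (2 * logHeight (v (some i)) + 2 * (4 ^ j i * logHeight (v none))) +
        n i * ((q - 1) * logHeight (v (some i)) + q * (4 ^ j i * logHeight (v none)) +
          hc (v (some i)) + q * gsum fun w => |ell w (v (some i)) - 4 ^ j i * ell w (v none)|) +
        q * hc (v (some i))) := by
  have h1 : ∀ o, FinS (fun w => ell w (v o)) ∧ _ := fun o => ⟨finS_ell _, gsum_ell (hv o)⟩
  have h2 : ∀ o, FinS (fun w => max 0 (ell w (v o))) ∧ _ :=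
    fun o => ⟨finS_pos (hv o), gsum_pos (hv o)⟩
  have h3 : ∀ i, FinS fun w => |ell w (v (some i)) - 4 ^ j i * ell w (v none)| := fun i =>
    pf_of_le ((h1 (some i)).1.add ((h1 none).1.const_mul (-4 ^ j i))) fun w hw => by
      rw [abs_eq_zero, ← hw]
      ring
  exact eglob_add (eglob_mul _ (h2 none)) (eglob_sum fun i => eglob_add (eglob_add
    (eglob_mul _ (eglob_add (eglob_mul 2 (h1 _)) (eglob_mul 2 (eglob_mul _ (h1 _)))))
    (eglob_mul _ (eglob_add (eglob_add (eglob_add (eglob_mul _ (h1 _))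
      (eglob_mul _ (eglob_mul _ (h1 _)))) (h2 _)) (eglob_mul _ ⟨h3 i, rfl⟩))))
    (eglob_mul _ (h2 _)))

/-- Sketch. `exists_pts`, `S i = (p i + 2 ^ j • p none).co`, `FF_pres`: `FF a = U a * f`;
`exists_min` gives `α ≤ α'`. The constant term of `U a` is the product of the powers of
`cc (S i (a i).1)`, `dbn (b none).v (j i) (a i).2.1`, `(b i).v (a i).2.2`; these vectors are
coordinates of `P i + 2 ^ j • P₀`, `2 ^ j • P₀`, `P i`. At each place choose `a` by `exists_nm`,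
apply `local_ineq` with `t p = t * μ p v`, `P = (v ∈ T)`, take logarithms and sum (`gsum_log`,
`gsum_nm`, `gsum_mono`, `gsum_mt`); `gsum (max 0 (-ell)) = hc - logHeight ≤ hc`. -/
theorem global_ineq (h : Sub A B) {e L : ℕ} {mk : Finset (Fin (g + 1 + 1))} (he : 1 ≤ e)
    (hb : ∀ o, (b o).Geom B) (hξ : ∀ o, (b o).C.Br (pt (b o).v) (ξ o))
    (hrd : ∀ o, IsRd (b o).J e ρ (b o).u (rd o)) {c : (cfg σ n₀ n j fr k₀ k₂ b rd).Co} {H : ℝ}
    (hH : 1 ≤ H) (hc' : ∀ z τ, |(c z τ : ℝ)| ≤ H)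
    (hV : (cfg σ n₀ n j fr k₀ k₂ b rd).Van e ρ L mk c)
    {s q : Option (Fin m × β) → AbsoluteValue k ℝ → ℝ} {h₁ h₂ : Option (Fin m × β) → ℝ}
    (as : ∀ o, Ad (s o) (h₁ o)) (aq : ∀ o, Ad (q o) (h₂ o)) (h0 : ∀ o v, Sz₀ A v (s o v))
    (hs : ∀ v, (cfg σ n₀ n j fr k₀ k₂ b rd).Ok v fun o => s o v)
    (hq : ∀ o v a, Geo v (q o v) (ξ o a)) {T : Finset (AbsoluteValue k ℝ)}
    {μ : Fin m → AbsoluteValue k ℝ → ℝ} (hμ : ∀ p, Prob T (μ p)) {t θ : ℝ} (ht : 0 ≤ t)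
    (hm : ∀ i v, ∀ l ∈ mk, v (eval (pt (b (some i)).v) ((b (some i)).u l)) ≤
      s (some i) v * Real.exp (-(4 ^ j i * (t * μ i.1 v))) * nm v (pt (b (some i)).v) ^ e)
    (hN : ∀ i, Near A θ (j i) (b none).P (b (some i)).P (b none).v (b (some i)).v)
    {α' : Option (Fin m × β) × Fin (g + 1) →₀ ℕ} {a : Fin m × β → ι × ι × ι}
    (hα : MvPowerSeries.coeff α'
      ((cfg σ n₀ n j fr k₀ k₂ b rd).FF c a fun o d => xo ξ (o, d)) ≠ 0) :
    ∃ α ≤ α', L * (m * t) ≤ totalWeight k * Real.log H +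
      ∑ o, ((g + Fintype.card ι + 14) * (cfg σ n₀ n j fr k₀ k₂ b rd).dg o : ℕ) * h₁ o +
      ((g + 1) * n₀ : ℕ) * hc (b none).v +
      ∑ i, (DY g (2 ^ σ) (n i) * (θ * hc (b (some i)).v) +
        n i * (2 ^ σ * (4 ^ j i * AV.ht (b none).P - AV.ht (2 ^ j i • (b none).P)) +
          hc (b (some i)).v + 2 ^ σ * (θ * hc (b (some i)).v)) + 2 ^ σ * hc (b (some i)).v) +
      2 * ∑ o, ((cfg σ n₀ n j fr k₀ k₂ b rd).dg o : ℝ) * cnt T (b o).v +
      ∑ o, bdeg α o * (h₂ o + sg j (fun _ => t) o + hc (b o).v) := by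
  have : Nonempty ι := ⟨A.ao⟩
  obtain ⟨p, hp⟩ := exists_pts h hb hξ
  obtain ⟨f, hf⟩ := FF_pres (x := fun o d => xo ξ (o, d)) (fun o => (hp o).1)
    (fun i => rep_co (p (some i) + 2 ^ j i • p none)) c
  rw [hf] at hα
  obtain ⟨α, hle, hα0, hmin⟩ := exists_min hα
  refine ⟨α, hle, ?_⟩
  have hv := fun o => rep_ne (hb o).rep
  have r1 : ∀ i, Rep ((b (some i)).P + 2 ^ j i • (b none).P)
      fun d => cc k _ ((p (some i) + 2 ^ j i • p none).co d) := fun i => by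
    have h1 := (rep_co (p (some i) + 2 ^ j i • p none)).map (cc k _)
    rwa [map_add, map_nsmul, (hp _).2.1, (hp _).2.1] at h1
  have r2 := fun i => (hb none).rep.dbn (j i)
  have g0 : ∀ o, FinS (fun w => sg j (fun p => t * μ p w) o) ∧
      gsum (fun w => sg j (fun p => t * μ p w) o) = sg j (fun _ => t) o := fun o => by
    cases o with
    | none => exact ⟨pf_finS_zero, pf_gsum_zero⟩
    | some i => simpa only [mul_one, sg] using
        eglob_mul (4 ^ j i) (eglob_mul t ⟨(hμ i.1).fin, (hμ i.1).sum⟩)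
  have g1 := eglob_add (eglob_add (eglob_add (eglob_add (eglob_add ⟨(ad_E (k := k) hH).fin, rfl⟩
    (eglob_sum fun o => eglob_mul (((g + Fintype.card ι + 14) *
      (cfg σ n₀ n j fr k₀ k₂ b rd).dg o : ℕ) : ℝ) ⟨(as o).fin, rfl⟩))
    (gsum_mt g (2 ^ σ) n₀ n j hv)) (eglob_mul 2 (eglob_sum fun o =>
      eglob_mul ((cfg σ n₀ n j fr k₀ k₂ b rd).dg o) (eglob_cnt T (b o).v))))
    (eglob_mul (-L) (eglob_sum fun p => eglob_mul t ⟨(hμ p).fin, (hμ p).sum⟩)))
    (eglob_sum fun o => eglob_mul (bdeg α o)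
      (eglob_add (eglob_add ⟨(aq o).fin, rfl⟩ (g0 o)) (eglob_neg (hv o))))
  have key := eglob_pf hα0 (fun i => rep_ne (r1 i)) (fun i => rep_ne (r2 i)) (fun i => hv (some i))
    (fun i => DY g (2 ^ σ) (n i)) (fun i => 2 ^ σ * n i) (fun i => (2 ^ σ - 1) * n i) g1.1 fun w => by
      classical
      choose a₁ e₁ using fun i => exists_nm w fun d => cc k _ ((p (some i) + 2 ^ j i • p none).co d)
      choose a₂ e₂ using fun i => exists_nm w (A.dbn (b none).v (j i))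
      choose a₃ e₃ using fun i => exists_nm w (b (some i)).v
      have h1 := local_ineq he hb hξ hrd hH hc' hV w (fun o => h0 o w) (hs w) (fun o => hq o w)
        (fun o => (aq o).one w) (t := fun p => t * μ p w) (fun p => mul_nonneg ht ((hμ p).nn w))
        (w ∈ T) (fun hw p => by rw [(hμ p).zero w hw, mul_zero]) (fun i => hm i w) α
        fun i => (a₁ i, a₂ i, a₃ i)
      rw [hf, hmin, ← cc_apply] at h1
      simp only [map_mul, map_prod, map_pow, map_dbn, xo_const hξ, pt_some, e₁, e₂, e₃] at h1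
      refine h1.trans (le_of_eq (congrArg _ ?_))
      by_cases hw : w ∈ T <;> simp only [hw, if_true, if_false, mul_zero, sum_const_zero] <;> ring
  rw [g1.2] at key
  have b1 := (ad_E (k := k) hH).le
  have b2 := sum_le_sum fun o (_ : o ∈ univ) => mul_le_mul_of_nonneg_left (as o).le
    (Nat.cast_nonneg (α := ℝ) ((g + Fintype.card ι + 14) * (cfg σ n₀ n j fr k₀ k₂ b rd).dg o))
  have b3 : ∑ o, bdeg α o * (gsum (fun w => Real.log (q o w)) + sg j (fun _ => t) o +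
      (hc (b o).v + -1 * logHeight (b o).v)) ≤
      ∑ o, bdeg α o * (h₂ o + sg j (fun _ => t) o + hc (b o).v) :=
    sum_le_sum fun o _ => mul_le_mul_of_nonneg_left
      (by linarith [(aq o).le, logHeight_nonneg (b o).v]) (Nat.cast_nonneg _)
  simp only [← ht_eq (r1 _), ← ht_eq (r2 _), mul_one, sum_const, card_univ, Fintype.card_fin,
    nsmul_eq_mul] at key
  have b4 := sum_le_sum fun i (_ : i ∈ univ) => show DY g (2 ^ σ) (n i) *
      (2 * logHeight (b (some i)).v + 2 * (4 ^ j i * logHeight (b none).v)) +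
      n i * ((((2 ^ σ : ℕ) : ℝ) - 1) * logHeight (b (some i)).v +
        (2 ^ σ : ℕ) * (4 ^ j i * logHeight (b none).v) + hc (b (some i)).v + (2 ^ σ : ℕ) *
          gsum fun w => |ell w (b (some i)).v - 4 ^ j i * ell w (b none).v|) +
      (2 ^ σ : ℕ) * hc (b (some i)).v ≤ (DY g (2 ^ σ) (n i) * (θ * hc (b (some i)).v) +
        n i * (2 ^ σ * (4 ^ j i * AV.ht (b none).P - AV.ht (2 ^ j i • (b none).P)) +
          hc (b (some i)).v + 2 ^ σ * (θ * hc (b (some i)).v)) + 2 ^ σ * hc (b (some i)).v) +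
      (DY g (2 ^ σ) (n i) * AV.ht ((b (some i)).P + 2 ^ j i • (b none).P) +
        (2 ^ σ * n i : ℕ) * AV.ht (2 ^ j i • (b none).P) +
        ((2 ^ σ - 1) * n i : ℕ) * logHeight (b (some i)).v) by
    have c1 := mul_le_mul_of_nonneg_left (hN i).par (Nat.cast_nonneg (α := ℝ) (DY g (2 ^ σ) (n i)))
    have c2 := mul_le_mul_of_nonneg_left (hN i).loc (show (0 : ℝ) ≤ n i * 2 ^ σ by positivity)
    rw [← ht_eq (hb none).rep, ← ht_eq (hb (some i)).rep, Nat.cast_mul, Nat.cast_mul,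
      Nat.cast_sub Nat.one_le_two_pow]
    push_cast
    linarith
  replace b4 := b4.trans_eq sum_add_distrib
  linarith

end Pool.Agent.Lib.MP_651af7_nt.Cn
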