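import Pool.Agent.Lib.MP_651af7_nt.Cn.Defs
import Pool.Agent.Lib.MP_651af7_nt.Av.Tr

/-! Engine: algebraically independent coordinates. -/

namespace Pool.Agent.Lib.MP_651af7_nt.Cn

open MvPolynomial
open Pool.Agent.Lib.MP_651af7_nt.Av Pool.Agent.Lib.MP_651af7_nt.Av.AV

variable {k ι F : Type} [Field k] [Fintype ι] [Field F] [Algebra k F]

/-- A family over which an independent family of the same size is algebraic is independent. -/
theorem indep_of_span {σ τ : Type} [Fintype σ] [Fintype τ] {y : σ → F} {z : τ → F}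
    (hy : AlgebraicIndependent k y) (hc : Fintype.card τ ≤ Fintype.card σ)
    (h : ∀ i, y i ∈ (AlgebraicIndependent.matroid k F).closure (Set.range z)) :
    AlgebraicIndependent k z := by
  obtain ⟨ρ, e, h1, h2, h3, -⟩ := exists_td_basis_range k z
  have := Fintype.ofInjective e h1
  have h4 := (card_le_td hy h).trans ((Matroid.eRk_closure_eq _ _).trans h3.symm).le
  rw [ENat.card_eq_coe_fintype_card, ENat.card_eq_coe_fintype_card, Nat.cast_le] at h4
  exact (algebraicIndependent_equiv (Equiv.ofBijective e ((Fintype.bijective_iff_injective_and_card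
    e).2 ⟨h1, le_antisymm (Fintype.card_le_of_injective e h1) (hc.trans h4)⟩))).1 h2

theorem einda_span {g : ℕ} (w : ι → F) (a₀ : ι) (h : td k (Set.range w) ≤ g) :
    ∃ f : Fin g → ι, ∀ a, w a ∈ (AlgebraicIndependent.matroid k F).closure
      (Set.range fun l => w (f l)) := by
  obtain ⟨ρ, e, h1, -, h3, h4⟩ := exists_td_basis_range k w
  have := Fintype.ofInjective e h1
  rw [← h3, ENat.card_eq_coe_fintype_card, Nat.cast_le, ← Fintype.card_fin g] at h
  obtain ⟨u⟩ := Function.Embedding.nonempty_of_card_le h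
  refine ⟨Function.extend u e fun _ => a₀, fun a => Matroid.closure_subset_closure _
    (X := Set.range (w ∘ e)) ?_ ?_⟩
  · rintro _ ⟨r, rfl⟩
    exact ⟨u r, congrArg w (u.injective.extend_apply _ _ r)⟩
  · rw [AlgebraicIndependent.matroid_closure_eq]
    exact h4 a

theorem einda_td {A B : AV k ι} (h : Sub A B) (b : B.Pt F) (s : A.Pt k) :
    td k (rat (h.inc F b + A.map (Algebra.ofId k F) s).co) ≤ B.dim := by
  refine (tr_td_le (A.rat_add_sub (K := k) _ _).1).trans ((td_union_le _ _).trans ?_)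
  rw [show Algebra.ofId k F = IsScalarTower.toAlgHom k k F from Subsingleton.elim _ _, A.td_map,
    add_zero, A.tr_rat_rep (h.rep_inc (rep_co b))]
  exact B.td_le_dim (rep_co b).zero

/-- Sketch. `Y i = p i - 2 ^ j i • p₀` lies in a coset of `B` by a rational point, so
`td k (rat (Y i).co) ≤ g` (`rat_add_sub`, `td_map`, `td_le_dim`). All `v (some i) a` lie in the
closure of `t (none, ·)`, `rat (Y i).co`, `v (some i) (k₂ i)` (`rat_add_sub`, induction on `j`), so
`2 (g + 1) ≤ (g + 1) + td + 1` (`card_le_td`) and `td = g`; `exists_td_basis_range` for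
`a ↦ (Y a₀)⁻¹ * Y a`. Then `indep_of_span` for the whole family, `L` from `tr_cl`,
`AlgebraicIndependent.sumElim_iff`, `AlgebraicIndependent.extendScalars`. -/
theorem exists_indep {A B : AV k ι} (h : Sub A B) {g : ℕ} (hg : B.dim ≤ g) {I : Type} [Fintype I]
    (j : I → ℕ) {p : Option I → A.Pt F} {s : Option I → A.Pt k} {v : Option I → ι → F}
    (hv : ∀ o, Rep (p o) (v o))
    (hs : ∀ o, p o - A.map (Algebra.ofId k F) (s o) ∈ (h.inc F).range)
    {t : Option I × Fin (g + 1) → F} (ht : AlgebraicIndependent k t)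
    (hm : ∀ o l, t (o, l) ∈ Set.range (v o))
    (ha : ∀ a, v none a ∈ (AlgebraicIndependent.matroid k F).closure
      (Set.range fun l => t (none, l)))
    {k₂ : I → ι} (hk : ∀ i, v (some i) (k₂ i) ≠ 0) :
    ∃ (fr : I → Fin (g + 1) → ι) (L : IntermediateField k F),
      (∀ i, (p (some i) - 2 ^ j i • p none).co (fr i 0) ≠ 0) ∧
      AlgebraicIndependent L (fun i => v (some i) (k₂ i)) ∧
      AlgebraicIndependent k (Sum.elim (fun l => t (none, l)) fun x : I × Fin g =>
        (p (some x.1) - 2 ^ j x.1 • p none).co (fr x.1 x.2.succ) /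
          (p (some x.1) - 2 ^ j x.1 • p none).co (fr x.1 0)) ∧
      (∀ a, v none a ∈ L) ∧ ∀ i a, v (some i) a / v (some i) (k₂ i) ∈ L := by
  choose b hb using hs
  choose a₀ h0 using fun i => (rep_co (p (some i) - 2 ^ j i • p none)).unit
  replace h0 := fun i => (h0 i).ne_zero
  choose f hf using fun i => einda_span (k := k) (g := g) (fun a => ((p (some i) - 2 ^ j i •
    p none).co (a₀ i))⁻¹ * (p (some i) - 2 ^ j i • p none).co a) (a₀ i) (by
      have e : p (some i) - 2 ^ j i • p none = h.inc F (b (some i) - 2 ^ j i • b none) +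
          A.map (Algebra.ofId k F) (s (some i) - 2 ^ j i • s none) := by
        rw [map_sub, map_sub, map_nsmul, map_nsmul, hb, hb, smul_sub]
        abel
      rw [← td_rat_eq (h0 i), e]
      exact (einda_td h _ _).trans (Nat.cast_le.2 hg))
  set z : Fin (g + 1) ⊕ I × Fin g → F := Sum.elim (fun l => t (none, l)) fun x =>
    (p (some x.1) - 2 ^ j x.1 • p none).co (f x.1 x.2) /
      (p (some x.1) - 2 ^ j x.1 • p none).co (a₀ x.1) with hz
  obtain ⟨L, hL, hS⟩ := tr_cl (K := k) (Set.range z)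
  have h1 : ∀ {S : Set F}, S ⊆ L → (AlgebraicIndependent.matroid k F).closure S ⊆ L := fun hS' =>
    hL ▸ Matroid.closure_subset_closure_of_subset_closure (hL ▸ hS')
  have h2 : ∀ a, v none a ∈ L := fun a => h1 (by
    rintro _ ⟨l, rfl⟩
    exact hS ⟨.inl l, rfl⟩) (ha a)
  have h3 : ∀ P Q : A.Pt F, rat P.co ⊆ L → rat Q.co ⊆ L → rat (P + Q).co ⊆ L := fun P Q hP hQ =>
    (A.rat_add_sub (K := k) P Q).1.trans (h1 (Set.union_subset hP hQ))
  have h4 : ∀ n : ℕ, rat (2 ^ n • p none).co ⊆ L := fun n => by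
    induction n with
    | zero =>
      rw [pow_zero, one_smul, A.tr_rat_rep (hv none)]
      rintro _ ⟨x, rfl⟩
      exact L.div_mem (h2 _) (h2 _)
    | succ n ih =>
      rw [pow_succ, mul_two, add_smul]
      exact h3 _ _ ih ih
  have h5 : ∀ i a, v (some i) a / v (some i) (k₂ i) ∈ L := fun i a => by
    have h6 : ∀ c, ((p (some i) - 2 ^ j i • p none).co (a₀ i))⁻¹ *
        (p (some i) - 2 ^ j i • p none).co c ∈ L := fun c => h1 (by
      rintro _ ⟨l, rfl⟩
      exact hS ⟨.inr (i, l), div_eq_inv_mul _ _⟩) (hf i c)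
    have h7 := h3 (p (some i) - 2 ^ j i • p none) _ (by
      rintro _ ⟨x, rfl⟩
      have := L.div_mem (h6 x.1) (h6 x.2)
      rwa [mul_div_mul_left _ _ (inv_ne_zero (h0 i))] at this) (h4 (j i))
    rw [sub_add_cancel, A.tr_rat_rep (hv (some i))] at h7
    exact h7 ⟨(a, k₂ i), rfl⟩
  obtain ⟨L', hL', hS'⟩ := tr_cl (K := k) (Set.range (Sum.elim (fun i => v (some i) (k₂ i)) z))
  have h6 : (L : Set F) ⊆ L' := by
    rw [hL, hL']
    refine Matroid.closure_subset_closure _ ?_
    rintro _ ⟨x, rfl⟩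
    exact ⟨.inr x, rfl⟩
  have h7 := AlgebraicIndependent.sumElim_iff.1 (indep_of_span
    (z := Sum.elim (fun i => v (some i) (k₂ i)) z) ht (by simp; ring_nf; omega) (by
      rw [← hL']
      rintro ⟨_ | i, l⟩
      · exact hS' ⟨.inr (.inl l), rfl⟩
      · obtain ⟨a, e⟩ := hm (some i) l
        rw [← e, ← div_mul_cancel₀ (v (some i) a) (hk i)]
        exact L'.mul_mem (h6 (h5 i a)) (hS' ⟨.inl i, rfl⟩)))
  refine ⟨fun i => Fin.cons (a₀ i) (f i), L, h0, ?_, h7.1, h2, h5⟩
  let _ : Algebra (Algebra.adjoin k (Set.range z)) L :=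
    (Subalgebra.inclusion (T := L.toSubalgebra) (Algebra.adjoin_le hS)).toAlgebra
  have : IsScalarTower (Algebra.adjoin k (Set.range z)) L F := .of_algebraMap_eq fun _ => rfl
  have : Algebra.IsAlgebraic (Algebra.adjoin k (Set.range z)) L := ⟨fun x =>
    (isAlgebraic_algebraMap_iff (algebraMap L F).injective).1
      ((hL.trans AlgebraicIndependent.matroid_closure_eq).le x.2)⟩
  exact h7.2.extendScalars L

end Pool.Agent.Lib.MP_651af7_nt.Cn
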