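import Pool.Agent.Lib.MP_651af7_nt.Cn.ECfg
import Pool.Agent.Lib.MP_651af7_nt.Av.EJc

/-! Engine: the coefficients of the normal forms. Model: `Av/EJc.lean`. -/

namespace Pool.Agent.Lib.MP_651af7_nt.Cn.Cfg

open MvPolynomial Finset
open Pool.Agent.Lib.MP_651af7_nt.Av

variable {k κ Pr β R R' : Type} [Field k] [CommRing R] [Algebra k R] [CommRing R'] [Algebra k R']
  {r m : ℕ} {Tm : Fin m × β → Type} {F : Cfg k κ Pr β r m Tm} [Fintype β] [DecidableEq β]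
  [∀ i, Fintype (Tm i)] [Fintype κ]

theorem eval_Ee (i : Fin m × β) (a : Pr) (y₀ y : κ → R) (t : Tm i) :
    eval y (F.Ee i a y₀ t) = F.ev i a t y₀ y := by
  have h := F.map_ev ((aeval y : MvPolynomial κ R →ₐ[R] R).restrictScalars k) i a t
    (fun c => C (y₀ c)) X
  simpa [aeval_eq_eval, Cfg.Ee] using h

theorem ejc_bih_hom {σ : Type} {P : MvPolynomial (κ ⊕ κ) k} {c c' : ℕ}
    (hP : P.IsWeightedHomogeneous (bw κ κ) (c, c')) {x y : κ → MvPolynomial σ R} {d d' : ℕ}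
    (hx : ∀ c, (x c).IsHomogeneous d) (hy : ∀ c, (y c).IsHomogeneous d') :
    (aeval (Sum.elim x y) P).IsHomogeneous (c * d + c' * d') := by
  rw [aeval_def, eval₂_eq]
  refine IsHomogeneous.sum _ _ _ fun μ hμ => ?_
  have h := hP (mem_support_iff.mp hμ)
  rw [Finsupp.weight_apply, Finsupp.sum] at h
  have h1 : (∏ i ∈ μ.support, Sum.elim x y i ^ μ i).IsHomogeneous
      (∑ i ∈ μ.support, ((μ i • bw κ κ i).1 * d + (μ i • bw κ κ i).2 * d')) :=
    IsHomogeneous.prod _ _ _ fun i _ => by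
      rcases i with c | c
      · simpa [bw, mul_comm] using (hx c).pow (μ (.inl c))
      · simpa [bw, mul_comm] using (hy c).pow (μ (.inr c))
  rw [sum_add_distrib, ← sum_mul, ← sum_mul, ← Prod.fst_sum, ← Prod.snd_sum, h] at h1
  rw [MvPolynomial.algebraMap_apply]
  exact h1.C_mul _

theorem ejc_map_Ee (f : R →ₐ[k] R') (i : Fin m × β) (a : Pr) (y₀ : κ → R) (t : Tm i) :
    MvPolynomial.map (f : R →+* R') (F.Ee i a y₀ t) = F.Ee i a (fun c => f (y₀ c)) t := by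
  have h := F.map_ev (mapAlgHom (σ := κ) f) i a t (fun c => C (y₀ c)) X
  simpa [Cfg.Ee] using h

theorem ejc_Jc_mul (h : F.Hom) (i : Fin m × β) (a : Pr) (s : R) (y₀ : κ → R) (t : Tm i)
    (ω : Ex r κ) : F.Jc i a (fun c => s * y₀ c) t ω = s ^ F.dc i * F.Jc i a y₀ t ω := by
  have h1 := aeval_mul_of_bih (h.bih i a t) (C s : MvPolynomial κ R) 1 (fun c => C (y₀ c)) X
  simp only [one_mul, one_pow, mul_one, ← map_mul, ← map_pow] at h1
  rw [Cfg.Jc, Cfg.Jc, Cfg.Ee, Cfg.Ee, ev, ev, h1, redc_C_mul]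

theorem Hom.Ee (h : F.Hom) (i : Fin m × β) (a : Pr) (y₀ : κ → R) (t : Tm i) :
    (F.Ee i a y₀ t).IsHomogeneous (F.da i) := by
  have h1 := ejc_bih_hom (h.bih i a t) (x := fun c => (C (y₀ c) : MvPolynomial κ R)) (y := X)
    (fun c => isHomogeneous_C _ _) fun c => isHomogeneous_X R c
  rwa [mul_zero, zero_add, mul_one] at h1

theorem map_Jc (f : R →ₐ[k] R') (i : Fin m × β) (a : Pr) (y₀ : κ → R) (t : Tm i) (ω : Ex r κ) :
    f (F.Jc i a y₀ t ω) = F.Jc i a (fun c => f (y₀ c)) t ω := by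
  rw [Cfg.Jc, map_redc, ejc_map_Ee, Cfg.Jc]

/-- `aeval_mul_of_bih`, `redc_C_mul`, `ejc_hom_of_scale`. -/
theorem Hom.Jc (h : F.Hom) (i : Fin m × β) (a : Pr) (t : Tm i) (ω : Ex r κ) :
    (F.Jc i a (X : κ → MvPolynomial κ k) t ω).IsHomogeneous (F.dc i) := by
  refine Av.Cfg.ejc_hom_of_scale ?_
  have h1 := map_Jc (F := F)
    (IsScalarTower.toAlgHom k (MvPolynomial κ k) (Polynomial (MvPolynomial κ k))) i a X t ω
  rw [map_Jc]
  simp only [aeval_X]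
  rw [ejc_Jc_mul h]
  exact congrArg _ h1.symm

theorem map_slice (f : R →ₐ[k] R') (c : F.Co) (p : Fin m) (a : β → Pr) (ω : β → Ex r κ)
    (τ : ∀ p, TT Tm p) (y₀ : κ → R) :
    f (F.slice c p a ω τ y₀) = F.slice c p a ω τ fun c => f (y₀ c) := by
  have h : ∀ {n : ℕ} (Q : Fin (r + 1) → R) (z : Bx r n), f (bx Q z) = bx (fun l => f (Q l)) z :=
    fun Q z => map_bx (f : R →+* R') Q z
  simp only [slice, map_sum, map_mul, map_prod, map_intCast, h, map_Jc]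

theorem Van.eq_zero {e ρ L : ℕ} {mk : Finset (Fin (r + 1))} {c : F.Co} (h : F.Van e ρ L mk c)
    {y₀ : κ → R} (hy : ∀ f ∈ F.J none, aeval y₀ f = 0) (p : Fin m) (a : β → Pr)
    {ω : β → Ex r κ} (hω : ω ∈ F.low e ρ L mk p) (τ : ∀ p, TT Tm p) :
    F.slice c p a ω τ y₀ = 0 := by
  have h1 := hy _ (h p a ω hω τ)
  rw [map_slice] at h1
  simpa using h1

variable {v : AbsoluteValue k ℝ} {S : SN R (IsNonarchimedean v)} {s : Option (Fin m × β) → ℝ}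

/-- `eval₂_le_polN`, `polN_le_mul` with the radii `Sum.elim Y₀ Y`. -/
theorem ev_le (hS : S.Ov v) (h : F.Hom) (hs : F.Ok v s) (i : Fin m × β) (a : Pr) (t : Tm i)
    {y₀ y : κ → R} {Y₀ Y : ℝ} (h0 : 0 ≤ Y₀) (h1 : 0 ≤ Y) (hy₀ : ∀ c, S.N (y₀ c) ≤ Y₀)
    (hy : ∀ c, S.N (y c) ≤ Y) :
    S.N (F.ev i a t y₀ y) ≤ (s none * Y₀) ^ F.dc i * (s (some i) ^ 2 * Y) ^ F.da i := by
  have s0 : ∀ o, 0 ≤ s o := fun o => zero_le_one.trans (one_le_of_two (hs.two o))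
  have ht : ∀ c : κ ⊕ κ, 0 ≤ Sum.elim (fun _ => Y₀) (fun _ => Y) c := by
    rintro (c | c)
    exacts [h0, h1]
  have hb : 0 ≤ Y₀ ^ F.dc i * Y ^ F.da i := by positivity
  rw [ev, aeval_def]
  refine (eval₂_le_polN (absSN v) S (algebraMap k R) hS (t := Sum.elim (fun _ => Y₀) fun _ => Y)
    (by rintro (c | c); exacts [hy₀ c, hy c]) _).trans ((polN_le_mul (absSN v) ht
      hb fun μ hμ => le_of_eq ?_).trans
      ((mul_le_mul_of_nonneg_right (hs.E i a t) hb).trans_eq ?_))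
  · have h2 := h.bih i a t (mem_support_iff.mp hμ)
    rw [Finsupp.weight_apply, Finsupp.sum] at h2
    have h3 : ∀ c, Sum.elim (fun _ => Y₀) (fun _ => Y) c ^ μ c =
        Y₀ ^ (μ c • bw κ κ c).1 * Y ^ (μ c • bw κ κ c).2 := by
      rintro (c | c) <;> simp [bw]
    simp only [Av.wt, Finsupp.prod, h3, prod_mul_distrib, prod_pow_eq_pow_sum, ← Prod.fst_sum,
      ← Prod.snd_sum, h2]
  · rw [mul_pow, mul_pow, pow_mul]
    ring

theorem Jc_le (hS : S.Ov v) (h : F.Hom) (hs : F.Ok v s) (i : Fin m × β) (a : Pr) (t : Tm i)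
    {y₀ : κ → R} {Y₀ : ℝ} (h0 : 0 ≤ Y₀) (hy₀ : ∀ c, S.N (y₀ c) ≤ Y₀) (ω : Ex r κ) :
    S.N (F.Jc i a y₀ t ω) ≤ s (some i) ^ (3 * F.da i) * (s none * Y₀) ^ F.dc i := by
  obtain ⟨S', hS'⟩ := exists_polSN (σ := κ) S (t := fun _ => 1) fun _ => zero_le_one
  have hO : S'.Ov v := hS.pol (fun _ => zero_le_one) hS'
  have s0 : ∀ o, 0 ≤ s o := fun o => zero_le_one.trans (one_le_of_two (hs.two o))
  have hC : ∀ c, S'.N (C (y₀ c)) ≤ Y₀ := fun c => by
    rw [hS']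
    exact (polN_C S (fun _ => zero_le_one) _).trans (hy₀ c)
  have hX : ∀ c, S'.N (X c) ≤ 1 := fun c => by
    rw [hS']
    exact polN_X S (fun _ => zero_le_one) c
  have h2 := ev_le hO h hs i a t h0 zero_le_one hC hX
  rw [hS'] at h2
  refine (hS.redc_le (s0 _) (hs.rd (some i)) (h.Ee i a y₀ t) ω).trans ?_
  refine (mul_le_mul_of_nonneg_right h2 (pow_nonneg (s0 _) _)).trans_eq ?_
  generalize s none * Y₀ = Z
  ring

theorem dh_le (p : Fin m) : F.dh p ≤ F.dg none := by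
  rw [dh, dg, Fintype.sum_prod_type]
  exact Nat.add_le_add_left (single_le_sum (f := fun p => ∑ s, F.dc (p, s))
    (fun _ _ => Nat.zero_le _) (mem_univ p)) _

end Pool.Agent.Lib.MP_651af7_nt.Cn.Cfg
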