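import Pool.Agent.Lib.MP_651af7_nt.Cn.Defs
import Pool.Agent.Lib.MP_651af7_nt.Av.ELoc
import Pool.Agent.Lib.MP_651af7_nt.Av.ESize

/-! Engine: local seminorms, lowest terms, sizes. Model: `Av/ELoc.lean`, `Av/ESize.lean`. -/

namespace Pool.Agent.Lib.MP_651af7_nt.Cn

open MvPolynomial Finset
open Pool.Agent.Lib.MP_651af7_nt.Av

variable {k κ O : Type} [Field k] [Fintype κ] [Fintype O] {r : ℕ}

/-- `S = serN (absSN v) t α` with `t (o, _) = γ o / q o`; `serN_rename_sub` for `vO o`. -/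
theorem exists_loc (v : AbsoluteValue k ℝ) {x : O → κ → k} {ξ : O → κ → MvPowerSeries (Fin r) k}
    (hξ : ∀ o a, MvPowerSeries.constantCoeff (ξ o a) = x o a) {q γ : O → ℝ}
    (hq : ∀ o a, Geo v (q o) (ξ o a)) (hq1 : ∀ o, 1 ≤ q o) (hγ0 : ∀ o, 0 < γ o)
    (hγ1 : ∀ o, γ o ≤ 1) (α : O × Fin r →₀ ℕ) :
    ∃ S : SN (MvPowerSeries (O × Fin r) k) (IsNonarchimedean v), S.Ov v ∧
      (∀ f, v (MvPowerSeries.coeff α f) ≤ S.N f * ∏ o, (q o / γ o) ^ bdeg α o) ∧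
      ∀ o a, S.N (xo ξ (o, a) - algebraMap k _ (x o a)) ≤ γ o := by
  have q0 : ∀ o, 0 < q o := fun o => one_pos.trans_le (hq1 o)
  obtain ⟨t, t1⟩ : ∃ t : O × Fin r → ℝ, ∀ p, t p = γ p.1 / q p.1 := ⟨_, fun _ => rfl⟩
  have ht : ∀ p, 0 ≤ t p := fun p => by rw [t1]; exact (div_pos (hγ0 _) (q0 _)).le
  obtain ⟨S, hS⟩ := exists_serSN (absSN v) ht α
  refine ⟨S, (absSN_ov v).ser ht hS, fun f => ?_, fun o a => ?_⟩
  · have h := coeff_le_serN (absSN v) ht f (le_refl α)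
    have e : wt t α * ∏ o, (q o / γ o) ^ bdeg α o = 1 := by
      rw [wt_eq, Fintype.prod_prod_type, ← prod_mul_distrib]
      refine prod_eq_one fun o _ => ?_
      simp only [t1, prod_pow_eq_pow_sum, bdeg]
      rw [← mul_pow, div_mul_div_cancel₀ (q0 o).ne', div_self (hγ0 o).ne', one_pow]
    rw [hS, ← mul_one (v _), ← e, ← mul_assoc]
    exact mul_le_mul_of_nonneg_right h
      (prod_nonneg fun o _ => pow_nonneg (div_pos (q0 o) (hγ0 o)).le _)
  · rw [hS, ← hξ]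
    exact serN_rename_sub (absSN v) (vO o) ht (ξ o a) (q0 o).le (hγ0 o).le (hγ1 o) (hq o a)
      fun j => by rw [show vO o j = (o, j) from rfl, t1, div_mul_cancel₀ _ (q0 o).ne']

variable {R : Type} [CommRing R] [Algebra k R] {v : AbsoluteValue k ℝ}
  {S : SN R (IsNonarchimedean v)}

omit [Fintype κ] in
theorem near_le (hS : S.Ov v) {y : R} {x : k} {s M : ℝ} (hs : E (IsNonarchimedean v) 2 ≤ s)
    (h : S.N (y - algebraMap k R x) ≤ M) (hx : v x ≤ M) : S.N y ≤ s * M := by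
  have h2 := S.add_le (s := 1) (t := 1) (M := M) (f := y - algebraMap k R x)
    (g := algebraMap k R x) (by rwa [E_one, one_mul]) (by rw [E_one, one_mul]; exact (hS _).trans hx)
  rw [sub_add_cancel, one_add_one_eq_two] at h2
  exact h2.trans (mul_le_mul_of_nonneg_right hs ((v.nonneg x).trans hx))

/-- A form that is small at `x` is small near `x`: `eval₂_sub_le`. -/
theorem form_le (hS : S.Ov v) {y : κ → R} {x : κ → k} {s γ : ℝ}
    (hs : E (IsNonarchimedean v) 2 ≤ s) (h1 : 1 ≤ nm v x) (hγ0 : 0 ≤ γ) (hγ1 : γ ≤ 1)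
    (h : ∀ a, S.N (y a - algebraMap k R (x a)) ≤ γ) {u : MvPolynomial κ k} {e : ℕ} (he : 1 ≤ e)
    (hu : u.IsHomogeneous e) (hl : pl v u ≤ s) (hx : v (eval x u) ≤ s * γ * nm v x ^ e) :
    S.N (aeval y u) ≤ γ * (s ^ 4 * nm v x) ^ e := by
  have s1 := one_le_of_two hs
  have hn : ∀ a, v (x a) ≤ nm v x := le_nm v x
  generalize nm v x = n at h1 hn hx ⊢
  have n0 : 0 < n := by linarith
  have s0 : 0 < s := by linarith
  have n1 : n ≤ s * n := le_mul_of_one_le_left n0.le s1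
  have d1 := eval₂_sub_le (absSN v) (t := fun _ => s * n) S (algebraMap k R) hS
    (y' := fun a => algebraMap k R (x a)) hγ0
    (fun a => near_le hS hs ((h a).trans (hγ1.trans h1)) (hn a))
    (fun a => (hS _).trans ((hn a).trans n1))
    (fun a => (h a).trans (le_mul_of_one_le_right hγ0 (h1.trans n1))) u
  have d2 : polN (absSN v) (fun _ : κ => s * n) u ≤ pl v u * (s * n) ^ e :=
    polN_le_mul _ (fun _ => by positivity) (by positivity) fun μ hμ => by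
      rw [wt_const, ← hu (mem_support_iff.mp hμ), Finsupp.degree_eq_weight_one]
      exact le_rfl
  have d3 : E (IsNonarchimedean v) u.totalDegree ≤ s ^ e := E_le_pow hs (by
    exact_mod_cast hu.totalDegree_le.trans Nat.lt_two_pow_self.le)
  have d4 : eval₂ (algebraMap k R) (fun a => algebraMap k R (x a)) u =
      algebraMap k R (eval x u) := by
    rw [← aeval_def, ← aeval_eq_eval]
    exact aeval_algebraMap_apply R _ u
  rw [d4, ← aeval_def] at d1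
  have d6 : S.N (aeval y u - algebraMap k R (eval x u)) ≤ s * γ * (s ^ 2 * n) ^ e := by
    refine d1.trans ?_
    calc _ ≤ s ^ e * γ * (s * (s * n) ^ e) :=
          mul_le_mul (mul_le_mul_of_nonneg_right d3 hγ0)
            (d2.trans (mul_le_mul_of_nonneg_right hl (by positivity)))
            (polN_nonneg _ (fun _ => by positivity) _) (by positivity)
      _ = _ := by rw [show s ^ 2 * n = s * (s * n) by ring, mul_pow s (s * n)]; ring
  have d5 : v (eval x u) ≤ s * γ * (s ^ 2 * n) ^ e := hx.trans (mul_le_mul_of_nonneg_left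
    (pow_le_pow_left₀ n0.le (le_mul_of_one_le_left n0.le (one_le_pow₀ s1)) e) (by positivity))
  refine (near_le hS hs d6 d5).trans ?_
  have d7 : s ^ 2 ≤ (s ^ 2) ^ e := le_self_pow₀ (one_le_pow₀ s1) (by omega)
  calc _ = γ * (s ^ 2 * (s ^ 2 * n) ^ e) := by ring
    _ ≤ γ * ((s ^ 2) ^ e * (s ^ 2 * n) ^ e) :=
        mul_le_mul_of_nonneg_left (mul_le_mul_of_nonneg_right d7 (by positivity)) hγ0
    _ = _ := by rw [← mul_pow]; congr 2; ring

/-- A lowest term of `f` below a given term of `U * f`. -/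
theorem exists_min {σ : Type} [Fintype σ] {U f : MvPowerSeries σ k} {α : σ →₀ ℕ}
    (h : MvPowerSeries.coeff α (U * f) ≠ 0) : ∃ α₀ ≤ α, MvPowerSeries.coeff α₀ f ≠ 0 ∧
      ∀ U' : MvPowerSeries σ k, MvPowerSeries.coeff α₀ (U' * f) =
        MvPowerSeries.constantCoeff U' * MvPowerSeries.coeff α₀ f := by
  classical
  rw [MvPowerSeries.coeff_mul] at h
  obtain ⟨p, hp, hp'⟩ := exists_ne_zero_of_sum_ne_zero h
  obtain ⟨α₀, ⟨h1, h2⟩, h3⟩ := (wellFounded_lt (α := σ →₀ ℕ)).has_min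
    {β | β ≤ α ∧ MvPowerSeries.coeff β f ≠ 0}
    ⟨p.2, (mem_antidiagonal.1 hp) ▸ le_add_self, right_ne_zero_of_mul hp'⟩
  refine ⟨α₀, h1, h2, fun U' => ?_⟩
  rw [MvPowerSeries.coeff_mul, sum_eq_single (0, α₀), MvPowerSeries.coeff_zero_eq_constantCoeff_apply]
  · intro b hb hb'
    have e := mem_antidiagonal.1 hb
    have le : b.2 ≤ α₀ := e ▸ le_add_self
    refine mul_eq_zero_of_right _ (by_contra fun hne => h3 b.2 ⟨le.trans h1, hne⟩ ?_)
    refine lt_of_le_of_ne le fun e2 => hb' (Prod.ext ?_ e2)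
    rw [e2] at e
    exact add_eq_right.1 e
  · exact fun hn => absurd (mem_antidiagonal.2 (zero_add _)) hn

/-- As `Av.exists_sz`, for any ideal in the variables `κ`. -/
theorem exists_sz [NumberField k] {ι : Type} [Fintype ι] (A : AV k ι) (κ : Type) [Fintype κ]
    (r ρ B₀ : ℕ) {e : ℕ} (he : 1 ≤ e) : ∃ c₀ : ℝ, 0 ≤ c₀ ∧
    ∀ (J : Ideal (MvPolynomial κ k)) (u : Fin (r + 1) → MvPolynomial κ k)
      (c : κ → Fin ρ → MvPolynomial (Fin (r + 1)) k) (h : ℝ), 0 ≤ h → NN J e ρ u c →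
      (∀ i, SmallP B₀ h (u i)) → (∀ a l, SmallP B₀ h (c a l)) →
      ∃ rd s, IsRd J e ρ u rd ∧ Ad s (c₀ * (h + 1)) ∧ ∀ v, Sz₀ A v (s v) ∧
        (∀ l, pl v (u l) ≤ s v) ∧ ∀ μ ω, v (coeff ω (rd μ)) ≤ s v ^ μ.degree := by
  obtain ⟨κ₀, hκ₀, H₀⟩ : ∃ (s₀ : AbsoluteValue k ℝ → ℝ) (C₀ : ℝ), Ad s₀ C₀ ∧
      ∀ v s, s₀ v ≤ s → Sz₀ A v s ∧ E (IsNonarchimedean v) (ρ + 1) ≤ s₀ v := by
    choose cΦ hΦ hcΦ hcΦ' using fun p : ι × ι => exists_ad_fixed (A.Φ p.1 p.2)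
    obtain ⟨sΦ, hsΦ, hsΦ'⟩ := esize_fam hcΦ
    obtain ⟨so, hso, hso'⟩ := esize_fam fun a => ad_max (A.o a)
    have hρ : (1 : ℝ) ≤ ρ + 1 := le_add_of_nonneg_left (Nat.cast_nonneg ρ)
    obtain ⟨s₀, h₀, h₁⟩ := esize_fam (k := k) (I := Fin 4)
      (c := ![fun v => E (IsNonarchimedean v) 2, sΦ, so, fun v => E (IsNonarchimedean v) (ρ + 1)])
      (h := ![_, _, _, _]) (Fin.forall_fin_succ.2 ⟨ad_E one_le_two, Fin.forall_fin_succ.2
        ⟨hsΦ, Fin.forall_fin_two.2 ⟨hso, ad_E hρ⟩⟩⟩)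
    exact ⟨s₀, _, h₀, fun v s hs => ⟨⟨(h₁ 0 v).trans hs,
      fun a b => (((hcΦ' (a, b) v).trans (hsΦ' (a, b) v)).trans (h₁ 1 v)).trans hs,
      fun a => (((le_max_right _ _).trans (hso' a v)).trans (h₁ 2 v)).trans hs⟩, h₁ 3 v⟩⟩
  obtain ⟨hf, H₀⟩ := H₀
  obtain ⟨κ₁, hκ₁, H₁⟩ := exists_ad_pl k κ B₀
  obtain ⟨κ₂, hκ₂, H₂⟩ := exists_ad_pl k (Fin (r + 1)) B₀
  have hC₀ := hf.nonneg
  refine ⟨hκ₀ + Fintype.card (Fin (r + 1)) * κ₁ + Fintype.card (κ × Fin ρ) * κ₂, by positivity,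
    fun J u c h hh hNN hu hc => ?_⟩
  choose cu hcu hcu' using fun i => H₁ (u i) h hh (hu i)
  choose cc hcc hcc' using fun p : κ × Fin ρ => H₂ (c p.1 p.2) h hh (hc p.1 p.2)
  obtain ⟨su, hsu, hsu'⟩ := esize_fam' hcu
  obtain ⟨sc, hsc, hsc'⟩ := esize_fam' hcc
  obtain ⟨rd, hrd, hrd'⟩ := exists_rd he hNN
  refine ⟨rd, _, hrd, ((hf.mul hsu).mul hsc).mono ?_, fun v => ?_⟩
  · have := mul_nonneg hC₀ hh
    nlinarith
  · have a1 := hf.one v
    have a5 := hsu.one v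
    have a6 := hsc.one v
    have b5 := one_le_mul_of_one_le_of_one_le a1 a5
    have z : ∀ {x : ℝ}, 1 ≤ x → 0 ≤ x := fun h => zero_le_one.trans h
    have b1 : κ₀ v ≤ κ₀ v * su v := le_mul_of_one_le_right (z a1) a5
    have b2 : κ₀ v * su v ≤ κ₀ v * su v * sc v := le_mul_of_one_le_right (z b5) a6
    refine ⟨(H₀ v _ (b1.trans b2)).1, fun l => ?_, fun μ ω => ?_⟩
    · exact (((hcu' l v).trans (hsu' l v)).trans (le_mul_of_one_le_left (z a5) a1)).trans b2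
    · refine (hrd' v (sc v) a6 (fun a l => (hcc' (a, l) v).trans (hsc' (a, l) v)) μ ω).trans
        (pow_le_pow_left₀ (mul_nonneg (E_nonneg (by positivity)) (z a6)) ?_ _)
      exact mul_le_mul_of_nonneg_right ((H₀ v _ le_rfl).2.trans b1) (z a6)

end Pool.Agent.Lib.MP_651af7_nt.Cn
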