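import Pool.Agent.Lib.MP_651af7_nt.Cn.EBd
import Pool.Agent.Lib.MP_651af7_nt.Cn.EGain

/-! Engine: the direct bound in terms of the main term. -/

namespace Pool.Agent.Lib.MP_651af7_nt.Cn

open MvPolynomial Finset
open Pool.Agent.Lib.MP_651af7_nt.Av

/-- The main term of the local bound; `l o` is the logarithm of the norm of the block `o`. -/
noncomputable def mt {I : Type} [Fintype I] (g q n₀ : ℕ) (n j : I → ℕ) (l : Option I → ℝ) : ℝ :=
  ((g + 1) * n₀ : ℕ) * max 0 (l none) + ∑ i, (DY g q (n i) * (2 * l (some i) +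
    2 * (4 ^ j i * l none)) + n i * ((q - 1) * l (some i) + q * (4 ^ j i * l none) +
      max 0 (l (some i)) + q * |l (some i) - 4 ^ j i * l none|) + q * max 0 (l (some i)))

theorem eloca_term {D q n w : ℝ} (hD : 0 ≤ D) (hq : 1 ≤ q) (hn : 0 ≤ n) (hw : 0 ≤ w) (l l₀ : ℝ) :
    0 ≤ D * (2 * l + 2 * (w * l₀)) + n * ((q - 1) * l + q * (w * l₀) + max 0 l +
      q * |l - w * l₀|) + q * max 0 l + ((2 * D + 2 * q * n + q) * |l| +
        w * (2 * D + q * n) * |l₀|) := by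
  have h1 : 0 ≤ l + |l| := by linarith [neg_abs_le l]
  have h2 : 0 ≤ w * (l₀ + |l₀|) := mul_nonneg hw (by linarith [neg_abs_le l₀])
  have h3 : 0 ≤ w * l₀ + |l - w * l₀| + |l| := by
    linarith [le_abs_self (l - w * l₀), neg_abs_le l]
  have h4 : 0 ≤ max 0 l := le_max_left _ _
  have h5 := abs_nonneg l
  have h6 : 0 ≤ q := by linarith
  have h7 : 0 ≤ q - 1 := by linarith
  have e : D * (2 * l + 2 * (w * l₀)) + n * ((q - 1) * l + q * (w * l₀) + max 0 l +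
      q * |l - w * l₀|) + q * max 0 l + ((2 * D + 2 * q * n + q) * |l| +
        w * (2 * D + q * n) * |l₀|) = 2 * D * (l + |l|) + 2 * D * (w * (l₀ + |l₀|)) +
      n * ((q - 1) * (l + |l|) + q * (w * l₀ + |l - w * l₀| + |l|) + max 0 l + |l|) +
      q * max 0 l + q * |l| + w * (q * n) * |l₀| := by ring
  rw [e]
  positivity

theorem eloca_arm {s s₀ : ℝ} (hs : 1 ≤ s) (hs₀ : 1 ≤ s₀) (l l₀ : ℝ) (D q n w : ℕ) (hq : 1 ≤ q) :
    s ^ (2 * D + 2 * q * n + q) * (s ^ (2 * (2 * D + 2 * q * n + q)) *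
      (((s * Real.exp l) ^ 2 * ((s₀ * (s₀ * Real.exp l₀)) ^ w) ^ 2) ^ D *
        ((s * Real.exp l) ^ (q - 1)) ^ n * max ((s * Real.exp l) ^ (q + 1) * 1 ^ q)
          (((s₀ * (s₀ * Real.exp l₀)) ^ w) ^ q * 1 ^ (q + 1)) ^ n * max (s * Real.exp l) 1 ^ q)) ≤
    s ^ (4 * (2 * D + 2 * q * n + q)) * s₀ ^ (2 * (w * (2 * D + q * n))) *
      Real.exp (D * (2 * l + 2 * (w * l₀)) + n * ((q - 1) * l + q * (w * l₀) + max 0 l +
        q * |l - w * l₀|) + q * max 0 l) := by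
  obtain ⟨a, rfl⟩ : ∃ a, s = Real.exp a := ⟨_, (Real.exp_log (by linarith)).symm⟩
  obtain ⟨a₀, rfl⟩ : ∃ a, s₀ = Real.exp a := ⟨_, (Real.exp_log (by linarith)).symm⟩
  obtain ⟨p, rfl⟩ : ∃ p, q = p + 1 := ⟨q - 1, by omega⟩
  rw [Real.one_le_exp_iff] at hs hs₀
  have hp : (0 : ℝ) ≤ p := Nat.cast_nonneg _
  have hw : (0 : ℝ) ≤ w := Nat.cast_nonneg _
  have m0 : 0 ≤ max 0 l := le_max_left _ _
  have m1 : l ≤ max 0 l := le_max_right _ _
  have b1 : max ((Real.exp a * Real.exp l) ^ (p + 1 + 1) * 1 ^ (p + 1))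
      (((Real.exp a₀ * (Real.exp a₀ * Real.exp l₀)) ^ w) ^ (p + 1) * 1 ^ (p + 1 + 1)) ≤
      Real.exp ((p + 2) * a + (p + 1) * (w * (2 * a₀)) +
        ((p + 1) * (w * l₀) + max 0 l + (p + 1) * |l - w * l₀|)) := by
    simp only [one_pow, mul_one, ← Real.exp_add, ← Real.exp_nat_mul]
    have c1 : 0 ≤ (p + 1 : ℝ) * (|l - w * l₀| - (l - w * l₀)) :=
      mul_nonneg (by linarith) (by linarith [le_abs_self (l - w * l₀)])
    have c2 : 0 ≤ (p + 1 : ℝ) * (w * (2 * a₀)) := by positivity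
    have c3 : 0 ≤ (p + 1 : ℝ) * |l - w * l₀| := by positivity
    have c4 : 0 ≤ (p + 2 : ℝ) * a := by positivity
    refine max_le (Real.exp_le_exp.2 ?_) (Real.exp_le_exp.2 ?_) <;> push_cast <;> linarith
  have b2 : max (Real.exp a * Real.exp l) 1 ≤ Real.exp (a + max 0 l) := by
    rw [← Real.exp_add]
    exact max_le (Real.exp_le_exp.2 (by linarith)) (Real.one_le_exp (by linarith))
  refine (mul_le_mul_of_nonneg_left (mul_le_mul_of_nonneg_left (mul_le_mul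
    (mul_le_mul_of_nonneg_left (pow_le_pow_left₀ (by positivity) b1 n) (by positivity))
    (pow_le_pow_left₀ (by positivity) b2 _) (by positivity) (by positivity)) (by positivity))
    (by positivity)).trans (le_of_eq ?_)
  simp only [Nat.add_sub_cancel, ← Real.exp_add, ← Real.exp_nat_mul]
  congr 1
  push_cast
  ring

variable {k ι R β : Type} [Field k] [Fintype ι] [CommRing R] [Algebra k R] {A : AV k ι}
  [Fintype β] [DecidableEq β] {g ρ m σ n₀ : ℕ} {n j : Fin m × β → ℕ}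
  {fr : Fin m × β → Fin (g + 1) → ι} {k₀ k₂ : Fin m × β → ι} {b : Option (Fin m × β) → Blk A g ρ}
  {rd : Option (Fin m × β) → (Option ι →₀ ℕ) → MvPolynomial (Fin (g + 1 + 1) ⊕ Option ι) k}

/-- Termwise: `mt l ≥ - ∑ dg o * |l o|`; use
`q * (4 ^ j * l₀) + max 0 l + q * |l - 4 ^ j * l₀| ≥ q * l ≥ - q * |l|`. -/
theorem sum_le_mt (l : Option (Fin m × β) → ℝ) :
    ∑ o, ((cfg σ n₀ n j fr k₀ k₂ b rd).dg o : ℝ) * max 0 (l o) ≤ mt g (2 ^ σ : ℕ) n₀ n j l +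
      2 * ∑ o, ((cfg σ n₀ n j fr k₀ k₂ b rd).dg o : ℝ) * |l o| := by
  have key : 0 ≤ mt g (2 ^ σ : ℕ) n₀ n j l +
      ∑ o, ((cfg σ n₀ n j fr k₀ k₂ b rd).dg o : ℝ) * |l o| := by
    have e : (((cfg σ n₀ n j fr k₀ k₂ b rd).dg none : ℕ) : ℝ) =
        ((g + 1) * n₀ : ℕ) + ∑ i, ((dC g (2 ^ σ) (n i) (j i) : ℕ) : ℝ) := by
      rw [← Nat.cast_sum, ← Nat.cast_add]; rfl
    have t := Finset.sum_nonneg fun i (_ : i ∈ univ) => eloca_term
      (Nat.cast_nonneg (DY g (2 ^ σ) (n i))) (Nat.one_le_cast.2 (Nat.one_le_two_pow (n := σ)))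
      (Nat.cast_nonneg (n i)) (w := 4 ^ j i) (by positivity) (l (some i)) (l none)
    have e1 : ∑ i, (((cfg σ n₀ n j fr k₀ k₂ b rd).dg (some i) : ℕ) : ℝ) * |l (some i)| =
        ∑ i, (2 * (DY g (2 ^ σ) (n i) : ℝ) + 2 * ((2 ^ σ : ℕ) : ℝ) * n i + ((2 ^ σ : ℕ) : ℝ)) *
          |l (some i)| := Finset.sum_congr rfl fun i _ => by
      rw [show (cfg σ n₀ n j fr k₀ k₂ b rd).dg (some i) = dA g (2 ^ σ) (n i) from rfl, dA]
      simp only [Nat.cast_add, Nat.cast_mul, Nat.cast_ofNat]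
    have e2 : (∑ i, ((dC g (2 ^ σ) (n i) (j i) : ℕ) : ℝ)) * |l none| =
        ∑ i, 4 ^ j i * (2 * (DY g (2 ^ σ) (n i) : ℝ) + ((2 ^ σ : ℕ) : ℝ) * n i) * |l none| := by
      rw [Finset.sum_mul]
      refine Finset.sum_congr rfl fun i _ => ?_
      rw [dC, Nat.cast_mul, Nat.cast_pow]
      simp only [Nat.cast_add, Nat.cast_mul, Nat.cast_ofNat]
    rw [Finset.sum_add_distrib, Finset.sum_add_distrib (f := fun i => _ * |l (some i)|), ← e1,
      ← e2] at t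
    rw [Fintype.sum_option, mt, e, add_mul _ _ |l none|]
    have a1 : 0 ≤ (((g + 1) * n₀ : ℕ) : ℝ) * max 0 (l none) := by positivity
    have a2 : 0 ≤ (((g + 1) * n₀ : ℕ) : ℝ) * |l none| := by positivity
    linarith
  have h : ∑ o, ((cfg σ n₀ n j fr k₀ k₂ b rd).dg o : ℝ) * max 0 (l o) ≤
      ∑ o, ((cfg σ n₀ n j fr k₀ k₂ b rd).dg o : ℝ) * |l o| :=
    Finset.sum_le_sum fun o _ => mul_le_mul_of_nonneg_left
      (max_le (abs_nonneg _) (le_abs_self _)) (Nat.cast_nonneg _)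
  linarith

/-- `FF_dir` with `Y₀ = s none * exp (max 0 (l none))`, `cfg_ev`, `arm'_le` with `T₀ = T = 1`,
`N = s i * exp (l i)`, `Y = (s none * (s none * exp (l none))) ^ 4 ^ j` (`dbn_le`), and
`max ((q + 1) l) (q 4 ^ j l₀) ≤ q 4 ^ j l₀ + max 0 l + q |l - 4 ^ j l₀|`. The exponent of `s i` is
at most `4 * da`, that of `s none` at most `2 * dg none`. -/
theorem loc_dir {v : AbsoluteValue k ℝ} {S : SN R (IsNonarchimedean v)} (hS : S.Ov v)
    {s l : Option (Fin m × β) → ℝ} (h0 : ∀ o, Sz₀ A v (s o))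
    (hs : (cfg σ n₀ n j fr k₀ k₂ b rd).Ok v s) {x : Option (Fin m × β) → Option ι → R}
    (h1 : ∀ o, x o none = 1) (hx : ∀ o a, S.N (x o (some a)) ≤ s o * Real.exp (l o))
    {c : (cfg σ n₀ n j fr k₀ k₂ b rd).Co} {H : ℝ} (hH : 1 ≤ H) (hc : ∀ z τ, |(c z τ : ℝ)| ≤ H)
    (a : Fin m × β → ι × ι × ι) :
    S.N ((cfg σ n₀ n j fr k₀ k₂ b rd).FF c a x) ≤ E (IsNonarchimedean v) H *
      (∏ o, s o ^ (4 * (cfg σ n₀ n j fr k₀ k₂ b rd).dg o)) *
        Real.exp (mt g (2 ^ σ : ℕ) n₀ n j l) := by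
  have s1 : ∀ o, 1 ≤ s o := fun o => one_le_of_two (h0 o).two
  have s0 : ∀ o, 0 ≤ s o := fun o => zero_le_one.trans (s1 o)
  have n1 : ∀ o, S.N (x o none) ≤ 1 := fun o => h1 o ▸ S.one
  have hE : 0 ≤ E (IsNonarchimedean v) H := zero_le_one.trans (one_le_E hH)
  refine (Cfg.FF_dir (Y₀ := s none * Real.exp (max 0 (l none))) cfg_hom hs
    (mul_nonneg (s0 _) (Real.exp_pos _).le) (fun a => ?_) a (fun i => ?_) (fun i t => by
      rw [cfg_ev]
      exact arm'_le hS (h0 (some i)) (T₀ := 1) (by rw [h1, one_pow]; exact S.one) (n1 _)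
        (hx (some i)) (hS.dbn_le (h0 none) (hx none) (j i)) _ _ _ _ _ _ _) hH hc).trans ?_
  · cases a with
    | none =>
      exact (n1 _).trans (one_le_mul_of_one_le_of_one_le (s1 _) (Real.one_le_exp (le_max_left _ _)))
    | some a =>
      exact (hx _ a).trans (mul_le_mul_of_nonneg_left (Real.exp_le_exp.2 (le_max_right _ _)) (s0 _))
  · have := s0 none
    have := s0 (some i)
    positivity
  have b1 := Finset.prod_le_prod (s := univ) (fun i _ => by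
      have := s0 none
      have := s0 (some i)
      positivity) fun i _ => eloca_arm (s1 (some i)) (s1 none) (l (some i)) (l none)
    (DY g (2 ^ σ) (n i)) (2 ^ σ) (n i) (4 ^ j i) Nat.one_le_two_pow
  have := s0 none
  rw [mul_assoc, mul_assoc]
  refine mul_le_mul_of_nonneg_left ((mul_le_mul_of_nonneg_left b1 (by positivity)).trans ?_) hE
  rw [Finset.prod_mul_distrib, Finset.prod_mul_distrib, Finset.prod_pow_eq_pow_sum,
    ← Real.exp_sum, Fintype.prod_option, mt, Real.exp_add, ← mul_assoc (s none), mul_pow, ← sq,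
    ← pow_mul, ← Real.exp_nat_mul]
  have b2 : s none ^ (2 * ((g + 1) * n₀)) * s none ^ (∑ i, 2 * (4 ^ j i *
      (2 * DY g (2 ^ σ) (n i) + 2 ^ σ * n i))) ≤
      s none ^ (4 * (cfg σ n₀ n j fr k₀ k₂ b rd).dg none) := by
    rw [← pow_add, ← Finset.mul_sum, ← mul_add]
    exact pow_le_pow_right₀ (s1 _) (Nat.mul_le_mul (by norm_num) le_rfl)
  have b3 : 0 ≤ ∏ i, s (some i) ^ (4 * (2 * DY g (2 ^ σ) (n i) + 2 * 2 ^ σ * n i + 2 ^ σ)) :=
    Finset.prod_nonneg fun i _ => pow_nonneg (s0 _) _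
  have e : ∀ a b c d f : ℝ, a * b * (c * d * f) = a * d * c * (b * f) := fun _ _ _ _ _ => by ring
  simp only [Nat.cast_pow, Nat.cast_ofNat]
  rw [e]
  exact mul_le_mul_of_nonneg_right (mul_le_mul_of_nonneg_right b2 b3) (by positivity)

end Pool.Agent.Lib.MP_651af7_nt.Cn
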