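import Pool.Agent.Lib.MP_651af7_nt.Cn.ELocA
import Pool.Agent.Lib.MP_651af7_nt.Cn.ELoc
import Pool.Agent.Lib.MP_651af7_nt.Cn.EFrame

/-! Engine: the local inequality. Model: `Av.Cfg.local_ineq`. -/

namespace Pool.Agent.Lib.MP_651af7_nt.Cn

open MvPolynomial Finset
open Pool.Agent.Lib.MP_651af7_nt.Av

/-- The multiplicities of the gain in the radii. -/
def sg {β : Type} {m : ℕ} (j : Fin m × β → ℕ) (t : Fin m → ℝ) : Option (Fin m × β) → ℝ
  | none => 0
  | some i => 4 ^ j i * t i.1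

variable {k ι β : Type} [Field k] [Fintype ι] {A B : AV k ι}
  [Fintype β] [DecidableEq β] {g ρ m σ n₀ : ℕ} {n j : Fin m × β → ℕ}
  {fr : Fin m × β → Fin (g + 1) → ι} {k₀ k₂ : Fin m × β → ι} {b : Option (Fin m × β) → Blk A g ρ}
  {rd : Option (Fin m × β) → (Option ι →₀ ℕ) → MvPolynomial (Fin (g + 1 + 1) ⊕ Option ι) k}
  {ξ : Option (Fin m × β) → Option ι → MvPowerSeries (Fin (g + 1)) k}

/-- Sketch. `exists_loc` with `γ o = exp (-(sg o + max 0 (-ell v (b o).v)))`, which is at most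
`exp (-sg o)` and at most `nm v (b o).v`; `near_le`. If `P`: `t = 0`, `loc_dir`. Otherwise
`FF_gain` with `Y o = s o ^ 4 * nm v (pt _)`, `form_le`, `log_nm_pt`, `sum_le_mt`. -/
theorem local_ineq {e L : ℕ} {mk : Finset (Fin (g + 1 + 1))} (he : 1 ≤ e) (hb : ∀ o, (b o).Geom B)
    (hξ : ∀ o, (b o).C.Br (pt (b o).v) (ξ o)) (hrd : ∀ o, IsRd (b o).J e ρ (b o).u (rd o))
    {c : (cfg σ n₀ n j fr k₀ k₂ b rd).Co} {H : ℝ} (hH : 1 ≤ H) (hc : ∀ z τ, |(c z τ : ℝ)| ≤ H)
    (hV : (cfg σ n₀ n j fr k₀ k₂ b rd).Van e ρ L mk c) (v : AbsoluteValue k ℝ)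
    {s q : Option (Fin m × β) → ℝ} (h0 : ∀ o, Sz₀ A v (s o))
    (hs : (cfg σ n₀ n j fr k₀ k₂ b rd).Ok v s) (hq : ∀ o a, Geo v (q o) (ξ o a))
    (hq1 : ∀ o, 1 ≤ q o) {t : Fin m → ℝ} (ht : ∀ p, 0 ≤ t p) (P : Prop) [Decidable P]
    (hP : P → ∀ p, t p = 0)
    (hm : ∀ i, ∀ l ∈ mk, v (eval (pt (b (some i)).v) ((b (some i)).u l)) ≤
      s (some i) * Real.exp (-(4 ^ j i * t i.1)) * nm v (pt (b (some i)).v) ^ e)
    (α : Option (Fin m × β) × Fin (g + 1) →₀ ℕ) (a : Fin m × β → ι × ι × ι) :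
    v (MvPowerSeries.coeff α ((cfg σ n₀ n j fr k₀ k₂ b rd).FF c a fun o d => xo ξ (o, d))) ≤
      Real.exp (Real.log (E (IsNonarchimedean v) H) +
        ∑ o, ((g + Fintype.card ι + 14) * (cfg σ n₀ n j fr k₀ k₂ b rd).dg o : ℕ) * Real.log (s o) +
        mt g (2 ^ σ : ℕ) n₀ n j (fun o => ell v (b o).v) +
        (if P then 0 else 2 * ∑ o, ((cfg σ n₀ n j fr k₀ k₂ b rd).dg o : ℝ) * |ell v (b o).v|) -
        L * ∑ p, t p +
        ∑ o, bdeg α o * (Real.log (q o) + sg j t o + max 0 (-ell v (b o).v))) := by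
  have hs1 : ∀ o, 1 ≤ s o := fun o => one_le_of_two (hs.two o)
  have hv0 : ∀ o, (b o).v ≠ 0 := fun o => rep_ne (hb o).rep
  have hn1 : ∀ o, 1 ≤ nm v (pt (b o).v) := fun o => (nm_pt v _).ge.trans' (le_max_left _ _)
  have hsg : ∀ o, 0 ≤ sg j t o := fun o => by
    cases o with
    | none => exact le_rfl
    | some i => exact mul_nonneg (by positivity) (ht _)
  have g0 : ∀ o, Real.exp (-(sg j t o + max 0 (-ell v (b o).v))) ≤ Real.exp (-sg j t o) := fun o =>
    Real.exp_le_exp.2 (by linarith [le_max_left 0 (-ell v (b o).v)])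
  have g1 : ∀ o, Real.exp (-sg j t o) ≤ 1 := fun o =>
    Real.exp_le_one_iff.2 (neg_nonpos.2 (hsg o))
  obtain ⟨S, hS, h2, h3⟩ := exists_loc v (fun o => (hξ o).const)
    (γ := fun o => Real.exp (-(sg j t o + max 0 (-ell v (b o).v)))) hq hq1
    (fun _ => Real.exp_pos _) (fun o => (g0 o).trans (g1 o)) α
  have e3 : ∏ o, (q o / Real.exp (-(sg j t o + max 0 (-ell v (b o).v)))) ^ bdeg α o = Real.exp
      (∑ o, bdeg α o * (Real.log (q o) + sg j t o + max 0 (-ell v (b o).v))) := by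
    rw [Real.exp_sum]
    refine prod_congr rfl fun o _ => ?_
    rw [Real.exp_nat_mul, add_assoc, Real.exp_add (Real.log _), Real.exp_log (by linarith [hq1 o]),
      Real.exp_neg, div_inv_eq_mul]
  have e1 : ∏ o, s o ^ ((g + Fintype.card ι + 14) * (cfg σ n₀ n j fr k₀ k₂ b rd).dg o) = Real.exp
      (∑ o, ((g + Fintype.card ι + 14) * (cfg σ n₀ n j fr k₀ k₂ b rd).dg o : ℕ) *
        Real.log (s o)) := by
    rw [Real.exp_sum]
    refine prod_congr rfl fun o _ => ?_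
    rw [Real.exp_nat_mul, Real.exp_log (by linarith [hs1 o])]
  have hE : 0 < E (IsNonarchimedean v) H := E_pos (by linarith)
  refine (h2 _).trans ?_
  rw [e3, Real.exp_add]
  refine mul_le_mul_of_nonneg_right ?_ (Real.exp_pos _).le
  split_ifs with h
  · refine (loc_dir hS (l := fun o => ell v (b o).v) h0 hs (xo_none hb hξ)
      (fun o c => near_le hS (hs.two o) ((h3 o (some c)).trans (Real.exp_le_exp.2 ?_))
        ((le_nm v (b o).v c).trans (exp_ell v (hv0 o)).ge)) hH hc a).trans ?_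
    · linarith [le_max_right 0 (-ell v (b o).v), hsg o]
    · rw [sum_eq_zero fun p _ => hP h p, mul_zero, sub_zero, add_zero, Real.exp_add, Real.exp_add,
        Real.exp_log hE, ← e1]
      gcongr with o
      · exact fun o _ => pow_nonneg (by linarith [hs1 o]) _
      · exact hs1 o
      · omega
  · have h4 := Cfg.FF_gain he hS cfg_hom hrd hs (xo_zero hb hξ)
      (Y := fun o => s o ^ 4 * nm v (pt (b o).v))
      (fun o => one_le_mul_of_one_le_of_one_le (one_le_pow₀ (hs1 o)) (hn1 o))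
      (fun o c => (near_le hS (hs.two o) ((h3 o c).trans (((g0 o).trans (g1 o)).trans (hn1 o)))
        (le_nm v _ c)).trans (mul_le_mul_of_nonneg_right (le_self_pow₀ (hs1 o) (by omega))
          (nm_nn v _)))
      (γ := fun p => Real.exp (-t p)) (fun _ => (Real.exp_pos _).le)
      (fun p => Real.exp_le_one_iff.2 (neg_nonpos.2 (ht p))) (fun i l hl => by
        have e0 : Real.exp (-t i.1) ^ (cfg σ n₀ n j fr k₀ k₂ b rd).wt i =
            Real.exp (-sg j t (some i)) := by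
          rw [← Real.exp_nat_mul]
          simp [sg, cfg]
        rw [e0]
        exact form_le hS (hs.two _) (hn1 _) (Real.exp_pos _).le (g1 _)
          (fun c => (h3 _ c).trans (g0 _)) he ((hrd _).hu l) (hs.u _ l) (hm i l hl)) hH hc hV a
    refine h4.trans ?_
    have e2 : ∏ p, Real.exp (-t p) ^ L = Real.exp (-(L * ∑ p, t p)) := by
      rw [prod_pow, ← Real.exp_sum, ← Real.exp_nat_mul, sum_neg_distrib, mul_neg]
    have e4 : ∏ o, (s o ^ (g + 1 + Fintype.card (Option ι) + 8) * (s o ^ 4 * nm v (pt (b o).v))) ^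
        (cfg σ n₀ n j fr k₀ k₂ b rd).dg o =
        (∏ o, s o ^ ((g + Fintype.card ι + 14) * (cfg σ n₀ n j fr k₀ k₂ b rd).dg o)) * Real.exp
          (∑ o, ((cfg σ n₀ n j fr k₀ k₂ b rd).dg o : ℝ) * max 0 (ell v (b o).v)) := by
      rw [Real.exp_sum, ← prod_mul_distrib]
      refine prod_congr rfl fun o _ => ?_
      rw [Real.exp_nat_mul, ← log_nm_pt v (hv0 o), Real.exp_log (by linarith [hn1 o]),
        Fintype.card_option]
      ring
    rw [e2, e4, e1, sub_eq_add_neg, Real.exp_add, add_assoc (Real.log _ + _), Real.exp_add,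
      Real.exp_add, Real.exp_log hE, ← mul_assoc]
    gcongr
    exact sum_le_mt _

end Pool.Agent.Lib.MP_651af7_nt.Cn
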