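import Pool.Agent.Lib.MP_651af7_nt.Cn.EJc
import Pool.Agent.Lib.MP_651af7_nt.Av.ESieg

/-! Engine: the auxiliary section exists. Model: `Av/ESieg.lean` (`exists_slices_k`). -/

namespace Pool.Agent.Lib.MP_651af7_nt.Cn

open MvPolynomial Finset
open Pool.Agent.Lib.MP_651af7_nt.Av

section

variable {k κ Pr β : Type} [Field k] [Fintype κ] [Fintype β] [DecidableEq β] {r m : ℕ}
  {Tm : Fin m × β → Type} [∀ i, Fintype (Tm i)] (F : Cfg k κ Pr β r m Tm)

/-- The polynomial in the centre attached to one unknown and one pattern. -/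
noncomputable def esieg_pol (p : Fin m) (a : β → Pr) (ω : β → Ex r κ) (z : Bx r F.n₀)
    (t : TT Tm p) : MvPolynomial κ k :=
  bx (fun l => X (F.q₀ l)) z * ∏ s, F.Jc (p, s) (a s) X (t s) (ω s)

variable {F}

theorem esieg_hom (hF : F.Hom) (p : Fin m) (a : β → Pr) (ω : β → Ex r κ) (z : Bx r F.n₀)
    (t : TT Tm p) : (esieg_pol F p a ω z t).IsHomogeneous (F.dh p) := by
  refine IsHomogeneous.mul ?_ (IsHomogeneous.prod _ _ _ fun s _ => hF.Jc (p, s) _ _ _)
  have h := IsHomogeneous.prod (R := k) univ (fun l : Fin r =>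
    X (F.q₀ l.succ) ^ (z l : ℕ) * X (F.q₀ 0) ^ (F.n₀ - z l)) (fun _ => F.n₀)
    fun l _ => by
      have := (isHomogeneous_X_pow (R := k) (F.q₀ l.succ) (z l)).mul
        (isHomogeneous_X_pow (R := k) (F.q₀ 0) (F.n₀ - z l))
      rwa [Nat.add_sub_cancel' (z l).is_le] at this
  rwa [sum_const, card_univ, Fintype.card_fin, smul_eq_mul] at h

theorem esieg_le (hF : F.Hom) {v : AbsoluteValue k ℝ} {s : Option (Fin m × β) → ℝ}
    (hs : F.Ok v s) (p : Fin m) (a : β → Pr) (ω : β → Ex r κ) (z : Bx r F.n₀) (t : TT Tm p)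
    (ω₀ : Ex r κ) :
    v (redc (F.rd none) (esieg_pol F p a ω z t) ω₀) ≤ ∏ o, s o ^ (3 * F.dg o) := by
  have h1 : ∀ o, 1 ≤ s o := fun o => one_le_of_two (hs.two o)
  have h0 : ∀ o, 0 ≤ s o := fun o => zero_le_one.trans (h1 o)
  obtain ⟨S, hS⟩ := exists_polSN (σ := κ) (absSN v) (t := fun _ => 1) fun _ => zero_le_one
  have hov : S.Ov v := (absSN_ov v).pol (fun _ => zero_le_one) hS
  have hX : ∀ c, S.N (X c) ≤ 1 := fun c => hS ▸ polN_X (absSN v) (fun _ => zero_le_one) c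
  have h2 := S.mul_le (S.bx_le (fun l => hX (F.q₀ l)) z) (S.prod_le univ fun b _ =>
    Cfg.Jc_le hov hF hs (p, b) (a b) (t b) zero_le_one hX (ω b))
  rw [one_pow, one_mul, mul_one, prod_mul_distrib, prod_pow_eq_pow_sum, hS] at h2
  refine ((absSN_ov v).redc_le (h0 none) (hs.rd none) (esieg_hom hF p a ω z t) ω₀).trans
    ((mul_le_mul_of_nonneg_right h2 (pow_nonneg (h0 _) _)).trans ?_)
  rw [mul_assoc, ← pow_add, mul_comm, Fintype.prod_option, Fintype.prod_prod_type,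
    ← mul_prod_erase _ _ (mem_univ p)]
  have h3 := Cfg.dh_le (F := F) p
  refine mul_le_mul (pow_le_pow_right₀ (h1 _) ?_) (le_mul_of_one_le_right
    (prod_nonneg fun _ _ => pow_nonneg (h0 _) _) (one_le_prod fun _ _ => one_le_prod
      fun _ _ => one_le_pow₀ (h1 _))) (prod_nonneg fun _ _ => pow_nonneg (h0 _) _)
    (pow_nonneg (h0 _) _)
  unfold Cfg.dh at h3 ⊢
  omega

end

theorem siegel (k κ Pr β : Type) [Field k] [NumberField k] [Fintype κ] [Fintype Pr] [Fintype β]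
    [DecidableEq β] : ∃ (N : ℕ) (C : ℝ), 0 ≤ C ∧
    ∀ (r m e ρ L : ℕ) (Tm : Fin m × β → Type) [∀ i, Fintype (Tm i)] [∀ i, Nonempty (Tm i)]
      (F : Cfg k κ Pr β r m Tm) (mk : Finset (Fin (r + 1)))
      (s : Option (Fin m × β) → AbsoluteValue k ℝ → ℝ) (h : Option (Fin m × β) → ℝ), F.Hom →
      (∀ o, IsRd (F.J o) e ρ (F.u o) (F.rd o)) → (∀ o, Ad (s o) (h o)) →
      (∀ v, F.Ok v fun o => s o v) →
      (∀ p, 2 * m * (N * ((Mon κ r e ρ (F.dh p)).card * (F.low e ρ L mk p).card)) ≤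
        Fintype.card (Bx r F.n₀) * Fintype.card (TT Tm p)) →
      ∃ c : F.Co, c ≠ 0 ∧
        (∀ z τ, |(c z τ : ℝ)| ≤ Real.exp (C + ∑ o, F.dg o * (3 * h o + 1))) ∧
        F.Van e ρ L mk c := by
  classical
  obtain ⟨N, C, hC, H⟩ := exists_slices_k k
  refine ⟨N * Fintype.card (β → Pr), Real.log C, Real.log_nonneg hC,
    fun r m e ρ L Tm _ _ F mk s h hF hrd had hsz hcard => ?_⟩
  obtain ⟨c, h0, h1, h2⟩ := H m (Bx r F.n₀) (TT Tm)
    (fun p => (β → Pr) × Mon κ r e ρ (F.dh p) × F.low e ρ L mk p)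
    (fun p n z t => redc (F.rd none) (esieg_pol F p n.1 n.2.2.1 z t) n.2.1.1)
    (fun v => ∏ o, s o v ^ (3 * F.dg o)) _ (ad_prod univ fun o _ => (had o).pow (3 * F.dg o))
    (fun p n z t v _ => esieg_le hF (hsz v) p _ _ z t _) fun p => by
      refine le_of_eq_of_le ?_ (hcard p)
      simp only [Fintype.card_prod, Fintype.card_coe]
      ring
  refine ⟨c, h0, fun z τ => (h1 z τ).trans ?_, fun p a ω hω τ => ?_⟩
  · have h5 : ∀ n d : ℕ, n ≤ 2 ^ d → (n : ℝ) ≤ Real.exp d := fun n d hn =>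
      calc (n : ℝ) ≤ 2 ^ d := by exact_mod_cast hn
        _ ≤ Real.exp 1 ^ d := pow_le_pow_left₀ zero_le_two (by linarith [Real.add_one_le_exp 1]) _
        _ = _ := by rw [← Real.exp_nat_mul, mul_one]
    have h4 : (Fintype.card (Bx r F.n₀) : ℝ) * ∏ p, (Fintype.card (TT Tm p) : ℝ) ≤
        ∏ o, Real.exp (F.dg o) := by
      rw [Fintype.prod_option, Fintype.prod_prod_type]
      simp only [Fintype.card_pi (α := fun s : β => Tm (_, s)), Nat.cast_prod]
      exact mul_le_mul (h5 _ _ ((card_Bx_le r _).trans (Nat.pow_le_pow_right two_pos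
        (Nat.le_add_right _ _)))) (prod_le_prod (fun _ _ => by positivity) fun p _ =>
          prod_le_prod (fun _ _ => Nat.cast_nonneg _) fun b _ => h5 _ _ (hF.card (p, b)))
        (by positivity) (Real.exp_pos _).le
    refine (mul_le_mul_of_nonneg_right h4 (by positivity)).trans (le_of_eq ?_)
    rw [← Real.exp_sum, ← Real.exp_log (one_pos.trans_le hC), ← Real.exp_add, ← Real.exp_add,
      Real.log_exp, add_left_comm, ← sum_add_distrib]
    congr 2
    exact sum_congr rfl fun o _ => by push_cast; ring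
  · have e1 : F.slice c p a ω τ (X : κ → MvPolynomial κ k) =
        ∑ z, ∑ t, MvPolynomial.C (c z (Function.update τ p t) : k) * esieg_pol F p a ω z t := by
      rw [Cfg.slice, sum_comm]
      refine sum_congr rfl fun t _ => ?_
      rw [sum_mul]
      exact sum_congr rfl fun z _ => by rw [esieg_pol, mul_assoc, map_intCast]
    rw [e1]
    refine (hrd none).mem (n := F.dh p) (IsHomogeneous.sum _ _ _ fun z _ =>
      IsHomogeneous.sum _ _ _ fun t _ => (esieg_hom hF p a ω z t).C_mul _) fun ω₀ h₀ => ?_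
    simp only [redc_sum, redc_C_mul]
    convert h2 p (a, ⟨ω₀, h₀⟩, ⟨ω, hω⟩) τ

end Pool.Agent.Lib.MP_651af7_nt.Cn
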