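import Pool.Agent.Lib.MP_651af7_nt.Cn.EGlob
import Pool.Agent.Lib.MP_651af7_nt.Cn.ESieg
import Pool.Agent.Lib.MP_651af7_nt.Cn.ECnt

/-! Engine: choice of the parameters and conclusion. -/

namespace Pool.Agent.Lib.MP_651af7_nt.Cn

open MvPolynomial Finset Height
open Pool.Agent.Lib.MP_651af7_nt.Av Pool.Agent.Lib.MP_651af7_nt.Av.AV

/-- The final numerical contradiction. -/
theorem emain_num {I : Type} [Fintype I] {w dg κ κ' sn cn : Option I → ℝ} {ar : I → ℝ}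
    {D G Y lH κr κs η θ θ' K K₁ K₂ A tw ε : ℝ} (hD : 0 < D) (hw : ∀ o, 1 ≤ w o)
    (hε : ∀ o, 1 ≤ ε * w o) (hκ : ∀ o, 0 ≤ κ o) (hκ' : ∀ o, κ o ≤ κ' o) (hdg : ∀ o, 0 ≤ dg o)
    (hsn : ∀ o, sn o ≤ η * w o) (hcn : ∀ o, cn o ≤ θ * w o)
    (har : ∀ i, ar i ≤ θ * (dg (some i) * w (some i)) + 5 * D) (hη : 0 < η) (hθ : 0 < θ)
    (hκr : 0 ≤ κr) (hκs : 0 ≤ κs) (hA : 0 ≤ A) (htw : 0 ≤ tw) (hε0 : 0 < ε)
    (h2 : G ≤ tw * lH + ∑ o, A * dg o * (κs * (ε * w o + 1)) + Y + ∑ i, ar i +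
      2 * ∑ o, dg o * cn o + ∑ o, κ o * (κr * (w o + 1) + sn o + w o))
    (h3 : ∑ o, w o * κ' o < θ' * (K * D)) (h4 : (2 * κr + η + 1) * θ' * K ≤ 1)
    (h7 : lH ≤ K₂ * (ε * D)) (h8 : ∑ o, dg o * w o ≤ K₁ * D)
    (h9 : (tw * K₂ + 2 * A * κs * K₁) * ε ≤ 1) (h10 : 3 * θ * K₁ ≤ 1)
    (h11 : Y + Fintype.card I * (5 * D) + 3 * D ≤ G) : False := by
  have hw0 : ∀ o, 0 ≤ w o := fun o => zero_le_one.trans (hw o)
  have s1 : ∑ o, A * dg o * (κs * (ε * w o + 1)) ≤ 2 * A * κs * ε * ∑ o, dg o * w o := by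
    rw [mul_sum]
    refine sum_le_sum fun o _ => ?_
    have := mul_le_mul_of_nonneg_left (hε o) (mul_nonneg (hdg o) (mul_nonneg hA hκs))
    linarith
  have s2 : ∑ o, κ o * (κr * (w o + 1) + sn o + w o) ≤ (2 * κr + η + 1) * ∑ o, w o * κ' o := by
    rw [mul_sum]
    refine sum_le_sum fun o _ => ?_
    have e1 : κr * (w o + 1) + sn o + w o ≤ (2 * κr + η + 1) * w o := by
      have := mul_le_mul_of_nonneg_left (hw o) hκr
      have := hsn o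
      linarith
    have e3 := (mul_le_mul_of_nonneg_left e1 (hκ o)).trans (mul_le_mul_of_nonneg_right (hκ' o)
      (mul_nonneg (by linarith) (hw0 o)))
    linarith
  have s3 : ∑ o, dg o * cn o ≤ θ * ∑ o, dg o * w o := by
    rw [mul_sum]
    refine sum_le_sum fun o _ => ?_
    have := mul_le_mul_of_nonneg_left (hcn o) (hdg o)
    linarith
  have s4 : ∑ i, ar i ≤ θ * ∑ o, dg o * w o + Fintype.card I * (5 * D) := by
    have e1 := sum_le_sum fun i (_ : i ∈ univ) => har i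
    rw [sum_add_distrib, ← mul_sum, sum_const, card_univ, nsmul_eq_mul] at e1
    have e2 := mul_nonneg hθ.le (mul_nonneg (hdg none) (hw0 none))
    rw [Fintype.sum_option]
    linarith
  have s5 := mul_lt_mul_of_pos_left h3 (show 0 < 2 * κr + η + 1 by linarith)
  have s6 := mul_le_mul_of_nonneg_right h4 hD.le
  have s7 := mul_le_mul_of_nonneg_left h7 htw
  have s8 := mul_le_mul_of_nonneg_left h8 (show 0 ≤ 2 * A * κs * ε by positivity)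
  have s9 := mul_le_mul_of_nonneg_right h9 hD.le
  have s10 := mul_le_mul_of_nonneg_left h8 hθ.le
  have s11 := mul_le_mul_of_nonneg_right h10 hD.le
  linarith

theorem emain_coef {O : Type} [Fintype O] {w dg : O → ℝ} {D lH κs K₁ K₂ tw ε : ℝ}
    (hD : 0 ≤ D) (hε : ∀ o, 1 ≤ ε * w o) (hdg : ∀ o, 0 ≤ dg o) (hκs : 0 ≤ κs) (htw : 0 ≤ tw)
    (hε0 : 0 < ε) (hK : 0 ≤ K₁) (h7 : lH ≤ K₂ * (ε * D)) (h8 : ∑ o, dg o * w o ≤ K₁ * D) :
    tw * lH + ∑ o, 3 * dg o * (κs * (ε * w o + 1)) ≤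
      ε * ((K₁ + tw * K₂ + 6 * κs * K₁ + 1) * D) := by
  have s1 : ∑ o, 3 * dg o * (κs * (ε * w o + 1)) ≤ 6 * κs * ε * ∑ o, dg o * w o := by
    rw [mul_sum]
    refine sum_le_sum fun o _ => ?_
    have := mul_le_mul_of_nonneg_left (hε o) (mul_nonneg (hdg o) hκs)
    linarith
  have s7 := mul_le_mul_of_nonneg_left h7 htw
  have s8 := mul_le_mul_of_nonneg_left h8 (show 0 ≤ 6 * κs * ε by positivity)
  have s9 : 0 ≤ ε * D * (K₁ + 1) := by positivity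
  linarith

theorem emain_log {O : Type} [Fintype O] {w dg : O → ℝ} {D C κs K₁ ε : ℝ}
    (hε : ∀ o, 1 ≤ ε * w o) (hC : C ≤ ε * D) (hdg : ∀ o, 0 ≤ dg o) (hκs : 0 ≤ κs) (hε0 : 0 < ε)
    (h8 : ∑ o, dg o * w o ≤ K₁ * D) :
    C + ∑ o, dg o * (3 * (κs * (ε * w o + 1)) + 1) ≤ (1 + (6 * κs + 1) * K₁) * (ε * D) := by
  have s1 : ∑ o, dg o * (3 * (κs * (ε * w o + 1)) + 1) ≤ (6 * κs + 1) * ε * ∑ o, dg o * w o := by
    rw [mul_sum]
    refine sum_le_sum fun o _ => ?_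
    have := mul_le_mul_of_nonneg_left (hε o) (mul_nonneg (hdg o) hκs)
    have := mul_le_mul_of_nonneg_left (hε o) (hdg o)
    linarith
  have s8 := mul_le_mul_of_nonneg_left h8 (show 0 ≤ (6 * κs + 1) * ε by positivity)
  linarith

theorem emain_card {q T N C X Z : ℕ} (hq0 : 0 < q) (hq : 2 * N * (C * T ^ 3) ≤ q)
    (h : X * q ^ 3 ≤ C * T ^ 3 * Z) : 2 * q ^ 2 * (N * X) ≤ Z := by
  refine Nat.le_of_mul_le_mul_right ?_ hq0
  calc _ = 2 * N * (X * q ^ 3) := by ring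
    _ ≤ 2 * N * (C * T ^ 3 * Z) := Nat.mul_le_mul_left _ h
    _ ≤ _ := by
      rw [← mul_assoc, mul_comm Z q]
      exact Nat.mul_le_mul_right _ hq

theorem emain_arm {dy da n Q w X D θ : ℝ} (hw : 0 ≤ w) (hθ : 0 ≤ θ) (h1 : dy + Q * n ≤ da)
    (h2 : n * w ≤ 2 * D) (h3 : Q ≤ n) (h4 : n * (Q * X) ≤ D) :
    dy * (θ * w) + n * (Q * X + w + Q * (θ * w)) + Q * w ≤ θ * (da * w) + 5 * D := by
  have := mul_le_mul_of_nonneg_right h1 (mul_nonneg hθ hw)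
  have := mul_le_mul_of_nonneg_right h3 hw
  linarith

theorem emain_deg {I : Type} [Fintype I] {dc da w : I → ℝ} {g M N w₀ : ℝ} (hw₀ : 0 ≤ w₀)
    (h1 : ∀ i, dc i ≤ (2 * g + 5) * (M * N)) (h2 : ∀ i, da i * w i ≤ (2 * g + 7) * M * (2 * (N * w₀))) :
    ((g + 1) * (M * N) + ∑ i, dc i) * w₀ + ∑ i, da i * w i ≤
      M * (g + 1 + Fintype.card I * (6 * g + 19)) * (N * w₀) := by
  have e1 := sum_le_sum fun i (_ : i ∈ univ) => h1 i
  have e2 := sum_le_sum fun i (_ : i ∈ univ) => h2 i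
  rw [sum_const, card_univ, nsmul_eq_mul] at e1 e2
  have := mul_le_mul_of_nonneg_right e1 hw₀
  linarith

variable {k ι : Type} [Field k] [NumberField k] [Fintype ι]

theorem engine' {A B : AV k ι} (h : Sub A B) {g : ℕ} (hg : B.dim ≤ g) (ρ B₀ : ℕ) {e : ℕ}
    (he : 1 ≤ e) {η : ℝ} (hη : 0 < η) (β : Type) [Fintype β] (mk : Finset (Fin (g + 1 + 1)))
    (hmk : 2 * (Fintype.card β * mk.card) = Fintype.card β + 3) :
    ∃ (m B' : ℕ) (θ ζ ε₀ : ℝ), 0 < θ ∧ 0 < ζ ∧ 0 < ε₀ ∧ ∀ ε : ℝ, 0 < ε → ε ≤ ε₀ → ∃ W : ℝ,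
      ∀ (T : Finset (AbsoluteValue k ℝ)) (μ : Fin m → AbsoluteValue k ℝ → ℝ)
        (b : Option (Fin m × β) → Blk A g ρ) (j : Fin m × β → ℕ),
        (∀ o, (b o).Good B B₀ e ε) → (∀ o, W ≤ hc (b o).v) →
        (∀ o o', o ≠ o' → hc (b o).v ≤ ζ * hc (b o').v ∨ hc (b o').v ≤ ζ * hc (b o).v) →
        (∀ i, Near A θ (j i) (b none).P (b (some i)).P (b none).v (b (some i)).v) →
        (∀ o, cnt T (b o).v ≤ θ * hc (b o).v) → (∀ p, Prob T (μ p)) →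
        (∀ i, BadM (μ i.1) mk e (η * hc (b (some i)).v) (b (some i)).u (pt (b (some i)).v)) →
        ∃ o, (b o).Exit B' (B' * ε * hc (b o).v) := by
  classical
  obtain ⟨κs, hκs, hsz⟩ := exists_sz A (Option ι) (g + 1) ρ B₀ he
  obtain ⟨κr, hκr, hrad⟩ := exists_rad k (Option ι) (g + 1) B₀
  obtain ⟨Ns, Cs, hCs, hsieg⟩ := siegel k (Option ι) (ι × ι × ι) β
  obtain ⟨C₁, hcnt⟩ := card_low (Option ι) β g ρ
  obtain ⟨C₂, hC₂⟩ := A.ht_two_pow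
  obtain ⟨T, hT⟩ := exists_nat_ge ((g + 4 + 5 * Fintype.card β) / (η / 2))
  rw [div_le_iff₀ (half_pos hη)] at hT
  have hT0 : 1 ≤ T := Nat.pos_of_ne_zero fun h => by
    rw [h, Nat.cast_zero, zero_mul] at hT
    have : (0 : ℝ) < g + 4 + 5 * Fintype.card β := by positivity
    linarith
  obtain ⟨σ, hσ1, hσ2⟩ : ∃ σ : ℕ, 2 * Ns * (C₁ * T ^ 3) ≤ 2 ^ σ ∧
      e * T + ρ * Fintype.card (Option ι) ≤ 2 ^ σ :=
    ⟨max _ _, (le_max_left _ _).trans Nat.lt_two_pow_self.le,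
      (le_max_right _ _).trans Nat.lt_two_pow_self.le⟩
  have hq1 : 1 ≤ 2 ^ σ := Nat.one_le_two_pow
  obtain ⟨m, hm⟩ : ∃ m, m = (2 ^ σ) ^ 2 := ⟨_, rfl⟩
  have hm1 : (1 : ℝ) ≤ m := by
    rw [hm]
    exact_mod_cast Nat.one_le_pow _ _ hq1
  obtain ⟨tw, htw⟩ : ∃ tw : ℝ, tw = totalWeight k := ⟨_, rfl⟩
  have htw0 : 0 ≤ tw := by rw [htw]; positivity
  obtain ⟨K₁, hK₁⟩ : ∃ K₁ : ℝ, K₁ = m * (g + 1 + Fintype.card (Fin m × β) * (6 * g + 19)) :=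
    ⟨_, rfl⟩
  have hK₁0 : 0 < K₁ := by rw [hK₁]; positivity
  obtain ⟨K₂, hK₂⟩ : ∃ K₂ : ℝ, K₂ = 1 + (6 * κs + 1) * K₁ := ⟨_, rfl⟩
  have hK₂0 : 0 ≤ K₂ := by rw [hK₂]; positivity
  obtain ⟨K, hK⟩ : ∃ K : ℝ, K = K₁ + tw * K₂ + 6 * κs * K₁ + 1 := ⟨_, rfl⟩
  have hK1 : K₁ + 1 ≤ K := by
    have : 0 ≤ tw * K₂ + 6 * κs * K₁ := by positivity
    linarith
  have hK0 : 0 < K := by linarith
  obtain ⟨B', ζ, hζ, hnv⟩ := nvk k (Option ι) (Option (Fin m × β)) (g + 1) B₀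
    (θ := 1 / ((2 * κr + η + 1) * K)) (by positivity)
  obtain ⟨a, ha⟩ : ∃ a : ℝ, a = g + Fintype.card ι + 14 := ⟨_, rfl⟩
  have ha0 : 0 ≤ a := by rw [ha]; positivity
  have hX0 : 0 ≤ tw * K₂ + 2 * a * κs * K₁ := by positivity
  refine ⟨m, B', 1 / (3 * K₁), ζ, 1 / (tw * K₂ + 2 * a * κs * K₁ + 1), by positivity, hζ,
    by positivity, fun ε hε hε0 => ?_⟩
  rw [le_div_iff₀ (by linarith)] at hε0
  have hε1 : ε ≤ 1 := by nlinarith
  obtain ⟨Wn, hWn⟩ := hnv ε hε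
  refine ⟨max (max Wn 1) (max (max (1 / ε) (Cs / ε)) (2 ^ σ * C₂)),
    fun S μ b j hG hW hr hN hcn hμ hB => ?_⟩
  simp only [max_le_iff, div_le_iff₀' hε, forall_and] at hW
  obtain ⟨⟨hW0, hW1⟩, ⟨hW2, hW3⟩, hW4⟩ := hW
  have hw0 : ∀ o, 0 ≤ hc (b o).v := fun o => hc_nonneg _
  have hb : ∀ o, (b o).Geom B := fun o => (hG o).toGeom
  choose ξ hξ using fun o => (b o).C.exists_br (hb o).atx
  choose rd s hrd as hs using fun o => hsz (b o).J (b o).u (b o).c (ε * hc (b o).v)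
    (mul_nonneg hε.le (hw0 o)) (hG o).nn (hG o).smu (hG o).smc
  choose q aq hq using fun o => hrad (b o).C (pt (b o).v) (ξ o) (hc (b o).v) (hb o).atx (hξ o)
    le_rfl fun a => ⟨((hG o).smφ a).1, fun μ => (((hG o).smφ a).2 μ).trans
      (mul_le_of_le_one_left (hw0 o) hε1)⟩
  obtain ⟨fr, k₀, k₂, a₀, hfr⟩ := exists_frame h hg σ j hb hξ
  obtain ⟨J, hJ⟩ : ∃ J, ∀ i, j i ≤ J := ⟨univ.sup j, fun i => le_sup (mem_univ i)⟩
  obtain ⟨N, hN'⟩ : ∃ N, N = 2 ^ σ * 4 ^ J := ⟨_, rfl⟩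
  obtain ⟨n, hn, hn'⟩ : ∃ n : Fin m × β → ℕ, (∀ i, n i * 4 ^ j i = N) ∧ ∀ i, 2 ^ σ ≤ n i :=
    ⟨fun i => 2 ^ σ * 4 ^ (J - j i), fun i => by
      rw [hN', mul_assoc, ← pow_add, Nat.sub_add_cancel (hJ i)],
      fun i => Nat.le_mul_of_pos_right _ (by positivity)⟩
  have hok : ∀ v, (cfg σ ((2 ^ σ) ^ 2 * N) n j fr k₀ k₂ b rd).Ok v fun o => s o v := fun v =>
    cfg_ok (fun o => (hs o v).1) (fun o => (hs o v).2.1) fun o => (hs o v).2.2
  have hdc : ∀ i, dC g (2 ^ σ) (n i) (j i) ≤ (2 * g + 5) * ((2 ^ σ) ^ 2 * N) := fun i =>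
    hn i ▸ dC_le g hq1 (n i) (j i)
  obtain ⟨c, hc0, hc', hV⟩ := hsieg (g + 1) m e ρ (T * N) _
    (cfg σ ((2 ^ σ) ^ 2 * N) n j fr k₀ k₂ b rd) mk s _ cfg_hom hrd as hok fun p => by
      have h1 := hcnt k _ m e (2 ^ σ) N T n (cfg σ ((2 ^ σ) ^ 2 * N) n j fr k₀ k₂ b rd) mk he hmk
        hT0 hσ2 rfl hn (fun i => hq1.trans (hn' i)) (fun i => Nat.one_le_pow _ _ (by norm_num))
        (fun _ => rfl) hdc p
      exact hm ▸ emain_card hq1 hσ1 h1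
  have hne := hfr _ n rd c hc0
  obtain ⟨D, hD⟩ : ∃ D : ℝ, D = N * hc (b none).v := ⟨_, rfl⟩
  have hN1 : (1 : ℝ) ≤ N := by
    rw [hN']
    exact_mod_cast (show 0 < 2 ^ σ * 4 ^ J by positivity)
  have hD1 : hc (b none).v ≤ D := hD ▸ le_mul_of_one_le_left (hw0 _) hN1
  have hD0 : 0 < D := by linarith [hW1 none]
  have hnr : ∀ i, (n i : ℝ) * 4 ^ j i = N := fun i => by exact_mod_cast hn i
  have hnw : ∀ i, n i * hc (b (some i)).v ≤ 2 * D := fun i => by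
    have := mul_le_mul_of_nonneg_left (hN i).le (Nat.cast_nonneg (n i))
    rw [hD, ← hnr i]
    linarith
  obtain ⟨dg, hdg⟩ : ∃ dg, dg = (cfg σ ((2 ^ σ) ^ 2 * N) n j fr k₀ k₂ b rd).dg := ⟨_, rfl⟩
  have hdg0 : ∀ o, (0 : ℝ) ≤ dg o := fun o => Nat.cast_nonneg _
  have hd0 : dg none = (g + 1) * (m * N) + ∑ i, dC g (2 ^ σ) (n i) (j i) := by
    rw [hdg, show m * N = (2 ^ σ) ^ 2 * N by rw [hm]]
    rfl
  have hd1 : ∀ i, dg (some i) = dA g (2 ^ σ) (n i) := fun i => by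
    rw [hdg]
    rfl
  have h8 : ∑ o, dg o * hc (b o).v ≤ K₁ * D := by
    rw [hK₁, hD, Fintype.sum_option, hd0]
    push_cast
    refine emain_deg (hw0 _) (fun i => ?_) fun i => ?_
    · have := hdc i
      rw [← hm] at this
      exact_mod_cast this
    · have h1 := dA_le g hq1 (hq1.trans (hn' i))
      rw [← hm, ← hd1] at h1
      have h2 : (dg (some i) : ℝ) ≤ (2 * g + 7) * (m * n i) := by exact_mod_cast h1
      have h3 := mul_le_mul_of_nonneg_right h2 (hw0 (some i))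
      have h4 := mul_le_mul_of_nonneg_left (hnw i) (show (0 : ℝ) ≤ (2 * g + 7) * m by positivity)
      rw [← hD]
      linarith
  have h7 := emain_log hW2 ((hW3 none).trans (mul_le_mul_of_nonneg_left hD1 hε.le)) hdg0 hκs hε h8
  rw [← hK₂] at h7
  rw [← hdg] at hc'
  obtain ⟨lH, hlH⟩ : ∃ lH, lH = Cs + ∑ o, dg o * (3 * (κs * (ε * hc (b o).v + 1)) + 1) :=
    ⟨_, rfl⟩
  rw [← hlH] at h7 hc'
  have hH : 1 ≤ Real.exp lH := Real.one_le_exp (hlH ▸ add_nonneg hCs (sum_nonneg fun o _ => by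
    have := hw0 o
    positivity))
  have hG' := Cfg.map_FF _ (aeval (xo ξ) : MvPolynomial (Option (Fin m × β) × Option ι) k →ₐ[k] _)
    c a₀ fun o d => X (o, d)
  simp only [aeval_X] at hG'
  have s1 := mul_le_mul_of_nonneg_right hK1 hD0.le
  have s2 := mul_nonneg hK₁0.le hD0.le
  have aG := (ad_E (k := k) hH).mul (ad_prod univ fun o _ => (as o).pow (3 * dg o))
  refine (hWn (fun o => hc (b o).v) (fun o => (b o).C) (fun o => pt (b o).v) ξ hW0 hr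
    (fun o => (hb o).atx) hξ (fun o => (hG o).smφ) (K * D) _ _ (by linarith [hW0 none])
    (fun ν hν p => ?_) (aG.mono ?_) (fun ν v _ => hdg ▸ Cfg.FF_coeff cfg_hom (hok v) hH hc' a₀ ν)
    (hG' ▸ hne)).resolve_left ?_
  · have h1 : (ν p : ℝ) ≤ dg p.1 := by exact_mod_cast hdg ▸ Cfg.FF_deg cfg_hom c a₀ ν hν p
    have h2 := mul_le_mul_of_nonneg_left h1 (hw0 p.1)
    have h3 := single_le_sum (f := fun o => dg o * hc (b o).v)
      (fun o _ => mul_nonneg (hdg0 o) (hw0 o)) (mem_univ p.1)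
    linarith
  · rw [Real.log_exp, ← htw, hK]
    push_cast
    exact emain_coef hD0.le hW2 hdg0 hκs htw0 hε hK₁0.le h7 h8
  rintro ⟨κ', k1, k2⟩
  rw [hG'] at k2
  have ht0 : 0 ≤ η / 2 * hc (b none).v := mul_nonneg (half_pos hη).le (hw0 _)
  have hsg : ∀ i, 4 ^ j i * (η / 2 * hc (b none).v) ≤ η * hc (b (some i)).v := fun i => by
    have := mul_le_mul_of_nonneg_left (hN i).ge hη.le
    linarith
  obtain ⟨κ, k3, h2⟩ := global_ineq h he hb hξ hrd hH hc' hV as aq (fun o v => (hs o v).1) hok hq hμ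
    ht0 (fun i v l hl => (hB i v l hl).trans (by
      have h1 := mul_le_mul_of_nonneg_right (hsg i) ((hμ i.1).nn v)
      have h2 := (as (some i)).one v
      refine mul_le_mul_of_nonneg_right (mul_le_mul (max_le h2 ((hs _ v).2.1 l))
        (Real.exp_le_exp.2 (by linarith)) (Real.exp_pos _).le (by linarith))
        (pow_nonneg (nm_nn _ _) _))) hN k2
  rw [← hdg, Real.log_exp, ← htw, ← hm] at h2
  push_cast at h2
  rw [← ha] at h2
  refine emain_num hD0 hW1 hW2 (fun _ => Nat.cast_nonneg _)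
    (fun o => Nat.cast_le.2 (bdeg_mono k3 o)) hdg0 (fun o => ?_) hcn (fun i => ?_) hη
    (by positivity) hκr hκs ha0 htw0 hε h2 k1 (le_of_eq (by field_simp)) h7 h8 (by linarith)
    (le_of_eq (by field_simp)) ?_
  · cases o with
    | none => exact mul_nonneg hη.le (hw0 _)
    | some i => exact hsg i
  · refine emain_arm (hw0 _) (by positivity) ?_ (hnw i) (by exact_mod_cast hn' i) ?_
    · have h1 : DY g (2 ^ σ) (n i) + 2 ^ σ * n i ≤ dg (some i) := by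
        rw [hd1, dA, mul_assoc]
        omega
      exact_mod_cast h1
    · have h1 := (abs_le.1 (hC₂ (b none).P (j i))).1
      have h3 := mul_le_mul_of_nonneg_left h1 (show (0 : ℝ) ≤ n i * 2 ^ σ by positivity)
      have h4 := mul_le_mul_of_nonneg_left (hW4 none) (zero_le_one.trans hN1)
      rw [hD]
      rw [← hnr i] at h4 ⊢
      linarith
  · have h3 := mul_le_mul_of_nonneg_right hT (show 0 ≤ m * D by positivity)
    have h4 := mul_le_mul_of_nonneg_right hm1 hD0.le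
    rw [Fintype.card_prod, Fintype.card_fin]
    push_cast
    rw [hD] at h3 h4 ⊢
    linarith

end Pool.Agent.Lib.MP_651af7_nt.Cn
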