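import Pool.Agent.Lib.MP_651af7_nt.Cn.EArm
import Pool.Agent.Lib.MP_651af7_nt.Av.ELam

/-! Engine: the presentations differ by explicit factors. -/

namespace Pool.Agent.Lib.MP_651af7_nt.Cn

open MvPolynomial Finset
open Pool.Agent.Lib.MP_651af7_nt.Av Pool.Agent.Lib.MP_651af7_nt.Av.AV

variable {k ι R : Type} [Field k] [CommRing R] [Algebra k R] [IsLocalRing R] {A : AV k ι} {g : ℕ}

theorem epres_far {p P : A.Pt R} {v y Y : ι → R} (hv : Rep p v) (hY : Rep P Y)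
    (hy : Rep (p - P) y) (σ : ℕ) : ∃ Ω : ι → R, Rep (p + 2 ^ σ • P) Ω ∧
      ∀ (s : R) b c d, far A b c v (fun b' => s * Y b') σ d =
        s ^ (2 ^ σ * (2 ^ σ + 1)) * y b ^ 2 ^ σ * v c ^ (2 ^ σ - 1) * Ω d := by
  induction σ with
  | zero =>
    obtain ⟨u, hu⟩ := law hv hY (rep_co _) hy
    refine ⟨fun d => u * (p + P).co d, by
      simpa only [pow_zero, one_smul] using (rep_co (p + P)).smul u.isUnit, fun s b c d => ?_⟩
    have h := A.ph_mul d b 1 s v Y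
    simp only [one_mul] at h
    simp only [far, h, hu]
    norm_num
    ring
  | succ σ ih =>
    obtain ⟨Ω, h1, h2⟩ := ih
    obtain ⟨u, hu⟩ := law h1 (hY.dbn σ) (rep_co _) ((add_sub_cancel_right p _).symm ▸ hv)
    refine ⟨fun d => u * (p + 2 ^ σ • P + 2 ^ σ • P).co d, by
      rw [pow_succ, mul_two, add_nsmul, ← add_assoc]
      exact (rep_co _).smul u.isUnit, fun s b c d => ?_⟩
    simp only [far, funext (h2 s b c), funext (A.dbn_mul s Y σ)]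
    rw [A.ph_mul, hu, show 4 ^ σ = 2 ^ σ * 2 ^ σ from mul_pow 2 2 σ, pow_succ 2 σ]
    obtain ⟨q, hq⟩ : ∃ q, 2 ^ σ = q + 1 := ⟨2 ^ σ - 1, (Nat.sub_add_cancel Nat.one_le_two_pow).symm⟩
    rw [hq, show (q + 1) * 2 - 1 = 2 * q + 1 by omega, Nat.add_sub_cancel]
    ring

/-- Sketch. `law` gives `ph a b v y = u * (S a * Y' b)`; put `Y = u Y'`. Induction on `σ` with
`ph_mul`, `dbn_mul`, `Rep.dbn` and `law` for `p + 2 ^ σ • Y` and `2 ^ σ • Y` (difference `p`); for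
`σ = 0` use `law` for `p` and `p - p'` (difference `p'`). The units go into `Ω`. -/
theorem far_eq {p p' : A.Pt R} {v y S : ι → R} (hv : Rep p v) (hy : Rep p' y) (hS : Rep (p + p') S)
    (σ : ℕ) : ∃ Y Ω : ι → R, Rep (p - p') Y ∧ Rep (p + 2 ^ σ • (p - p')) Ω ∧
      (∀ a b, A.ph a b v y = S a * Y b) ∧ ∀ a b c d, far A b c v (fun b' => A.ph a b' v y) σ d =
        S a ^ (2 ^ σ * (2 ^ σ + 1)) * y b ^ 2 ^ σ * v c ^ (2 ^ σ - 1) * Ω d := by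
  obtain ⟨u, hu⟩ := law hv hy hS (rep_co _)
  have hY := (rep_co (p - p')).smul u.isUnit
  have h : ∀ a b, A.ph a b v y = S a * (u * (p - p').co b) := fun a b => by rw [hu]; ring
  obtain ⟨Ω, h1, h2⟩ := epres_far hv hY ((sub_sub_cancel p p').symm ▸ hy) σ
  exact ⟨_, Ω, hY, h1, h, fun a b c d => by simp only [h, h2]⟩

/-- The explicit form of a basic section: `far_eq`, `bx_mul`. -/
theorem arm'_eq {p p' : A.Pt R} {v y S : ι → R} (hv : Rep p v) (hy : Rep p' y)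
    (hS : Rep (p + p') S) (σ : ℕ) : ∃ Y Ω : ι → R, Rep (p - p') Y ∧
      Rep (p + 2 ^ σ • (p - p')) Ω ∧ (∀ a b, A.ph a b v y = S a * Y b) ∧
      ∀ (n : ℕ) (fr : Fin (g + 1) → ι) (k₀ k₂ : ι) (a : ι × ι × ι) (τ : Tm g (2 ^ σ) n) (t₀ t : R),
        arm' A σ n fr k₀ k₂ a τ t₀ y t v =
        S a.1 ^ DY g (2 ^ σ) n * y a.2.1 ^ (2 ^ σ * n) * v a.2.2 ^ ((2 ^ σ - 1) * n) *
          (bx (fun l => Y (fr l)) τ.1 * (Ω k₀ * t₀ ^ 2 ^ σ) ^ (τ.2.1 : ℕ) *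
            (Y (fr 0) ^ (2 ^ σ * (2 ^ σ + 1)) * t ^ (2 ^ σ + 1)) ^ (n - (τ.2.1 : ℕ)) *
            (v k₂ ^ (τ.2.2 : ℕ) * t ^ (2 ^ σ - (τ.2.2 : ℕ)))) := by
  obtain ⟨Y, Ω, h1, h2, h3, h4⟩ := far_eq hv hy hS σ
  refine ⟨Y, Ω, h1, h2, h3, fun n fr k₀ k₂ a τ t₀ t => ?_⟩
  rw [arm', h4]
  simp only [h3, bx_mul, DY]
  obtain ⟨l, hl⟩ := Nat.exists_eq_add_of_le τ.2.1.is_le
  generalize bx (fun l => Y (fr l)) τ.1 = z
  generalize v k₂ ^ (τ.2.2 : ℕ) * t ^ (2 ^ σ - (τ.2.2 : ℕ)) = w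
  generalize (τ.2.1 : ℕ) = i at hl
  clear τ
  subst hl
  rw [Nat.add_sub_cancel_left]
  generalize 2 ^ σ - 1 = r
  generalize 2 ^ σ = q
  simp only [mul_pow, ← pow_mul, mul_add _ i l, pow_add]
  ring

variable {β : Type} [Fintype β] [DecidableEq β] {ρ m σ n₀ : ℕ} {n j : Fin m × β → ℕ}
  {fr : Fin m × β → Fin (g + 1) → ι} {k₀ k₂ : Fin m × β → ι} {b : Option (Fin m × β) → Blk A g ρ}
  {rd : Option (Fin m × β) → (Option ι →₀ ℕ) → MvPolynomial (Fin (g + 1 + 1) ⊕ Option ι) k}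

/-- `cfg_ev`, `arm'_eq`, `Rep.dbn`, `Fintype.prod_prod_type`. -/
theorem FF_pres {p : Option (Fin m × β) → A.Pt R} {x : Option (Fin m × β) → Option ι → R}
    (hx : ∀ o, Rep (p o) fun c => x o (some c)) {S : Fin m × β → ι → R}
    (hS : ∀ i, Rep (p (some i) + 2 ^ j i • p none) (S i)) (c : (cfg σ n₀ n j fr k₀ k₂ b rd).Co) :
    ∃ f : R, ∀ a, (cfg σ n₀ n j fr k₀ k₂ b rd).FF c a x =
      (∏ i, S i (a i).1 ^ DY g (2 ^ σ) (n i) *
        A.dbn (fun c => x none (some c)) (j i) (a i).2.1 ^ (2 ^ σ * n i) *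
        x (some i) (some (a i).2.2) ^ ((2 ^ σ - 1) * n i)) * f := by
  have key : ∀ i, ∃ G : Tm g (2 ^ σ) (n i) → R, ∀ a τ,
      (cfg σ n₀ n j fr k₀ k₂ b rd).ev i a τ (x none) (x (some i)) =
        S i a.1 ^ DY g (2 ^ σ) (n i) * A.dbn (fun c => x none (some c)) (j i) a.2.1 ^ (2 ^ σ * n i) *
          x (some i) (some a.2.2) ^ ((2 ^ σ - 1) * n i) * G τ := fun i => by
    obtain ⟨Y, Ω, -, -, -, h⟩ := arm'_eq (g := g) (hx (some i)) ((hx none).dbn (j i)) (hS i) σ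
    exact ⟨_, fun a τ => (cfg_ev i a τ _ _).trans (h _ _ _ _ a τ _ _)⟩
  choose G h using key
  refine ⟨∑ τ, (∑ z, (c z τ : R) * bx (fun l => x none ((cfg σ n₀ n j fr k₀ k₂ b rd).q₀ l)) z) *
    ∏ p, ∏ s, G (p, s) (τ p s), fun a => ?_⟩
  rw [Cfg.FF, Fintype.prod_prod_type, mul_sum]
  refine sum_congr rfl fun τ _ => ?_
  rw [mul_left_comm, ← prod_mul_distrib]
  refine congrArg _ (prod_congr rfl fun p _ => ?_)
  rw [← prod_mul_distrib]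
  exact prod_congr rfl fun s _ => h _ _ _

end Pool.Agent.Lib.MP_651af7_nt.Cn
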