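import Pool.Agent.Lib.MP_651af7_nt.Cn.EMain

/-! The auxiliary construction on the cone. -/

namespace Pool.Agent.Lib.MP_651af7_nt.Cn

open Pool.Agent.Lib.MP_651af7_nt.Av

variable {k ι : Type} [Field k] [NumberField k] [Fintype ι]

/-- `none` is the centre. Common divisors: `β = Unit`, `mk = {0, 1}`. Proximity: `β = Fin 3`,
`mk = {0}`. -/
theorem engine {A B : AV k ι} (h : Sub A B) {g : ℕ} (hg : B.dim ≤ g) (ρ B₀ : ℕ) {e : ℕ}
    (he : 1 ≤ e) {η : ℝ} (hη : 0 < η) (β : Type) [Fintype β] (mk : Finset (Fin (g + 1 + 1)))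
    (hmk : 2 * (Fintype.card β * mk.card) = Fintype.card β + 3) :
    ∃ (m B' : ℕ) (θ ζ ε₀ : ℝ), 0 < θ ∧ 0 < ζ ∧ 0 < ε₀ ∧ ∀ ε : ℝ, 0 < ε → ε ≤ ε₀ → ∃ W : ℝ,
      ∀ (T : Finset (AbsoluteValue k ℝ)) (μ : Fin m → AbsoluteValue k ℝ → ℝ)
        (b : Option (Fin m × β) → Blk A g ρ) (j : Fin m × β → ℕ),
        (∀ o, (b o).Good B B₀ e ε) → (∀ o, W ≤ hc (b o).v) →
        (∀ o o', o ≠ o' → hc (b o).v ≤ ζ * hc (b o').v ∨ hc (b o').v ≤ ζ * hc (b o).v) →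
        (∀ i, Near A θ (j i) (b none).P (b (some i)).P (b none).v (b (some i)).v) →
        (∀ o, cnt T (b o).v ≤ θ * hc (b o).v) → (∀ p, Prob T (μ p)) →
        (∀ i, BadM (μ i.1) mk e (η * hc (b (some i)).v) (b (some i)).u (pt (b (some i)).v)) →
        ∃ o, (b o).Exit B' (B' * ε * hc (b o).v) :=
  engine' h hg ρ B₀ he hη β mk hmk

end Pool.Agent.Lib.MP_651af7_nt.Cn
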