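import Pool.Agent.Lib.MP_651af7_nt.Cn.SCod

/-! The transfer of the data to the members of the family. -/

namespace Pool.Agent.Lib.MP_651af7_nt.Cn

open MvPolynomial Height Filter
open Pool.Agent.Lib.MP_651af7_nt.Av Pool.Agent.Lib.MP_651af7_nt.Av.AV
open Pool.Agent.Lib.MP_651af7_nt.Vj Pool.Agent.Lib.MP_8865d3_nt.Sv

section

variable {α : Type} {U : Ultrafilter α} {k ι κ K : Type} [Field k] [Field K] [Algebra K (Up U k)]

theorem sblk_reprC {r : ℕ} (C : Chart K κ r) :
    ∃ Cn : α → Chart k κ r, ReprC U C Cn ∧ ∀ n, (Cn n).a₀ = C.a₀ := by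
  classical
  obtain ⟨D, hD⟩ := exists_reprC (U := U) (k := k) C
  have h0 : Repr U (map (algebraMap K (Up U k)) (C.φ C.a₀))
      fun _ => (X C.a₀ - 1 : MvPolynomial κ k) := by
    have h0 := Repr.const (U := U) (X C.a₀ - 1 : MvPolynomial κ k)
    rw [RingHom.map_sub, map_X, RingHom.map_one] at h0
    rwa [C.φ₀, RingHom.map_sub, map_X, RingHom.map_one]
  obtain ⟨_, h1⟩ := h0.supp'.exists
  refine ⟨fun n => ⟨C.a₀, C.I, fun a => if a = C.a₀ then X C.a₀ - 1 else (D n).φ a, C.inj, C.ne,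
    if_pos rfl, fun a μ hμ => ?_⟩, ⟨fun _ => rfl, fun a => ?_⟩, fun _ => rfl⟩
  · split_ifs at hμ with ha
    · exact ha ▸ C.supp _ μ (h1 hμ)
    · exact hD.I n ▸ (D n).supp a μ hμ
  · by_cases ha : a = C.a₀
    · simpa only [ha, if_true] using h0
    · simpa only [ha, if_false] using hD.φ a

variable [Algebra k K] [IsScalarTower k K (Up U k)]

theorem sblk_comp {G : ι → MvPolynomial κ K} {Gn : α → ι → MvPolynomial κ k}
    (hG : ∀ c, Repr U (map (algebraMap K (Up U k)) (G c)) fun n => Gn n c)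
    (f : MvPolynomial ι k) :
    Repr U (map (algebraMap K (Up U k)) (aeval G f)) fun n => aeval (Gn n) f := by
  have h := (Repr.const f).comp hG
  rw [aeval_map_algebraMap] at h
  exact (aeval_hom (mapAlgHom (IsScalarTower.toAlgHom k K (Up U k))) G f) ▸ h

/-- Substitution of forms into a homogeneous ideal. -/
theorem sblk_sub [Finite ι] {x : κ → Up U k} {J : α → Ideal (MvPolynomial κ k)}
    (hJ : ∀ P ∈ hid K x, ∀ p, Repr U (map (algebraMap K (Up U k)) P) p → ∀ᶠ n in U, p n ∈ J n)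
    {I : Ideal (MvPolynomial ι k)} (hI : ∀ f ∈ I, ∀ d, homogeneousComponent d f ∈ I)
    {G : ι → MvPolynomial κ K} {Gn : α → ι → MvPolynomial κ k} {s : ℕ}
    (hs : ∀ c, (G c).IsHomogeneous s)
    (hG : ∀ c, Repr U (map (algebraMap K (Up U k)) (G c)) fun n => Gn n c)
    (h0 : ∀ f ∈ I, aeval (fun c => aeval x (G c)) f = 0) :
    ∀ᶠ n in U, ∀ f ∈ I, aeval (Gn n) f ∈ J n := by
  have h1 : ∀ f ∈ I, aeval G f ∈ hid K x := fun f hf => by
    rw [← sum_homogeneousComponent f, map_sum]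
    exact Ideal.sum_mem _ fun d _ =>
      (mem_hid ((homogeneousComponent_isHomogeneous d f).aeval _ hs)).2
        ((aeval_hom ((aeval x : MvPolynomial κ K →ₐ[K] Up U k).restrictScalars k) G _).symm.trans
          (h0 _ (hI f hf d)))
  obtain ⟨m, f, rfl⟩ := Submodule.fg_iff_exists_fin_generating_family.1
    (IsNoetherian.noetherian I)
  refine (eventually_all.2 fun j => hJ _ (h1 _ (Submodule.subset_span ⟨j, rfl⟩)) _
    (sblk_comp hG (f j))).mono fun n hn => ?_
  change Ideal.span _ ≤ (J n).comap (aeval (Gn n) : MvPolynomial ι k →ₐ[k] MvPolynomial κ k)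
  exact Ideal.span_le.2 (Set.range_subset_iff.2 hn)

end

variable {α : Type} {U : Ultrafilter α} {k ι : Type} [Field k] [NumberField k] [Fintype ι]
  {A B : AV k ι} {h : Sub A B} {v : α → ι → k} {hH : Tendsto (fun n => hc (v n)) U atTop}
  {x : α → A.Pt k} {y : α → B.Pt k} {a : α → A.Pt k} {X : A.Pt (Up U k)} {Y : B.Pt (Up U k)}
  {aK : A.Pt (Sm k hH)} {a' : α → ι → k}

/-- Template `AV.exists_blk` (`Av/Los`); `J n` is spanned by representatives of generators of
`hid`, and a represented element of `hid` lies in `J n`. -/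
theorem Cos.exists_blk (hC : Cos h hH x y a X Y aK a') (hv : ∀ n, Rep (x n) (v n)) {g : ℕ}
    (hg : td (Sm k hH) (Set.range (gv U v)) = (g + 1 : ℕ)) {e ρ : ℕ}
    {u : Fin (g + 1 + 1) → MvPolynomial (Option ι) (Sm k hH)}
    {c : Option ι → Fin ρ → MvPolynomial (Fin (g + 1 + 1)) (Sm k hH)}
    (hnn : NN (hid (Sm k hH) (pt (gv U v))) e ρ u c)
    {un : α → Fin (g + 1 + 1) → MvPolynomial (Option ι) k}
    (hu : ∀ i, Repr U (map (algebraMap _ (Up U k)) (u i)) fun n => un n i) :
    ∃ (B₀ : ℕ) (b : α → Blk A g ρ), (∀ n, (b n).P = x n ∧ (b n).v = v n ∧ (b n).u = un n) ∧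
      (∀ ε : ℝ, 0 < ε → ∀ᶠ n in U, (b n).Good B B₀ e ε) ∧
      ∀ B' : ℕ, ∃ δ : ℝ, 0 < δ ∧ ∀ᶠ n in U, ¬(b n).Exit B' (δ * hc (v n)) := by
  classical
  have : CharZero (Sm k hH) := charZero_of_injective_algebraMap (algebraMap k _).injective
  have hX : Rep X (gv U v) := hC.gX.rep (.of_forall hv)
  obtain ⟨r, D, ha₀, hat, hr, hind, hon⟩ := exists_chart (K := Sm k hH) (pt (gv U v)) none rfl
  rw [td_pt, hg, Nat.cast_inj] at hr
  subst hr
  obtain ⟨Cn, hD, hD0⟩ := sblk_reprC (U := U) (k := k) D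
  choose cn hcn using fun a l => exists_repr (map (algebraMap (Sm k hH) (Up U k)) (c a l))
  obtain ⟨m, P, hP⟩ := Submodule.fg_iff_exists_fin_generating_family.1
    (IsNoetherian.noetherian (hid (Sm k hH) (pt (gv U v))))
  choose Pn hPn using fun j => exists_repr (map (algebraMap (Sm k hH) (Up U k)) (P j))
  have hJ : ∀ Q ∈ hid (Sm k hH) (pt (gv U v)), ∀ p,
      Repr U (map (algebraMap (Sm k hH) (Up U k)) Q) p →
      ∀ᶠ n in U, p n ∈ Ideal.span (Set.range fun j => Pn j n) := fun Q hQ p hp => by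
    have h2 := Ideal.mem_map_of_mem (MvPolynomial.map (algebraMap (Sm k hH) (Up U k)))
      (hP.ge hQ : Q ∈ Ideal.span (Set.range P))
    rw [Ideal.map_span, ← Set.range_comp] at h2
    exact Repr.mem_span (g := fun n j => Pn j n) hPn hp h2
  have hXr : ∀ d : Option ι, Repr U (map (algebraMap (Sm k hH) (Up U k)) (MvPolynomial.X d))
      fun _ => (MvPolynomial.X d : MvPolynomial (Option ι) k) := fun d => by
    simpa only [map_X] using Repr.const (U := U) (MvPolynomial.X d : MvPolynomial (Option ι) k)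
  have hCr : ∀ d, Repr U (map (algebraMap (Sm k hH) (Up U k)) (C (aK.co d)))
      fun n => (C (a' n d) : MvPolynomial (Option ι) k) := fun d => by
    simpa only [map_C, hC.co, evP, Pi.evalRingHom_apply] using
      repr_lift (U := U) (C (fun n => a' n d) : MvPolynomial (Option ι) (α → k))
  have g1 := sblk_sub hJ A.hom (fun d => isHomogeneous_X _ (some d)) (fun d => hXr (some d))
    fun f hf => by simpa only [aeval_X, pt_some] using hX.zero f hf
  have g2 := eventually_all.2 fun a₁ : ι => sblk_sub hJ B.hom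
    (G := fun d => A.ph a₁ d (fun e => MvPolynomial.X (some e)) fun e => C (aK.co e))
    (Gn := fun n d => A.ph a₁ d (fun e => MvPolynomial.X (some e)) fun e => C (a' n e))
    (fun d => by
      have h1 := (A.geo_ph_hom (fun e => isHomogeneous_X (Sm k hH) e)
        (fun e => isHomogeneous_C _ (aK.co e)) a₁ d).rename_isHomogeneous (f := some)
      have h2 := A.map_ph ((rename some : MvPolynomial ι (Sm k hH) →ₐ[_] _).restrictScalars k)
        a₁ d MvPolynomial.X fun e => C (aK.co e)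
      simp only [AlgHom.restrictScalars_apply, rename_X, rename_C] at h2
      exact h2 ▸ h1)
    (fun d => sblk_comp (Gn := fun n => Sum.elim (fun e => MvPolynomial.X (some e))
      fun e => C (a' n e)) (Sum.rec (fun e => hXr (some e)) hCr) _)
    fun f hf => by
      have h2 := fun d => A.map_ph ((aeval (pt (gv U v)) :
        MvPolynomial (Option ι) (Sm k hH) →ₐ[_] _).restrictScalars k) a₁ d
        (fun e => MvPolynomial.X (some e)) fun e => C (aK.co e)
      simp only [AlgHom.restrictScalars_apply, aeval_X, aeval_C, pt_some] at h2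
      simp only [h2]
      exact cos_zero h hX ⟨Y, hC.sub⟩ hf a₁
  have g3 : ∀ᶠ n in U, NN (Ideal.span (Set.range fun j => Pn j n)) e ρ (un n)
      fun a l => cn a l n := by
    have h1 := eventually_all.2 fun i => (hu i).supp'
    have h2 := eventually_all.2 fun a => eventually_all.2 fun l => (hcn a l).supp'
    have h3 := eventually_all.2 fun a => hJ _ (hnn.rel a)
      (fun n => MvPolynomial.X a ^ ρ - ∑ l, aeval (un n) (cn a l n) * MvPolynomial.X a ^ (l : ℕ))
      (by
        simp only [map_sub, map_sum, map_mul, map_pow, map_X, aeval_eq_bind₁, map_bind₁]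
        exact (Repr.X_pow a ρ).sub (Repr.sum Finset.univ
          (g := fun n l => aeval (un n) (cn a l n) * MvPolynomial.X a ^ (l : ℕ)) fun l =>
            ((hcn a l).comp hu).mul (Repr.X_pow a l)))
    filter_upwards [h1, h2, h3] with n h1 h2 h3
    exact ⟨hnn.pos, fun i d hd => hnn.hu i (mem_support_iff.1 (h1 i (mem_support_iff.2 hd))),
      fun a l β hβ => hnn.hc a l β (h2 a l hβ), h3⟩
  have h7 := fun j => hon (P j) (hid_zero _ (hP ▸ Submodule.subset_span ⟨j, rfl⟩))
  rw [show pt (gv U v) = fun a => germ U fun n => pt (v n) a from pt_gv v] at hat hind h7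
  have g4 : ∀ᶠ n in U, ∀ j, ∃ s, IsUnit (aeval (pt (v n)) s) ∧ s * Pn j n ∈ (Cn n).ideal := by
    refine eventually_all.2 fun j => ?_
    obtain ⟨s, hs, hs'⟩ := h7 j
    obtain ⟨t, ht⟩ := exists_repr (map (algebraMap (Sm k hH) (Up U k)) s)
    rw [ht.aeval', germ_isUnit] at hs
    have h2 := Ideal.mem_map_of_mem (MvPolynomial.map (algebraMap (Sm k hH) (Up U k))) hs'
    rw [D.ideal_eq, Ideal.map_span, ← Set.range_comp, map_mul] at h2
    have h3 := Repr.mem_span (g := fun n (a : ↥(Set.range D.I)ᶜ) => (Cn n).φ a)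
      (fun a => hD.φ a) (ht.mul (hPn j)) h2
    refine (hs.and h3).mono fun n hn => ⟨t n, hn.1, ?_⟩
    rw [Chart.ideal, hD.I, Set.image_eq_range]
    exact hn.2
  obtain ⟨B₁, hB₁⟩ := Finite.exists_le fun a => (D.φ a).totalDegree
  obtain ⟨B₂, hB₂⟩ := Finite.exists_le fun i => (u i).totalDegree
  obtain ⟨B₃, hB₃⟩ := Finite.exists_le fun p : Option ι × Fin ρ => (c p.1 p.2).totalDegree
  refine ⟨B₁ + B₂ + B₃, fun n => ⟨x n, v n, a n, a' n, Cn n,
    Ideal.span (Set.range fun j => Pn j n), un n, fun a l => cn a l n⟩,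
    fun n => ⟨rfl, rfl, rfl⟩, fun ε hε => ?_, fun B' => ?_⟩
  · have h3 := eventually_all.2 fun a => (hD.φ a).small hH (B := B₁ + B₂ + B₃)
      ((hB₁ a).trans (by omega)) hε
    have h4 := eventually_all.2 fun i => (hu i).small hH (B := B₁ + B₂ + B₃)
      ((hB₂ i).trans (by omega)) hε
    have h5 := eventually_all.2 fun a => eventually_all.2 fun l =>
      (hcn a l).small hH (B := B₁ + B₂ + B₃) ((hB₃ (a, l)).trans (by omega)) hε
    filter_upwards [hC.rep, hD.atx hat, g1, g2, g3, g4, h3, h4, h5] with n h0 h0' g1 g2 g3 g4 h3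
      h4 h5
    refine ⟨⟨hv n, h0, (hD0 n).trans ha₀, h0', (Cn n).on_span ?_, fun f hf => ?_,
      fun f hf a₁ => g2 a₁ f hf⟩, g3, h3, h4, h5⟩
    · rintro _ ⟨j, rfl⟩
      exact g4 j
    · rw [rename_eq_aeval]
      exact g1 f hf
  · obtain ⟨δ', hδ', h⟩ := exists_not_exit hH (fun n j => pt (v n) (D.I j)) hind B'
    refine ⟨δ', hδ', h.mono ?_⟩
    rintro n hn ⟨q, h1, h2, h3, h4, h5⟩
    refine hn q h1 h2 h3 h4 ?_
    simpa only [hD.I] using h5

end Pool.Agent.Lib.MP_651af7_nt.Cn
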