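import Pool.Agent.Lib.MP_651af7_nt.Cn.SDefs
import Pool.Agent.Lib.MP_8865d3_nt.Sv.Cod

/-! Codimension in the cone over a coset. -/

namespace Pool.Agent.Lib.MP_651af7_nt.Cn

open MvPolynomial Height Filter
open Pool.Agent.Lib.MP_651af7_nt.Av Pool.Agent.Lib.MP_651af7_nt.Av.AV
open Pool.Agent.Lib.MP_651af7_nt.Vj Pool.Agent.Lib.MP_8865d3_nt.Sv

variable {k ι K E : Type} [Field k] [CharZero k] [Fintype ι] [Field K] [Field E] [Algebra k K]
  [Algebra k E] [Algebra K E] [IsScalarTower k K E]

/-- `cod_chain`; a zero `y` of `A.I` has `td k (range y) ≤ td k (rat y) + 1 ≤ A.dim + 1`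
(`td_insert_le`, `td_le_dim`). -/
theorem td_cod (A : AV k ι) {L : Type} {G : L → MvPolynomial ι k}
    (hc : 2 ≤ ((Ideal.span (Set.range G)).map (Ideal.Quotient.mk A.I)).height) {w : ι → E}
    (hw : ∀ f ∈ A.I, aeval w f = 0) (hG : ∀ l, aeval w (G l) = 0) :
    td k (Set.range w) + 2 ≤ A.dim + 1 := by
  obtain ⟨M, _, _, y, hy, h1⟩ := cod_chain hc hw fun f hf =>
    (Ideal.span_le.2 (Set.range_subset_iff.2 hG) : Ideal.span (Set.range G) ≤
      RingHom.ker (aeval w : MvPolynomial ι k →ₐ[k] E)) hf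
  rw [← one_add_one_eq_two, ← add_assoc]
  exact h1.trans ((td_range_le y).trans (add_le_add (A.td_le_dim hy) le_rfl))

omit [CharZero k] [Fintype ι] in
theorem scod_rat (x : ι → E) : td k (rat x) ≤ td k (Set.range x) := by
  obtain ⟨L, hL, hS⟩ := tr_cl (K := k) (Set.range x)
  refine tr_td_le ?_
  rw [← hL]
  rintro _ ⟨r, rfl⟩
  exact L.div_mem (hS ⟨_, rfl⟩) (hS ⟨_, rfl⟩)

/-- A form outside the ideal that vanishes on the common zeros: the product, over the minimal
primes of `A.I ⊔ span G` that do not contain all variables, of a form that vanishes at the generic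
point (`tr_point`, `td_cod`, `gen_iff`, `mem_IK_iff`). -/
theorem exists_theta (A : AV k ι) {L : Type} {G : L → MvPolynomial ι k}
    (hc : 2 ≤ ((Ideal.span (Set.range G)).map (Ideal.Quotient.mk A.I)).height) :
    ∃ (Θ : MvPolynomial ι k) (t : ℕ), Θ.IsHomogeneous t ∧ Θ ∉ A.I ∧ ∀ v : ι → k, v ≠ 0 →
      (∀ f ∈ A.I, eval v f = 0) → (∀ l, eval v (G l) = 0) → eval v Θ = 0 := by
  have key : ∀ q ∈ (A.I ⊔ Ideal.span (Set.range G)).minimalPrimes,
      ∃ (f : MvPolynomial ι k) (n : ℕ), f.IsHomogeneous n ∧ f ∉ A.I ∧ ∀ v : ι → k, v ≠ 0 →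
        (∀ g ∈ q, eval v g = 0) → eval v f = 0 := by
    intro q hq
    have : q.IsPrime := hq.1.1
    obtain ⟨M, _, _, x, hx, -⟩ := tr_point q
    by_cases h0 : x = 0
    · refine ⟨1, 0, isHomogeneous_one _ _, (Ideal.ne_top_iff_one _).1 A.tr_prime.ne_top,
        fun v hv hz => (hv (funext fun a => ?_)).elim⟩
      simpa using hz (X a) ((hx _).1 (by rw [aeval_X, h0]; rfl))
    have hI : ∀ f ∈ A.I, aeval x f = 0 := fun f hf => (hx f).2 (hq.1.2 (Ideal.mem_sup_left hf))
    have h1 := td_cod A hc hI fun l =>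
      (hx _).2 (hq.1.2 (Ideal.mem_sup_right (Ideal.subset_span ⟨l, rfl⟩)))
    have h2 : ¬ Gen (A.IK k) x := fun h => by
      rw [← (A.gen_iff h0 hI).1 h, ← one_add_one_eq_two, ← add_assoc,
        ENat.add_le_add_iff_right ENat.one_ne_top] at h1
      exact ((ENat.add_one_le_iff (td_ne_top (Set.finite_range x))).1 h1).not_ge (scod_rat x)
    unfold Gen at h2
    push Not at h2
    obtain ⟨f, n, h3, h4, h5⟩ := h2
    refine ⟨f, n, h3, fun h => h5 ?_, fun v _ hz => hz f ((hx f).1 h4)⟩
    have h6 := (A.mem_IK_iff (K := k)).2 h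
    rwa [Algebra.algebraMap_self, MvPolynomial.map_id] at h6
  choose! f n h1 h2 h3 using key
  have hfin := (A.I ⊔ Ideal.span (Set.range G)).finite_minimalPrimes_of_isNoetherianRing
  have := A.tr_prime
  refine ⟨∏ q ∈ hfin.toFinset, f q, _, IsHomogeneous.prod _ _ n fun q hq =>
    h1 q (hfin.mem_toFinset.1 hq), fun h => ?_, fun v hv hI hG => ?_⟩
  · obtain ⟨q, hq, h4⟩ := Ideal.IsPrime.prod_mem_iff.1 h
    exact h2 q (hfin.mem_toFinset.1 hq) h4
  · have := RingHom.ker_isPrime (eval v : MvPolynomial ι k →+* k)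
    obtain ⟨q, hq, h4⟩ := Ideal.exists_minimalPrimes_le
      (I := A.I ⊔ Ideal.span (Set.range G)) (J := RingHom.ker (eval v : MvPolynomial ι k →+* k))
      (sup_le hI (Ideal.span_le.2 (Set.range_subset_iff.2 hG)))
    rw [map_prod]
    exact Finset.prod_eq_zero (hfin.mem_toFinset.2 hq) (h3 q hq v hv h4)

variable {A B : AV k ι} (h : Sub A B)

/-- Copy of `AV.codim` (`Av/Geo`) with `Set.range w` in place of `rat p.co`:
`A.dim + td K (range w) ≤ td k (rat x' ∪ range w') ≤ td k (range w) + B.dim`, and `td_cod`. -/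
theorem codim (hE : RelCl K E) {x : A.Pt E} (hx : Gen A.I x.co) {a : A.Pt K}
    (hxa : x - A.map (IsScalarTower.toAlgHom k K E) a ∈ (h.inc E).range) {L : Type}
    {G : L → MvPolynomial ι k}
    (hc : 2 ≤ ((Ideal.span (Set.range G)).map (Ideal.Quotient.mk A.I)).height)
    {F : Type} [Field F] [Algebra k F] [Algebra K F] [IsScalarTower k K F] {p : A.Pt F}
    {w : ι → F} (hw : Rep p w)
    (hp : p - A.map (IsScalarTower.toAlgHom k K F) a ∈ (h.inc F).range)
    (hG : ∀ l, aeval w (G l) = 0) : td K (Set.range w) + 2 ≤ B.dim + 1 := by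
  have : CharZero K := charZero_of_injective_algebraMap (algebraMap k K).injective
  obtain ⟨y, hy⟩ := hxa
  obtain ⟨W, hW⟩ := hp
  have h1 := td_cod A hc hw.zero hG
  have h3 : td k (rat x.co) = A.dim := by
    refine (A.gen_iff (K := k) (Function.ne_iff.2
      ((rep_co x).unit.imp fun _ e => e.ne_zero)) (rep_co x).zero).1 fun f n hf e => ?_
    have h4 := (A.mem_IK_iff (K := k)).2 (hx f n hf e)
    rwa [Algebra.algebraMap_self, MvPolynomial.map_id] at h4
  obtain ⟨M, _, _, i, i', hi⟩ := exists_join hE F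
  let _ : Algebra k M := ((algebraMap K M).comp (algebraMap k K)).toAlgebra
  have : IsScalarTower k K M := .of_algebraMap_eq fun _ => rfl
  let _ : Algebra E M := i.toRingHom.toAlgebra
  have : IsScalarTower K E M := .of_algebraMap_eq fun c => (i.commutes c).symm
  have : IsScalarTower k E M := .of_algebraMap_eq fun c =>
    ((i.restrictScalars k).commutes c).symm
  let x' := A.map (i.restrictScalars k) x
  let p' := A.map (i'.restrictScalars k) p
  let z := B.map (i.restrictScalars k) y - B.map (i'.restrictScalars k) W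
  have ex : rat x'.co = i '' rat x.co := geo_rat_map _ _
  have ez : x' = p' + h.inc M z := by
    have e2 : A.map (i.restrictScalars k) (A.map (IsScalarTower.toAlgHom k K E) a) =
        A.map (i'.restrictScalars k) (A.map (IsScalarTower.toAlgHom k K F) a) := by
      rw [AV.map_map, AV.map_map]
      exact map_congr (rep_co a) fun c => (i.commutes _).trans (i'.commutes _).symm
    have e3 := h.inc_map (i.restrictScalars k) y
    have e4 := h.inc_map (i'.restrictScalars k) W
    change A.map (i.restrictScalars k) x = A.map (i'.restrictScalars k) p +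
      h.inc M (B.map (i.restrictScalars k) y - B.map (i'.restrictScalars k) W)
    rw [map_sub, e3, e4, hy, hW, map_sub, map_sub]
    change _ = _ + (A.map (i.restrictScalars k) x - A.map (i.restrictScalars k) _ -
      (A.map (i'.restrictScalars k) p - A.map (i'.restrictScalars k) _))
    rw [e2]
    abel
  have h4 : td k (rat (h.inc M z).co) ≤ B.dim := by
    rw [A.tr_rat_rep (h.rep_inc (rep_co z))]
    exact B.td_le_dim (rep_co z).zero
  have h5 : td k (rat x'.co ∪ i' '' Set.range w) ≤ td k (Set.range w) + B.dim := by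
    refine (tr_td_le (S := i' '' Set.range w ∪ rat (h.inc M z).co) (Set.union_subset ?_ ?_)).trans
      ((td_union_le _ _).trans (add_le_add (td_image (i'.restrictScalars k) _).le h4))
    · obtain ⟨L, hL, hS⟩ := tr_cl (K := k) (i' '' Set.range w ∪ rat (h.inc M z).co)
      rw [ez]
      refine (A.rat_add_sub _ _).1.trans (Matroid.closure_subset_closure_of_subset_closure ?_)
      rw [← hL, A.tr_rat_rep (hw.map (i'.restrictScalars k))]
      rintro _ (⟨r, rfl⟩ | e)
      · exact L.div_mem (hS (.inl ⟨_, ⟨_, rfl⟩, rfl⟩)) (hS (.inl ⟨_, ⟨_, rfl⟩, rfl⟩))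
      · exact hS (.inr e)
    · exact Set.subset_union_left.trans (Matroid.subset_closure _ _ (Set.subset_univ _))
  have h6 : A.dim + td K (Set.range w) ≤ td k (rat x'.co ∪ i' '' Set.range w) := by
    refine le_trans (le_of_eq ?_) (td_add_le (M := E) ?_)
    · rw [ex, td_join i' hi, ← h3]
      exact congrArg (· + _) (td_image (i.restrictScalars k) _).symm
    · rw [ex]
      rintro _ ⟨c, -, rfl⟩
      exact ⟨c, rfl⟩
  have h7 : (A.dim : ℕ∞) + (td K (Set.range w) + 2) ≤ A.dim + (B.dim + 1) :=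
    calc (A.dim : ℕ∞) + (td K (Set.range w) + 2) = A.dim + td K (Set.range w) + 2 := by
          rw [add_assoc]
      _ ≤ td k (Set.range w) + B.dim + 2 := add_le_add (h6.trans h5) le_rfl
      _ = td k (Set.range w) + 2 + B.dim := add_right_comm _ _ _
      _ ≤ A.dim + 1 + B.dim := add_le_add h1 le_rfl
      _ = _ := by rw [add_assoc, add_comm 1]
  exact (ENat.add_le_add_iff_left (ENat.natCast_ne_top _)).1 h7

omit [CharZero k] [Fintype ι] in
/-- The equations of the coset. By `law` the vector is a multiple of a representative of `x - a`;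
split `f` into homogeneous components (`B.hom`, `aeval_mul_of_hom`, `Sub.rep_of_inc`). -/
theorem cos_zero {x : A.Pt E} {v : ι → E} (hv : Rep x v) {a : A.Pt K}
    (hxa : x - A.map (IsScalarTower.toAlgHom k K E) a ∈ (h.inc E).range) {f : MvPolynomial ι k}
    (hf : f ∈ B.I) (c : ι) :
    aeval (fun b => A.ph c b v fun d => algebraMap K E (a.co d)) f = 0 := by
  obtain ⟨u, hu⟩ := law hv ((rep_co a).map (IsScalarTower.toAlgHom k K E)) (rep_co _) (rep_co _)
  have e : (fun b => A.ph c b v fun d => algebraMap K E (a.co d)) = fun b =>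
      (u * (x + A.map (IsScalarTower.toAlgHom k K E) a).co c) *
        (x - A.map (IsScalarTower.toAlgHom k K E) a).co b :=
    funext fun b => (hu c b).trans (mul_assoc _ _ _).symm
  rw [e]
  exact zero_mul_of_hom B.hom ((h.mem_range_inc (rep_co _)).1 hxa) _ f hf

omit [CharZero k] [Fintype ι] in
/-- A specialisation lies over the coset: `exists_rep_of_ne`, `exists_unit_ph`, `rep_sub`,
`cos_zero` moved to `w` by `geo_aeval_ph`, `exists_rep` for `B`, `Rep.inj`. -/
theorem cos_spec {x : A.Pt E} {v : ι → E} (hv : Rep x v) {a : A.Pt K}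
    (hxa : x - A.map (IsScalarTower.toAlgHom k K E) a ∈ (h.inc E).range)
    {F : Type} [Field F] [Algebra k F] [Algebra K F] [IsScalarTower k K F] {w : ι → F}
    (h0 : w ≠ 0) (hs : ∀ f : MvPolynomial ι K, aeval v f = 0 → aeval w f = 0) :
    ∃ p : A.Pt F, Rep p w ∧ p - A.map (IsScalarTower.toAlgHom k K F) a ∈ (h.inc F).range := by
  obtain ⟨p, hp⟩ := exists_rep (A := A) (v := w)
    ((Function.ne_iff.1 h0).imp fun _ e => Ne.isUnit e) fun f hf => by
      rw [← aeval_map_algebraMap K]
      exact hs _ (by rw [aeval_map_algebraMap]; exact hv.zero f hf)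
  have ha := (rep_co a).map (IsScalarTower.toAlgHom k K F)
  obtain ⟨c, b, hu⟩ := exists_unit_ph hp ha
  refine ⟨p, hp, (h.mem_range_inc (rep_sub hp ha hu)).2 fun f hf => ?_⟩
  have h1 := hs (aeval (fun b => A.ph c b (X : ι → MvPolynomial ι K) fun d => C (a.co d)) f) (by
    rw [A.geo_aeval_ph _ _ (fun _ => c) (fun b => b) f v]
    simp only [aeval_C, aeval_X]
    exact cos_zero h hv hxa hf c)
  rw [A.geo_aeval_ph _ _ (fun _ => c) (fun b => b) f w] at h1
  simp only [aeval_C, aeval_X] at h1
  exact h1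

end Pool.Agent.Lib.MP_651af7_nt.Cn
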