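import Pool.Agent.Lib.MP_651af7_nt.Cn.SLoc

/-! Directions along an ultrafilter. -/

namespace Pool.Agent.Lib.MP_651af7_nt.Cn

open MvPolynomial Height Filter
open Pool.Agent.Lib.MP_651af7_nt.Av Pool.Agent.Lib.MP_651af7_nt.Av.AV
open Pool.Agent.Lib.MP_651af7_nt.Vj Pool.Agent.Lib.MP_8865d3_nt.Sv

variable {α : Type} {V : Ultrafilter α} {k ι : Type} [Field k] [NumberField k] [Fintype ι]

theorem scone_loc (T : Finset (AbsoluteValue k ℝ)) (v v' : ι → k) {c d : ℝ} (hc : 0 ≤ c)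
    (h : ∀ w ∈ T, |mlt w * ell w v' - c * (mlt w * ell w v)| ≤ d) :
    gsum (fun w => |ell w v' - c * ell w v|) ≤ T.card * d + (cnt T v' + c * cnt T v) := by
  have f1 := finS_abs (finS_sub (finS_ell v') ((finS_ell v).const_mul c))
  have f2 := finS_abs (finS_ell v)
  rw [← isum_add_osum T f1, isum_eq_sum, cnt, cnt, ← osum_const_mul T f2,
    ← osum_add T (finS_abs (finS_ell v')) (f2.const_mul c), ← nsmul_eq_mul]
  refine add_le_add (Finset.sum_le_card_nsmul _ _ _ fun w hw => le_trans (le_of_eq ?_) (h w hw))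
    (osum_mono T f1 ((finS_abs (finS_ell v')).add (f2.const_mul c)) fun w _ _ => ?_)
  · rw [mul_left_comm, ← mul_sub, abs_mul, abs_of_nonneg (mlt_nonneg w)]
  · exact (abs_sub _ _).trans_eq (by rw [abs_mul, abs_of_nonneg hc])

/-- Template `Sv.IsProd.cone` (`MP_8865d3_nt/Sv/Cone`) with `hc (v n)` for `GV.ht (z n)`,
`ht (x n) = logHeight (v n) ≤ hc (v n)` (`ht_eq`, `ht_le_hc`), `mlt w * ell w (v n)`, `w ∈ T`
(`mlt_ell_le`). For `loc`: `isum_add_osum`, `isum_eq_sum`, and outside `T` the bound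
`cnt T v' + 4 ^ j * cnt T v`. -/
theorem cone (A : AV k ι) (T : Finset (AbsoluteValue k ℝ)) {x : α → A.Pt k} {v : α → ι → k}
    (hv : ∀ n, Rep (x n) (v n)) (hH : Tendsto (fun n => hc (v n)) V atTop)
    (hT : Lo V (fun n => hc (v n)) fun n => cnt T (v n)) {θ : ℝ} (hθ : 0 < θ) :
    ∃ S ∈ V, ∀ n ∈ S, ∀ n' ∈ S, hc (v n) ≤ hc (v n') →
      ∃ j, Near A θ j (x n) (x n') (v n) (v n') := by
  obtain ⟨r, φ, C, H⟩ := A.exists_euclid
  have H' : ∀ P, |‖φ P‖ ^ 2 - ht P| ≤ C := H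
  have hy : ∀ n, ht (x n) ≤ hc (v n) := fun n => (ht_eq (hv n)).trans_le (ht_le_hc (rep_ne (hv n)))
  obtain ⟨δ, d0, d1, d2, d3⟩ : ∃ δ : ℝ, 0 < δ ∧ δ ≤ 1 / 2 ∧ 8 * δ ≤ θ ∧
      (T.card + 3) * δ ≤ θ := by
    have h0 : (0 : ℝ) ≤ T.card := by positivity
    refine ⟨min (1 / 2) (θ / (T.card + 8)), by positivity, min_le_left _ _, ?_⟩
    have h1 := (le_div_iff₀ (by linarith)).1 (min_le_right (1 / 2) (θ / (T.card + 8)))
    have h2 : 0 ≤ min (1 / 2) (θ / (T.card + 8)) := by positivity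
    have h3 := mul_nonneg h0 h2
    constructor <;> linarith
  obtain ⟨κ, hκ⟩ : ∃ κ : α → ℕ, ∀ n, κ n = Nat.log 4 ⌊hc (v n)⌋₊ := ⟨_, fun _ => rfl⟩
  have k1 : ∀ n, 1 ≤ hc (v n) → (4 : ℝ) ^ κ n ≤ hc (v n) := fun n hn => by
    refine le_trans ?_ (Nat.floor_le (by linarith))
    rw [hκ]
    exact_mod_cast Nat.pow_log_le_self 4 (Nat.floor_pos.2 hn).ne'
  have k2 : ∀ n, hc (v n) ≤ 4 * 4 ^ κ n := fun n => by
    refine (Nat.lt_floor_add_one _).le.trans ?_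
    rw [hκ, ← pow_succ']
    exact_mod_cast Nat.lt_pow_succ_log_self (b := 4) (by norm_num) _
  have e2 : ∀ j : ℕ, ((2 : ℝ) ^ j) ^ 2 = 4 ^ j := fun j => by
    rw [← pow_mul, mul_comm, pow_mul]
    norm_num
  have big := (hH.eventually_ge_atTop 1).and ((hH.const_mul_atTop d0).eventually_ge_atTop C)
  obtain ⟨S, hS, hc'⟩ := cone_lim V (M := 8) (fun n => (((2 : ℝ) ^ κ n)⁻¹ • φ (x n),
      (fun w : T => ((4 : ℝ) ^ κ n)⁻¹ • (mlt w.1 * ell w.1 (v n))),
      ((4 : ℝ) ^ κ n)⁻¹ • hc (v n))) (big.mono fun n ⟨b1, b2⟩ => by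
    have p4 : (0 : ℝ) < 4 ^ κ n := by positivity
    have p2 : (0 : ℝ) < 2 ^ κ n := by positivity
    have a0 := k2 n
    refine norm_prod_le_iff.2 ⟨?_, norm_prod_le_iff.2 ⟨(pi_norm_le_iff_of_nonneg (by norm_num)).2
      fun w => ?_, ?_⟩⟩
    · rw [norm_smul, norm_inv, Real.norm_of_nonneg p2.le, inv_mul_le_iff₀ p2]
      refine (pow_le_pow_iff_left₀ (norm_nonneg _) (by positivity) two_ne_zero).1 ?_
      have a1 := (abs_le.1 (H' (x n))).2
      have a2 := mul_le_mul_of_nonneg_right d1 (zero_le_one.trans b1)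
      rw [mul_pow, e2]
      linarith [hy n]
    · rw [norm_smul, norm_inv, Real.norm_of_nonneg p4.le, inv_mul_le_iff₀ p4, Real.norm_eq_abs,
        abs_mul, abs_of_nonneg (mlt_nonneg _)]
      linarith [mlt_ell_le (rep_ne (hv n)) w.1]
    · rw [norm_smul, norm_inv, Real.norm_of_nonneg p4.le, inv_mul_le_iff₀ p4,
        Real.norm_of_nonneg (hc_nonneg _)]
      linarith) d0
  refine ⟨_, Filter.inter_mem hS (big.and (hT δ d0)), ?_⟩
  rintro n ⟨s1, ⟨b1, b2⟩, b3⟩ n' ⟨s1', ⟨b1', b2'⟩, b3'⟩ hle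
  have hk : κ n ≤ κ n' := by
    rw [hκ, hκ]
    exact Nat.log_mono_right (Nat.floor_mono hle)
  obtain ⟨c1, c2⟩ := norm_prod_le_iff.1 (hc' n s1 n' s1')
  obtain ⟨c2, c3⟩ := norm_prod_le_iff.1 c2
  have c4 := cone_scale two_pos hk c1
  have c5 := abs_le.1 (cone_scale (c := 4) (by norm_num) hk c3)
  have a1 := mul_le_mul_of_nonneg_left (k1 n' b1') d0.le
  have a2 := mul_le_mul_of_nonneg_right d1 (zero_le_one.trans b1')
  rw [smul_eq_mul] at c5
  have g0 : (0 : ℝ) ≤ 4 ^ (κ n' - κ n) := by positivity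
  have g7 := mul_le_mul_of_nonneg_left (show 4 ^ (κ n' - κ n) * hc (v n) ≤ 2 * hc (v n') by
    linarith [c5.1]) d0.le
  refine ⟨κ n' - κ n, ?_, ?_, by linarith [c5.2], by linarith [c5.1]⟩
  · have g1 := (abs_le.1 (H' (x n' + 2 ^ (κ n' - κ n) • x n))).2
    have g2 := (abs_le.1 (H' (x n'))).1
    have g3 := mul_le_mul_of_nonneg_left (abs_le.1 (H' (x n))).1 g0
    have g4 := parallelogram_law_with_norm ℝ (φ (x n')) ((2 : ℝ) ^ (κ n' - κ n) • φ (x n))
    rw [map_add, map_nsmul, ← Nat.cast_smul_eq_nsmul ℝ, Nat.cast_pow, Nat.cast_ofNat] at g1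
    have g5 := pow_le_pow_left₀ (norm_nonneg _) c4 2
    rw [norm_smul, Real.norm_of_nonneg (by positivity), mul_pow, e2] at g4
    rw [mul_pow, e2] at g5
    have g6 := mul_le_mul_of_nonneg_left b2 g0
    have g8 := mul_le_mul_of_nonneg_right d2 (zero_le_one.trans b1')
    have g9 := mul_le_mul (show δ ≤ 1 by linarith) a1 (by positivity) zero_le_one
    linarith
  · refine (scone_loc T _ _ g0 (d := δ * hc (v n')) fun w hw => ?_).trans ?_
    · have c6 := (norm_le_pi_norm _ ⟨w, hw⟩).trans c2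
      exact (cone_scale (c := 4) (by norm_num) hk c6).trans a1
    · have g8 := mul_le_mul_of_nonneg_right d3 (zero_le_one.trans b1')
      have g9 := mul_le_mul_of_nonneg_left b3 g0
      linarith

end Pool.Agent.Lib.MP_651af7_nt.Cn
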