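import Pool.Agent.Lib.MP_651af7_nt.Cn.SBlk
import Pool.Agent.Lib.MP_651af7_nt.Cn.SCone
import Pool.Agent.Lib.MP_651af7_nt.Cn.Eng

/-! The contradiction along an ultrafilter. -/

namespace Pool.Agent.Lib.MP_651af7_nt.Cn

open MvPolynomial Height Filter
open Pool.Agent.Lib.MP_651af7_nt.Av Pool.Agent.Lib.MP_651af7_nt.Av.AV
open Pool.Agent.Lib.MP_651af7_nt.Vj Pool.Agent.Lib.MP_8865d3_nt.Sv

variable {α : Type} {U : Ultrafilter α} {k ι : Type} [Field k] [NumberField k] [Fintype ι]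
  {A B : AV k ι} {h : Sub A B} {v : α → ι → k} {hH : Tendsto (fun n => hc (v n)) U atTop}
  {x : α → A.Pt k} {y : α → B.Pt k} {a : α → A.Pt k} {X : A.Pt (Up U k)} {Y : B.Pt (Up U k)}
  {aK : A.Pt (Sm k hH)} {a' : α → ι → k}

theorem Cos.core (hC : Cos h hH x y a X Y aK a') (hv : ∀ n, Rep (x n) (v n)) {g : ℕ}
    (hB : B.dim ≤ g) (hg : td (Sm k hH) (Set.range (gv U v)) = (g + 1 : ℕ)) {e ρ : ℕ} (he : 1 ≤ e)
    {u : Fin (g + 1 + 1) → MvPolynomial (Option ι) (Sm k hH)}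
    {c : Option ι → Fin ρ → MvPolynomial (Fin (g + 1 + 1)) (Sm k hH)}
    (hnn : NN (hid (Sm k hH) (pt (gv U v))) e ρ u c)
    {un : α → Fin (g + 1 + 1) → MvPolynomial (Option ι) k}
    (hu : ∀ i, Repr U (map (algebraMap _ (Up U k)) (u i)) fun n => un n i)
    (β : Type) [Fintype β] (mk : Finset (Fin (g + 1 + 1)))
    (hmk : 2 * (Fintype.card β * mk.card) = Fintype.card β + 3) {η : ℝ} (hη : 0 < η)
    (hbad : ∀ S ∈ U, ∃ (V : Ultrafilter α) (T : Finset (AbsoluteValue k ℝ))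
      (μ : α → AbsoluteValue k ℝ → ℝ), S ∈ V ∧ Tendsto (fun n => hc (v n)) V atTop ∧
      Lo V (fun n => hc (v n)) (fun n => cnt T (v n)) ∧
      ((∀ s s' : β, s = s') ∨ ∀ n n', μ n = μ n') ∧
      ∀ᶠ n in V, Prob T (μ n) ∧ BadM (μ n) mk e (η * hc (v n)) (un n) (pt (v n))) : False := by
  obtain ⟨B₀, b, hb, hgood, hex⟩ := hC.exists_blk hv hg hnn hu
  obtain ⟨m, B', θ, ζ, ε₀, hθ, hζ, hε₀, heng⟩ := engine h hB ρ B₀ he hη β mk hmk
  obtain ⟨δ, hδ, hex'⟩ := hex B'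
  have hε : 0 < min ε₀ (δ / (B' + 1)) := lt_min hε₀ (by positivity)
  obtain ⟨W, hW⟩ := heng _ hε (min_le_left _ _)
  obtain ⟨V, T, μ, hV, hHV, hT, hμ, hbd⟩ := hbad _ ((hgood _ hε).and hex')
  obtain ⟨S, hS, hcone⟩ := cone A T hv hHV hT hθ
  obtain ⟨f, hf, hsep⟩ := exists_chain hHV (((Filter.Eventually.and hV hbd).and
    ((hHV.eventually_ge_atTop W).and (hT θ hθ))).and hS) hζ
  obtain ⟨s₀⟩ : Nonempty β := Fintype.card_pos_iff.1 (Nat.pos_of_ne_zero fun h0 => by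
    simp [h0] at hmk)
  let ix : Option (Fin m × β) → ℕ := fun o => o.elim 0 fun i => Fintype.equivFin _ i + 1
  have hix : Function.Injective ix := by
    rintro (_ | i) (_ | i') h
    · rfl
    · simp [ix] at h
    · simp [ix] at h
    · simp only [ix, Option.elim_some, add_left_inj] at h
      rw [(Fintype.equivFin _).injective (Fin.ext h)]
  choose j hj using fun i : Fin m × β => hcone (f 0) (hf 0).2 (f (ix (some i))) (hf _).2
    (hsep 0 _ (Nat.succ_pos _)).1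
  obtain ⟨o, q, h0, h1, h2, h3, h4⟩ := hW T (fun p => μ (f (ix (some (p, s₀)))))
    (fun o => b (f (ix o))) j (fun o => (hf _).1.1.1.1)
    (fun o => by rw [(hb _).2.1]; exact (hf _).1.2.1)
    (fun o o' h => by
      simp only [(hb _).2.1]
      rcases lt_or_gt_of_ne (hix.ne h) with h | h
      · exact Or.inl (hsep _ _ h).2
      · exact Or.inr (hsep _ _ h).2)
    (fun i => by simp only [(hb _).1, (hb _).2.1]; exact hj i)
    (fun o => by rw [(hb _).2.1]; exact (hf _).1.2.2) (fun p => (hf _).1.1.2.1)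
    (fun i => by
      have e : μ (f (ix (some (i.1, s₀)))) = μ (f (ix (some i))) :=
        hμ.elim (fun h => by rw [h s₀ i.2]) fun h => h _ _
      rw [(hb _).2.1, (hb _).2.2, e]
      exact (hf _).1.1.2.2)
  refine (hf (ix o)).1.1.1.2 ⟨q, h0, h1, h2, h3.trans (Real.exp_le_exp.2 ?_), h4⟩
  rw [(hb _).2.1]
  refine mul_le_mul_of_nonneg_right ?_ (hc_nonneg _)
  calc (B' : ℝ) * min ε₀ (δ / (B' + 1)) ≤ (B' + 1) * (δ / (B' + 1)) := by
        gcongr
        · linarith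
        · exact min_le_right _ _
    _ = δ := by field_simp

end Pool.Agent.Lib.MP_651af7_nt.Cn
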