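import Pool.Agent.Lib.MP_651af7_nt.Cn.SMov

/-! The coset of a family with respect to a larger height. -/

namespace Pool.Agent.Lib.MP_651af7_nt.Cn

open MvPolynomial Height Filter
open Pool.Agent.Lib.MP_651af7_nt.Av Pool.Agent.Lib.MP_651af7_nt.Av.AV
open Pool.Agent.Lib.MP_651af7_nt.Vj Pool.Agent.Lib.MP_8865d3_nt.Sv

variable {α : Type} {U : Ultrafilter α} {k ι : Type} [Field k] [NumberField k] [Fintype ι]
  {H : α → ℝ}

omit [NumberField k] [Fintype ι] in
theorem scos_ne {A : AV k ι} {F : Type} [Field F] [Algebra k F] (P : A.Pt F) : P.co ≠ 0 :=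
  Function.ne_iff.2 ((rep_co P).unit.imp fun _ h => h.ne_zero)

/-- Copy of `AV.exists_coset` (`Av/SeqB`) without the comparison of heights. -/
theorem exists_cos (A : AV k ι) (hH : Tendsto H U atTop) (x : α → A.Pt k)
    (hx : ∀ n, ht (x n) ≤ H n) : ∃ (B : AV k ι) (h : Sub A B) (y : α → B.Pt k) (a : α → A.Pt k)
      (X : A.Pt (Up U k)) (Y : B.Pt (Up U k)) (aK : A.Pt (Sm k hH)) (a' : α → ι → k),
      Cos h hH x y a X Y aK a' := by
  obtain ⟨γ, hγ, gγ, zγ⟩ := A.exists_germ U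
  obtain ⟨B, h, D, s, hD, ⟨Z, hZ⟩, hgens⟩ :=
    A.exists_sub (relCl_sm hH).1 (relCl_sm hH).2 (γ x)
  obtain ⟨β, hβ, gβ, -⟩ := B.exists_germ U
  have hinc : ∀ z, h.inc _ (β z) = γ fun n => h.inc k (z n) := fun z =>
    (h.rep_inc (gβ z)).inj ((gγ _).rep (.of_forall fun n => h.rep_inc (rep_co _)))
  obtain ⟨s', hs'⟩ := hγ (A.map (IsScalarTower.toAlgHom k (Sm k hH) (Up U k)) s)
  have hls := (small_pt_iff hH (gγ s')).1 ⟨s, hs'.symm⟩
  obtain ⟨z, rfl⟩ := hβ Z
  have hz : ∀ᶠ n in U, h.inc k (z n) = D • x n - s' n := by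
    rw [hinc, ← hs', ← map_nsmul, ← map_sub, ← sub_eq_zero, ← map_sub, zγ] at hZ
    exact hZ.mono fun n hn => sub_eq_zero.1 hn
  have := B.fg
  have := AddSubgroup.finiteIndex_range_nsmulAddMonoidHom_of_fg (B.Pt k) hD.ne'
  obtain ⟨q, hq⟩ := Ultrafilter.eventually_exists_iff.1 (Eventually.of_forall (f := U) fun n =>
    (⟨_, rfl⟩ : ∃ q : B.Pt k ⧸ (nsmulAddMonoidHom (α := B.Pt k) D).range, q = z n))
  obtain ⟨p, rfl⟩ := QuotientAddGroup.mk_surjective q
  have hy : ∀ n, ∃ y : B.Pt k, ((p : B.Pt k ⧸ (nsmulAddMonoidHom (α := B.Pt k) D).range) = z n →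
      D • y = -p + z n) := fun n => by
    by_cases hn : (p : B.Pt k ⧸ (nsmulAddMonoidHom (α := B.Pt k) D).range) = z n
    · obtain ⟨y, hy⟩ := QuotientAddGroup.eq.1 hn
      exact ⟨y, fun _ => hy⟩
    · exact ⟨0, fun h => (hn h).elim⟩
  choose y hy using hy
  set a : α → A.Pt k := fun n => x n - h.inc k (y n) with ha
  obtain ⟨C, hC, hadd⟩ := A.ht_add_le one_pos
  obtain ⟨C', hC'⟩ := A.ht_le_smul hD
  have hla : Lo U H fun n => ht (a n) := by
    refine ((hls.const_mul (c := 1 + 1) (by norm_num)).add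
      (Lo.const hH (C * (ht (h.inc k p) + 1) + C'))).mono ?_
    filter_upwards [hz, hq] with n h1 h2
    have h3 : D • a n = s' n + h.inc k p := by
      simp only [ha, smul_sub, ← map_nsmul, hy n h2, map_add, map_neg, h1]
      abel
    have h4 := hC' (a n)
    have h5 := (hadd (s' n) (h.inc k p)).1
    rw [h3] at h4
    linarith
  have h1 : Bo U H fun n => ht (y n) := by
    refine ⟨3, (lo_mul_nonneg hH (hla.add (Lo.const hH 1)) hC 1 one_pos).mono fun n hn => ?_⟩
    have h3 := (hadd (x n) (a n)).2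
    rw [ha, sub_sub_cancel, ht_inc] at h3
    simp only [ha] at hn
    linarith [hx n]
  have hY : h.inc _ (β y) = γ x - γ a := by
    rw [hinc, ← map_sub]
    exact congrArg γ (funext fun n => (sub_sub_cancel _ _).symm)
  obtain ⟨aK, haK⟩ := (small_pt_iff hH (gγ a)).2 hla
  choose f hf hf' using fun c => (aK.co c).2
  refine ⟨B, h, y, a, γ x, β y, aK, fun n c => f c n, gγ x, gβ y, hgens aK _ (haK ▸ hY),
    fun n => (add_sub_cancel _ _).symm, haK ▸ hY, fun c => (hf c).symm, ?_, hf', hla, h1⟩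
  have h3 := (rep_co aK).map (IsScalarTower.toAlgHom k (Sm k hH) (Up U k))
  rw [haK] at h3
  exact (gγ a).of_rep (funext hf ▸ h3)

variable {A B : AV k ι} {h : Sub A B} {hH : Tendsto H U atTop} {x : α → A.Pt k}
  {y : α → B.Pt k} {a : α → A.Pt k} {X : A.Pt (Up U k)} {Y : B.Pt (Up U k)}
  {aK : A.Pt (Sm k hH)} {a' : α → ι → k} (hC : Cos h hH x y a X Y aK a') {v : α → ι → k}

include hC

theorem Cos.rep_gv (hv : ∀ n, Rep (x n) (v n)) : Rep X (gv U v) := hC.gX.rep (.of_forall hv)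

/-- `Y` is generic. If `ht y = o (H)`, then `Y` comes from the small field (`small_pt_iff`), the
sum in `Gens` is `0`, so `B.dim = 0` (`gen_iff`, `td_map`). Otherwise `bo_of_not_lo`, `mov_bo`
(multiply a form by a variable to make its degree positive, or treat degree `0`), `gen_iff`. -/
theorem Cos.gen : td (Sm k hH) (rat Y.co) = B.dim := by
  by_cases hy : Lo U H fun n => ht (y n)
  · obtain ⟨s, hs⟩ := (small_pt_iff hH hC.gY).2 hy
    obtain ⟨F, _, _, _, _, N, i, i', hg⟩ := hC.gens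
    have e : ∀ j : Up U k →ₐ[Sm k hH] F, B.map (j.restrictScalars k) Y =
        B.map (IsScalarTower.toAlgHom k (Sm k hH) F) s := fun j => by
      rw [← hs, AV.map_map]
      exact AV.map_congr (rep_co s) fun c => j.commutes _
    simp only [e, sub_self, Finset.sum_const_zero] at hg
    rw [← (B.gen_iff (K := Sm k hH) (scos_ne (0 : B.Pt F)) (rep_co _).zero).1 hg, ← hs,
      td_map, ← map_zero (B.map (IsScalarTower.toAlgHom k (Sm k hH) F)), td_map]
  refine (B.gen_iff (K := Sm k hH) (scos_ne Y) (rep_co Y).zero).1 fun f d hf h0 =>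
    not_not.1 fun h1 => ?_
  rcases d.eq_zero_or_pos with rfl | hd
  · rw [totalDegree_eq_zero_iff_eq_C.1 ((totalDegree_zero_iff_isHomogeneous _).2 hf)] at h0 h1
    rw [aeval_C, map_eq_zero] at h0
    exact h1 (by rw [h0, map_zero]; exact zero_mem _)
  · exact (mov_bo B hH y hC.le (bo_of_not_lo hy) hC.gY hC.gens hd hf h1).1 h0

/-- Translation by a point over the small field keeps the degree (`rat_add_sub`, `td_map`). -/
theorem Cos.dim_le : (B.dim : ℕ∞) ≤ td (Sm k hH) (rat X.co) := by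
  rw [← hC.gen, ← A.tr_rat_rep (h.rep_inc (rep_co Y)), hC.sub]
  refine ((tr_td_le (A.rat_add_sub _ _).2).trans (td_union_le _ _)).trans ?_
  rw [td_map, add_zero]

/-- If `ht y = o (H)` or `d = 0`: `lam_bd`, `ht_add_le`. Otherwise `mov_bo` for
`F' = aeval (fun c => A.ph c b X (C ∘ aK.co)) F` of degree `2 d`, with `b` such that
`F' (Y) = p b ^ d * F (X) ≠ 0` (`exists_ph_eq`, compare `Av/SeqS`), and
`lam d F x ≤ lam (2 d) F' y + d * log (s * nm a' ^ 2)` (`bih_le`, `exists_ad_fam`). -/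
theorem Cos.mov (hv : ∀ n, Rep (x n) (v n)) {d : ℕ} {F : MvPolynomial ι (Sm k hH)}
    (hF : F.IsHomogeneous d) (h0 : aeval (gv U v) F ≠ 0) {Fn : α → MvPolynomial ι k}
    (hFn : Repr U (map (algebraMap _ (Up U k)) F) Fn) {T : α → Finset (AbsoluteValue k ℝ)}
    {D : α → ℝ} (hT : Fib U T H D) : Lo U H fun n => isum (T n) (lam d (Fn n) (v n)) := by
  have hFh := repr_hom hF hFn
  have hF0 : ∀ᶠ n in U, eval (v n) (Fn n) ≠ 0 := by
    rwa [← germ_ne_zero, ← hFn.aeval, aeval_map_algebraMap]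
  by_cases hy : d = 0 ∨ Lo U H fun n => ht (y n)
  · have h1 : Lo U H fun n => d * ht (x n) := by
      rcases hy with rfl | hy
      · simpa using Lo.const hH 0
      obtain ⟨C, hC0, hadd⟩ := A.ht_add_le one_pos
      refine lo_mul_nonneg hH (((hy.const_mul (c := 1 + 1) (by norm_num)).add
        (lo_mul_nonneg hH (hC.lo.add (Lo.const hH 1)) hC0)).mono (.of_forall fun n => ?_))
        d.cast_nonneg
      rw [hC.add n, ← ht_inc h]
      exact (hadd _ _).1
    intro ε hε
    filter_upwards [h1 _ (half_pos hε), exists_ad_repr hH hFn (half_pos hε), hFh, hF0] with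
      n h2 ⟨c, hc, hl⟩ h3 h4
    have h5 := (lam_bd h3 (rep_ne (hv n)) h4 hc hl).1 (T n)
    rw [← ht_eq (hv n)] at h5
    linarith
  obtain ⟨hd, hy⟩ := not_or.1 hy
  have ha : Rep (A.map (IsScalarTower.toAlgHom k (Sm k hH) (Up U k)) aK) (gv U a') := by
    rw [show gv U a' = _ from (funext hC.co).symm]
    exact (rep_co aK).map (IsScalarTower.toAlgHom k (Sm k hH) (Up U k))
  obtain ⟨p, hp, he⟩ := exists_ph_eq (h.rep_inc hC.gY) ha (s := gv U v)
    (by rw [hC.sub, sub_add_cancel]; exact hC.rep_gv hv)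
  obtain ⟨b, hb⟩ := hp.unit
  obtain ⟨F', hF'⟩ : ∃ F' : MvPolynomial ι (Sm k hH), F' = aeval (fun c => A.ph c b
    (MvPolynomial.X : ι → MvPolynomial ι (Sm k hH)) fun c => C (aK.co c)) F := ⟨_, rfl⟩
  have h1 : F'.IsHomogeneous (2 * d) := hF' ▸ hF.aeval _ fun c => ph_hom aK.co c b
  have h2 : aeval (gv U fun n => (y n).co) F' =
      aeval (fun c => A.ph c b (gv U fun n => (y n).co) (gv U a')) F := by
    rw [hF', ← AlgHom.comp_apply, comp_aeval]
    refine congrArg (fun z => aeval z F) (funext fun c => ?_)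
    have h2 := map_ph (A := A)
      ((aeval (gv U fun n => (y n).co) : MvPolynomial ι (Sm k hH) →ₐ[Sm k hH] _).restrictScalars k)
      c b MvPolynomial.X fun c => C (aK.co c)
    simp only [AlgHom.coe_restrictScalars', aeval_X, aeval_C, hC.co] at h2
    exact h2
  have h3 : aeval (gv U fun n => (y n).co) F' ≠ 0 := by
    rw [h2, show (fun c => A.ph c b (gv U fun n => (y n).co) (gv U a')) = fun c => p b * gv U v c
      from funext fun c => he c b, aeval_mul_of_hom hF]
    exact mul_ne_zero (pow_ne_zero d hb.ne_zero) h0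
  obtain ⟨Gn, hG⟩ := exists_repr (U := U) (map (algebraMap _ (Up U k)) F')
  have h4 := (mov_bo B hH y hC.le (bo_of_not_lo hy) hC.gY hC.gens (by omega) h1
    fun hm => h3 (B.tr_zero_IK (Rep.zero hC.gY) _ hm)).2 Gn hG T D hT
  have h5 := hG.aeval fun n => (y n).co
  rw [aeval_map_algebraMap] at h5
  have h6 : ∀ᶠ n in U, eval (y n).co (Gn n) ≠ 0 := germ_ne_zero.1 (h5 ▸ h3)
  have h7 : ∀ᶠ n in U, eval (y n).co (Gn n) =
      eval (fun c => A.ph c b (y n).co (a' n)) (Fn n) := by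
    rw [← germ_eq, ← h5, ← hFn.aeval, aeval_map_algebraMap]
    exact h2.trans (congrArg (fun z => aeval z F) (funext fun c => A.ph_germ c b _ _))
  obtain ⟨s, hs, hs1, hs2⟩ := exists_ad_fam fun c => A.Φ c b
  refine (h4.add (lo_mul_nonneg hH ((Lo.const hH hs).add (lo_mul_nonneg hH
    (Lo.sum hH Finset.univ fun c _ => hC.small c) (Nat.cast_nonneg 2))) d.cast_nonneg)).mono ?_
  filter_upwards [hFh, hF0, h6, h7, hC.rep] with n g1 g2 g3 g4 g5
  obtain ⟨q, -, hq⟩ := exists_ph_eq (h.rep_inc (rep_co (y n))) g5 (hC.add n ▸ hv n)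
  have hA := hs1.mul ((ad_prod Finset.univ fun c _ => ad_max (a' n c)).pow 2)
  refine le_trans ?_ (add_le_add le_rfl
    (mul_le_mul_of_nonneg_left (ad_isum_le hA (T n)) d.cast_nonneg))
  rw [← isum_const_mul, ← isum_add]
  refine isum_mono _ fun w _ _ => ?_
  simp only [hq] at g4
  replace g4 : _ = q b ^ d * eval (v n) (Fn n) := g4.trans (aeval_mul_of_hom g1 (q b) (v n))
  have g6 : q b ≠ 0 := fun e => g3 (by rw [g4, e, zero_pow hd, zero_mul])
  have : Nonempty ι := ⟨b⟩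
  obtain ⟨c, hc⟩ := exists_nm w (v n)
  have g7 := nm_pos w (rep_ne (rep_co (y n)))
  have g8 := nm_pos w (rep_ne (hv n))
  have g9 := (bih_le w (A.bih c b) g7.le (by positivity) (le_nm w (y n).co)
    (le_prod_max w (a' n))).trans (mul_le_mul_of_nonneg_right (hs2 w c) (by positivity))
  rw [← aeval_eq_eval, ← ph, hq, map_mul, hc, mul_left_comm] at g9
  have g10 := Real.log_le_log (mul_pos (w.pos g6) g8) g9
  rw [Real.log_mul (w.pos g6).ne' g8.ne', Real.log_mul (by positivity) (hA.pos w).ne',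
    Real.log_pow] at g10
  have g11 := mul_le_mul_of_nonneg_left g10 d.cast_nonneg
  simp only [lam, ell, g4, map_mul, map_pow]
  rw [Real.log_mul (pow_pos (w.pos g6) d).ne' (w.pos g2).ne', Real.log_pow]
  push_cast at g11 ⊢
  linarith

end Pool.Agent.Lib.MP_651af7_nt.Cn
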