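import Pool.Agent.Lib.MP_651af7_nt.Cn.Defs
import Pool.Agent.Lib.MP_651af7_nt.Av.SeqS

/-! The cone over an abelian variety: vocabulary for families along an ultrafilter. -/

namespace Pool.Agent.Lib.MP_651af7_nt.Cn

open MvPolynomial Height Filter
open Pool.Agent.Lib.MP_651af7_nt.Av Pool.Agent.Lib.MP_651af7_nt.Av.AV
open Pool.Agent.Lib.MP_651af7_nt.Vj Pool.Agent.Lib.MP_8865d3_nt.Sv

variable {α : Type} {U : Ultrafilter α} {k ι : Type} [Field k]

variable (U) in
/-- The germ of a family of vectors. -/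
noncomputable def gv (v : α → ι → k) : ι → Up U k := fun a => germ U fun n => v n a

theorem pt_gv (v : α → ι → k) : pt (gv U v) = gv U fun n => pt (v n) := by
  funext a
  cases a with
  | none => exact (map_one (germ U)).symm
  | some a => rfl

/-- The local height of the hypersurface `F = 0` of degree `d`. -/
noncomputable def lam (d : ℕ) (F : MvPolynomial ι k) (x : ι → k) (w : AbsoluteValue k ℝ) : ℝ :=
  d * ell w x - Real.log (w (eval x F))

section hid

variable {K E κ : Type} [Field K] [Field E] [Algebra K E] {x : κ → E}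

theorem hid_eq : hid K x = idl K x := by
  refine le_antisymm (Ideal.span_le.2 ?_) fun f hf => ?_
  · rintro f ⟨⟨n, hn⟩, h⟩
    exact (mem_idl_hom hn).2 h
  · rw [← sum_homogeneousComponent f]
    exact Ideal.sum_mem _ fun d _ => Ideal.subset_span
      ⟨⟨d, homogeneousComponent_isHomogeneous d f⟩, mem_idl.1 hf d⟩

theorem hid_prime : (hid K x).IsPrime := hid_eq (K := K) (x := x) ▸ idl_prime K x

theorem mem_hid {f : MvPolynomial κ K} {n : ℕ} (hf : f.IsHomogeneous n) :
    f ∈ hid K x ↔ aeval x f = 0 := hid_eq (K := K) (x := x) ▸ mem_idl_hom hf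

theorem hid_hom : ∀ f ∈ hid K x, ∀ d, homogeneousComponent d f ∈ hid K x :=
  hid_eq (K := K) (x := x) ▸ idl_hom x

theorem hid_zero : ∀ f ∈ hid K x, aeval x f = 0 := fun f hf => by
  rw [← sum_homogeneousComponent f, map_sum]
  exact Finset.sum_eq_zero fun d _ =>
    (mem_hid (homogeneousComponent_isHomogeneous d f)).1 (hid_hom f hf d)

/-- The ratios of `(1, v)` and the coordinates of `v` have the same degree. -/
theorem td_pt (v : κ → E) : td K (rat (pt v)) = td K (Set.range v) := by
  refine le_antisymm (tr_td_le ?_) (td_mono ?_)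
  · obtain ⟨L, hL, hL'⟩ := tr_cl (K := K) (Set.range v)
    have h : ∀ a, pt v a ∈ L := fun a => by
      cases a with
      | none => exact one_mem L
      | some a => exact hL' ⟨a, rfl⟩
    rintro _ ⟨p, rfl⟩
    rw [← hL]
    exact div_mem (h _) (h _)
  · rintro _ ⟨a, rfl⟩
    exact ⟨(some a, none), div_one _⟩

end hid

variable [NumberField k] [Fintype ι]

/-- `x = y + a` with `a` small and `y` generating `B` over the field of germs of height
`o (H)`; `a'` are small coordinates of `a`. -/
structure Cos {A B : AV k ι} (h : Sub A B) {H : α → ℝ} (hH : Tendsto H U atTop)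
    (x : α → A.Pt k) (y : α → B.Pt k) (a : α → A.Pt k) (X : A.Pt (Up U k)) (Y : B.Pt (Up U k))
    (aK : A.Pt (Sm k hH)) (a' : α → ι → k) : Prop where
  gX : IsGerm U X x
  gY : IsGerm U Y y
  gens : B.Gens (Sm k hH) Y
  add : ∀ n, x n = h.inc k (y n) + a n
  sub : h.inc (Up U k) Y = X - A.map (IsScalarTower.toAlgHom k (Sm k hH) (Up U k)) aK
  co : ∀ c, algebraMap (Sm k hH) (Up U k) (aK.co c) = germ U fun n => a' n c
  rep : ∀ᶠ n in U, Rep (a n) (a' n)
  small : ∀ c, Lo U H fun n => logHeight₁ (a' n c)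
  lo : Lo U H fun n => ht (a n)
  le : Bo U H fun n => ht (y n)

end Pool.Agent.Lib.MP_651af7_nt.Cn
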