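import Pool.Agent.Lib.MP_651af7_nt.Cn.SSeq
import Pool.Agent.Lib.MP_8865d3_nt.Sv.FinA

/-! The final inequality. -/

namespace Pool.Agent.Lib.MP_651af7_nt.Cn

open MvPolynomial Height Filter NumberField
open Pool.Agent.Lib.MP_651af7_nt.Av Pool.Agent.Lib.MP_651af7_nt.Av.AV
open Pool.Agent.Lib.MP_651af7_nt.Vj Pool.Agent.Lib.MP_8865d3_nt.Sv

variable {k ι : Type} [Field k] [NumberField k] [Fintype ι]

theorem gcd_part (A : AV k ι) {a b : ℕ} {L : Type} [Fintype L] {G : L → MvPolynomial ι k}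
    (hG : ∀ l, Rng a b (G l)) (ha : ∃ l, homogeneousComponent a (G l) ∉ A.I)
    (hb : ∃ l, homogeneousComponent b (G l) ∉ A.I)
    (hc' : 2 ≤ ((Ideal.span (Set.range G)).map (Ideal.Quotient.mk A.I)).height) {ε : ℝ}
    (hε : 0 < ε) : ∃ (Θ : MvPolynomial ι k) (t : ℕ), Θ.IsHomogeneous t ∧ Θ ∉ A.I ∧
      ∀ T : Finset (AbsoluteValue k ℝ), ∃ c : ℕ, ∀ v : ι → k, v ≠ 0 → (∀ f ∈ A.I, eval v f = 0) →
        eval v Θ ≠ 0 → gsum (mv a b G v) ≤ ε * hc v + c * cnt T v + c := by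
  have hp := A.isPrime
  let τ := {t : MvPolynomial ι k × ℕ // t.1.IsHomogeneous t.2 ∧ t.1 ∉ A.I}
  let β := {z : A.Pt k × (ι → k) // Rep z.1 z.2}
  have : Nonempty τ := ⟨⟨(1, 0), isHomogeneous_one _ _, (Ideal.ne_top_iff_one _).1 hp.ne_top⟩⟩
  obtain ⟨t, ht⟩ := bound_of_fib (τ := τ) (β := β) (p := fun t z => eval z.1.2 t.1.1 ≠ 0)
    (H := fun z => hc z.1.2) (D := fun T z => cnt T z.1.2) (f := fun _ z => gsum (mv a b G z.1.2))
    (C₀ := a + b) (fun t t' => ⟨⟨(t.1.1 * t'.1.1, t.1.2 + t'.1.2), t.2.1.mul t'.2.1,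
      fun h => (hp.mem_or_mem h).elim t.2.2 t'.2.2⟩, fun z hz => by
        rwa [map_mul, mul_ne_zero_iff] at hz⟩)
    (fun _ => hc_nonneg _) (fun _ _ => cnt_nonneg _ _) (fun _ z => by
      have h1 := mul_le_mul_of_nonneg_left (ht_le_hc (rep_ne z.2)) (a.cast_nonneg (α := ℝ))
      have h2 := logHeight_nonneg fun l => eval z.1.2 (G l)
      have h3 := mul_nonneg (a.cast_nonneg (α := ℝ)) (hc_nonneg z.1.2)
      have h4 := a.cast_nonneg (α := ℝ)
      have h5 := b.cast_nonneg (α := ℝ)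
      rw [gsum_mv (rep_ne z.2)]
      linarith)
    (fun U T h1 h2 => seq_gcd A (fun n : τ × β => n.2.2) hG ha hb hc'
      (fun f d hf h0 => h1 ⟨(f, d), hf, h0⟩) h2) hε
  refine ⟨t.1.1, t.1.2, t.2.1, t.2.2, fun T => (ht T).imp fun c h v h0 hz h1 => ?_⟩
  obtain ⟨P, hP⟩ := exists_rep_of_ne (A := A) h0 (by simpa only [aeval_eq_eval] using hz)
  exact h ⟨(P, v), hP⟩ h1

theorem prox_part (A : AV k ι) {a b : ℕ} {R : MvPolynomial ι k} (hR : Rng a b R)
    (T : Finset (AbsoluteValue k ℝ)) {w : AbsoluteValue k ℝ} (hw : Adm w) {ε : ℝ} (hε : 0 < ε) :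
    ∃ c : ℕ, ∀ v : ι → k, v ≠ 0 → (∀ f ∈ A.I, eval v f = 0) → eval v R ≠ 0 →
      eval v (homogeneousComponent a R) ≠ 0 → eval v (homogeneousComponent b R) ≠ 0 →
      mv a b (fun _ : Unit => R) v w ≤ ε * hc v + c * cnt T v + c := by
  obtain ⟨C, hC⟩ := mv_le (G := fun _ : Unit => R) fun _ => hR
  obtain ⟨c, h⟩ := bound_of_lo (β := {z : A.Pt k × (ι → k) // Rep z.1 z.2})
    (p := fun z => eval z.1.2 R ≠ 0 ∧ eval z.1.2 (homogeneousComponent a R) ≠ 0 ∧
      eval z.1.2 (homogeneousComponent b R) ≠ 0) (H := fun z => hc z.1.2)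
    (D := fun z => cnt T z.1.2) (f := fun z => mv a b (fun _ : Unit => R) z.1.2 w)
    (fun _ => hc_nonneg _) (fun _ => cnt_nonneg _ _)
    (fun z hz => hC _ (rep_ne z.2) (fun e => hz.1 (congrFun e ())) w hw)
    (fun U h1 h2 h3 => seq_prox A (fun z => z.2) hR h2 (h1.mono fun _ h => h.1)
      (h1.mono fun _ h => h.2.1) (h1.mono fun _ h => h.2.2) h3 hw) hε
  refine ⟨c, fun v h0 hz h1 h2 h3 => ?_⟩
  obtain ⟨P, hP⟩ := exists_rep_of_ne (A := A) h0 (by simpa only [aeval_eq_eval] using hz)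
  exact h ⟨(P, v), hP⟩ ⟨h1, h2, h3⟩

theorem both_parts (A : AV k ι) {a b a' b' : ℕ} {L : Type} [Fintype L] {G : L → MvPolynomial ι k}
    (hG : ∀ l, Rng a b (G l)) (ha : ∃ l, homogeneousComponent a (G l) ∉ A.I)
    (hb : ∃ l, homogeneousComponent b (G l) ∉ A.I)
    (hc' : 2 ≤ ((Ideal.span (Set.range G)).map (Ideal.Quotient.mk A.I)).height)
    {R : MvPolynomial ι k} (hR : Rng a' b' R) (ha' : homogeneousComponent a' R ∉ A.I)
    (hb' : homogeneousComponent b' R ∉ A.I) {ε : ℝ} (hε : 0 < ε) :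
    ∃ (Θ : MvPolynomial ι k) (t : ℕ), Θ.IsHomogeneous t ∧ Θ ∉ A.I ∧
      ∀ T : Finset (AbsoluteValue k ℝ), ∃ c : ℝ, ∀ v : ι → k, v ≠ 0 → (∀ f ∈ A.I, eval v f = 0) →
        eval v Θ ≠ 0 → eval v R ≠ 0 → (fun l => eval v (G l)) ≠ 0 ∧
        isum T (mv a' b' (fun _ : Unit => R) v) + gsum (mv a b G v) ≤
          ε * hc v + c * cnt T v + c := by
  classical
  have hp := A.isPrime
  obtain ⟨Θ, t, h1, h2, h3⟩ := gcd_part A hG ha hb hc' (half_pos hε)
  obtain ⟨Θ', t', h4, h5, h6⟩ := exists_theta A hc'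
  refine ⟨Θ * Θ' * homogeneousComponent a' R * homogeneousComponent b' R, _,
    ((h1.mul h4).mul (homogeneousComponent_isHomogeneous _ _)).mul
      (homogeneousComponent_isHomogeneous _ _), fun hm => ?_, fun T => ?_⟩
  · simp only [hp.mul_mem_iff_mem_or_mem, h2, h5, ha', hb', or_self] at hm
  obtain ⟨c, h3⟩ := h3 T
  obtain ⟨N, hN⟩ : ∃ N, N = ∑ w ∈ T, mlt w := ⟨_, rfl⟩
  have hN0 : 0 ≤ N := hN ▸ Finset.sum_nonneg fun w _ => mlt_nonneg w
  have hε' : 0 < ε / 2 / (N + 1) := by positivity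
  choose! c' h7 using fun (w : AbsoluteValue k ℝ) (hw : Adm w) => prox_part A hR T hw hε'
  refine ⟨c + ∑ w ∈ T, mlt w * c' w, fun v v0 vz vΘ vR => ?_⟩
  simp only [map_mul, mul_ne_zero_iff] at vΘ
  refine ⟨fun e => vΘ.1.1.2 (h6 v v0 vz (congrFun e)), ?_⟩
  have e1 := h3 v v0 vz vΘ.1.1.1
  have e2 : isum T (mv a' b' (fun _ : Unit => R) v) ≤
      isum T fun w => ε / 2 / (N + 1) * hc v + c' w * cnt T v + c' w :=
    isum_mono T fun w hw _ => h7 w hw v v0 vz vR vΘ.1.2 vΘ.2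
  rw [isum_eq_sum T fun w => _ + _] at e2
  simp only [mul_add, Finset.sum_add_distrib, ← mul_assoc, ← Finset.sum_mul, ← hN] at e2
  have e4 : N * (ε / 2 / (N + 1)) * hc v ≤ ε / 2 * hc v := by
    refine mul_le_mul_of_nonneg_right ?_ (hc_nonneg v)
    rw [mul_div_assoc', div_le_iff₀ (by positivity)]
    nlinarith
  linarith

open Classical in
/-- The infinite places and the places of `S`. -/
noncomputable def plc (S : Finset (FinitePlace k)) : Finset (AbsoluteValue k ℝ) :=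
  Finset.univ.image (fun w : InfinitePlace k => w.1) ∪ S.image fun w => w.1

theorem mem_plc_inf (S : Finset (FinitePlace k)) (w : InfinitePlace k) : w.1 ∈ plc S := by
  classical
  simp only [plc, Finset.mem_union, Finset.mem_image]
  exact Or.inl ⟨w, Finset.mem_univ w, rfl⟩

theorem mem_plc_fin {S : Finset (FinitePlace k)} {w : FinitePlace k} : w.1 ∈ plc S ↔ w ∈ S := by
  classical
  simp only [plc, Finset.mem_union, Finset.mem_image]
  refine ⟨?_, fun h => Or.inr ⟨w, h, rfl⟩⟩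
  rintro (⟨v, -, h⟩ | ⟨v, hv, h⟩)
  · have h1 : v.1 ((2 : ℕ) : k) = (2 : ℕ) := v.map_natCast 2
    have h2 : w.1 (1 + 1) ≤ max (w.1 1) (w.1 1) := w.add_le 1 1
    rw [h, Nat.cast_ofNat, Nat.cast_ofNat] at h1
    rw [one_add_one_eq_two, h1, map_one, max_self] at h2
    norm_num at h2
  · exact Subtype.ext h ▸ hv

theorem gsum_eq (f : AbsoluteValue k ℝ → ℝ) :
    gsum f = ∑ w : InfinitePlace k, w.mult * f w.1 + ∑ᶠ w : FinitePlace k, f w.1 := by
  rw [gsum, sum_archAbsVal_eq, sum_nonarchAbsVal_eq]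
  simp only [nsmul_eq_mul]

theorem isum_plc (S : Finset (FinitePlace k)) (f : AbsoluteValue k ℝ → ℝ) :
    isum (plc S) f = ∑ w : InfinitePlace k, w.mult * f w.1 + ∑ w ∈ S, f w.1 := by
  classical
  rw [isum, gsum_eq]
  simp only [mem_plc_inf, if_true, mem_plc_fin]
  rw [← finsum_mem_coe_finset (s := S), finsum_mem_def]
  congr 2
  funext w
  by_cases h : w ∈ S <;> simp [h]

theorem osum_plc (S : Finset (FinitePlace k)) (f : AbsoluteValue k ℝ → ℝ) :
    osum (plc S) f = ∑ᶠ w ∈ (S : Set (FinitePlace k))ᶜ, f w.1 := by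
  classical
  rw [osum, gsum_eq]
  simp only [mem_plc_inf, if_true, mul_zero, Finset.sum_const_zero, zero_add, mem_plc_fin]
  rw [finsum_mem_def]
  congr 1
  funext w
  by_cases h : w ∈ S <;> simp [h]

theorem hc_eq {n : ℕ} (v : Fin n → k) : logHeight (Fin.cons 1 v : Fin (n + 1) → k) = hc v := by
  rw [hc, ← logHeight_comp_equiv (finSuccEquiv n) (pt v)]
  refine congrArg _ (funext (Fin.cases ?_ fun i => ?_)) <;> simp

omit [NumberField k] in
theorem mv_eq {a b : ℕ} {R : MvPolynomial ι k} (hR : Rng a b R) {v : ι → k} (hv : v ≠ 0)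
    (h0 : eval v R ≠ 0) (w : AbsoluteValue k ℝ) :
    Real.log (max ((⨆ i, w (v i)) ^ a) ((⨆ i, w (v i)) ^ b) / w (eval v R)) =
      mv a b (fun _ : Unit => R) v w := by
  obtain ⟨μ, hμ⟩ := support_nonempty.2 fun e : R = 0 => h0 (e ▸ map_zero _)
  have hab := (hR μ hμ).1.trans (hR μ hμ).2
  have h1 := nm_pos w hv
  change Real.log (max (nm w v ^ a) (nm w v ^ b) / _) = _
  rw [Real.log_div (lt_max_of_lt_left (pow_pos h1 a)).ne' (w.pos h0).ne', mv, ell,
    show (nm w fun _ : Unit => eval v R) = w (eval v R) from ciSup_const]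
  rcases le_total 1 (nm w v) with h | h
  · rw [max_eq_right (pow_le_pow_right₀ h hab), max_eq_right (Real.log_nonneg h), Real.log_pow]
    ring
  · rw [max_eq_left (pow_le_pow_of_le_one h1.le h hab), max_eq_left (Real.log_nonpos h1.le h),
      Real.log_pow]
    ring

end Pool.Agent.Lib.MP_651af7_nt.Cn
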