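import Pool.Agent.Lib.MP_651af7_nt.Cn.SCos

/-! The germ is a generic point of the cone over its coset. -/

namespace Pool.Agent.Lib.MP_651af7_nt.Cn

open MvPolynomial Height Filter
open Pool.Agent.Lib.MP_651af7_nt.Av Pool.Agent.Lib.MP_651af7_nt.Av.AV
open Pool.Agent.Lib.MP_651af7_nt.Vj Pool.Agent.Lib.MP_8865d3_nt.Sv

variable {α : Type} {U : Ultrafilter α} {k ι : Type} [Field k] [NumberField k] [Fintype ι]
  {A B : AV k ι} {h : Sub A B} {v : α → ι → k} {hH : Tendsto (fun n => hc (v n)) U atTop}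
  {x : α → A.Pt k} {y : α → B.Pt k} {a : α → A.Pt k} {X : A.Pt (Up U k)} {Y : B.Pt (Up U k)}
  {aK : A.Pt (Sm k hH)} {a' : α → ι → k} (hC : Cos h hH x y a X Y aK a')
  (hv : ∀ n, Rep (x n) (v n)) {T : α → Finset (AbsoluteValue k ℝ)}
  (hT : Fib U T (fun n => hc (v n)) fun n => cnt (T n) (v n))

omit [NumberField k] [Fintype ι] in
theorem sgen_eval (w : AbsoluteValue k ℝ) {P : MvPolynomial ι k} {c : ℕ} (hP : P.totalDegree ≤ c)
    {z : ι → k} {R : ℝ} (hR : 1 ≤ R) (hz : ∀ a, w (z a) ≤ R) : w (eval z P) ≤ pl w P * R ^ c := by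
  have h0 := zero_le_one.trans hR
  refine (eval₂_le_polN (absSN w) (t := fun _ => R) (absSN w) (RingHom.id k) (fun _ => le_rfl)
    hz P).trans (polN_le_mul (absSN w) (fun _ => h0) (by positivity) fun μ hμ => ?_)
  simp only [wt, Finsupp.prod, Finset.prod_pow_eq_pow_sum]
  exact pow_le_pow_right₀ hR ((le_totalDegree hμ).trans hP)

omit [NumberField k] in
theorem sgen_loc {P Q : MvPolynomial ι k} {c : ℕ} (hP : P.IsHomogeneous (c + 1))
    (hQ : Q.totalDegree ≤ c) {z : ι → k} (hz : z ≠ 0) (h0 : eval z P ≠ 0)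
    (he : eval z P = -eval z Q) (w : AbsoluteValue k ℝ) {s t : ℝ} (hs : 1 ≤ s) (ht : 1 ≤ t)
    (h1 : pl w P ≤ s) (h2 : pl w Q ≤ t) :
    max 0 (ell w z) ≤ lam (c + 1) P z w + Real.log s + Real.log t := by
  have h3 := Real.log_nonneg hs
  have h4 := Real.log_nonneg ht
  rcases le_total 1 (nm w z) with h | h
  · have h5 : w (eval z P) ≤ t * nm w z ^ c := by
      rw [he, w.map_neg]
      exact (sgen_eval w hQ h (le_nm w z)).trans (mul_le_mul_of_nonneg_right h2 (by positivity))
    have h6 := Real.log_le_log (w.pos h0) h5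
    rw [Real.log_mul (by positivity) (by positivity), Real.log_pow] at h6
    rw [lam, ell, max_eq_right (Real.log_nonneg h)]
    push_cast
    linarith
  · rw [max_eq_left (show ell w z ≤ 0 from Real.log_nonpos (nm_nn w z) h)]
    linarith [lam_ge hP hz h0 h1]

theorem sgen_sum {P Q : MvPolynomial ι k} {c : ℕ} (hP : P.IsHomogeneous (c + 1))
    (hQ : Q.totalDegree ≤ c) {z : ι → k} (hz : z ≠ 0) (h0 : eval z P ≠ 0)
    (he : eval z P = -eval z Q) {s t : AbsoluteValue k ℝ → ℝ} {e : ℝ} (hs : Ad s e) (ht : Ad t e)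
    (h1 : ∀ w, pl w P ≤ s w) (h2 : ∀ w, pl w Q ≤ t w) (S : Finset (AbsoluteValue k ℝ)) :
    hc z ≤ isum S (lam (c + 1) P z) + cnt S z + 2 * e := by
  have h3 := isum_add_osum S (finS_pos hz)
  have h4 : osum S (fun w => max 0 (ell w z)) ≤ cnt S z := osum_mono S (finS_pos hz)
    (finS_abs (finS_ell z)) fun w _ _ => max_le (abs_nonneg _) (le_abs_self _)
  have h5 := isum_mono S fun w _ _ =>
    sgen_loc hP hQ hz h0 he w (hs.one w) (ht.one w) (h1 w) (h2 w)
  rw [isum_add, isum_add] at h5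
  rw [gsum_pos hz] at h3
  have h6 := ad_isum_le hs S
  have h7 := ad_isum_le ht S
  change _ ≤ isum S (lam (c + 1) P z) + _ + _ at h5
  linarith

include hC hv hT

/-- The relations of the germ are homogeneous. Otherwise let `b` be the largest degree with
`F_b (v) ≠ 0`; then `F_b (v) = - ∑ d < b, F_d (v)`, so `b ≥ 1` and, for the members,
`w (F_b (v n)) ≤ c w * max 1 (nm w (v n)) ^ (b - 1)`; with `lam_ge` where `ell < 0` this gives
`max 0 (ell w (v n)) ≤ lam b .. w + log (c w)` at every `w` (`exists_ad_repr`). Sum over `T n`: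
`hc - cnt - ε * hc ≤ isum ..` (`gsum_pos`, `isum_add_osum`, `ad_isum_le`, `Fib.lo`), against
`Cos.mov`. -/
theorem Cos.ker_hom {F : MvPolynomial ι (Sm k hH)} (h0 : aeval (gv U v) F = 0) (d : ℕ) :
    aeval (gv U v) (homogeneousComponent d F) = 0 := by
  classical
  by_contra hd
  have hle : ∀ e, aeval (gv U v) (homogeneousComponent e F) ≠ 0 → e ≤ F.totalDegree :=
    fun e he => not_lt.1 fun h => he (by rw [homogeneousComponent_eq_zero _ _ h, map_zero])
  obtain ⟨b, hb, hmax⟩ := ((Finset.range (F.totalDegree + 1)).filter fun e =>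
    aeval (gv U v) (homogeneousComponent e F) ≠ 0).exists_max_image id
      ⟨d, Finset.mem_filter.2 ⟨Finset.mem_range.2 (Nat.lt_succ_of_le (hle d hd)), hd⟩⟩
  replace hb := (Finset.mem_filter.1 hb).2
  have h1 : aeval (gv U v) (homogeneousComponent b F) =
      -aeval (gv U v) (∑ e ∈ Finset.range b, homogeneousComponent e F) := by
    rw [eq_neg_iff_add_eq_zero, add_comm, ← map_add, ← Finset.sum_range_succ, ← h0]
    conv_rhs => rw [← sum_homogeneousComponent F]
    rw [map_sum, map_sum]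
    refine Finset.sum_subset (Finset.range_mono (Nat.succ_le_succ (hle b hb))) fun e h2 h3 => ?_
    by_contra h4
    exact h3 (Finset.mem_range.2 (Nat.lt_succ_of_le (hmax e (Finset.mem_filter.2 ⟨h2, h4⟩))))
  cases b with
  | zero => exact hb (by simpa using h1)
  | succ c =>
    have h2 : (∑ e ∈ Finset.range (c + 1), homogeneousComponent e F).totalDegree ≤ c :=
      totalDegree_finsetSum_le fun e he => (homogeneousComponent_isHomogeneous e
        F).totalDegree_le.trans (Nat.le_of_lt_succ (Finset.mem_range.1 he))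
    have h3 := homogeneousComponent_isHomogeneous (c + 1) F
    generalize homogeneousComponent (c + 1) F = P at *
    generalize ∑ e ∈ Finset.range (c + 1), homogeneousComponent e F = Q at *
    obtain ⟨p, hp⟩ := exists_repr (map (algebraMap _ (Up U k)) P)
    obtain ⟨q, hq⟩ := exists_repr (map (algebraMap _ (Up U k)) Q)
    have e1 : aeval (gv U v) P = germ U fun n => eval (v n) (p n) := hp.aeval' v
    have e2 : aeval (gv U v) Q = germ U fun n => eval (v n) (q n) := hq.aeval' v
    have h4 := hC.mov hv h3 hb hp hT (1 / 5) (by norm_num)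
    rw [e1, e2, ← map_neg, germ_eq] at h1
    rw [e1, germ_ne_zero] at hb
    obtain ⟨n, h5⟩ := (show ∀ᶠ n in (U : Filter α), False by
      filter_upwards [h1, hb, h4, hT.lo (1 / 5) (by norm_num), repr_hom h3 hp, hq.supp',
        exists_ad_repr hH hp (ε := 1 / 5) (by norm_num),
        exists_ad_repr hH hq (ε := 1 / 5) (by norm_num), hH.eventually_ge_atTop 1]
        with n k1 k2 k3 k4 k5 k6 ⟨s, s1, k7⟩ ⟨t, t1, k8⟩ k9
      have := sgen_sum k5 (le_trans (Finset.sup_mono k6) h2) (rep_ne (hv n)) k2 k1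
        s1 t1 k7 k8 (T n)
      linarith).exists
    exact h5

/-- `tr_cone` with `t = RatFunc.X` over `Up U k`, `td_le_of_spec`, `Cos.dim_le`, `tr_rat_rep`. -/
theorem Cos.td_cone : (B.dim : ℕ∞) + 1 ≤ td (Sm k hH) (Set.range (gv U v)) := by
  have h1 := hC.dim_le
  obtain ⟨c, h2⟩ := (hC.rep_gv hv).unit
  rw [tr_rat_rep A (hC.rep_gv hv)] at h1
  refine (add_le_add_left h1 1).trans ((tr_cone (RatFunc.transcendental_X (K := Up U k))
    (Function.ne_iff.2 ⟨c, h2.ne_zero⟩)).trans (td_le_of_spec fun f hf => ?_).1)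
  rw [← sum_homogeneousComponent f, map_sum]
  refine Finset.sum_eq_zero fun d _ => ?_
  rw [aeval_mul_of_hom (homogeneousComponent_isHomogeneous d f)]
  exact mul_eq_zero_of_right _ ((aeval_algebraMap_apply _ (gv U v) _).trans (by
    rw [hC.ker_hom hv hT hf, map_zero]))

/-- The dimension of the cone. -/
theorem Cos.exists_dim : ∃ g : ℕ, B.dim ≤ g ∧
    td (Sm k hH) (Set.range (gv U v)) = (g + 1 : ℕ) := by
  have : CharZero (Sm k hH) := charZero_of_injective_algebraMap (algebraMap k _).injective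
  obtain ⟨r, -, -, -, hr, -⟩ := exists_chart (K := Sm k hH) (pt (gv U v)) none rfl
  have h1 := hC.td_cone hv hT
  rw [td_pt] at hr
  rw [hr] at h1 ⊢
  have h2 : B.dim + 1 ≤ r := by exact_mod_cast h1
  exact ⟨r - 1, by omega, by rw [Nat.sub_add_cancel (by omega)]⟩

end Pool.Agent.Lib.MP_651af7_nt.Cn
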