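import Pool.Agent.Lib.MP_651af7_nt.Cn.SDefs
import Pool.Agent.Lib.MP_8865d3_nt.Sv.Cone

/-! Local heights: trivial bounds, distributions of the gain, splitting of the places. -/

namespace Pool.Agent.Lib.MP_651af7_nt.Cn

open MvPolynomial Height Filter
open Pool.Agent.Lib.MP_651af7_nt.Av Pool.Agent.Lib.MP_651af7_nt.Av.AV
open Pool.Agent.Lib.MP_651af7_nt.Vj Pool.Agent.Lib.MP_8865d3_nt.Sv

variable {α : Type} {U V : Ultrafilter α} {k κ : Type} [Field k] [NumberField k] [Fintype κ]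
  {H : α → ℝ}

theorem finS_lam (d : ℕ) (F : MvPolynomial κ k) (x : κ → k) : FinS (lam d F x) :=
  finS_sub ((finS_ell x).const_mul _) (finS_log _)

theorem gsum_lam (d : ℕ) {F : MvPolynomial κ k} {x : κ → k} (hx : x ≠ 0) (h0 : eval x F ≠ 0) :
    gsum (lam d F x) = d * logHeight x := by
  have h := gsum_sub ((finS_ell x).const_mul (d : ℝ)) (finS_log (eval x F))
  rw [gsum_const_mul (finS_ell x), gsum_ell hx, gsum_log h0, sub_zero] at h
  exact h

omit [NumberField k] in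
theorem sloc_eval_le {d : ℕ} {F : MvPolynomial κ k} (hF : F.IsHomogeneous d) (x : κ → k)
    (w : AbsoluteValue k ℝ) : w (eval x F) ≤ pl w F * nm w x ^ d := by
  have h1 := (absSN_ov w).aeval_le hF (y := x) (nm_nn w x) (le_nm w x)
  rwa [aeval_eq_eval] at h1

omit [NumberField k] in
/-- `w (eval x F) ≤ pl w F * nm w x ^ d` (`SN.Ov.aeval_le` for `absSN`). -/
theorem lam_ge {d : ℕ} {F : MvPolynomial κ k} (hF : F.IsHomogeneous d) {x : κ → k} (hx : x ≠ 0)
    (h0 : eval x F ≠ 0) {w : AbsoluteValue k ℝ} {c : ℝ} (hc : pl w F ≤ c) :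
    0 ≤ lam d F x w + Real.log c := by
  have h2 : w (eval x F) ≤ c * nm w x ^ d :=
    (sloc_eval_le hF x w).trans (mul_le_mul_of_nonneg_right hc (pow_nonneg (nm_nn w x) _))
  have h3 := w.pos h0
  have h4 := pow_pos (nm_pos w hx) d
  have h5 : 0 < c := (mul_pos_iff_of_pos_right h4).1 (h3.trans_le h2)
  have h6 := Real.log_le_log h3 h2
  rw [Real.log_mul h5.ne' h4.ne', Real.log_pow] at h6
  unfold lam ell
  linarith

omit [NumberField k] in
theorem lam_smul {d : ℕ} {F : MvPolynomial κ k} (hF : F.IsHomogeneous d) {x : κ → k} (hx : x ≠ 0)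
    (h0 : eval x F ≠ 0) {c : k} (hc : c ≠ 0) (w : AbsoluteValue k ℝ) :
    lam d F (fun a => c * x a) w = lam d F x w := by
  have h1 : nm w (fun a => c * x a) = w c * nm w x := by
    simp only [nm, map_mul]
    exact (Real.mul_iSup_of_nonneg (w.nonneg c) _).symm
  have h2 := aeval_mul_of_hom hF c x
  rw [aeval_eq_eval, aeval_eq_eval] at h2
  unfold lam ell
  rw [h1, h2, map_mul, map_pow, Real.log_mul (w.pos hc).ne' (nm_pos w hx).ne',
    Real.log_mul (pow_pos (w.pos hc) d).ne' (w.pos h0).ne', Real.log_pow]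
  ring

/-- The trivial bounds. -/
theorem lam_bd {d : ℕ} {F : MvPolynomial κ k} (hF : F.IsHomogeneous d) {x : κ → k} (hx : x ≠ 0)
    (h0 : eval x F ≠ 0) {c : AbsoluteValue k ℝ → ℝ} {h : ℝ} (hc : Ad c h)
    (hl : ∀ w, pl w F ≤ c w) : (∀ T, isum T (lam d F x) ≤ d * logHeight x + h) ∧
      ∀ w, |mlt w * lam d F x w| ≤ d * logHeight x + h := by
  have g0 : ∀ w, 0 ≤ lam d F x w + Real.log (c w) := fun w => lam_ge hF hx h0 (hl w)
  have c0 : ∀ w, 0 ≤ Real.log (c w) := fun w => Real.log_nonneg (hc.one w)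
  have h1 : ∀ T, isum T (lam d F x) ≤ d * logHeight x + h := fun T => by
    have h2 := isum_le_gsum T ((finS_lam d F x).add hc.fin) fun w _ => g0 w
    rw [gsum_add (finS_lam d F x) hc.fin, gsum_lam d hx h0, isum_add] at h2
    have h3 := isum_nonneg T (f := fun w => Real.log (c w)) fun w _ _ => c0 w
    linarith [hc.le]
  refine ⟨h1, fun w => abs_le.2 ⟨?_, ?_⟩⟩
  · have h2 := isum_le_gsum {w} hc.fin fun w _ => c0 w
    rw [isum_eq_sum, Finset.sum_singleton] at h2
    have h3 := mul_nonneg (mlt_nonneg w) (g0 w)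
    have h4 := mul_nonneg (Nat.cast_nonneg (α := ℝ) d) (logHeight_nonneg x)
    linarith [hc.le]
  · have h2 := h1 {w}
    rwa [isum_eq_sum, Finset.sum_singleton] at h2

/-- Sizes for the lengths of a family that represents a polynomial over the small field
(`Repr.small`, `exists_ad_pl`). -/
theorem exists_ad_repr (hH : Tendsto H U atTop) {F : MvPolynomial κ (Sm k hH)}
    {Fn : α → MvPolynomial κ k} (hF : Repr U (map (algebraMap _ (Up U k)) F) Fn) {ε : ℝ}
    (hε : 0 < ε) : ∀ᶠ n in U, ∃ c, Ad c (ε * H n) ∧ ∀ w, pl w (Fn n) ≤ c w := by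
  obtain ⟨r, r0, hr⟩ := exists_ad_pl k κ F.totalDegree
  have e0 : 0 < ε / (2 * (r + 1)) := by positivity
  filter_upwards [hF.small hH le_rfl e0, hH.eventually_ge_atTop 0,
    (hH.const_mul_atTop (half_pos hε)).eventually_ge_atTop r] with n h1 h2 h3
  obtain ⟨c, hc, hl⟩ := hr _ _ (mul_nonneg e0.le h2) h1
  refine ⟨c, hc.mono ?_, hl⟩
  have h4 : (r + 1) * (ε / (2 * (r + 1)) * H n) = ε / 2 * H n := by field_simp
  linarith [mul_nonneg e0.le h2]

omit [Fintype κ] in
/-- The members of a family that represents a form are forms (`Repr.supp'`). -/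
theorem repr_hom {K : Type} [Field K] [Algebra K (Up U k)] {F : MvPolynomial κ K} {d : ℕ}
    (hF : F.IsHomogeneous d) {Fn : α → MvPolynomial κ k}
    (h : Repr U (map (algebraMap K (Up U k)) F) Fn) : ∀ᶠ n in U, (Fn n).IsHomogeneous d := by
  filter_upwards [h.supp'] with n hn μ hμ
  exact hF (mem_support_iff.1 (hn (mem_support_iff.2 hμ)))

/-- One distribution for all members. `cone_lim` for `(mlt w * f n w / H n)`, `w ∈ T`, with
`δ = η / (4 (card T + 1))`; fix a member `n₀`, put `σ w = max 0 (mlt w * f n₀ w / H n₀ - δ)`,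
`μ w = σ w / (mlt w * ∑ σ)` on `T`. -/
theorem exists_mu (hH : Tendsto H V atTop) (T : Finset (AbsoluteValue k ℝ))
    (f : α → AbsoluteValue k ℝ → ℝ) {M η : ℝ} (hη : 0 < η)
    (hb : ∀ᶠ n in V, ∀ w ∈ T, |mlt w * f n w| ≤ M * H n)
    (hs : ∀ᶠ n in V, η * H n ≤ isum T (f n)) :
    ∃ μ, Prob ∅ μ ∧ ∀ᶠ n in V, ∀ w, μ w = 0 ∨ η / 2 * H n * μ w ≤ f n w := by
  classical
  obtain ⟨δ, d0, d1⟩ : ∃ δ : ℝ, 0 < δ ∧ T.card * δ ≤ η / 2 := by
    have h0 : (0 : ℝ) ≤ T.card := Nat.cast_nonneg _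
    refine ⟨η / (2 * (T.card + 1)), by positivity, ?_⟩
    have h1 : (T.card + 1) * (η / (2 * (T.card + 1))) = η / 2 := by field_simp
    have h2 : 0 ≤ η / (2 * (T.card + 1)) := by positivity
    linarith
  have hp := hH.eventually_gt_atTop 0
  obtain ⟨S, hS, hc⟩ := cone_lim V (M := max M 0) (fun n (w : T) => mlt w.1 * f n w.1 / H n)
    ((hb.and hp).mono fun n ⟨h1, h2⟩ => (pi_norm_le_iff_of_nonneg (le_max_right _ _)).2 fun w => by
      rw [Real.norm_eq_abs, abs_div, abs_of_pos h2, div_le_iff₀ h2]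
      exact (h1 w.1 w.2).trans (mul_le_mul_of_nonneg_right (le_max_left _ _) h2.le)) d0
  obtain ⟨m, m1, m2, m3⟩ := ((Filter.eventually_mem_set.2 hS).and (hp.and hs)).exists
  obtain ⟨σ, hσ⟩ : ∃ σ : AbsoluteValue k ℝ → ℝ, ∀ w, σ w = max 0 (mlt w * f m w / H m - δ) :=
    ⟨_, fun _ => rfl⟩
  have s0 : ∀ w, 0 ≤ σ w := fun w => hσ w ▸ le_max_left _ _
  have s1 : η / 2 ≤ ∑ w ∈ T, σ w := by
    have h1 : ∑ w ∈ T, (mlt w * f m w / H m - δ) ≤ ∑ w ∈ T, σ w :=
      Finset.sum_le_sum fun w _ => hσ w ▸ le_max_right _ _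
    rw [Finset.sum_sub_distrib, ← Finset.sum_div, ← isum_eq_sum, Finset.sum_const,
      nsmul_eq_mul] at h1
    have h2 := (le_div_iff₀ m2).2 m3
    linarith
  have s2 : 0 < ∑ w ∈ T, σ w := (half_pos hη).trans_le s1
  have s3 : ∀ w, mlt w = 0 → σ w = 0 := fun w hw => by
    rw [hσ, hw, zero_mul, zero_div, zero_sub, max_eq_left (neg_nonpos.2 d0.le)]
  refine ⟨fun w => if w ∈ T then σ w / (mlt w * ∑ w ∈ T, σ w) else 0, ⟨fun w => ?_, ?_, ?_,
    fun w hw => absurd hw (Finset.notMem_empty w)⟩, ?_⟩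
  · split_ifs
    exacts [div_nonneg (s0 w) (mul_nonneg (mlt_nonneg w) s2.le), le_rfl]
  · exact pf_of_le (finS_in T fun w => σ w / (mlt w * ∑ w ∈ T, σ w)) fun w hw => by
      by_cases h : w ∈ T
      · simpa only [if_pos h] using hw
      · exact if_neg h
  · have h1 := isum_eq_sum T fun w => σ w / (mlt w * ∑ w ∈ T, σ w)
    have h2 : ∀ w ∈ T, mlt w * (σ w / (mlt w * ∑ w ∈ T, σ w)) = σ w / ∑ w ∈ T, σ w := fun w _ => by
      rcases eq_or_ne (mlt w) 0 with h | h
      · rw [s3 w h, zero_div, zero_div, mul_zero]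
      · field_simp
    rw [Finset.sum_congr rfl h2, ← Finset.sum_div, div_self s2.ne', isum] at h1
    refine Eq.trans ?_ h1
    congr 1
  · filter_upwards [Filter.eventually_mem_set.2 hS, hp] with n n1 n2 w
    by_cases h : w ∈ T
    · rw [if_pos h]
      rcases (s0 w).eq_or_lt with h1 | h1
      · exact Or.inl (by rw [← h1, zero_div])
      refine Or.inr ?_
      have h2 : 0 < mlt w := (mlt_nonneg w).lt_of_ne' fun h0 => h1.ne' (s3 w h0)
      have h3 := (norm_le_pi_norm _ ⟨w, h⟩).trans (hc m m1 n n1)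
      rw [Pi.sub_apply, Real.norm_eq_abs] at h3
      have h4 : σ w ≤ mlt w * f n w / H n := by
        have h5 := (abs_le.1 h3).1
        rcases max_choice 0 (mlt w * f m w / H m - δ) with h6 | h6
        · exact absurd ((hσ w).trans h6) h1.ne'
        · rw [hσ, h6]
          linarith
      rw [le_div_iff₀ n2] at h4
      rw [← mul_div_assoc, div_le_iff₀ (mul_pos h2 s2)]
      calc η / 2 * H n * σ w = σ w * H n * (η / 2) := by ring
        _ ≤ mlt w * f n w * ∑ w ∈ T, σ w :=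
          mul_le_mul h4 s1 (half_pos hη).le ((mul_pos h1 n2).le.trans h4)
        _ = f n w * (mlt w * ∑ w ∈ T, σ w) := by ring
    · exact Or.inl (if_neg h)

/-- The point mass. -/
theorem exists_point {T : Finset (AbsoluteValue k ℝ)} {w : AbsoluteValue k ℝ} (hw : Adm w)
    (hT : w ∉ T) : ∃ μ, Prob T μ ∧ μ w ≤ 1 ∧ ∀ w', w' ≠ w → μ w' = 0 := by
  classical
  obtain ⟨hf, hn⟩ := emark_ind w hw
  obtain ⟨i, hi⟩ : ∃ i : AbsoluteValue k ℝ → ℝ, i w = 1 ∧ (∀ w', w' ≠ w → i w' = 0) ∧ FinS i ∧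
      1 ≤ gsum i := ⟨_, if_pos rfl, fun _ h => if_neg h, hf, hn⟩
  obtain ⟨i1, i2, i3, i4⟩ := hi
  have i5 : 0 < gsum i := one_pos.trans_le i4
  refine ⟨fun w' => (gsum i)⁻¹ * i w', ⟨fun w' => mul_nonneg (inv_pos.2 i5).le ?_, i3.const_mul _,
    ?_, fun w' h => ?_⟩, ?_, fun w' h => ?_⟩
  · rcases eq_or_ne w' w with rfl | h
    · exact i1 ▸ zero_le_one
    · exact (i2 w' h).ge
  · rw [gsum_const_mul i3, inv_mul_cancel₀ i5.ne']
  · rw [i2 w' fun h' => hT (h' ▸ h), mul_zero]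
  · beta_reduce
    rw [i1, mul_one]
    exact inv_le_one_of_one_le₀ i4
  · beta_reduce
    rw [i2 w' h, mul_zero]

omit [NumberField k] in
/-- No gain is needed where the distribution vanishes. -/
theorem badM_of {r e : ℕ} {μ : AbsoluteValue k ℝ → ℝ} {mk : Finset (Fin (r + 1))} {s : ℝ}
    {u : Fin (r + 1) → MvPolynomial κ k} (hu : ∀ l, (u l).IsHomogeneous e) {x : κ → k}
    (h : ∀ w, ∀ l ∈ mk, μ w = 0 ∨
      w (eval x (u l)) ≤ Real.exp (-(s * μ w)) * nm w x ^ e) : BadM μ mk e s u x := by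
  intro w l hl
  have h0 := pow_nonneg (nm_nn w x) e
  rcases h w l hl with h1 | h1
  · rw [h1, mul_zero, neg_zero, Real.exp_zero, mul_one]
    exact (sloc_eval_le (hu l) x w).trans (mul_le_mul_of_nonneg_right (le_max_right _ _) h0)
  · exact h1.trans (mul_le_mul_of_nonneg_right
      (le_mul_of_one_le_left (Real.exp_pos _).le (le_max_left _ _)) h0)

/-- Normalisation of the local gains outside `T`; compare `Sv.exists_sigma` (`Sv/EMark`). With
`f w = e * ell w x - log (nm w ..)` take `μ = max 0 f / osum T (max 0 f)` outside `T` and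
`badM_of`. -/
theorem exists_prob (T : Finset (AbsoluteValue k ℝ)) {r e : ℕ} (mk : Finset (Fin (r + 1)))
    {u : Fin (r + 1) → MvPolynomial κ k} (hu : ∀ l, (u l).IsHomogeneous e) {x : κ → k}
    (hx : x ≠ 0) (h0 : (fun l : mk => eval x (u l)) ≠ 0) {s : ℝ} (hs0 : 0 < s)
    (hs : s ≤ osum T fun w => e * ell w x - Real.log (nm w fun l : mk => eval x (u l))) :
    ∃ μ, Prob T μ ∧ BadM μ mk e s u x := by
  classical
  obtain ⟨f, hf⟩ : ∃ f : AbsoluteValue k ℝ → ℝ,
      f = fun w => e * ell w x - Real.log (nm w fun l : mk => eval x (u l)) := ⟨_, rfl⟩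
  have f1 : FinS f := hf ▸ finS_sub ((finS_ell x).const_mul _) (finS_nm _)
  have f2 : FinS fun w => max 0 (f w) := pf_of_le f1 fun w hw => by rw [hw, max_self]
  rw [← hf] at hs
  have h1 : s ≤ osum T fun w => max 0 (f w) :=
    hs.trans (osum_mono T f1 f2 fun w _ _ => le_max_right _ _)
  obtain ⟨g, g0, g1, g2, g3, g4⟩ : ∃ g : AbsoluteValue k ℝ → ℝ, (∀ w, 0 ≤ g w) ∧ FinS g ∧
      s ≤ gsum g ∧ (∀ w ∈ T, g w = 0) ∧ ∀ w, g w = 0 ∨ g w = f w := by
    refine ⟨_, fun w => ?_, finS_out T f2, h1, fun w hw => if_pos hw, fun w => ?_⟩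
    · split_ifs
      exacts [le_rfl, le_max_left _ _]
    · split_ifs
      exacts [Or.inl rfl, max_choice _ _]
  have h2 : 0 < gsum g := hs0.trans_le g2
  refine ⟨fun w => (gsum g)⁻¹ * g w, ⟨fun w => mul_nonneg (inv_pos.2 h2).le (g0 w), g1.const_mul _,
    ?_, fun w hw => by rw [g3 w hw, mul_zero]⟩, badM_of hu fun w l hl => ?_⟩
  · rw [gsum_const_mul g1, inv_mul_cancel₀ h2.ne']
  rcases g4 w with h3 | h3
  · exact Or.inl (by rw [h3, mul_zero])
  refine Or.inr ((le_nm w (fun l : mk => eval x (u l)) ⟨l, hl⟩).trans ?_)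
  have h4 : s * ((gsum g)⁻¹ * g w) ≤ g w := by
    rw [← mul_assoc]
    exact mul_le_of_le_one_left (g0 w) (mul_inv_le_one_of_le₀ g2 h2.le)
  rw [← exp_ell w hx, ← Real.exp_nat_mul, ← Real.exp_add, ← Real.exp_log (nm_pos w h0),
    Real.exp_le_exp]
  have h5 : g w = e * ell w x - Real.log (nm w fun l : mk => eval x (u l)) := h3.trans (by rw [hf])
  linarith

/-- `mlt w * |ell w v| ≤ hc v`. -/
theorem mlt_ell_le {v : κ → k} (hv : v ≠ 0) (w : AbsoluteValue k ℝ) :
    mlt w * |ell w v| ≤ hc v := by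
  rcases le_total 0 (ell w v) with h | h
  · have h1 := isum_le_gsum {w} (finS_pos hv) fun _ _ => le_max_left _ _
    rwa [gsum_pos hv, isum_eq_sum, Finset.sum_singleton, max_eq_right h, ← abs_of_nonneg h] at h1
  · have h1 := isum_le_gsum {w} (finS_sub (finS_pos hv) (finS_ell v))
      fun _ _ => sub_nonneg.2 (le_max_right _ _)
    rw [gsum_sub (finS_pos hv) (finS_ell v), gsum_pos hv, gsum_ell hv, isum_eq_sum,
      Finset.sum_singleton, max_eq_left h, zero_sub, ← abs_of_nonpos h] at h1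
    linarith [logHeight_nonneg v]

/-- The places of `T` at which the norm is `exp (o (H))` are removed. -/
theorem exists_split (hH : Tendsto H V atTop) (T : Finset (AbsoluteValue k ℝ)) (v : α → κ → k)
    (h : Lo V H fun n => cnt T (v n)) : ∃ T' ⊆ T, Lo V H (fun n => cnt T' (v n)) ∧
      ∀ w ∈ T', Bo V (fun n => |ell w (v n)|) H := by
  classical
  induction T using Finset.strongInduction with
  | H T ih =>
    by_cases h1 : ∀ w ∈ T, Bo V (fun n => |ell w (v n)|) H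
    · exact ⟨T, subset_rfl, h, h1⟩
    obtain ⟨w, hw, h2⟩ : ∃ w ∈ T, Lo V H fun n => |ell w (v n)| := by
      by_contra h3
      exact h1 fun w hw => bo_of_not_lo fun h4 => h3 ⟨w, hw, h4⟩
    obtain ⟨T', t1, t2⟩ := ih (T.erase w) (Finset.erase_ssubset hw)
      ((h.add (lo_mul_nonneg hH h2 (mlt_nonneg w))).mono (.of_forall fun n =>
        (osum_erase T hw (finS_abs (finS_ell (v n)))).le))
    exact ⟨T', t1.trans (Finset.erase_subset w T), t2⟩

end Pool.Agent.Lib.MP_651af7_nt.Cn
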