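import Pool.Agent.Lib.MP_651af7_nt.Cn.SMovE
import Pool.Agent.Lib.MP_651af7_nt.Cn.SLoc

/-! Approximation to moving hypersurfaces, uniformly in the set of places. -/

namespace Pool.Agent.Lib.MP_651af7_nt.Cn

open MvPolynomial Height Filter
open Pool.Agent.Lib.MP_651af7_nt.Av Pool.Agent.Lib.MP_651af7_nt.Av.AV
open Pool.Agent.Lib.MP_651af7_nt.Vj Pool.Agent.Lib.MP_8865d3_nt.Sv

variable {α : Type} {U : Ultrafilter α} {k ι : Type} [Field k] [NumberField k] [Fintype ι]

omit [NumberField k] in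
theorem BadM.smul {r e : ℕ} {μ : AbsoluteValue k ℝ → ℝ} {mk : Finset (Fin (r + 1))} {s : ℝ}
    {u : Fin (r + 1) → MvPolynomial ι k} (hu : ∀ l, (u l).IsHomogeneous e) {x : ι → k} (c : k)
    (h : BadM μ mk e s u x) : BadM μ mk e s u fun a => c * x a := by
  intro w l hl
  have h1 : nm w (fun a => c * x a) = w c * nm w x := iSup_mul_left w c x
  rw [eval_mul_of_hom (hu l), h1, map_mul, map_pow, mul_pow, mul_left_comm]
  exact mul_le_mul_of_nonneg_left (h w l hl) (pow_nonneg (w.nonneg c) e)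

/-- Copy of `AV.seq_core` (`Av/Seq`) with `engineM`; the cone lemma and the chain are taken along
`V` as in `Sa.Mod.seq_core` (`MP_8865d3_nt/Sa/Eng`). -/
theorem seq_mov (B : AV k ι) (y : α → B.Pt k) (hH : Tendsto (fun n => ht (y n)) U atTop)
    {Y : B.Pt (Up U k)} (hY : IsGerm U Y y) (hg : B.Gens (Sm k hH) Y) {e ρ : ℕ} (he : 1 ≤ e)
    {u : Fin (B.dim + 1) → MvPolynomial ι (Sm k hH)}
    {c : ι → Fin ρ → MvPolynomial (Fin (B.dim + 1)) (Sm k hH)} (hnn : NN (B.IK (Sm k hH)) e ρ u c)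
    {un : α → Fin (B.dim + 1) → MvPolynomial ι k}
    (hu : ∀ i, Repr U (map (algebraMap _ (Up U k)) (u i)) fun n => un n i) {η : ℝ} (hη : 0 < η)
    (hbad : ∀ S ∈ U, ∃ (V : Ultrafilter α) (μ : AbsoluteValue k ℝ → ℝ), S ∈ V ∧
      Tendsto (fun n => ht (y n)) V atTop ∧ Prob ∅ μ ∧
      ∀ᶠ n in V, BadM μ {0} e (η * ht (y n)) (un n) (y n).co) : False := by
  have hd : B.Dense := B.dense_of_gens hg fun f n hf h =>
    (aeval_germ_co hY hf).2 (.of_forall fun l => h _)
  obtain ⟨ϱ, hϱ⟩ := B.exists_par hd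
  obtain ⟨r, B₀, δ, b, hδ, hb, hgood, hex⟩ := B.exists_blk hϱ.basis y hH hY hg hnn hu
  obtain ⟨m, B', θ, ζ, ε₀, hθ, hζ, hε₀, heng⟩ :=
    engineM B hϱ r ρ B₀ he hδ hη (B.one_le_dim hH hY)
  obtain ⟨δ', hδ', hex'⟩ := hex B'
  have hε : 0 < min ε₀ (δ' / (B' + 1)) := lt_min hε₀ (by positivity)
  obtain ⟨W, hW⟩ := heng _ hε (min_le_left _ _)
  obtain ⟨V, μ, hV, hHV, hμ, hb'⟩ := hbad _ ((hgood _ hε).and hex')
  obtain ⟨T, hT, hcone⟩ := B.cone V y hHV hθ
  have hall := Filter.Eventually.and hV (hb'.and ((hHV.eventually_ge_atTop W).and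
    (show ∀ᶠ n in V, n ∈ T from hT)))
  obtain ⟨f, hf, hsep⟩ := exists_chain hHV hall hζ
  let ix : Option (Fin m) → ℕ := fun o => o.elim 0 fun i => i + 1
  have hix : Function.Injective ix := by
    rintro (_ | i) (_ | i') h
    · rfl
    · simp [ix] at h
    · simp [ix] at h
    · simp only [ix, Option.elim_some, add_left_inj] at h
      rw [Fin.ext h]
  choose j hj using fun i : Fin m => hcone (f 0) (hf 0).2.2.2 (f (i + 1)) (hf (i + 1)).2.2.2
    (hsep 0 (i + 1) (Nat.succ_pos _)).1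
  obtain ⟨o, q, h0, h1, h2, h3, h4⟩ := hW μ (fun o => b (f (ix o))) j (fun o => (hf _).1.1)
    (fun o => by rw [(hb _).1]; exact (hf _).2.2.1)
    (fun o o' h => by
      simp only [(hb _).1]
      rcases lt_or_gt_of_ne (hix.ne h) with h | h
      · exact Or.inl (hsep _ _ h).2
      · exact Or.inr (hsep _ _ h).2)
    (fun i => by rw [(hb _).1, (hb _).1]; exact hj i) hμ
    (fun i => by
      have hG := (hf (ix (some i))).1.1
      obtain ⟨s, hs⟩ := hG.rep
      rw [funext hs, (hb _).1]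
      refine BadM.smul hG.nn.hu _ ?_
      rw [(hb _).2]
      exact (hf _).2.1)
  refine (hf (ix o)).1.2 ⟨q, h0, h1, h2, h3.trans (Real.exp_le_exp.2 ?_), h4⟩
  rw [(hb _).1]
  refine mul_le_mul_of_nonneg_right ?_ (ht_nonneg _)
  calc (B' : ℝ) * min ε₀ (δ' / (B' + 1)) ≤ (B' + 1) * (δ' / (B' + 1)) := by
        gcongr
        · linarith
        · exact min_le_right _ _
    _ = δ' := by field_simp

/-- A form over the small field outside the ideal of `B` does not vanish at `Y` and is not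
approximated. `B.exists_nn` with `𝒢 0 = {F}` and powers of the variables (as in `seq_prox`,
`Av/SeqD`); `u 0 = C γ * F`, `γ ≠ 0`. First claim: `exists_point` at an infinite place, `V = U`.
Second claim: `exists_mu` along the `V` of `Fib`, `lam_bd`, `exists_ad_repr`, `badM_of`. -/
theorem mov_ht (B : AV k ι) (y : α → B.Pt k) (hH : Tendsto (fun n => ht (y n)) U atTop)
    {Y : B.Pt (Up U k)} (hY : IsGerm U Y y) (hg : B.Gens (Sm k hH) Y) {d : ℕ} (hd : 1 ≤ d)
    {F : MvPolynomial ι (Sm k hH)} (hF : F.IsHomogeneous d) (h0 : F ∉ B.IK (Sm k hH)) :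
    aeval Y.co F ≠ 0 ∧ ∀ (Fn : α → MvPolynomial ι k), Repr U (map (algebraMap _ (Up U k)) F) Fn →
      ∀ (T : α → Finset (AbsoluteValue k ℝ)) (D : α → ℝ), Fib U T (fun n => ht (y n)) D →
      Lo U (fun n => ht (y n)) fun n => isum (T n) (lam d (Fn n) (y n).co) := by
  classical
  obtain ⟨γ, ρ, c, hnn, h1⟩ := B.exists_nn (Sm k hH) hd (fun i => if i = 0 then {F} else
    Finset.univ.image fun a => (X a ^ d : MvPolynomial ι (Sm k hH))) (fun i f hf => by
      split_ifs at hf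
      · exact Finset.mem_singleton.1 hf ▸ hF
      · obtain ⟨a, -, rfl⟩ := Finset.mem_image.1 hf
        exact isHomogeneous_X_pow a _) fun i E _ _ _ _ w hw0 hw hf => by
      split_ifs at hf with hi
      · subst hi
        simpa using td_succ_le hF h0 hw0 hw (hf _ (Finset.mem_singleton_self _))
      · exact absurd (eq_zero_of_pow hf) hw0
  generalize hu : (fun i : Fin (B.dim + 1) => ∑ f ∈ (if i = 0 then {F} else Finset.univ.image
    fun a => (X a ^ d : MvPolynomial ι (Sm k hH))), C ((γ i f : ℚ) : Sm k hH) * f) = u at hnn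
  have h2 : u 0 = C ((γ 0 F : ℚ) : Sm k hH) * F := by simp [← hu]
  have hγ : ((γ 0 F : ℚ) : k) ≠ 0 := fun h => h1 (by simp [Rat.cast_eq_zero.1 h])
  choose un hun using fun i => exists_repr (U := U) (map (algebraMap _ (Up U k)) (u i))
  have hx : ∀ n, (y n).co ≠ 0 := fun n => rep_ne (rep_co (y n))
  have hh : ∀ᶠ n in U, ∀ l, (un l n).IsHomogeneous d :=
    eventually_all.2 fun l => repr_hom (hnn.hu l) (hun l)
  have key := fun (η : ℝ) => seq_mov B y hH hY hg hd hnn (un := fun n i => un i n) hun (η := η)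
  have h3 : ∀ᶠ n in U, eval (y n).co (un 0 n) ≠ 0 := by
    refine Ultrafilter.eventually_not.2 fun h => ?_
    obtain ⟨w⟩ : Nonempty (NumberField.InfinitePlace k) := inferInstance
    obtain ⟨μ, hμ, -⟩ := exists_point (Or.inl (NumberField.mem_multisetInfinitePlace.2
      w.isInfinitePlace) : Adm w.1) (Finset.notMem_empty _)
    refine key 1 one_pos fun S hS => ⟨U, μ, hS, hH, hμ, ?_⟩
    filter_upwards [h, hh] with n a1 a2
    refine badM_of a2 fun w l hl => Or.inr ?_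
    rw [Finset.mem_singleton.1 hl, a1, map_zero]
    exact mul_nonneg (Real.exp_nonneg _) (pow_nonneg (nm_nn _ _) _)
  refine ⟨fun h => ?_, fun Fn hFn T D hT => ?_⟩
  · obtain ⟨s, hs⟩ := (rep_co Y).exists_smul hY
    have h4 := (hun 0).aeval' fun n => (y n).co
    rw [funext hs, aeval_mul_of_hom (hnn.hu 0), h2, map_mul, h, mul_zero, mul_zero] at h4
    exact germ_ne_zero.2 h3 h4.symm
  have h4 : ∀ᶠ n in U, un 0 n = C ((γ 0 F : ℚ) : k) * Fn n := (hun 0).unique (by
    simpa [h2] using (Repr.const (U := U) (C ((γ 0 F : ℚ) : k) : MvPolynomial ι k)).mul hFn)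
  have h5 : Lo U (fun n => ht (y n)) fun n => isum (T n) (lam d (un 0 n) (y n).co) := by
    intro ε hε
    by_contra h6
    refine key (ε / 2) (half_pos hε) fun S hS => ?_
    obtain ⟨V, t, hV, a0, hHV, -⟩ := hT _ (inter_mem hS ((((Ultrafilter.eventually_not.2 h6).and
      h3).and hh).and (exists_ad_repr hH (hun 0) one_pos)))
    obtain ⟨μ, hμ, a1⟩ := exists_mu hHV t (fun n => lam d (un 0 n) (y n).co) (M := d + 1) hε
      (by
        filter_upwards [hV] with n ⟨_, ⟨⟨_, b1⟩, b2⟩, c, b3, b4⟩ w _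
        exact ((lam_bd (b2 0) (hx n) b1 b3 b4).2 w).trans_eq (by rw [AV.ht]; ring))
      (by
        filter_upwards [hV, a0] with n b1 b2
        exact b2 ▸ (not_le.1 b1.2.1.1.1).le)
    refine ⟨V, μ, mem_of_superset hV Set.inter_subset_left, hHV, hμ, ?_⟩
    filter_upwards [hV, a1] with n ⟨_, ⟨⟨_, b1⟩, b2⟩, _⟩ b3
    refine badM_of b2 fun w l hl => (b3 w).imp_right fun b4 => ?_
    rw [Finset.mem_singleton.1 hl, ← exp_ell w (hx n), ← Real.exp_nat_mul, ← Real.exp_add,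
      ← Real.log_le_iff_le_exp (w.pos b1)]
    rw [lam] at b4
    linarith
  refine (h5.add (Lo.const hH (logHeight₁ ((γ 0 F : ℚ) : k)))).mono ?_
  filter_upwards [h3, h4] with n a1 a2
  refine le_trans ?_ (add_le_add le_rfl (ad_isum_le (ad_max _) (T n)))
  rw [← isum_add]
  refine isum_mono _ fun w _ _ => ?_
  rw [a2, map_mul, eval_C] at a1
  have a3 := Real.log_le_log (w.pos hγ) (le_max_right 1 _)
  rw [lam, lam, a2, map_mul, eval_C, map_mul,
    Real.log_mul (w.pos hγ).ne' (w.pos (right_ne_zero_of_mul a1)).ne']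
  linarith

/-- The same for a comparable height. -/
theorem mov_bo (B : AV k ι) {H : α → ℝ} (hH : Tendsto H U atTop) (y : α → B.Pt k)
    (h1 : Bo U H fun n => ht (y n)) (h2 : Bo U (fun n => ht (y n)) H)
    {Y : B.Pt (Up U k)} (hY : IsGerm U Y y) (hg : B.Gens (Sm k hH) Y) {d : ℕ} (hd : 1 ≤ d)
    {F : MvPolynomial ι (Sm k hH)} (hF : F.IsHomogeneous d) (h0 : F ∉ B.IK (Sm k hH)) :
    aeval Y.co F ≠ 0 ∧ ∀ (Fn : α → MvPolynomial ι k), Repr U (map (algebraMap _ (Up U k)) F) Fn →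
      ∀ (T : α → Finset (AbsoluteValue k ℝ)) (D : α → ℝ), Fib U T H D →
      Lo U H fun n => isum (T n) (lam d (Fn n) (y n).co) := by
  have hH' := tendsto_of_bo hH h2 fun n => ht_nonneg _
  have hK := sm_congr' (k := k) hH hH' h2 h1
  generalize Sm k hH = K at *
  subst hK
  obtain ⟨h3, h4⟩ := mov_ht B y hH' hY hg hd hF h0
  exact ⟨h3, fun Fn hFn T D hT =>
    lo_of_bo hH (h4 Fn hFn T D (hT.of_bo h2 fun n => ht_nonneg _)) h1⟩

end Pool.Agent.Lib.MP_651af7_nt.Cn
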