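import Pool.Agent.Lib.MP_651af7_nt.Cn.SLoc
import Pool.Agent.Lib.MP_651af7_nt.Av.Fin

/-! The local height of a subscheme of the cone. -/

namespace Pool.Agent.Lib.MP_651af7_nt.Cn

open MvPolynomial Height Filter
open Pool.Agent.Lib.MP_651af7_nt.Av Pool.Agent.Lib.MP_651af7_nt.Av.AV
open Pool.Agent.Lib.MP_651af7_nt.Vj Pool.Agent.Lib.MP_8865d3_nt.Sv

variable {α : Type} {U V : Ultrafilter α} {k ι L : Type} [Field k] [NumberField k] [Fintype ι]
  [Fintype L] {a b : ℕ} {G : L → MvPolynomial ι k}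

omit [NumberField k] in
theorem smv_eval_le (w : AbsoluteValue k ℝ) (v : ι → k) {P : MvPolynomial ι k} {s : ℝ} (hs : 0 ≤ s)
    (h : ∀ μ ∈ P.support, nm w v ^ μ.degree ≤ s) : w (eval v P) ≤ pl w P * s :=
  (eval₂_le_polN (absSN w) (t := fun _ => nm w v) (absSN w) (RingHom.id k) (fun _ => le_rfl)
    (le_nm w v) P).trans (polN_le_mul (absSN w) (fun _ => nm_nn w v) hs fun μ hμ => by
      rw [wt_const]
      exact h μ hμ)

omit [NumberField k] in
theorem smv_pow (w : AbsoluteValue k ℝ) {v : ι → k} (hv : v ≠ 0) (m : ℕ) :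
    nm w v ^ m = Real.exp (m * ell w v) := by
  rw [Real.exp_nat_mul, exp_ell w hv]

theorem finS_mv {v : ι → k} (hv : v ≠ 0) : FinS (mv a b G v) :=
  finS_sub (((finS_ell v).const_mul _).add ((finS_pos hv).const_mul _)) (finS_nm _)

/-- Also when all `G l` vanish at `v` (`logHeight 0 = 0`, `Real.log 0 = 0`). -/
theorem gsum_mv {v : ι → k} (hv : v ≠ 0) : gsum (mv a b G v) =
    a * logHeight v + ((b : ℝ) - a) * hc v - logHeight fun l => eval v (G l) := by
  have h : gsum (fun w => Real.log (nm w fun l => eval v (G l))) =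
      logHeight fun l => eval v (G l) := by
    rcases eq_or_ne (fun l => eval v (G l)) 0 with h0 | h0
    · rw [h0, logHeight_zero]
      simpa [nm] using pf_gsum_zero (K := k)
    · exact gsum_nm h0
  have h1 := (finS_ell v).const_mul (a : ℝ)
  have h2 := (finS_pos hv).const_mul ((b : ℝ) - a)
  unfold mv
  rw [gsum_sub (h1.add h2) (finS_nm _), gsum_add h1 h2, gsum_const_mul (finS_ell v),
    gsum_const_mul (finS_pos hv), gsum_ell hv, gsum_pos hv, h]

omit [NumberField k] in
/-- `w (eval v (G l)) ≤ pl w (G l) * max (nm ^ a) (nm ^ b)` (`eval₂_le_polN`, `polN_le_mul` as in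
`Sv.xw_le`); `a ≤ b` because some `G l ≠ 0`. -/
theorem mv_ge (hG : ∀ l, Rng a b (G l)) {v : ι → k} (hv : v ≠ 0)
    (h0 : (fun l => eval v (G l)) ≠ 0) {w : AbsoluteValue k ℝ} {c : ℝ}
    (hc : ∀ l, pl w (G l) ≤ c) : 0 ≤ mv a b G v w + Real.log c := by
  have : Nonempty L := ⟨(Function.ne_iff.1 h0).choose⟩
  obtain ⟨l, hl⟩ := exists_nm w fun l => eval v (G l)
  have h1 := nm_pos w h0
  have E0 := Real.exp_pos (a * ell w v + ((b : ℝ) - a) * max 0 (ell w v))
  have h2 := (smv_eval_le w v (P := G l) E0.le fun μ hμ => by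
    have h3 : (a : ℝ) ≤ μ.degree := by exact_mod_cast (hG l μ hμ).1
    have h4 : (μ.degree : ℝ) ≤ b := by exact_mod_cast (hG l μ hμ).2
    rw [smv_pow w hv]
    refine Real.exp_le_exp.2 ?_
    rcases le_total 0 (ell w v) with h | h
    · rw [max_eq_right h]
      linarith [mul_le_mul_of_nonneg_right h4 h]
    · rw [max_eq_left h]
      linarith [mul_le_mul_of_nonpos_right h3 h]).trans (mul_le_mul_of_nonneg_right (hc l) E0.le)
  rw [hl] at h2
  have h3 := Real.log_le_log h1 h2
  rw [Real.log_mul ((mul_pos_iff_of_pos_right E0).1 (h1.trans_le h2)).ne' E0.ne',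
    Real.log_exp] at h3
  unfold mv
  linarith

/-- The inequality of Liouville (`exists_ad_fam`, `mv_ge`, `single_le_osum` with `T = ∅`). -/
theorem mv_le (hG : ∀ l, Rng a b (G l)) : ∃ C : ℝ, ∀ v : ι → k, v ≠ 0 →
    (fun l => eval v (G l)) ≠ 0 → ∀ w, Adm w → mv a b G v w ≤ C * (hc v + 1) := by
  obtain ⟨c, h, hA, hl⟩ := exists_ad_fam G
  refine ⟨b + h, fun v hv h0 w hw => ?_⟩
  have hf := (finS_mv (a := a) (b := b) (G := G) hv).add hA.fin
  have h2 := single_le_osum hw (Finset.notMem_empty w) hf fun w' => mv_ge hG hv h0 (hl w')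
  have h3 := isum_add_osum ∅ hf
  rw [isum_eq_sum, Finset.sum_empty, gsum_add (finS_mv hv) hA.fin, gsum_mv hv] at h3
  have h4 := hA.le
  have h5 := Real.log_nonneg (hA.one w)
  have h6 := logHeight_nonneg fun l => eval v (G l)
  have h7 := mul_le_mul_of_nonneg_left (ht_le_hc hv) (Nat.cast_nonneg (α := ℝ) a)
  have h8 := mul_nonneg hA.nonneg (hc_nonneg v)
  have h9 : (0 : ℝ) ≤ b := Nat.cast_nonneg b
  linarith

/-- The leading form dominates. -/
theorem smv_one (A : AV k ι) (g : MvPolynomial ι k) (e : ℕ) {w : AbsoluteValue k ℝ} (hw : Adm w)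
    {δ : ℝ} (hδ : 0 < δ) : ∃ C : ℝ, ∀ v : ι → k, v ≠ 0 → (∀ f ∈ A.I, eval v f = 0) →
      eval v (homogeneousComponent e g) ≠ 0 →
      (∀ μ ∈ g.support, μ.degree ≠ e → μ.degree * ell w v ≤ e * ell w v - |ell w v|) →
      2 * (δ * hc v) ≤ |ell w v| → C ≤ δ * hc v →
      0 < w (eval v g) ∧ e * ell w v - Real.log (w (eval v g)) ≤ 2 * (δ * hc v) := by
  obtain ⟨C, hC⟩ := A.prox_part (homogeneousComponent_isHomogeneous e g) hw hδ
  obtain ⟨p, hp⟩ : ∃ p, p = pl w (g - homogeneousComponent e g) := ⟨_, rfl⟩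
  have p0 : 0 ≤ p := hp ▸ polN_nonneg (absSN w) (fun _ => zero_le_one) _
  refine ⟨C + Real.log (2 * p + 2), fun v hv hz hR hd h1 h2 => ?_⟩
  have r0 := w.pos hR
  have T0 : 0 < nm w v ^ e := pow_pos (nm_pos w hv) e
  have h3 : Real.log (nm w v ^ e / w (eval v (homogeneousComponent e g))) ≤ δ * hc v + C :=
    (hC v hv hz hR).trans (by gcongr; exact ht_le_hc hv)
  rw [Real.log_le_iff_le_exp (div_pos T0 r0), div_le_iff₀ r0, Real.exp_add] at h3
  have h4 := Real.exp_le_exp.2 h2
  rw [Real.exp_add, Real.exp_log (by positivity)] at h4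
  have h5 : w (eval v (g - homogeneousComponent e g)) ≤
      p * Real.exp (e * ell w v - 2 * (δ * hc v)) := hp ▸ smv_eval_le w v (Real.exp_pos _).le
    fun μ hμ => by
      rw [mem_support_iff, coeff_sub, coeff_homogeneousComponent] at hμ
      have h6 : μ.degree ≠ e := fun h => hμ (by rw [if_pos h, sub_self])
      rw [if_neg h6, sub_zero] at hμ
      rw [smv_pow w hv]
      exact Real.exp_le_exp.2 ((hd μ (mem_support_iff.2 hμ) h6).trans (by linarith))
  rw [Real.exp_sub, ← smv_pow w hv, two_mul, Real.exp_add, ← mul_div_assoc,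
    le_div_iff₀ (by positivity)] at h5
  have h6 : w (eval v (homogeneousComponent e g)) ≤
      w (eval v g) + w (eval v (g - homogeneousComponent e g)) := by
    have := w.sub_le_add (eval v g) (eval v (g - homogeneousComponent e g))
    rwa [← map_sub, sub_sub_cancel] at this
  have E0 := Real.exp_pos (δ * hc v)
  have K0 := Real.exp_pos C
  have q0 := w.nonneg (eval v (g - homogeneousComponent e g))
  generalize w (eval v (g - homogeneousComponent e g)) = q at *
  generalize w (eval v (homogeneousComponent e g)) = r at *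
  have h7 : p * nm w v ^ e ≤ p * (Real.exp (δ * hc v) * Real.exp C * r) := by gcongr
  have h8 : Real.exp C * (2 * p + 2) * (Real.exp (δ * hc v) * r) ≤
      Real.exp (δ * hc v) * (Real.exp (δ * hc v) * r) := by gcongr
  have h9 : 0 < Real.exp (δ * hc v) * Real.exp C * r := by positivity
  have h10 : 2 * q ≤ r := le_of_mul_le_mul_right (a := Real.exp (δ * hc v) * Real.exp (δ * hc v))
    (by linarith) (by positivity)
  have g0 : 0 < w (eval v g) := by linarith
  refine ⟨g0, ?_⟩
  have h11 : Real.exp (δ * hc v) * Real.exp C * r ≤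
      Real.exp (δ * hc v) * Real.exp C * (2 * w (eval v g)) := by gcongr; linarith
  have h12 : Real.exp C * 2 * (Real.exp (δ * hc v) * w (eval v g)) ≤
      Real.exp (δ * hc v) * (Real.exp (δ * hc v) * w (eval v g)) := by
    gcongr
    exact le_trans (by gcongr; linarith) h4
  have h13 := Real.log_le_log T0 (show nm w v ^ e ≤
    Real.exp (δ * hc v) * (Real.exp (δ * hc v) * w (eval v g)) by linarith)
  rw [Real.log_mul E0.ne' (by positivity), Real.log_mul E0.ne' g0.ne', Real.log_exp,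
    Real.log_pow] at h13
  unfold ell
  linarith

/-- A place at which the norm is far from one contributes nothing. Along `V` the sign of `ell` is
constant and `hc ≤ C * |ell|`. If `ell ≥ 0`: `AV.prox_part` (`Av/Fin`) for
`R = homogeneousComponent b (G lb)` gives `nm ^ b * exp (- ε hc - C') ≤ w (R v)`, while
`w ((G lb - R) v) ≤ pl * nm ^ b / nm`; so `w (G lb v) ≥ nm ^ b * exp (- ε hc - C') / 2` for small
`ε` and large `hc`. If `ell < 0`: the same with `a`, `la` and `pl * nm ^ a * nm`. -/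
theorem side (A : AV k ι) (hG : ∀ l, Rng a b (G l)) {x : α → A.Pt k} {v : α → ι → k}
    (hv : ∀ n, Rep (x n) (v n)) (hH : Tendsto (fun n => hc (v n)) V atTop) {la lb : L}
    (ha : ∀ᶠ n in V, eval (v n) (homogeneousComponent a (G la)) ≠ 0)
    (hb : ∀ᶠ n in V, eval (v n) (homogeneousComponent b (G lb)) ≠ 0) {w : AbsoluteValue k ℝ}
    (hw : Adm w) (hB : Bo V (fun n => |ell w (v n)|) fun n => hc (v n)) :
    Lo V (fun n => hc (v n)) fun n => mv a b G (v n) w := by
  intro ε hε
  obtain ⟨C, hC⟩ := hB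
  obtain ⟨δ, hδ⟩ : ∃ δ, δ = min (ε / 2) (1 / (2 * max C 1)) := ⟨_, rfl⟩
  have C0 : 0 < max C 1 := by positivity
  have δ0 : 0 < δ := by rw [hδ]; positivity
  have δ1 : δ ≤ ε / 2 := hδ ▸ min_le_left _ _
  have δ2 : δ * (2 * max C 1) ≤ 1 := (le_div_iff₀ (by positivity)).1 (hδ ▸ min_le_right _ _)
  obtain ⟨Ca, hCa⟩ := smv_one A (G la) a hw δ0
  obtain ⟨Cb, hCb⟩ := smv_one A (G lb) b hw δ0
  filter_upwards [hC, ha, hb, (hH.const_mul_atTop δ0).eventually_ge_atTop Ca,
    (hH.const_mul_atTop δ0).eventually_ge_atTop Cb] with n h1 h2 h3 h4 h5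
  have v0 := rep_ne (hv n)
  have hz : ∀ f ∈ A.I, eval (v n) f = 0 := by simpa only [aeval_eq_eval] using (hv n).zero
  have l0 := abs_nonneg (ell w (v n))
  have h6 : 2 * (δ * hc (v n)) ≤ |ell w (v n)| := by
    have h7 : hc (v n) ≤ max C 1 * |ell w (v n)| :=
      h1.trans (mul_le_mul_of_nonneg_right (le_max_left _ _) l0)
    linarith [mul_le_mul_of_nonneg_left h7 δ0.le, mul_le_mul_of_nonneg_right δ2 l0]
  have h7 := mul_le_mul_of_nonneg_right δ1 (hc_nonneg (v n))
  unfold mv
  rcases le_total 0 (ell w (v n)) with h | h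
  · obtain ⟨g0, h8⟩ := hCb (v n) v0 hz h3 (fun μ hμ hd => by
      have h9 : (μ.degree : ℝ) + 1 ≤ b := by exact_mod_cast lt_of_le_of_ne (hG lb μ hμ).2 hd
      rw [abs_of_nonneg h]
      linarith [mul_le_mul_of_nonneg_right h9 h]) h6 h5
    have h9 := Real.log_le_log g0 (le_nm w (fun l => eval (v n) (G l)) lb)
    rw [max_eq_right h]
    linarith
  · obtain ⟨g0, h8⟩ := hCa (v n) v0 hz h2 (fun μ hμ hd => by
      have h9 : (a : ℝ) + 1 ≤ μ.degree := by
        exact_mod_cast lt_of_le_of_ne (hG la μ hμ).1 (Ne.symm hd)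
      rw [abs_of_nonpos h]
      linarith [mul_le_mul_of_nonpos_right h9 h]) h6 h4
    have h9 := Real.log_le_log g0 (le_nm w (fun l => eval (v n) (G l)) la)
    rw [max_eq_left h]
    linarith

/-- For each `c` write `aeval (pt X) u * X c ^ N = j + ∑ l, h c l * G l`, represent the `h c l`
(`exists_repr`, `Repr.aeval'`, `pt_gv`, `germ_eq`), bound their lengths (`exists_ad_repr`,
`ad_prod`, `ad_E`) and degrees `≤ M` (`Repr.supp'`); at `w` take `c` with `w (v n c) = nm w (v n)`
(`exists_nm`); `C = M + N`. -/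
theorem loc_gcd {H : α → ℝ} (hH : Tendsto H U atTop) {v : α → ι → k} (hv : ∀ n, v n ≠ 0) {N : ℕ}
    {u : MvPolynomial (Option ι) (Sm k hH)}
    (hu : ∀ c, aeval (pt (X : ι → MvPolynomial ι (Sm k hH))) u * X c ^ N ∈
      RingHom.ker (aeval (gv U v) : MvPolynomial ι (Sm k hH) →ₐ[Sm k hH] Up U k) ⊔
        Ideal.span (Set.range fun l => map (algebraMap k (Sm k hH)) (G l)))
    {un : α → MvPolynomial (Option ι) k} (hun : Repr U (map (algebraMap _ (Up U k)) u) un) :
    ∃ C : ℝ, 0 ≤ C ∧ ∀ ε : ℝ, 0 < ε → ∀ᶠ n in U, ∃ c, Ad c (ε * H n) ∧ ∀ w,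
      w (eval (pt (v n)) (un n)) ≤
        c w * Real.exp (C * |ell w (v n)|) * nm w fun l => eval (v n) (G l) := by
  classical
  have h1 : ∀ c, ∃ h : L → MvPolynomial ι (Sm k hH),
      aeval (gv U v) (aeval (pt (X : ι → MvPolynomial ι (Sm k hH))) u * X c ^ N) =
        aeval (gv U v) (∑ l, h l * map (algebraMap k (Sm k hH)) (G l)) := fun c => by
    obtain ⟨j, hj, s, hs, e⟩ := Submodule.mem_sup.1 (hu c)
    obtain ⟨h, rfl⟩ := Ideal.mem_span_range_iff_exists_fun.1 hs
    exact ⟨h, by rw [← e, map_add, (RingHom.mem_ker).1 hj, zero_add]⟩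
  choose h hh using h1
  choose hn hr using fun q : ι × L => exists_repr (U := U)
    (map (algebraMap (Sm k hH) (Up U k)) (h q.1 q.2))
  have h2 : ∀ᶠ n in U, ∀ c, eval (pt (v n)) (un n) * v n c ^ N =
      ∑ l, eval (v n) (hn (c, l) n) * eval (v n) (G l) := eventually_all.2 fun c => by
    have e1 : aeval (gv U v) (aeval (pt (X : ι → MvPolynomial ι (Sm k hH))) u) =
        germ U fun n => eval (pt (v n)) (un n) := by
      have e2 : (fun o => aeval (gv U v) (pt (X : ι → MvPolynomial ι (Sm k hH)) o)) =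
          gv U fun n => pt (v n) := by
        rw [← pt_gv]
        funext o
        cases o <;> simp
      rw [← AlgHom.comp_apply, comp_aeval, e2]
      exact hun.aeval' fun n => pt (v n)
    have e2 : ∀ l, aeval (gv U v) (h c l * map (algebraMap k (Sm k hH)) (G l)) =
        germ U fun n => eval (v n) (hn (c, l) n) * eval (v n) (G l) := fun l => by
      rw [map_mul, aeval_map_algebraMap]
      exact (congrArg₂ (· * ·) ((hr (c, l)).aeval' v) (aeval_germ (G l) v)).trans
        (map_mul (germ U) _ _).symm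
    have e3 := hh c
    rw [map_mul, e1, map_pow, aeval_X, map_sum, gv, ← map_pow, ← map_mul] at e3
    simp only [e2] at e3
    rw [← map_sum, germ_eq] at e3
    simpa only [Pi.mul_apply, Pi.pow_apply, Finset.sum_apply] using e3
  obtain ⟨M, hM⟩ : ∃ M : ℕ, ∀ q : ι × L, (h q.1 q.2).totalDegree ≤ M :=
    ⟨_, fun q => Finset.le_sup (f := fun q : ι × L => (h q.1 q.2).totalDegree) (Finset.mem_univ q)⟩
  refine ⟨M + N, by positivity, fun ε hε => ?_⟩
  have L1 : (1 : ℝ) ≤ (Fintype.card L : ℝ) + 1 := by simp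
  have hε' : 0 < ε / 2 / (Fintype.card (ι × L) + 1) := by positivity
  filter_upwards [h2, eventually_all.2 fun q => (hr q).supp',
    eventually_all.2 fun q => exists_ad_repr hH (hr q) hε', hH.eventually_ge_atTop 0,
    Lo.const hH (totalWeight k * Real.log ((Fintype.card L : ℝ) + 1)) _ (half_pos hε)]
    with n h3 h4 h5 h6 h7
  choose c hc hl using h5
  refine ⟨_, ((ad_E L1).mul (ad_prod Finset.univ fun q _ => hc q)).mono ?_, fun w => ?_⟩
  · rw [Finset.sum_const, Finset.card_univ, nsmul_eq_mul, ← mul_assoc]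
    have h8 : Fintype.card (ι × L) * (ε / 2 / (Fintype.card (ι × L) + 1)) ≤ ε / 2 := by
      rw [mul_div_assoc', div_le_iff₀ (by positivity)]
      linarith
    linarith [mul_le_mul_of_nonneg_right h8 h6]
  have : Nonempty ι := ⟨(Function.ne_iff.1 (hv n)).choose⟩
  obtain ⟨i, hi⟩ := exists_nm w (v n)
  have P0 : 0 ≤ ∏ q, c q w := Finset.prod_nonneg fun q _ => ((hc q).pos w).le
  have E0 := (Real.exp_pos (M * |ell w (v n)|)).le
  have N0 := nm_nn w fun l => eval (v n) (G l)
  have h8 : ∀ l, w (eval (v n) (hn (i, l) n)) ≤ (∏ q, c q w) * Real.exp (M * |ell w (v n)|) :=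
    fun l => (smv_eval_le w (v n) E0 fun μ hμ => by
      have h9 : (μ.degree : ℝ) ≤ M := by
        exact_mod_cast (le_totalDegree (h4 _ hμ)).trans (hM (i, l))
      rw [smv_pow w (hv n)]
      exact Real.exp_le_exp.2 ((mul_le_mul_of_nonneg_left (le_abs_self _) (Nat.cast_nonneg _)).trans
        (mul_le_mul_of_nonneg_right h9 (abs_nonneg _)))).trans (mul_le_mul_of_nonneg_right
          ((hl (i, l) w).trans (by
            rw [← Finset.mul_prod_erase _ _ (Finset.mem_univ (i, l))]
            exact le_mul_of_one_le_right ((hc _).pos w).le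
              (Finset.one_le_prod fun _ _ => (hc _).one w))) E0)
  have h9 : w (eval (pt (v n)) (un n) * v n i ^ N) ≤
      E (IsNonarchimedean w) ((Fintype.card L : ℝ) + 1) * ((∏ q, c q w) *
        Real.exp (M * |ell w (v n)|) * nm w fun l => eval (v n) (G l)) :=
    h3 i ▸ ((absSN w).sum_le_card Finset.univ (by positivity) fun l _ =>
      (absSN w).mul_le (h8 l) (le_nm w (fun l => eval (v n) (G l)) l)).trans
        (mul_le_mul_of_nonneg_right (E_mono (by simp)) (by positivity))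
  rw [map_mul, map_pow, hi, smv_pow w (hv n)] at h9
  have h10 : 1 ≤ Real.exp (N * ell w (v n)) * Real.exp (N * |ell w (v n)|) := by
    rw [← Real.exp_add, ← mul_add]
    exact Real.one_le_exp (mul_nonneg N.cast_nonneg (by linarith [neg_abs_le (ell w (v n))]))
  have h11 := mul_le_mul_of_nonneg_left h10 (w.nonneg (eval (pt (v n)) (un n)))
  have h12 := mul_le_mul_of_nonneg_right h9 (Real.exp_pos (N * |ell w (v n)|)).le
  rw [add_mul, Real.exp_add]
  linarith

end Pool.Agent.Lib.MP_651af7_nt.Cn
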