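import Pool.Agent.Lib.MP_651af7_nt.Cn.SDefs

/-! Systems of parameters for the ideal of a point. -/

namespace Pool.Agent.Lib.MP_651af7_nt.Cn

open MvPolynomial Height Filter
open Pool.Agent.Lib.MP_651af7_nt.Av Pool.Agent.Lib.MP_651af7_nt.Av.AV
open Pool.Agent.Lib.MP_651af7_nt.Vj Pool.Agent.Lib.MP_8865d3_nt.Sv

variable {K E κ : Type} [Field K] [CharZero K] [Field E] [Algebra K E] [Fintype κ] {x : κ → E}

/-- The common zeros of `J` and `S` have dimension at most `r - n`. -/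
def snoe_Cod (J : Ideal (MvPolynomial κ K)) (r : ℕ) (S : Set (MvPolynomial κ K)) (n : ℕ) : Prop :=
  ∀ (F : Type) [Field F] [Algebra K F] (w : κ → F), w ≠ 0 →
    (∀ f ∈ J, aeval w f = 0) → (∀ f ∈ S, aeval w f = 0) → td K (rat w) + (n : ℕ) ≤ r

omit [CharZero K] [Fintype κ] in
theorem snoe_prime {J : Ideal (MvPolynomial κ K)} {r n : ℕ} {S : Set (MvPolynomial κ K)}
    (h : snoe_Cod J r S n) {P : Ideal (MvPolynomial κ K)} (hP : J ⊔ Ideal.span S ≤ P) {a : κ}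
    (ha : X a ∉ P) {F : Type} [Field F] [Algebra K F] {y : κ → F}
    (hy : ∀ f : MvPolynomial κ K, aeval y f = 0 ↔ f ∈ P) : td K (rat y) + (n : ℕ) ≤ r :=
  h F y (fun h0 => ha ((hy _).1 (by rw [aeval_X, h0]; rfl)))
    (fun f hf => (hy f).2 (hP (Ideal.mem_sup_left hf)))
    fun f hf => (hy f).2 (hP (Ideal.mem_sup_right (Ideal.subset_span hf)))

/-- One more parameter. -/
theorem snoe_step {J : Ideal (MvPolynomial κ K)} {r n e : ℕ} {S : Set (MvPolynomial κ K)}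
    (h : snoe_Cod J r S n) {G : Finset (MvPolynomial κ K)} (hG : ∀ f ∈ G, f.IsHomogeneous e)
    (h' : snoe_Cod J r G (n + 1)) (hJ : ∃ f ∈ G, f ∉ J) : ∃ γ : MvPolynomial κ K → ℚ,
      snoe_Cod J r (insert (∑ f ∈ G, C ((γ f : ℚ) : K) * f) S) (n + 1) ∧
        ∑ f ∈ G, C ((γ f : ℚ) : K) * f ∉ J := by
  classical
  have : Finite {P // P ∈ insert J (J ⊔ Ideal.span S).minimalPrimes ∧ ∃ f ∈ G, f ∉ P} :=
    ((((J ⊔ Ideal.span S).finite_minimalPrimes_of_isNoetherianRing _).insert _).subset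
      fun P hP => hP.1).to_subtype
  obtain ⟨γ, hγ⟩ := Submodule.exists_forall_notMem_of_forall_ne_top
    (K := ℚ) (M := MvPolynomial κ K → ℚ)
    (fun P : {P // P ∈ insert J (J ⊔ Ideal.span S).minimalPrimes ∧ ∃ f ∈ G, f ∉ P} =>
      { carrier := {γ | ∑ f ∈ G, C ((γ f : ℚ) : K) * f ∈ P.1}
        add_mem' := fun {x y} hx hy => by
          have := P.1.add_mem hx hy
          simpa [Finset.sum_add_distrib, add_mul] using this
        zero_mem' := by simp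
        smul_mem' := fun c x hx => by
          have := P.1.mul_mem_left (C (c : K)) hx
          simpa [Finset.mul_sum, mul_assoc] using this })
    (fun P hP => by
      obtain ⟨f, hf, hfP⟩ := P.2.2
      have h1 : (Pi.single f 1 : MvPolynomial κ K → ℚ) ∈
        (⊤ : Submodule ℚ (MvPolynomial κ K → ℚ)) := trivial
      rw [← hP] at h1
      change ∑ f' ∈ G, C (((Pi.single f 1 : MvPolynomial κ K → ℚ) f' : ℚ) : K) * f' ∈ P.1 at h1
      rw [Finset.sum_eq_single_of_mem f hf fun b _ hb => by simp [Pi.single_eq_of_ne hb]] at h1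
      exact hfP (by simpa using h1))
  refine ⟨γ, fun F _ _ w hw hI hS => ?_, hγ ⟨_, Set.mem_insert _ _, hJ⟩⟩
  have : (RingHom.ker (aeval w : MvPolynomial κ K →ₐ[K] F)).IsPrime := RingHom.ker_isPrime _
  obtain ⟨P, hP, hle⟩ := Ideal.exists_minimalPrimes_le
    (I := J ⊔ Ideal.span S) (J := RingHom.ker (aeval w : MvPolynomial κ K →ₐ[K] F))
    (sup_le hI (Ideal.span_le.2 fun f hf => hS f (Set.mem_insert_of_mem _ hf)))
  by_cases hc : ∃ f ∈ G, f ∉ P
  · have := hP.1.1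
    obtain ⟨F', _, _, y, hy, -⟩ := tr_point P
    obtain ⟨a, ha⟩ := Function.ne_iff.mp hw
    have h1 := snoe_prime h hP.1.2 (a := a) (fun hX => ha (by simpa using hle hX)) hy
    obtain ⟨-, h2⟩ := td_rat_le_of_spec (K := K) (x := y) hw fun f _ _ hf => hle ((hy f).1 hf)
    have h3 : td K (rat w) < td K (rat y) := lt_of_not_ge fun h4 =>
      hγ ⟨P, Set.mem_insert_of_mem _ hP, hc⟩ ((hy _).1 (h2 h4 _ e
        (IsHomogeneous.sum _ _ _ fun f hf => (hG f hf).C_mul _) (hS _ (Set.mem_insert _ _))))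
    refine le_trans ?_ h1
    push_cast
    rw [add_comm (n : ℕ∞) 1, ← add_assoc]
    exact add_le_add_left (Order.add_one_le_of_lt h3) _
  · exact h' F w hw hI fun f hf => hle (by_contra fun hn => hc ⟨f, hf, hn⟩)

/-- Copy of `AV.Cod`, `Cod.step`, `AV.exists_nn_perm` (`Av/Noe`, `π = 1`) with `hid K x` in place
of `B.IK K` and `r` in place of `B.dim`; `td_rat_le_of_spec` replaces `td_le_dim`, the point `x`
itself replaces `exists_gen`; `tr_point`, `nn_of_radical`, `hid_hom`, `hid_zero`, `mem_hid`. -/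
theorem exists_nn' {r : ℕ} (hx : x ≠ 0) (hr : td K (rat x) = r) {e : ℕ} (he : 1 ≤ e)
    (𝒢 : Fin (r + 1) → Finset (MvPolynomial κ K)) (h𝒢 : ∀ i, ∀ f ∈ 𝒢 i, f.IsHomogeneous e)
    (hd : ∀ (i : Fin (r + 1)) (F : Type) [Field F] [Algebra K F] (w : κ → F), w ≠ 0 →
      (∀ f ∈ hid K x, aeval w f = 0) → (∀ f ∈ 𝒢 i, aeval w f = 0) →
      td K (rat w) + ((i : ℕ) + 1 : ℕ) ≤ r) :
    ∃ (γ : Fin (r + 1) → MvPolynomial κ K → ℚ) (ρ : ℕ)
      (c : κ → Fin ρ → MvPolynomial (Fin (r + 1)) K),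
      NN (hid K x) e ρ (fun i => ∑ f ∈ 𝒢 i, C ((γ i f : ℚ) : K) * f) c ∧
        ∀ i, ∑ f ∈ 𝒢 i, C ((γ i f : ℚ) : K) * f ∉ hid K x := by
  classical
  have hJ : ∀ i, ∃ f ∈ 𝒢 i, f ∉ hid K x := fun i => by
    by_contra! hc
    have h1 := hd i E x hx hid_zero fun f hf => hid_zero f (hc f hf)
    rw [hr] at h1
    have h2 : r + ((i : ℕ) + 1) ≤ r := by exact_mod_cast h1
    omega
  have key : ∀ n, n ≤ r + 1 → ∃ γ : Fin (r + 1) → MvPolynomial κ K → ℚ,
      snoe_Cod (hid K x) r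
        ((fun i => ∑ f ∈ 𝒢 i, C ((γ i f : ℚ) : K) * f) '' {i | (i : ℕ) < n}) n ∧
        ∀ i : Fin (r + 1), (i : ℕ) < n → ∑ f ∈ 𝒢 i, C ((γ i f : ℚ) : K) * f ∉ hid K x := by
    intro n
    induction n with
    | zero =>
      refine fun _ => ⟨0, fun F _ _ w hw hI _ => ?_, by simp⟩
      rw [Nat.cast_zero, add_zero, ← hr]
      exact (td_rat_le_of_spec hw fun f _ hf h0 => hI f ((mem_hid hf).2 h0)).1
    | succ n ih =>
      intro hn
      obtain ⟨γ, hγ, hγ'⟩ := ih (by omega)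
      obtain ⟨j, hj⟩ : ∃ j : Fin (r + 1), (j : ℕ) = n := ⟨⟨n, hn⟩, rfl⟩
      obtain ⟨γ₀, h0, h0'⟩ := snoe_step hγ (h𝒢 j)
        (fun F _ _ w hw hI hS => hj ▸ hd j F w hw hI hS) (hJ j)
      refine ⟨Function.update γ j γ₀, fun F _ _ w hw hI hS => h0 F w hw hI ?_, fun i hi => ?_⟩
      · rintro f (rfl | ⟨i, hi, rfl⟩)
        · exact hS _ ⟨j, by simp [hj], by simp⟩
        · have hi' : (i : ℕ) < n := hi
          have hne : i ≠ j := fun h => by subst h; omega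
          exact hS _ ⟨i, Nat.lt_succ_of_lt hi', by simp [Function.update_of_ne hne]⟩
      · rcases eq_or_ne i j with rfl | hne
        · rwa [Function.update_self]
        · rw [Function.update_of_ne hne]
          have : (i : ℕ) ≠ j := fun h => hne (Fin.ext h)
          exact hγ' i (by omega)
  obtain ⟨γ, hγ, hγ'⟩ := key _ le_rfl
  suffices h : ∃ ρ c, NN (hid K x) e ρ (fun i => ∑ f ∈ 𝒢 i, C ((γ i f : ℚ) : K) * f) c from
    ⟨γ, h.choose, h.choose_spec.choose, h.choose_spec.choose_spec, fun i => hγ' i i.2⟩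
  refine nn_of_radical hid_hom he
    (fun i => IsHomogeneous.sum _ _ _ fun f hf => (h𝒢 i f hf).C_mul _) fun a => ?_
  rw [Ideal.radical_eq_sInf, Submodule.mem_sInf]
  rintro P ⟨hP, _⟩
  obtain ⟨F, _, _, y, hy, -⟩ := tr_point P
  by_contra ha
  have h1 := snoe_prime hγ
    ((sup_le_sup_left (Ideal.span_mono (Set.image_subset_range _ _)) _).trans hP) ha hy
  have h2 : ((r + 1 : ℕ) : ℕ∞) ≤ r := le_add_self.trans h1
  have h3 := ENat.natCast_le_natCast.mp h2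
  omega

/-- The marked parameters come from `𝒢`, the others from the powers of the variables. -/
theorem exists_par {r : ℕ} (hx : x ≠ 0) (hr : td K (rat x) = r) {e : ℕ} (he : 1 ≤ e)
    (mk : Finset (Fin (r + 1))) {𝒢 : Finset (MvPolynomial κ K)} (h𝒢 : ∀ f ∈ 𝒢, f.IsHomogeneous e)
    (hd : ∀ (F : Type) [Field F] [Algebra K F] (w : κ → F), w ≠ 0 →
      (∀ f ∈ hid K x, aeval w f = 0) → (∀ f ∈ 𝒢, aeval w f = 0) →
      ∀ i ∈ mk, td K (rat w) + ((i : ℕ) + 1 : ℕ) ≤ r) :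
    ∃ (u : Fin (r + 1) → MvPolynomial κ K) (ρ : ℕ) (c : κ → Fin ρ → MvPolynomial (Fin (r + 1)) K),
      NN (hid K x) e ρ u c ∧ ∀ i ∈ mk, aeval x (u i) ≠ 0 ∧
        ∃ γ : MvPolynomial κ K → ℚ, u i = ∑ f ∈ 𝒢, C ((γ f : ℚ) : K) * f := by
  classical
  obtain ⟨γ, ρ, c, h1, h2⟩ := exists_nn' hx hr he
    (fun i => if i ∈ mk then 𝒢 else Finset.univ.image fun a => X a ^ e)
    (fun i f hf => by
      split_ifs at hf
      · exact h𝒢 f hf
      · obtain ⟨a, -, rfl⟩ := Finset.mem_image.1 hf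
        exact isHomogeneous_X_pow a e)
    fun i F _ _ w h0 h3 h4 => by
      split_ifs at h4 with hi
      · exact hd F w h0 h3 h4 i hi
      · exact absurd (eq_zero_of_pow h4) h0
  exact ⟨_, ρ, c, h1, fun i hi => ⟨fun e => h2 i ((mem_hid (h1.hu i)).2 e), γ i, by rw [if_pos hi]⟩⟩

end Pool.Agent.Lib.MP_651af7_nt.Cn
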