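import Pool.Agent.Lib.MP_651af7_nt.Cn.SDefs

/-! Forms on the projective cone that vanish on a subscheme. -/

namespace Pool.Agent.Lib.MP_651af7_nt.Cn

open MvPolynomial Height Filter
open Pool.Agent.Lib.MP_651af7_nt.Av Pool.Agent.Lib.MP_651af7_nt.Av.AV
open Pool.Agent.Lib.MP_651af7_nt.Vj Pool.Agent.Lib.MP_8865d3_nt.Sv

variable {K E ι : Type} [Field K] [Field E] [Algebra K E]

/-- Setting the first variable equal to one. -/
theorem aeval_dh {R : Type} [CommRing R] [Algebra K R] (v : ι → R)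
    (f : MvPolynomial (Option ι) K) :
    aeval v (aeval (pt (X : ι → MvPolynomial ι K)) f) = aeval (pt v) f := by
  have h : (aeval v : MvPolynomial ι K →ₐ[K] R).comp (aeval (pt (X : ι → MvPolynomial ι K))) =
      aeval (pt v) := by
    ext a
    cases a <;> simp
  exact DFunLike.congr_fun h f

/-- `f = ∑ d ≤ b, X none ^ (b + 1 - d) * rename some (homogeneousComponent d R)`. -/
theorem exists_hmg {b : ℕ} {R : MvPolynomial ι K} (hR : ∀ μ ∈ R.support, μ.degree ≤ b) :
    ∃ f : MvPolynomial (Option ι) K, f.IsHomogeneous (b + 1) ∧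
      aeval (pt (X : ι → MvPolynomial ι K)) f = R := by
  refine ⟨∑ d ∈ Finset.range (b + 1), X none ^ (b + 1 - d) * rename some (homogeneousComponent d R),
    IsHomogeneous.sum _ _ _ fun d hd => ?_, ?_⟩
  · have h := (isHomogeneous_X_pow (R := K) (none : Option ι) (b + 1 - d)).mul
      ((homogeneousComponent_isHomogeneous d R).rename_isHomogeneous (f := some))
    rwa [Nat.sub_add_cancel (Finset.mem_range.1 hd).le] at h
  · have h : (pt (X : ι → MvPolynomial ι K)) ∘ some = X := rfl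
    simp only [map_sum, map_mul, map_pow, aeval_X, pt_none, one_pow, one_mul, aeval_rename, h,
      aeval_X_left_apply]
    have hb : R.totalDegree ≤ b := Finset.sup_le fun μ hμ => hR μ hμ
    refine Eq.trans ?_ (sum_homogeneousComponent R)
    exact (Finset.sum_subset (Finset.range_mono (Nat.succ_le_succ hb)) fun d _ hd =>
      homogeneousComponent_eq_zero _ _ (by simpa using hd)).symm

/-- Copy of `Sa.exists_forms` (`MP_8865d3_nt/Sa/Sat`, 30 lines; do not import `Sa`). -/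
theorem exists_forms {σ : Type} [Fintype σ] {T : Type} [Finite T]
    (V : T → Ideal (MvPolynomial σ K)) :
    ∃ (e : ℕ) (𝒢 : Finset (MvPolynomial σ K)), 1 ≤ e ∧
      (∀ f ∈ 𝒢, f.IsHomogeneous e ∧ ∀ t, f ∈ V t) ∧ ∀ (F : Type) [Field F] [Algebra K F]
        (x : σ → F), x ≠ 0 → (∀ f ∈ 𝒢, aeval x f = 0) →
        ∃ t, ∀ f n, f.IsHomogeneous n → f ∈ V t → aeval x f = 0 := by
  classical
  have := Fintype.ofFinite T
  obtain ⟨S, hS, e⟩ := (Submodule.fg_span_iff_fg_span_finset_subset _).1 (IsNoetherian.noetherian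
    (Submodule.span (MvPolynomial σ K) {f | (∃ n, f.IsHomogeneous n) ∧ ∀ t, f ∈ V t}))
  choose n hn using fun f : S => (hS f.2).1
  refine ⟨∑ f, n f + 1, Finset.univ.image fun q : S × σ => X q.2 ^ (∑ f, n f + 1 - n q.1) * q.1.1,
    Nat.le_add_left _ _, fun f hf => ?_, fun F _ _ x hx h => ?_⟩
  · obtain ⟨q, -, rfl⟩ := Finset.mem_image.1 hf
    have h1 := (isHomogeneous_X_pow (R := K) q.2 (∑ f, n f + 1 - n q.1)).mul (hn q.1)
    rw [Nat.sub_add_cancel ((Finset.single_le_sum (fun _ _ => Nat.zero_le _)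
      (Finset.mem_univ q.1)).trans (Nat.le_succ _))] at h1
    exact ⟨h1, fun t => Ideal.mul_mem_left _ _ ((hS q.1.2).2 t)⟩
  · obtain ⟨a, ha⟩ := Function.ne_iff.1 hx
    have h1 : Submodule.span (MvPolynomial σ K) (S : Set _) ≤ RingHom.ker (aeval x) :=
      Submodule.span_le.2 fun f hf => by
        have h2 := h _ (Finset.mem_image_of_mem _ (Finset.mem_univ (⟨f, hf⟩, a)))
        rw [map_mul, map_pow, aeval_X] at h2
        exact (mul_eq_zero.1 h2).resolve_left (pow_ne_zero _ ha)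
    by_contra! h2
    choose g m hg hV h0 using h2
    have h3 : aeval x (∏ t, g t) = 0 := h1 (e ▸ Submodule.subset_span ⟨⟨_, IsHomogeneous.prod _ _ m
      fun t _ => hg t⟩, fun t => Ideal.mem_of_dvd _ (Finset.dvd_prod_of_mem g (Finset.mem_univ t))
        (hV t)⟩)
    rw [map_prod] at h3
    exact Finset.prod_ne_zero_iff.2 (fun t _ => h0 t) h3

/-- `T` = the minimal primes of `𝔟 = ker ⊔ span G` that do not contain all variables, `w t` their
generic points (`tr_point`), `V t = hid K (pt (w t))` in `exists_forms`; for `f` in the family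
`aeval (pt X) f * X c` lies in every minimal prime, so in the radical; take `N`-th powers
(`N ≥ 1` common). Common zeros: `td_rat_le_of_spec`, `mem_hid`, `td_pt`. -/
theorem exists_fam [Fintype ι] (v : ι → E) {L : Type} (G : L → MvPolynomial ι K) {r : ℕ∞}
    (hd : ∀ (F : Type) [Field F] [Algebra K F] (w : ι → F), w ≠ 0 →
      (∀ f : MvPolynomial ι K, aeval v f = 0 → aeval w f = 0) → (∀ l, aeval w (G l) = 0) →
      td K (Set.range w) + 2 ≤ r) :
    ∃ (e N : ℕ) (𝒢 : Finset (MvPolynomial (Option ι) K)), 1 ≤ e ∧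
      (∀ f ∈ 𝒢, f.IsHomogeneous e ∧ ∀ c, aeval (pt (X : ι → MvPolynomial ι K)) f * X c ^ N ∈
        RingHom.ker (aeval v : MvPolynomial ι K →ₐ[K] E) ⊔ Ideal.span (Set.range G)) ∧
      ∀ (F : Type) [Field F] [Algebra K F] (w : Option ι → F), w ≠ 0 →
        (∀ f ∈ 𝒢, aeval w f = 0) → td K (rat w) + 2 ≤ r := by
  classical
  let 𝔟 : Ideal (MvPolynomial ι K) :=
    RingHom.ker (aeval v : MvPolynomial ι K →ₐ[K] E) ⊔ Ideal.span (Set.range G)
  let T : Set (Ideal (MvPolynomial ι K)) := {P | P ∈ 𝔟.minimalPrimes ∧ ∃ a, X a ∉ P}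
  have : Finite T := (𝔟.finite_minimalPrimes_of_isNoetherianRing _).subset fun _ h => h.1
  obtain ⟨e, 𝒢, he, h1, h2⟩ := exists_forms fun t : T =>
    t.1.comap (aeval (pt (X : ι → MvPolynomial ι K)) : MvPolynomial (Option ι) K →ₐ[K] _)
  obtain ⟨N, hN⟩ := 𝔟.exists_radical_pow_le_of_fg (IsNoetherian.noetherian _)
  refine ⟨e * (N + 1), N + 1, 𝒢.image (· ^ (N + 1)), Nat.mul_pos he N.succ_pos, fun f hf => ?_,
    fun F _ _ x hx h => ?_⟩
  · obtain ⟨g, hg, rfl⟩ := Finset.mem_image.1 hf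
    refine ⟨(h1 g hg).1.pow _, fun c => ?_⟩
    rw [map_pow, ← mul_pow, pow_succ]
    refine Ideal.mul_mem_right _ _ (hN (Ideal.pow_mem_pow ?_ N))
    rw [← Ideal.sInf_minimalPrimes, Ideal.mem_sInf]
    intro P hP
    by_cases hc : X c ∈ P
    · exact Ideal.mul_mem_left _ _ hc
    · exact Ideal.mul_mem_right _ _ ((h1 g hg).2 ⟨P, hP, c, hc⟩)
  · obtain ⟨⟨P, hP, a, ha⟩, ht⟩ := h2 F x hx fun g hg => (pow_eq_zero_iff N.succ_ne_zero).1
      ((map_pow _ _ _).symm.trans (h _ (Finset.mem_image_of_mem _ hg)))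
    have := hP.1.1
    obtain ⟨M, _, _, w, hw, -⟩ := tr_point P
    have h3 : td K (rat x) ≤ td K (rat (pt w)) := (td_rat_le_of_spec hx fun f n hf e =>
      ht f n hf ((hw _).1 ((aeval_dh w f).trans e))).1
    rw [td_pt] at h3
    exact (add_le_add h3 le_rfl).trans (hd M w
      (Function.ne_iff.2 ⟨a, fun e => ha ((hw _).1 ((aeval_X _ _).trans e))⟩)
      (fun f hf => (hw f).2 (hP.1.2 (Ideal.mem_sup_left hf)))
      fun l => (hw _).2 (hP.1.2 (Ideal.mem_sup_right (Ideal.subset_span ⟨l, rfl⟩))))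

end Pool.Agent.Lib.MP_651af7_nt.Cn
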