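import Pool.Agent.Lib.MP_651af7_nt.Cn.SCore
import Pool.Agent.Lib.MP_651af7_nt.Cn.SGen
import Pool.Agent.Lib.MP_651af7_nt.Cn.SNoe
import Pool.Agent.Lib.MP_651af7_nt.Cn.SPar
import Pool.Agent.Lib.MP_651af7_nt.Cn.SMv

/-! The two inequalities along an ultrafilter. -/

namespace Pool.Agent.Lib.MP_651af7_nt.Cn

open MvPolynomial Height Filter
open Pool.Agent.Lib.MP_651af7_nt.Av Pool.Agent.Lib.MP_651af7_nt.Av.AV
open Pool.Agent.Lib.MP_651af7_nt.Vj Pool.Agent.Lib.MP_8865d3_nt.Sv

variable {α : Type} {U : Ultrafilter α} {k ι : Type} [Field k] [NumberField k] [Fintype ι]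
  {a b : ℕ}

omit [NumberField k] [Fintype ι] in
theorem mv_le_abs {L : Type} (G : L → MvPolynomial ι k) (v : ι → k) (w : AbsoluteValue k ℝ) :
    mv a b G v w + Real.log (nm w fun l => eval v (G l)) ≤ (a + b) * |ell w v| := by
  have h1 := mul_le_mul_of_nonneg_left (le_abs_self (ell w v)) (a.cast_nonneg (α := ℝ))
  have h2 := mul_le_mul_of_nonneg_left (max_le (abs_nonneg _) (le_abs_self (ell w v)))
    (b.cast_nonneg (α := ℝ))
  have h3 := mul_nonneg (a.cast_nonneg (α := ℝ)) (le_max_left 0 (ell w v))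
  rw [mv]
  linarith

theorem gain_le {L I : Type} [Fintype L] [Fintype I] {G : L → MvPolynomial ι k} {z : I → k}
    (hz : z ≠ 0) {v : ι → k} (hv : v ≠ 0) {c : I → AbsoluteValue k ℝ → ℝ} {h : ℝ}
    (hc' : ∀ i, Ad (c i) h) {C : I → ℝ} (hC : ∀ i, 0 ≤ C i) (hl : ∀ i w, w (z i) ≤
      c i w * Real.exp (C i * |ell w v|) * nm w fun l => eval v (G l))
    (T : Finset (AbsoluteValue k ℝ)) (e : ℕ) : osum T (mv a b G v) ≤
      osum T (fun w => e * ell w (pt v) - Real.log (nm w z)) + (a + b + ∑ i, C i) * cnt T v +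
        Fintype.card I * h := by
  have : Nonempty I := (Function.ne_iff.1 hz).nonempty
  have f1 := finS_sub ((finS_ell (pt v)).const_mul e) (finS_nm z)
  have f2 := (finS_abs (finS_ell v)).const_mul (a + b + ∑ i, C i)
  have f3 := finS_sum Finset.univ fun i _ => (hc' i).fin
  refine (osum_mono T (finS_mv hv) ((f1.add f2).add f3) fun w _ _ => ?_).trans ?_
  · obtain ⟨i, hi⟩ := exists_nm w z
    have h1 := hi ▸ hl i w
    have h2 := nm_pos w hz
    have h3 := mul_pos ((hc' i).pos w) (Real.exp_pos (C i * |ell w v|))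
    have h4 := Real.log_le_log h2 h1
    rw [Real.log_mul h3.ne' ((mul_pos_iff_of_pos_left h3).1 (h2.trans_le h1)).ne',
      Real.log_mul ((hc' i).pos w).ne' (Real.exp_pos _).ne', Real.log_exp] at h4
    have h5 := Finset.single_le_sum (fun j _ => Real.log_nonneg ((hc' j).one w)) (Finset.mem_univ i)
    have h6 := mul_le_mul_of_nonneg_right (Finset.single_le_sum (fun j _ => hC j)
      (Finset.mem_univ i)) (abs_nonneg (ell w v))
    have h7 : 0 ≤ e * ell w (pt v) :=
      mul_nonneg e.cast_nonneg (((le_max_left _ _).trans_eq (log_nm_pt w hv).symm :))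
    linarith [mv_le_abs (a := a) (b := b) G v w]
  · rw [osum_add T (f1.add f2) f3, osum_add T f1 f2, osum_const_mul T (finS_abs (finS_ell v)),
      osum_sum T _ fun i _ => (hc' i).fin]
    exact add_le_add le_rfl ((Finset.sum_le_card_nsmul _ _ h fun i _ =>
      ad_osum_le (hc' i) T).trans_eq (nsmul_eq_mul _ _))

variable (A : AV k ι) {x : α → A.Pt k} {v : α → ι → k} (hv : ∀ n, Rep (x n) (v n))

include hv

/-- No large common divisor outside a set of places outside which the point is primitive. -/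
theorem seq_out {L : Type} [Fintype L] {G : L → MvPolynomial ι k}
    (hc' : 2 ≤ ((Ideal.span (Set.range G)).map (Ideal.Quotient.mk A.I)).height)
    (hgen : ∀ (f : MvPolynomial ι k) (d : ℕ), f.IsHomogeneous d → f ∉ A.I →
      ∀ᶠ n in U, eval (v n) f ≠ 0) {T : α → Finset (AbsoluteValue k ℝ)}
    (hT : Fib U T (fun n => hc (v n)) fun n => cnt (T n) (v n)) {η : ℝ} (hη : 0 < η)
    (hbad : ∀ S ∈ U, ∃ (V : Ultrafilter α) (t : Finset (AbsoluteValue k ℝ)), S ∈ V ∧
      Tendsto (fun n => hc (v n)) V atTop ∧ Lo V (fun n => hc (v n)) (fun n => cnt t (v n)) ∧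
      ∀ᶠ n in V, η * hc (v n) ≤ osum t (mv a b G (v n))) : False := by
  classical
  have hH := hT.tendsto
  have v0 := fun n => rep_ne (hv n)
  obtain ⟨B, h, y, s, X, Y, aK, a', hC⟩ :=
    exists_cos A hH x fun n => (ht_eq (hv n)).trans_le (ht_le_hc (v0 n))
  obtain ⟨g, hB, hg⟩ := hC.exists_dim hv hT
  have : CharZero (Sm k hH) := charZero_of_injective_algebraMap (algebraMap k _).injective
  have hX := hC.rep_gv hv
  have hXg : Gen A.I X.co := fun f d hf h0 => by_contra fun h1 =>
    germ_ne_zero.2 (hgen f d hf h1) ((aeval_germ f v).symm.trans (geo_rep (rep_co X) hX hf h0))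
  obtain ⟨e, N, 𝒢, he, h1, h2⟩ := exists_fam (gv U v)
    (fun l => map (algebraMap k (Sm k hH)) (G l)) (r := (g + 1 : ℕ)) fun F _ _ w h0 hs hw => by
      let _ : Algebra k F := ((algebraMap (Sm k hH) F).comp (algebraMap k _)).toAlgebra
      have : IsScalarTower k (Sm k hH) F := .of_algebraMap_eq fun _ => rfl
      obtain ⟨p, hp, hp'⟩ := cos_spec h hX ⟨Y, hC.sub⟩ h0 hs
      refine (codim h (relCl_sm hH).2 hXg ⟨Y, hC.sub⟩ hc' hp hp' fun l => by
        simpa only [aeval_map_algebraMap] using hw l).trans ?_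
      exact_mod_cast Nat.succ_le_succ hB
  obtain ⟨u, ρ, c, hnn, hu⟩ := exists_par (pt_ne (gv U v)) ((td_pt _).trans hg) he {0, 1}
    (fun f hf => (h1 f hf).1) fun F _ _ w h0 _ hw i hi => by
      refine le_trans (add_le_add le_rfl ?_) (h2 F w h0 hw)
      rcases Finset.mem_insert.1 hi with rfl | hi
      · simp
      · rw [Finset.mem_singleton.1 hi]
        rfl
  choose un hun using fun i => exists_repr (U := U) (map (algebraMap _ (Up U k)) (u i))
  choose C hC0 hCC using fun i : ({0, 1} : Finset (Fin (g + 1 + 1))) =>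
    loc_gcd (G := G) hH v0 (N := N) (fun c => by
      obtain ⟨γ, hγ⟩ := (hu i i.2).2
      rw [hγ, map_sum, Finset.sum_mul]
      refine Ideal.sum_mem _ fun f hf => ?_
      rw [map_mul, mul_assoc]
      exact Ideal.mul_mem_left _ _ ((h1 f hf).2 c)) (hun i)
  have hη' : 0 < η / 4 := by positivity
  have h0 := (hu 0 (Finset.mem_insert_self _ _)).1
  rw [pt_gv] at h0
  refine hC.core hv hB hg he hnn (un := fun n i => un i n) hun Unit {0, 1} (by simp) hη'
    fun S hS => ?_
  obtain ⟨V, t, hV, hHV, h3, h4⟩ := hbad _ ((Filter.Eventually.and hS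
    (germ_ne_zero.1 fun e => h0 (((hun 0).aeval' _).trans e))).and
      ((eventually_all.2 fun i => repr_hom (hnn.hu i) (hun i)).and
        (eventually_all.2 fun i => hCC i _ hη')))
  have h6 := lo_mul_nonneg hHV h3 (c := a + b + ∑ i, C i)
    (add_nonneg (by positivity) (Finset.sum_nonneg fun i _ => hC0 i))
  obtain ⟨μ, hμ⟩ := Filter.Eventually.choice (l := V) (r := fun n μ => Prob t μ ∧
      BadM μ {0, 1} e (η / 4 * hc (v n)) (fun i => un i n) (pt (v n))) (by
    filter_upwards [hV, h4, h6 _ hη', hHV.eventually_gt_atTop 0] with n h7 h8 h9 h10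
    obtain ⟨⟨-, g2⟩, g3, g4⟩ := h7
    choose c g4 g5 using g4
    have g6 : (fun l : ({0, 1} : Finset (Fin (g + 1 + 1))) => eval (pt (v n)) (un l n)) ≠ 0 :=
      fun e => g2 (congrFun e ⟨0, Finset.mem_insert_self _ _⟩)
    have g7 := gain_le (a := a) (b := b) g6 (v0 n) g4 hC0 g5 t e
    rw [Fintype.card_coe, Finset.card_pair zero_ne_one, Nat.cast_ofNat] at g7
    exact exists_prob t _ g3 (pt_ne _) g6 (by positivity) (by linarith))
  exact ⟨V, t, μ, Filter.Eventually.mono hV fun _ h => h.1.1, hHV, h3, .inl fun _ _ => rfl, hμ⟩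

theorem seq_gcd {L : Type} [Fintype L] {G : L → MvPolynomial ι k} (hG : ∀ l, Rng a b (G l))
    (ha : ∃ l, homogeneousComponent a (G l) ∉ A.I) (hb : ∃ l, homogeneousComponent b (G l) ∉ A.I)
    (hc' : 2 ≤ ((Ideal.span (Set.range G)).map (Ideal.Quotient.mk A.I)).height)
    (hgen : ∀ (f : MvPolynomial ι k) (d : ℕ), f.IsHomogeneous d → f ∉ A.I →
      ∀ᶠ n in U, eval (v n) f ≠ 0) {T : α → Finset (AbsoluteValue k ℝ)}
    (hT : Fib U T (fun n => hc (v n)) fun n => cnt (T n) (v n)) :
    Lo U (fun n => hc (v n)) fun n => gsum (mv a b G (v n)) := by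
  intro η hη
  by_contra hcon
  obtain ⟨la, hla⟩ := ha
  obtain ⟨lb, hlb⟩ := hb
  refine seq_out (a := a) (b := b) A hv hc' hgen hT (half_pos hη) fun S hS => ?_
  obtain ⟨V, t, hV, ht, hHV, hlo⟩ := hT _ ((Filter.Eventually.and hS
    (Ultrafilter.eventually_not.2 hcon)).and
      ((hgen _ _ (homogeneousComponent_isHomogeneous _ _) hla).and
        (hgen _ _ (homogeneousComponent_isHomogeneous _ _) hlb)))
  obtain ⟨T', -, h3, h4⟩ := exists_split hHV t v (hlo.mono (ht.mono fun n hn => by rw [hn]))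
  have h5 := lo_isum T' hHV fun w hw hw' => side A hG hv hHV
    (Filter.Eventually.mono hV fun _ h => h.2.1) (Filter.Eventually.mono hV fun _ h => h.2.2)
    hw' (h4 w hw)
  refine ⟨V, T', Filter.Eventually.mono hV fun _ h => h.1.1, hHV, h3, ?_⟩
  filter_upwards [hV, h5 _ (half_pos hη)] with n h6 h7
  linarith [not_le.1 h6.1.2, isum_add_osum T' (finS_mv (a := a) (b := b) (G := G) (rep_ne (hv n)))]

/-- No fast approximation at a place at which the norm is close to one. -/
theorem seq_near {R : MvPolynomial ι k} (hH : Tendsto (fun n => hc (v n)) U atTop)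
    (h0 : ∀ᶠ n in U, eval (v n) R ≠ 0) {T : Finset (AbsoluteValue k ℝ)}
    (hT : Lo U (fun n => hc (v n)) fun n => cnt T (v n)) {w : AbsoluteValue k ℝ} (hw : Adm w)
    (hl : Lo U (fun n => hc (v n)) fun n => |ell w (v n)|) :
    Lo U (fun n => hc (v n)) fun n => -Real.log (w (eval (v n) R)) := by
  classical
  intro η hη
  by_contra hcon
  have v0 := fun n => rep_ne (hv n)
  obtain ⟨B, h, y, s, X, Y, aK, a', hC⟩ :=
    exists_cos A hH x fun n => (ht_eq (hv n)).trans_le (ht_le_hc (v0 n))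
  obtain ⟨g, hB, hg⟩ := hC.exists_dim hv (fib_const T hH hT)
  have : CharZero (Sm k hH) := charZero_of_injective_algebraMap (algebraMap k _).injective
  obtain ⟨f, hf, hfR⟩ := exists_hmg (R := R) fun μ hμ => le_totalDegree hμ
  have e1 : ∀ n, eval (pt (v n)) f = eval (v n) R := fun n => by
    rw [← hfR, ← aeval_eq_eval, ← aeval_eq_eval, aeval_dh]
  have hf' := hf.map (algebraMap k (Sm k hH))
  obtain ⟨u, ρ, c, hnn, hu⟩ := exists_par (pt_ne (gv U v)) ((td_pt _).trans hg)
    (Nat.le_add_left 1 _) {0} (𝒢 := {map (algebraMap k (Sm k hH)) f})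
    (fun f hf => Finset.mem_singleton.1 hf ▸ hf') fun F _ _ z z0 h1 h2 i hi => by
      obtain ⟨h3, h4⟩ := td_rat_le_of_spec (x := pt (gv U v)) z0 fun f n hf e =>
        h1 f ((mem_hid hf).2 e)
      rw [Finset.mem_singleton.1 hi, ← hg, ← td_pt]
      refine Order.add_one_le_of_lt (h3.lt_of_not_ge fun h5 => ?_)
      have h6 := h4 h5 _ _ hf' (h2 _ (Finset.mem_singleton_self _))
      rw [aeval_map_algebraMap, pt_gv] at h6
      exact germ_ne_zero.2 h0 (by simpa only [e1] using (aeval_germ _ _).symm.trans h6)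
  choose un hun using fun i => exists_repr (U := U) (map (algebraMap _ (Up U k)) (u i))
  obtain ⟨-, γ, hγ⟩ := hu 0 (Finset.mem_singleton_self _)
  rw [Finset.sum_singleton] at hγ
  generalize γ (map (algebraMap k (Sm k hH)) f) = q at hγ
  have e2 : ∀ᶠ n in U, un 0 n = C (q : k) * f := (hun 0).unique (by
    have h3 := Repr.const (U := U) (C (q : k) * f)
    rw [RingHom.map_mul, map_C, map_ratCast] at h3
    rwa [hγ, RingHom.map_mul, map_C, map_ratCast, MvPolynomial.map_map,
      ← IsScalarTower.algebraMap_eq])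
  obtain ⟨μ, hμ, h1, h2⟩ := exists_point hw (Finset.notMem_erase w T)
  refine hC.core hv hB hg (Nat.le_add_left 1 _) hnn (un := fun n i => un i n) hun (Fin 3) {0}
    (by simp) (half_pos hη) fun S hS =>
      ⟨U, T.erase w, fun _ => μ, hS, hH, ?_, .inr fun _ _ => rfl, ?_⟩
  · by_cases hwT : w ∈ T
    · simp only [cnt, osum_erase T hwT (finS_abs (finS_ell _))]
      exact hT.add (lo_mul_nonneg hH hl (mlt_nonneg w))
    · rwa [Finset.erase_eq_of_notMem hwT]
  filter_upwards [e2, h0, Ultrafilter.eventually_not.2 hcon, Lo.const hH (w q) _ (half_pos hη),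
    eventually_all.2 fun i => repr_hom (hnn.hu i) (hun i)] with n g1 g2 g3 g4 g6
  refine ⟨hμ, badM_of g6 fun w' l hl' => ?_⟩
  rcases eq_or_ne w' w with rfl | hne
  swap
  · exact .inl (h2 _ hne)
  have g8 := mul_le_mul_of_nonneg_left h1 (mul_nonneg (half_pos hη).le (hc_nonneg (v n)))
  obtain rfl : l = 0 := Finset.mem_singleton.1 hl'
  rw [g1, map_mul, eval_C, e1, map_mul]
  refine .inr (le_trans ?_ (le_mul_of_one_le_right (Real.exp_pos _).le
    (one_le_pow₀ ((le_max_left _ _).trans_eq (nm_pt _ _).symm))))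
  rw [← Real.exp_log (w'.pos g2)]
  refine (mul_le_mul_of_nonneg_right ((le_add_of_nonneg_right zero_le_one).trans
    (Real.add_one_le_exp (w' q))) (Real.exp_pos _).le).trans ?_
  rw [← Real.exp_add, Real.exp_le_exp]
  linarith [not_le.1 g3]

theorem seq_prox {R : MvPolynomial ι k} (hR : Rng a b R)
    (hH : Tendsto (fun n => hc (v n)) U atTop) (h0 : ∀ᶠ n in U, eval (v n) R ≠ 0)
    (ha : ∀ᶠ n in U, eval (v n) (homogeneousComponent a R) ≠ 0)
    (hb : ∀ᶠ n in U, eval (v n) (homogeneousComponent b R) ≠ 0) {T : Finset (AbsoluteValue k ℝ)}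
    (hT : Lo U (fun n => hc (v n)) fun n => cnt T (v n)) {w : AbsoluteValue k ℝ} (hw : Adm w) :
    Lo U (fun n => hc (v n)) fun n => mv a b (fun _ : Unit => R) (v n) w := by
  by_cases hl : Lo U (fun n => hc (v n)) fun n => |ell w (v n)|
  · refine ((lo_mul_nonneg hH hl (c := a + b) (by positivity)).add
      (seq_near A hv hH h0 hT hw hl)).mono (.of_forall fun n => ?_)
    have h := mv_le_abs (a := a) (b := b) (fun _ : Unit => R) (v n) w
    rw [show (nm w fun _ : Unit => eval (v n) R) = w (eval (v n) R) from ciSup_const] at h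
    linarith
  · exact side A (fun _ => hR) hv hH (la := ()) (lb := ()) ha hb hw (bo_of_not_lo hl)

end Pool.Agent.Lib.MP_651af7_nt.Cn
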